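import Mathlib

/-!
# Row BD-AD : the four functions theorem on the integers
-/

namespace BD

open scoped FinsetFamily

/-- Four functions theorem for functions on `ℤ` of finite support, with shifts.
Proof: restrict to a large interval; `four_functions_theorem` (Mathlib) for the linear order `ℤ`
(`⊔ = max`, `⊓ = min`), applied to `f`, `q ↦ g (q + s1)`, `q ↦ k (q + s3)` (min),
`q ↦ h (q + s2)` (max); sums over all of `ℤ` are translation invariant. -/
theorem AD_finsum (f g h k : ℤ → ℚ) (s1 s2 s3 : ℤ)
    (hf0 : ∀ p, 0 ≤ f p) (hg0 : ∀ p, 0 ≤ g p) (hh0 : ∀ p, 0 ≤ h p) (hk0 : ∀ p, 0 ≤ k p)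
    (hf : (Function.support f).Finite) (hg : (Function.support g).Finite)
    (hh : (Function.support h).Finite) (hk : (Function.support k).Finite)
    (H : ∀ p q : ℤ, f p * g (q + s1) ≤ h (max p q + s2) * k (min p q + s3)) :
    (∑ᶠ p, f p) * (∑ᶠ p, g p) ≤ (∑ᶠ p, h p) * (∑ᶠ p, k p) := by
  classical
  -- translation invariance of finsum
  have tr : ∀ (u : ℤ → ℚ) (s : ℤ), (∑ᶠ p, u p) = ∑ᶠ p, u (p + s) := by
    intro u s
    exact (finsum_comp_equiv (Equiv.addRight s) (f := u)).symm
  have fin_tr : ∀ (u : ℤ → ℚ) (s : ℤ), (Function.support u).Finite →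
      (Function.support (fun p => u (p + s))).Finite := by
    intro u s hu
    have : Function.support (fun p => u (p + s)) = (fun p : ℤ => p + s) ⁻¹' Function.support u := by
      ext p; simp
    rw [this]
    exact hu.preimage (add_left_injective s).injOn
  rw [tr g s1, tr h s2, tr k s3]
  have hg' := fin_tr g s1 hg
  have hh' := fin_tr h s2 hh
  have hk' := fin_tr k s3 hk
  have key := four_functions_theorem (α := ℤ) (β := ℚ) f (fun q => g (q + s1))
    (fun q => k (q + s3)) (fun q => h (q + s2)) (fun p => hf0 p) (fun p => hg0 _)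
    (fun p => hk0 _) (fun p => hh0 _)
    (fun a b => by
      have := H a b
      rw [mul_comm (h _)] at this
      exact this) hf.toFinset hg'.toFinset
  have le_of : ∀ (u : ℤ → ℚ) (hu : (Function.support u).Finite) (hu0 : ∀ p, 0 ≤ u p)
      (s : Finset ℤ), ∑ p ∈ s, u p ≤ ∑ᶠ p, u p := by
    intro u hu hu0 s
    have h1 : ∑ᶠ p, u p = ∑ p ∈ s ∪ hu.toFinset, u p := by
      apply finsum_eq_sum_of_support_subset
      intro p hp
      simp only [Finset.coe_union, Set.mem_union, Finset.mem_coe, Set.Finite.mem_toFinset]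
      exact Or.inr hp
    rw [h1]
    exact Finset.sum_le_sum_of_subset_of_nonneg Finset.subset_union_left (fun i _ _ => hu0 i)
  have e1 : ∑ᶠ p, f p = ∑ p ∈ hf.toFinset, f p := by
    apply finsum_eq_sum_of_support_subset
    intro p hp
    simpa using hp
  have e2 : ∑ᶠ p, g (p + s1) = ∑ p ∈ hg'.toFinset, g (p + s1) := by
    apply finsum_eq_sum_of_support_subset
    intro p hp
    simpa using hp
  rw [e1, e2]
  refine key.trans ?_
  rw [mul_comm]
  apply mul_le_mul (le_of _ hh' (fun p => hh0 _) _) (le_of _ hk' (fun p => hk0 _) _)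
  · exact Finset.sum_nonneg (fun i _ => hk0 _)
  · exact le_trans (Finset.sum_nonneg (s := hf.toFinset ⊻ hg'.toFinset) (fun i _ => hh0 _))
      (le_of _ hh' (fun p => hh0 _) _)

end BD
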