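import Pool.Agent.MP_8b309d_co.TInt

/-!
# Row BD-AH : the arrays `Ah n e o k = Σ_p T n e o k p`
-/

namespace BD.T

/-- the sum of all terms `T n e o k p` over `p` -/
noncomputable def Ah (n e o k : ℤ) : ℚ := ∑ᶠ p : ℤ, T n e o k p

/-- the support of the array -/
def Supp (n e o k : ℤ) : Prop := 0 ≤ e ∧ 1 ≤ o ∧ 0 ≤ k ∧ o + 2 * k ≤ n ∧ e + o + k ≤ n

theorem T_support_finite (n e o k : ℤ) : (Function.support (fun p => T n e o k p)).Finite := by
  apply (Set.finite_Icc (0 : ℤ) e).subset
  intro p hp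
  have h := T_ne (Function.mem_support.mp hp)
  exact ⟨h.1, h.2.1⟩

theorem Ah_nonneg (n e o k : ℤ) : 0 ≤ Ah n e o k := by
  unfold Ah
  exact finsum_nonneg (fun p => T_nonneg n e o k p)

/-- `p = min e k` gives a positive term -/
theorem Ah_pos {n e o k : ℤ} (h : Supp n e o k) : 0 < Ah n e o k := by
  obtain ⟨h1, h2, h3, h4, h5⟩ := h
  unfold Ah
  refine finsum_pos (fun p => T_nonneg n e o k p) ⟨min e k, ?_⟩ (T_support_finite n e o k)
  exact T_pos (by omega) (by omega) (by omega) (by omega) (by omega)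

/-- if `T n e o k p ≠ 0` for some `p` then `Supp n e o k` -/
theorem Ah_supp {n e o k : ℤ} (h : Ah n e o k ≠ 0) : Supp n e o k := by
  have hex : ∃ p, T n e o k p ≠ 0 := by
    by_contra hc
    push Not at hc
    apply h
    unfold Ah
    rw [finsum_congr hc, finsum_zero]
  obtain ⟨p, hp⟩ := hex
  have hT := T_ne hp
  exact ⟨by omega, by omega, by omega, by omega, by omega⟩

end BD.T
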