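import Pool.Agent.MP_8b309d_co.AhBase

/-!
# Row BD-EK : the relation `e κ`
-/

namespace BD.T

/-- `ρ(k,p) = (n+o)(e+o+k-p)/(e+2o+2k-p) - (e+o)` -/
def rho (n e o k p : ℤ) : ℚ :=
  ((n + o : ℤ) : ℚ) * ((e + o + k - p : ℤ) : ℚ) / ((e + 2 * o + 2 * k - p : ℤ) : ℚ)
    - ((e + o : ℤ) : ℚ)

theorem ek_t_A (w q p a o : ℕ) :
    t (w + 1) q p a o * (((a + q + p + o + 1 : ℕ) : ℚ) * ((w + 1 : ℕ) : ℚ)
      / ((a + 2 * q + 2 * p + 2 * o + 1 + 1 : ℕ) : ℚ)) = ((a + 1 : ℕ) : ℚ) * t w q p (a + 1) o := by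
  unfold t
  have e1 : a + 1 + q + p + o = a + q + p + o + 1 := by ring
  have e2 : w + (a + 1) + 2 * q + 2 * p + 2 * o + 1 = w + 1 + a + 2 * q + 2 * p + 2 * o + 1 := by
    ring
  have e3 : a + 1 + 2 * q + 2 * p + 2 * o + 1 = a + 2 * q + 2 * p + 2 * o + 1 + 1 := by ring
  rw [e1, e2, e3, F_succ (a + q + p + o), ← I_succ (a + 2 * q + 2 * p + 2 * o + 1), ← I_succ w,
    ← I_succ a]
  have h1 : ((a + 2 * q + 2 * p + 2 * o + 1 + 1 : ℕ) : ℚ) ≠ 0 :=
    Nat.cast_ne_zero.2 (Nat.succ_ne_zero _)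
  field_simp

theorem ek_t_B (w q p a o : ℕ) :
    t w (q + 1) p a o * ((q + 1 : ℕ) : ℚ) = ((p + 1 : ℕ) : ℚ) * t w q (p + 1) a o := by
  unfold t
  have e1 : a + (q + 1) + p + o = a + q + (p + 1) + o := by ring
  have e2 : w + a + 2 * (q + 1) + 2 * p + 2 * o + 1 = w + a + 2 * q + 2 * (p + 1) + 2 * o + 1 := by
    ring
  have e3 : a + 2 * (q + 1) + 2 * p + 2 * o + 1 = a + 2 * q + 2 * (p + 1) + 2 * o + 1 := by ring
  rw [e1, e2, e3, ← I_succ q, ← I_succ p]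
  ring

theorem ek_A (n e o k p : ℤ) (ho : 1 ≤ o) :
    T n e o k p * (((e + o + k - p : ℤ) : ℚ) * ((n - e - o - 2 * k + p : ℤ) : ℚ)
          / ((e + 2 * o + 2 * k - p : ℤ) : ℚ)) = ((e + 1 - p : ℤ) : ℚ) * T n (e + 1) o k p := by
  by_cases h : 0 ≤ p ∧ p ≤ e ∧ p ≤ k ∧ 1 ≤ o ∧ 1 ≤ n - e - o - 2 * k + p
  · obtain ⟨h1, h2, h3, h4, h5⟩ := h
    obtain ⟨w, hw⟩ := Int.eq_ofNat_of_zero_le (show 0 ≤ n - e - o - 2 * k + p - 1 by omega)
    obtain ⟨q, hq⟩ := Int.eq_ofNat_of_zero_le (show 0 ≤ k - p by omega)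
    obtain ⟨pp, hp⟩ := Int.eq_ofNat_of_zero_le h1
    obtain ⟨a, ha⟩ := Int.eq_ofNat_of_zero_le (show 0 ≤ e - p by omega)
    obtain ⟨oo, hoo⟩ := Int.eq_ofNat_of_zero_le (show 0 ≤ o - 1 by omega)
    have t1 : T n e o k p = t (w + 1) q pp a oo :=
      T_eq (by push_cast; omega) hq hp ha (by omega)
    have t2 : T n (e + 1) o k p = t w q pp (a + 1) oo :=
      T_eq (by omega) hq hp (by push_cast; omega) (by omega)
    rw [t1, t2]
    have c1 : ((e + o + k - p : ℤ) : ℚ) = ((a + q + pp + oo + 1 : ℕ) : ℚ) := by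
      have : (e + o + k - p : ℤ) = ((a + q + pp + oo + 1 : ℕ) : ℤ) := by push_cast; omega
      rw [this]; rfl
    have c2 : ((n - e - o - 2 * k + p : ℤ) : ℚ) = ((w + 1 : ℕ) : ℚ) := by
      have : (n - e - o - 2 * k + p : ℤ) = ((w + 1 : ℕ) : ℤ) := by push_cast; omega
      rw [this]; rfl
    have c3 : ((e + 2 * o + 2 * k - p : ℤ) : ℚ)
        = ((a + 2 * q + 2 * pp + 2 * oo + 1 + 1 : ℕ) : ℚ) := by
      have : (e + 2 * o + 2 * k - p : ℤ) = ((a + 2 * q + 2 * pp + 2 * oo + 1 + 1 : ℕ) : ℤ) := by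
        push_cast; omega
      rw [this]; rfl
    have c4 : ((e + 1 - p : ℤ) : ℚ) = ((a + 1 : ℕ) : ℚ) := by
      have : (e + 1 - p : ℤ) = ((a + 1 : ℕ) : ℤ) := by push_cast; omega
      rw [this]; rfl
    rw [c1, c2, c3, c4]
    exact ek_t_A w q pp a oo
  · have hL : T n e o k p * (((e + o + k - p : ℤ) : ℚ) * ((n - e - o - 2 * k + p : ℤ) : ℚ)
          / ((e + 2 * o + 2 * k - p : ℤ) : ℚ)) = 0 := by
      by_cases h0 : T n e o k p = 0
      · rw [h0, zero_mul]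
      · have h1 := T_ne h0
        have h2 : n - e - o - 2 * k + p = 0 := by omega
        rw [h2]; simp
    rw [hL]
    by_cases h0 : T n (e + 1) o k p = 0
    · rw [h0, mul_zero]
    · have h1 := T_ne h0
      have h2 : e + 1 - p = 0 := by omega
      rw [h2]; simp

theorem ek_B (n e o k p : ℤ) (ho : 1 ≤ o) :
    T n e o k (p - 1) * ((k - p + 1 : ℤ) : ℚ) = ((p : ℤ) : ℚ) * T n (e + 1) o k p := by
  by_cases h : 1 ≤ p ∧ p ≤ e + 1 ∧ p ≤ k ∧ 1 ≤ o ∧ 1 ≤ n - e - o - 2 * k + p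
  · obtain ⟨h1, h2, h3, h4, h5⟩ := h
    obtain ⟨w, hw⟩ := Int.eq_ofNat_of_zero_le (show 0 ≤ n - e - o - 2 * k + p - 1 by omega)
    obtain ⟨q, hq⟩ := Int.eq_ofNat_of_zero_le (show 0 ≤ k - p by omega)
    obtain ⟨pp, hp⟩ := Int.eq_ofNat_of_zero_le (show 0 ≤ p - 1 by omega)
    obtain ⟨a, ha⟩ := Int.eq_ofNat_of_zero_le (show 0 ≤ e + 1 - p by omega)
    obtain ⟨oo, hoo⟩ := Int.eq_ofNat_of_zero_le (show 0 ≤ o - 1 by omega)
    have t1 : T n e o k (p - 1) = t w (q + 1) pp a oo :=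
      T_eq (by omega) (by push_cast; omega) hp (by omega) (by omega)
    have t2 : T n (e + 1) o k p = t w q (pp + 1) a oo :=
      T_eq (by omega) hq (by push_cast; omega) ha (by omega)
    rw [t1, t2]
    have c1 : ((k - p + 1 : ℤ) : ℚ) = ((q + 1 : ℕ) : ℚ) := by
      have : (k - p + 1 : ℤ) = ((q + 1 : ℕ) : ℤ) := by push_cast; omega
      rw [this]; rfl
    have c2 : ((p : ℤ) : ℚ) = ((pp + 1 : ℕ) : ℚ) := by
      have : (p : ℤ) = ((pp + 1 : ℕ) : ℤ) := by push_cast; omega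
      rw [this]; rfl
    rw [c1, c2]
    exact ek_t_B w q pp a oo
  · have hL : T n e o k (p - 1) * ((k - p + 1 : ℤ) : ℚ) = 0 := by
      by_cases h0 : T n e o k (p - 1) = 0
      · rw [h0, zero_mul]
      · have h1 := T_ne h0
        have h2 : k - p + 1 = 0 := by omega
        rw [h2]; simp
    rw [hL]
    by_cases h0 : T n (e + 1) o k p = 0
    · rw [h0, mul_zero]
    · have h1 := T_ne h0
      have h2 : p = 0 := by omega
      rw [h2]; simp

/-- pointwise two-term relation (for `o ≥ 1`, `e ≥ 0`):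
`(e+1) T(e+1,o,k;p) = T(e,o,k;p) (e+o+k-p) w/(e+2o+2k-p) + T(e,o,k;p-1) (k-p+1)`,
`w = n-e-o-2k+p`.
Proof: from `(e+1)! /(p! (e+1-p)!) ` Pascal; compare factorials (`F_succ`, `I_succ`), with the
boundary cases `p = 0`, `p = e+1`, `w = 0` etc. separately. -/
theorem T_two_term (n e o k p : ℤ) (he : 0 ≤ e) (ho : 1 ≤ o) :
    ((e + 1 : ℤ) : ℚ) * T n (e + 1) o k p
      = T n e o k p * (((e + o + k - p : ℤ) : ℚ) * ((n - e - o - 2 * k + p : ℤ) : ℚ)
          / ((e + 2 * o + 2 * k - p : ℤ) : ℚ))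
        + T n e o k (p - 1) * ((k - p + 1 : ℤ) : ℚ) := by
  have _ := he
  rw [ek_A n e o k p ho, ek_B n e o k p ho]
  push_cast
  ring

/-- summing over `p`: `(e+1) Ah(e+1,o,k) = Σ_p T(e,o,k;p) ρ(k,p)`, because
`(e+o+k-p) w/(e+2o+2k-p) + (k-p) = ρ(k,p)` (`w = (n+o) - (e+2o+2k-p)`). -/
theorem Ah_rho (n e o k : ℤ) (he : 0 ≤ e) (ho : 1 ≤ o) :
    ((e + 1 : ℤ) : ℚ) * Ah n (e + 1) o k = ∑ᶠ p : ℤ, T n e o k p * rho n e o k p := by
  unfold Ah
  rw [mul_finsum]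
  have s1 : ∀ g : ℤ → ℚ, (Function.support (fun p => T n e o k p * g p)).Finite := by
    intro g
    refine (T_support_finite n e o k).subset ?_
    intro p hp hc
    exact hp (by simp only at hc ⊢; rw [hc, zero_mul])
  have h1 : ∀ p : ℤ, ((e + 1 : ℤ) : ℚ) * T n (e + 1) o k p
      = T n e o k p * (((e + o + k - p : ℤ) : ℚ) * ((n - e - o - 2 * k + p : ℤ) : ℚ)
          / ((e + 2 * o + 2 * k - p : ℤ) : ℚ))
        + (fun r : ℤ => T n e o k r * ((k - r : ℤ) : ℚ)) (p - 1) := by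
    intro p
    rw [T_two_term n e o k p he ho]
    simp only
    congr 3
    ring
  rw [finsum_congr h1]
  have s2 : (Function.support (fun p : ℤ => (fun r : ℤ => T n e o k r * ((k - r : ℤ) : ℚ)) (p - 1))).Finite := by
    have h2 : Function.support (fun p : ℤ => (fun r : ℤ => T n e o k r * ((k - r : ℤ) : ℚ)) (p - 1))
        = (fun p : ℤ => p - 1) ⁻¹' (Function.support (fun r : ℤ => T n e o k r * ((k - r : ℤ) : ℚ))) := by
      rfl
    rw [h2]
    exact (s1 _).preimage (fun a _ b _ hab => by simpa using hab)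
  rw [finsum_add_distrib (s1 _) s2]
  have h3 : ∑ᶠ p : ℤ, (fun r : ℤ => T n e o k r * ((k - r : ℤ) : ℚ)) (p - 1)
      = ∑ᶠ r : ℤ, T n e o k r * ((k - r : ℤ) : ℚ) :=
    finsum_comp_equiv (Equiv.subRight (1:ℤ)) (f := fun r : ℤ => T n e o k r * ((k - r : ℤ) : ℚ))
  rw [h3, ← finsum_add_distrib (s1 _) (s1 _)]
  apply finsum_congr
  intro p
  by_cases h0 : T n e o k p = 0
  · rw [h0]; ring
  · have h4 := T_ne h0
    have h5 : ((e + 2 * o + 2 * k - p : ℤ) : ℚ) ≠ 0 := by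
      have : (e + 2 * o + 2 * k - p : ℤ) ≠ 0 := by omega
      exact_mod_cast this
    rw [← mul_add]
    congr 1
    unfold rho
    have h6 : ((n - e - o - 2 * k + p : ℤ) : ℚ)
        = ((n + o : ℤ) : ℚ) - ((e + 2 * o + 2 * k - p : ℤ) : ℚ) := by push_cast; ring
    rw [h6, mul_sub, sub_div, mul_div_assoc, mul_div_assoc, div_self h5, mul_one]
    have h7 : ((k - p : ℤ) : ℚ) = ((e + o + k - p : ℤ) : ℚ) - ((e + o : ℤ) : ℚ) := by
      push_cast; ring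
    rw [h7]
    ring

theorem ek_t_C (w q p a o : ℕ) :
    t w (q + 1) p a o * (((q + 1 : ℕ) : ℚ) * ((a + 2 * q + 2 * p + 2 * o + 1 + 1 : ℕ) : ℚ)
        * ((a + 2 * q + 2 * p + 2 * o + 1 + 1 + 1 : ℕ) : ℚ))
      = t (w + 2) q p a o * (((a + q + p + o + 1 : ℕ) : ℚ) * ((w + 2 : ℕ) : ℚ)
        * ((w + 1 : ℕ) : ℚ)) := by
  unfold t
  have e1 : a + (q + 1) + p + o = a + q + p + o + 1 := by ring
  have e2 : w + a + 2 * (q + 1) + 2 * p + 2 * o + 1 = w + 2 + a + 2 * q + 2 * p + 2 * o + 1 := by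
    ring
  have e3 : a + 2 * (q + 1) + 2 * p + 2 * o + 1 = a + 2 * q + 2 * p + 2 * o + 1 + 1 + 1 := by ring
  rw [e1, e2, e3, F_succ (a + q + p + o), ← I_succ (a + 2 * q + 2 * p + 2 * o + 1),
    ← I_succ (a + 2 * q + 2 * p + 2 * o + 1 + 1), ← I_succ q, ← I_succ w, ← I_succ (w + 1)]
  have e4 : w + 2 = w + 1 + 1 := by ring
  rw [e4]
  ring

theorem ek_ratio {n e o k p : ℤ} (h1 : 0 ≤ p) (h2 : p ≤ e) (h3 : p ≤ k) (h4 : 1 ≤ o)
    (h5 : 2 ≤ n - e - o - 2 * k + p) :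
    T n e o (k + 1) p * ((((k + 1 - p) * (e + 2 * o + 2 * k - p) * (e + 2 * o + 2 * k + 1 - p) : ℤ)) : ℚ)
      = T n e o k p * ((((e + o + k - p) * (n - e - o - 2 * k + p)
          * (n - e - o - 2 * k + p - 1) : ℤ)) : ℚ) := by
  obtain ⟨w, hw⟩ := Int.eq_ofNat_of_zero_le (show 0 ≤ n - e - o - 2 * k + p - 2 by omega)
  obtain ⟨q, hq⟩ := Int.eq_ofNat_of_zero_le (show 0 ≤ k - p by omega)
  obtain ⟨pp, hp⟩ := Int.eq_ofNat_of_zero_le h1
  obtain ⟨a, ha⟩ := Int.eq_ofNat_of_zero_le (show 0 ≤ e - p by omega)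
  obtain ⟨oo, hoo⟩ := Int.eq_ofNat_of_zero_le (show 0 ≤ o - 1 by omega)
  have t1 : T n e o (k + 1) p = t w (q + 1) pp a oo :=
    T_eq (by omega) (by push_cast; omega) hp ha (by omega)
  have t2 : T n e o k p = t (w + 2) q pp a oo :=
    T_eq (by push_cast; omega) hq hp ha (by omega)
  rw [t1, t2]
  have c1 : (k + 1 - p : ℤ) = ((q + 1 : ℕ) : ℤ) := by push_cast; omega
  have c2 : (e + 2 * o + 2 * k - p : ℤ) = ((a + 2 * q + 2 * pp + 2 * oo + 1 + 1 : ℕ) : ℤ) := by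
    push_cast; omega
  have c3 : (e + 2 * o + 2 * k + 1 - p : ℤ)
      = ((a + 2 * q + 2 * pp + 2 * oo + 1 + 1 + 1 : ℕ) : ℤ) := by push_cast; omega
  have c4 : (e + o + k - p : ℤ) = ((a + q + pp + oo + 1 : ℕ) : ℤ) := by push_cast; omega
  have c5 : (n - e - o - 2 * k + p : ℤ) = ((w + 2 : ℕ) : ℤ) := by push_cast; omega
  have c6 : (n - e - o - 2 * k + p - 1 : ℤ) = ((w + 1 : ℕ) : ℤ) := by push_cast; omega
  rw [c6, c5, c4, c3, c2, c1]
  have := ek_t_C w q pp a oo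
  push_cast at this ⊢
  exact this

/-- `T` is totally positive of order two in `(k,p)`: for `p < q`,
`T(k;q) T(k+1;p) ≤ T(k;p) T(k+1;q)`.
Proof: `T(k+1;p)/T(k;p) = (e+o+k-p) w (w-1)/((k+1-p)(β+1)(β+2))`, `β = e+2o-1+2k-p`,
`w = n-e-o-2k+p`, is nondecreasing in `p`. -/
theorem T_TP2 (n e o k p q : ℤ) (hpq : p < q) :
    T n e o k q * T n e o (k + 1) p ≤ T n e o k p * T n e o (k + 1) q := by
  have hR : 0 ≤ T n e o k p * T n e o (k + 1) q := mul_nonneg (T_nonneg _ _ _ _ _)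
    (T_nonneg _ _ _ _ _)
  by_cases h1 : T n e o k q = 0
  · rw [h1, zero_mul]; exact hR
  by_cases h2 : T n e o (k + 1) p = 0
  · rw [h2, mul_zero]; exact hR
  have g1 := T_ne h1
  have g2 := T_ne h2
  obtain ⟨a1, a2, a3, a4, a5⟩ := g1
  obtain ⟨b1, b2, b3, b4, b5⟩ := g2
  have r1 := ek_ratio (n := n) (e := e) (o := o) (k := k) (p := p) b1 b2 (by omega) b4 (by omega)
  have r2 := ek_ratio (n := n) (e := e) (o := o) (k := k) (p := q) a1 a2 a3 a4 (by omega)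
  set Dp : ℤ := (k + 1 - p) * (e + 2 * o + 2 * k - p) * (e + 2 * o + 2 * k + 1 - p) with hDp
  set Dq : ℤ := (k + 1 - q) * (e + 2 * o + 2 * k - q) * (e + 2 * o + 2 * k + 1 - q) with hDq
  set Np : ℤ := (e + o + k - p) * (n - e - o - 2 * k + p) * (n - e - o - 2 * k + p - 1) with hNp
  set Nq : ℤ := (e + o + k - q) * (n - e - o - 2 * k + q) * (n - e - o - 2 * k + q - 1) with hNq
  have hDp0 : 0 < Dp := by
    rw [hDp]
    have x1 : 0 < k + 1 - p := by omega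
    have x2 : 0 < e + 2 * o + 2 * k - p := by omega
    have x3 : 0 < e + 2 * o + 2 * k + 1 - p := by omega
    positivity
  have hDq0 : 0 < Dq := by
    rw [hDq]
    have x1 : 0 < k + 1 - q := by omega
    have x2 : 0 < e + 2 * o + 2 * k - q := by omega
    have x3 : 0 < e + 2 * o + 2 * k + 1 - q := by omega
    positivity
  have key : Np * Dq ≤ Nq * Dp := by
    have y1 : (e + o + k - p) * (k + 1 - q) ≤ (e + o + k - q) * (k + 1 - p) := by
      nlinarith [mul_nonneg (show 0 ≤ e + o - 1 by omega) (show 0 ≤ q - p by omega)]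
    have y2 : (n - e - o - 2 * k + p) * (n - e - o - 2 * k + p - 1)
        ≤ (n - e - o - 2 * k + q) * (n - e - o - 2 * k + q - 1) := by
      apply mul_le_mul <;> omega
    have y3 : (e + 2 * o + 2 * k - q) * (e + 2 * o + 2 * k + 1 - q)
        ≤ (e + 2 * o + 2 * k - p) * (e + 2 * o + 2 * k + 1 - p) := by
      apply mul_le_mul <;> omega
    have z1 : 0 ≤ (e + o + k - p) * (k + 1 - q) := by
      apply mul_nonneg <;> omega
    have z2 : 0 ≤ (n - e - o - 2 * k + p) * (n - e - o - 2 * k + p - 1) := by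
      apply mul_nonneg <;> omega
    have z3 : 0 ≤ (e + 2 * o + 2 * k - q) * (e + 2 * o + 2 * k + 1 - q) := by
      apply mul_nonneg <;> omega
    calc Np * Dq = ((e + o + k - p) * (k + 1 - q))
          * ((n - e - o - 2 * k + p) * (n - e - o - 2 * k + p - 1))
          * ((e + 2 * o + 2 * k - q) * (e + 2 * o + 2 * k + 1 - q)) := by
            rw [hNp, hDq]; ring
      _ ≤ ((e + o + k - q) * (k + 1 - p))
          * ((n - e - o - 2 * k + q) * (n - e - o - 2 * k + q - 1))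
          * ((e + 2 * o + 2 * k - p) * (e + 2 * o + 2 * k + 1 - p)) := by
            apply mul_le_mul (mul_le_mul y1 y2 z2 (z1.trans y1)) y3 z3
            exact mul_nonneg (z1.trans y1) (z2.trans y2)
      _ = Nq * Dp := by rw [hNq, hDp]; ring
  have hDpq : (0:ℚ) < (Dp : ℚ) := by exact_mod_cast hDp0
  have hDqq : (0:ℚ) < (Dq : ℚ) := by exact_mod_cast hDq0
  have keyq : (Np : ℚ) * (Dq : ℚ) ≤ (Nq : ℚ) * (Dp : ℚ) := by exact_mod_cast key
  refine le_of_mul_le_mul_right ?_ (mul_pos hDpq hDqq)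
  calc T n e o k q * T n e o (k + 1) p * ((Dp : ℚ) * (Dq : ℚ))
      = T n e o k q * (T n e o (k + 1) p * (Dp : ℚ)) * (Dq : ℚ) := by ring
    _ = T n e o k q * T n e o k p * ((Np : ℚ) * (Dq : ℚ)) := by rw [r1]; ring
    _ ≤ T n e o k q * T n e o k p * ((Nq : ℚ) * (Dp : ℚ)) :=
        mul_le_mul_of_nonneg_left keyq (mul_nonneg (T_nonneg _ _ _ _ _) (T_nonneg _ _ _ _ _))
    _ = T n e o k p * (T n e o k q * (Nq : ℚ)) * (Dp : ℚ) := by ring
    _ = T n e o k p * (T n e o (k + 1) q * (Dq : ℚ)) * (Dp : ℚ) := by rw [r2]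
    _ = _ := by ring

/-- Chebyshev type inequality for a totally positive pair of sequences -/
theorem ek_cheb (S : Finset ℤ) (T U r : ℤ → ℚ)
    (hTP : ∀ p ∈ S, ∀ q ∈ S, p < q → T q * U p ≤ T p * U q)
    (hr : ∀ p ∈ S, ∀ q ∈ S, p < q → r q ≤ r p) :
    (∑ p ∈ S, T p) * (∑ q ∈ S, U q * r q) ≤ (∑ p ∈ S, T p * r p) * (∑ q ∈ S, U q) := by
  have h1 : (∑ p ∈ S, T p * r p) * (∑ q ∈ S, U q) - (∑ p ∈ S, T p) * (∑ q ∈ S, U q * r q)
      = ∑ p ∈ S, ∑ q ∈ S, T p * U q * (r p - r q) := by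
    rw [Finset.sum_mul_sum, Finset.sum_mul_sum, ← Finset.sum_sub_distrib]
    refine Finset.sum_congr rfl fun p _ => ?_
    rw [← Finset.sum_sub_distrib]
    refine Finset.sum_congr rfl fun q _ => ?_
    ring
  have h2 : ∑ p ∈ S, ∑ q ∈ S, T p * U q * (r p - r q)
      = ∑ p ∈ S, ∑ q ∈ S, T q * U p * (r q - r p) := Finset.sum_comm
  have h3 : 2 * (∑ p ∈ S, ∑ q ∈ S, T p * U q * (r p - r q))
      = ∑ p ∈ S, ∑ q ∈ S, (T p * U q - T q * U p) * (r p - r q) := by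
    rw [two_mul]
    nth_rewrite 2 [h2]
    rw [← Finset.sum_add_distrib]
    refine Finset.sum_congr rfl fun p _ => ?_
    rw [← Finset.sum_add_distrib]
    refine Finset.sum_congr rfl fun q _ => ?_
    ring
  have h4 : 0 ≤ ∑ p ∈ S, ∑ q ∈ S, (T p * U q - T q * U p) * (r p - r q) := by
    refine Finset.sum_nonneg fun p hp => Finset.sum_nonneg fun q hq => ?_
    rcases lt_trichotomy p q with h | h | h
    · exact mul_nonneg (sub_nonneg.2 (hTP p hp q hq h)) (sub_nonneg.2 (hr p hp q hq h))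
    · subst h; simp
    · exact mul_nonneg_of_nonpos_of_nonpos (sub_nonpos.2 (hTP q hq p hp h))
        (sub_nonpos.2 (hr q hq p hp h))
  linarith

theorem ek_rho_le (n e o k q : ℤ) (ho : 1 ≤ o) (hk : 0 ≤ k) (hq : q ≤ e)
    (hn : 0 ≤ n + o) : rho n e o (k + 1) q ≤ rho n e o k q := by
  unfold rho
  have h1 : (0:ℚ) < ((e + 2 * o + 2 * k - q : ℤ) : ℚ) := by
    have : (0:ℤ) < e + 2 * o + 2 * k - q := by omega
    exact_mod_cast this
  have h2 : (0:ℚ) < ((e + 2 * o + 2 * (k + 1) - q : ℤ) : ℚ) := by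
    have : (0:ℤ) < e + 2 * o + 2 * (k + 1) - q := by omega
    exact_mod_cast this
  apply sub_le_sub_right
  rw [mul_div_assoc, mul_div_assoc]
  apply mul_le_mul_of_nonneg_left _ (by exact_mod_cast hn)
  rw [div_le_div_iff₀ h2 h1]
  have h3 : (e + o + (k + 1) - q) * (e + 2 * o + 2 * k - q)
      ≤ (e + o + k - q) * (e + 2 * o + 2 * (k + 1) - q) := by
    nlinarith
  exact_mod_cast h3

theorem ek_rho_anti (n e o k p q : ℤ) (ho : 1 ≤ o) (hk : 0 ≤ k) (hpq : p < q)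
    (hq : q ≤ e) (hn : 0 ≤ n + o) : rho n e o k q ≤ rho n e o k p := by
  unfold rho
  have h1 : (0:ℚ) < ((e + 2 * o + 2 * k - q : ℤ) : ℚ) := by
    have : (0:ℤ) < e + 2 * o + 2 * k - q := by omega
    exact_mod_cast this
  have h2 : (0:ℚ) < ((e + 2 * o + 2 * k - p : ℤ) : ℚ) := by
    have : (0:ℤ) < e + 2 * o + 2 * k - p := by omega
    exact_mod_cast this
  apply sub_le_sub_right
  rw [mul_div_assoc, mul_div_assoc]
  apply mul_le_mul_of_nonneg_left _ (by exact_mod_cast hn)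
  rw [div_le_div_iff₀ h1 h2]
  have h3 : (e + o + k - q) * (e + 2 * o + 2 * k - p)
      ≤ (e + o + k - p) * (e + 2 * o + 2 * k - q) := by
    nlinarith [mul_nonneg (show 0 ≤ o + k by omega) (show 0 ≤ q - p by omega)]
  exact_mod_cast h3

theorem ek_sum (n e o k : ℤ) (g : ℤ → ℚ) :
    ∑ᶠ p : ℤ, T n e o k p * g p = ∑ p ∈ Finset.Icc 0 e, T n e o k p * g p := by
  apply finsum_eq_sum_of_support_subset
  intro p hp
  have h1 : T n e o k p ≠ 0 := by
    intro hc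
    apply hp
    simp only
    rw [hc, zero_mul]
  have h2 := T_ne h1
  rw [Finset.coe_Icc]
  exact ⟨h2.1, h2.2.1⟩

theorem ek_Ah (n e o k : ℤ) : Ah n e o k = ∑ p ∈ Finset.Icc 0 e, T n e o k p := by
  have h := ek_sum n e o k (fun _ => 1)
  simp only [mul_one] at h
  exact h

/-- The relation.
Proof.  Both sides vanish or are nonnegative unless `Supp n e o k` and `Supp n (e+1) o (k+1)`.
Multiply by `e+1` and use `Ah_rho`: to show
`Σ_{p,q} T(k;p) T(k+1;q) (ρ(k,p) - ρ(k+1,q)) ≥ 0`.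
`ρ(k+1,q) ≤ ρ(k,q)` for `q ≤ e` (the derivative in `k` has the sign of `q - e`), and
`Σ_{p,q} T(k;p) T(k+1;q) (ρ(k,p) - ρ(k,q))
  = Σ_{p<q} (T(k;p) T(k+1;q) - T(k;q) T(k+1;p)) (ρ(k,p) - ρ(k,q)) ≥ 0`
by `T_TP2` and because `ρ(k,·)` is nonincreasing (for `p ≤ q ≤ min(e,k+1)`; sign of `-(o+k)`). -/
theorem r_ek (n e o k : ℤ) :
    Ah n e o k * Ah n (e + 1) o (k + 1) ≤ Ah n (e + 1) o k * Ah n e o (k + 1) := by
  by_cases h1 : Ah n e o k = 0
  · rw [h1, zero_mul]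
    exact mul_nonneg (Ah_nonneg _ _ _ _) (Ah_nonneg _ _ _ _)
  have s1 := Ah_supp h1
  obtain ⟨he, ho, hk, hn1, hn2⟩ := s1
  have hn : 0 ≤ n + o := by omega
  have r1 := Ah_rho n e o k he ho
  have r2 := Ah_rho n e o (k + 1) he ho
  rw [ek_sum] at r1 r2
  have hpos : (0:ℚ) < ((e + 1 : ℤ) : ℚ) := by
    have : (0:ℤ) < e + 1 := by omega
    exact_mod_cast this
  refine le_of_mul_le_mul_right ?_ hpos
  calc Ah n e o k * Ah n (e + 1) o (k + 1) * ((e + 1 : ℤ) : ℚ)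
      = Ah n e o k * (((e + 1 : ℤ) : ℚ) * Ah n (e + 1) o (k + 1)) := by ring
    _ = (∑ p ∈ Finset.Icc 0 e, T n e o k p)
        * (∑ p ∈ Finset.Icc 0 e, T n e o (k + 1) p * rho n e o (k + 1) p) := by
          rw [r2, ek_Ah]
    _ ≤ (∑ p ∈ Finset.Icc 0 e, T n e o k p)
        * (∑ p ∈ Finset.Icc 0 e, T n e o (k + 1) p * rho n e o k p) := by
          apply mul_le_mul_of_nonneg_left _ (Finset.sum_nonneg fun p _ => T_nonneg _ _ _ _ _)
          apply Finset.sum_le_sum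
          intro p hp
          exact mul_le_mul_of_nonneg_left
            (ek_rho_le n e o k p ho hk (Finset.mem_Icc.1 hp).2 hn) (T_nonneg _ _ _ _ _)
    _ ≤ (∑ p ∈ Finset.Icc 0 e, T n e o k p * rho n e o k p)
        * (∑ p ∈ Finset.Icc 0 e, T n e o (k + 1) p) :=
          ek_cheb _ _ _ _ (fun p _ q _ hpq => T_TP2 n e o k p q hpq)
            (fun p _ q hq hpq => ek_rho_anti n e o k p q ho hk hpq (Finset.mem_Icc.1 hq).2 hn)
    _ = (((e + 1 : ℤ) : ℚ) * Ah n (e + 1) o k) * Ah n e o (k + 1) := by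
          rw [r1, ek_Ah n e o (k + 1)]
    _ = _ := by ring

end BD.T
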