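import Pool.Agent.MP_8b309d_co.AhRel
import Pool.Agent.MP_8b309d_co.AhEK

/-!
Composition of relations
-/

namespace BD.T

/-- the relation `r(a,b)` -/
def rel (n a1 a2 a3 b1 b2 b3 : ℤ) : Prop := ∀ e o k : ℤ,
  Ah n e o k * Ah n (e + a1 + b1) (o + a2 + b2) (k + a3 + b3)
    ≤ Ah n (e + a1) (o + a2) (k + a3) * Ah n (e + b1) (o + b2) (k + b3)

def same (x y z : ℤ) : Prop := (0 ≤ x ∧ 0 ≤ y ∧ 0 ≤ z) ∨ (x ≤ 0 ∧ y ≤ 0 ∧ z ≤ 0)

theorem comp_num {α β γ δ μ ν : ℚ} (h1 : α * μ ≤ γ * ν) (h2 : ν * β ≤ μ * δ)
    (hμ : 0 < μ) (hν : 0 < ν) (hα : 0 ≤ α) (hβ : 0 ≤ β) (hγ : 0 ≤ γ) :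
    α * β ≤ γ * δ := by
  have h3 : (α * β) * (μ * ν) ≤ (γ * δ) * (μ * ν) := by
    calc (α * β) * (μ * ν) = (α * μ) * (ν * β) := by ring
      _ ≤ (γ * ν) * (μ * δ) := mul_le_mul h1 h2 (by positivity) (by positivity)
      _ = (γ * δ) * (μ * ν) := by ring
  exact le_of_mul_le_mul_right h3 (by positivity)

theorem rel_symm {n a1 a2 a3 b1 b2 b3 : ℤ} (h : rel n a1 a2 a3 b1 b2 b3) :
    rel n b1 b2 b3 a1 a2 a3 := by
  intro e o k
  have := h e o k
  rw [show e + b1 + a1 = e + a1 + b1 by ring, show o + b2 + a2 = o + a2 + b2 by ring,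
    show k + b3 + a3 = k + a3 + b3 by ring, mul_comm (Ah n (e + b1) (o + b2) (k + b3))]
  exact this

theorem rel_comp {n a1 a2 a3 b1 b2 b3 c1 c2 c3 : ℤ} (h1 : rel n a1 a2 a3 b1 b2 b3)
    (h2 : rel n a1 a2 a3 c1 c2 c3) (s1 : same a1 b1 c1) (s2 : same a2 b2 c2)
    (s3 : same a3 b3 c3) (s4 : same (a2 + 2 * a3) (b2 + 2 * b3) (c2 + 2 * c3))
    (s5 : same (a1 + a2 + a3) (b1 + b2 + b3) (c1 + c2 + c3)) :
    rel n a1 a2 a3 (b1 + c1) (b2 + c2) (b3 + c3) := by
  intro e o k
  have hpos : ∀ e o k, 0 ≤ Ah n e o k := fun e o k => Ah_nonneg n e o k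
  by_cases hx : Ah n e o k = 0
  · rw [hx, zero_mul]
    exact mul_nonneg (hpos _ _ _) (hpos _ _ _)
  by_cases hy : Ah n (e + a1 + (b1 + c1)) (o + a2 + (b2 + c2)) (k + a3 + (b3 + c3)) = 0
  · rw [hy, mul_zero]
    exact mul_nonneg (hpos _ _ _) (hpos _ _ _)
  have sx := Ah_supp hx
  have sy := Ah_supp hy
  unfold Supp at sx sy
  unfold same at s1 s2 s3 s4 s5
  have hν : 0 < Ah n (e + b1) (o + b2) (k + b3) := by
    apply Ah_pos
    unfold Supp
    omega
  have hμ : 0 < Ah n (e + a1 + b1) (o + a2 + b2) (k + a3 + b3) := by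
    apply Ah_pos
    unfold Supp
    omega
  have e1 := h1 e o k
  have e2 := h2 (e + b1) (o + b2) (k + b3)
  rw [show e + b1 + a1 + c1 = e + a1 + (b1 + c1) by ring,
    show o + b2 + a2 + c2 = o + a2 + (b2 + c2) by ring,
    show k + b3 + a3 + c3 = k + a3 + (b3 + c3) by ring,
    show e + b1 + a1 = e + a1 + b1 by ring, show o + b2 + a2 = o + a2 + b2 by ring,
    show k + b3 + a3 = k + a3 + b3 by ring,
    show e + b1 + c1 = e + (b1 + c1) by ring, show o + b2 + c2 = o + (b2 + c2) by ring,
    show k + b3 + c3 = k + (b3 + c3) by ring] at e2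
  exact comp_num e1 e2 hμ hν (hpos _ _ _) (hpos _ _ _) (hpos _ _ _)

/-! the basic relations -/

theorem R_ee (n : ℤ) : rel n 1 0 0 1 0 0 := by
  intro e o k
  have h := r_ee n e o k
  rw [show e + 2 = e + 1 + 1 by ring] at h
  simpa using h

theorem R_eo (n : ℤ) : rel n 1 0 0 0 1 0 := by
  intro e o k
  have h := r_eo n e o k
  rw [mul_comm (Ah n e (o + 1) k)] at h
  simpa using h

theorem R_oo (n : ℤ) : rel n 0 1 0 0 1 0 := by
  intro e o k
  have h := r_oo n e o k
  rw [show o + 2 = o + 1 + 1 by ring] at h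
  simpa using h

theorem R_eg (n : ℤ) : rel n 1 0 0 0 2 (-1) := by
  intro e o k
  have h := r_eg n e o k
  simpa [sub_eq_add_neg] using h

theorem R_og (n : ℤ) : rel n 0 1 0 0 2 (-1) := by
  intro e o k
  have h := r_og n e o k
  rw [show o + 3 = o + 1 + 2 by ring] at h
  simpa [sub_eq_add_neg] using h

theorem R_gg (n : ℤ) : rel n 0 2 (-1) 0 2 (-1) := by
  intro e o k
  have h := r_gg n e o k
  rw [show o + 4 = o + 2 + 2 by ring, show k - 2 = k + -1 + -1 by ring,
    show k - 1 = k + -1 by ring] at h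
  simpa using h

theorem R_vg (n : ℤ) : rel n 1 1 (-1) 0 2 (-1) := by
  intro e o k
  have h := r_vg n e o k
  rw [show o + 3 = o + 1 + 2 by ring, show k - 2 = k + -1 + -1 by ring,
    show k - 1 = k + -1 by ring] at h
  simpa using h

theorem R_ve (n : ℤ) : rel n 1 1 (-1) 1 0 0 := by
  intro e o k
  have h := r_ve n e o k
  rw [show e + 2 = e + 1 + 1 by ring, show k - 1 = k + -1 by ring] at h
  simpa using h

theorem R_vh (n : ℤ) : rel n 1 1 (-1) 0 1 (-1) := by
  intro e o k
  have h := r_vh n e o k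
  rw [show o + 2 = o + 1 + 1 by ring, show k - 2 = k + -1 + -1 by ring,
    show k - 1 = k + -1 by ring] at h
  first
    | simpa using h
    | (rw [mul_comm (Ah n e (o + 1) (k + -1))] at h; simpa using h)

theorem R_vC (n : ℤ) : rel n 1 1 (-1) 1 0 (-1) := by
  intro e o k
  have h := r_vC n e o k
  rw [show e + 2 = e + 1 + 1 by ring, show k - 2 = k + -1 + -1 by ring,
    show k - 1 = k + -1 by ring] at h
  first
    | simpa using h
    | (rw [mul_comm (Ah n (e + 1) o (k + -1))] at h; simpa using h)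

theorem R_CC (n : ℤ) : rel n 1 0 (-1) 1 0 (-1) := by
  intro e o k
  have h := r_CC n e o k
  rw [show e + 2 = e + 1 + 1 by ring, show k - 2 = k + -1 + -1 by ring,
    show k - 1 = k + -1 by ring] at h
  simpa using h

theorem R_hh (n : ℤ) : rel n 0 1 (-1) 0 1 (-1) := by
  intro e o k
  have h := r_hh n e o k
  rw [show o + 2 = o + 1 + 1 by ring, show k - 2 = k + -1 + -1 by ring,
    show k - 1 = k + -1 by ring] at h
  simpa using h

theorem R_hC (n : ℤ) : rel n 0 1 (-1) 1 0 (-1) := by
  intro e o k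
  have h := r_hC n e o k
  rw [show k - 2 = k + -1 + -1 by ring, show k - 1 = k + -1 by ring] at h
  first
    | simpa using h
    | (rw [mul_comm (Ah n (e + 1) o (k + -1))] at h; simpa using h)

theorem R_Ku (n : ℤ) : rel n 0 0 (-1) 1 1 (-2) := by
  intro e o k
  have h := r_Ku n e o k
  rw [show k - 3 = k + -1 + -2 by ring, show k - 1 = k + -1 by ring,
    show k - 2 = k + -2 by ring] at h
  first
    | simpa using h
    | (rw [mul_comm (Ah n (e + 1) (o + 1) (k + -2))] at h; simpa using h)

theorem R_kk (n : ℤ) : rel n 0 0 1 0 0 1 := by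
  intro e o k
  have h := r_kk n e o k
  rw [show k + 2 = k + 1 + 1 by ring] at h
  simpa using h

theorem R_ek (n : ℤ) : rel n 1 0 0 0 0 1 := by
  intro e o k
  have h := r_ek n e o k
  simpa using h

theorem R_ok (n : ℤ) : rel n 0 1 0 0 0 1 := by
  intro e o k
  have h := r_ok n e o k
  simpa using h

/-! composites -/

theorem R_ky (n : ℤ) : rel n 0 0 1 1 1 0 := by
  have h := rel_comp (rel_symm (R_ek n)) (rel_symm (R_ok n)) (by unfold same; omega)
    (by unfold same; omega) (by unfold same; omega) (by unfold same; omega)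
    (by unfold same; omega)
  norm_num at h
  exact h

theorem R_ey (n : ℤ) : rel n 1 0 0 1 1 0 := by
  have h := rel_comp (R_ee n) (R_eo n) (by unfold same; omega)
    (by unfold same; omega) (by unfold same; omega) (by unfold same; omega)
    (by unfold same; omega)
  norm_num at h
  exact h

theorem R_oy (n : ℤ) : rel n 0 1 0 1 1 0 := by
  have h := rel_comp (rel_symm (R_eo n)) (R_oo n) (by unfold same; omega)
    (by unfold same; omega) (by unfold same; omega) (by unfold same; omega)
    (by unfold same; omega)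
  norm_num at h
  exact h

theorem R_yy (n : ℤ) : rel n 1 1 0 1 1 0 := by
  have h := rel_comp (rel_symm (R_ey n)) (rel_symm (R_oy n)) (by unfold same; omega)
    (by unfold same; omega) (by unfold same; omega) (by unfold same; omega)
    (by unfold same; omega)
  norm_num at h
  exact h

theorem R_eb (n : ℤ) : rel n 1 0 0 2 2 (-1) := by
  have h0 := rel_comp (R_ee n) (R_ee n) (by unfold same; omega)
    (by unfold same; omega) (by unfold same; omega) (by unfold same; omega)
    (by unfold same; omega)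
  have h := rel_comp h0 (R_eg n) (by unfold same; omega)
    (by unfold same; omega) (by unfold same; omega) (by unfold same; omega)
    (by unfold same; omega)
  norm_num at h
  exact h

theorem R_ob (n : ℤ) : rel n 0 1 0 2 2 (-1) := by
  have h0 := rel_comp (rel_symm (R_eo n)) (rel_symm (R_eo n)) (by unfold same; omega)
    (by unfold same; omega) (by unfold same; omega) (by unfold same; omega)
    (by unfold same; omega)
  have h := rel_comp h0 (R_og n) (by unfold same; omega)
    (by unfold same; omega) (by unfold same; omega) (by unfold same; omega)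
    (by unfold same; omega)
  norm_num at h
  exact h

theorem R_by (n : ℤ) : rel n 2 2 (-1) 1 1 0 := by
  have h := rel_comp (rel_symm (R_eb n)) (rel_symm (R_ob n)) (by unfold same; omega)
    (by unfold same; omega) (by unfold same; omega) (by unfold same; omega)
    (by unfold same; omega)
  norm_num at h
  exact h

theorem R_gb (n : ℤ) : rel n 0 2 (-1) 2 2 (-1) := by
  have h0 := rel_comp (rel_symm (R_eg n)) (rel_symm (R_eg n)) (by unfold same; omega)
    (by unfold same; omega) (by unfold same; omega) (by unfold same; omega)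
    (by unfold same; omega)
  have h := rel_comp h0 (R_gg n) (by unfold same; omega)
    (by unfold same; omega) (by unfold same; omega) (by unfold same; omega)
    (by unfold same; omega)
  norm_num at h
  exact h

theorem R_bb (n : ℤ) : rel n 2 2 (-1) 2 2 (-1) := by
  have h0 := rel_comp (rel_symm (R_eb n)) (rel_symm (R_eb n)) (by unfold same; omega)
    (by unfold same; omega) (by unfold same; omega) (by unfold same; omega)
    (by unfold same; omega)
  have h := rel_comp h0 (rel_symm (R_gb n)) (by unfold same; omega)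
    (by unfold same; omega) (by unfold same; omega) (by unfold same; omega)
    (by unfold same; omega)
  norm_num at h
  exact h

theorem R_vb (n : ℤ) : rel n 1 1 (-1) 2 2 (-1) := by
  have h0 := rel_comp (R_ve n) (R_ve n) (by unfold same; omega)
    (by unfold same; omega) (by unfold same; omega) (by unfold same; omega)
    (by unfold same; omega)
  have h := rel_comp h0 (R_vg n) (by unfold same; omega)
    (by unfold same; omega) (by unfold same; omega) (by unfold same; omega)
    (by unfold same; omega)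
  norm_num at h
  exact h

theorem R_vv (n : ℤ) : rel n 1 1 (-1) 1 1 (-1) := by
  have h := rel_comp (R_ve n) (R_vh n) (by unfold same; omega)
    (by unfold same; omega) (by unfold same; omega) (by unfold same; omega)
    (by unfold same; omega)
  norm_num at h
  exact h

theorem R_vu (n : ℤ) : rel n 1 1 (-1) 1 1 (-2) := by
  have h := rel_comp (R_vC n) (R_vh n) (by unfold same; omega)
    (by unfold same; omega) (by unfold same; omega) (by unfold same; omega)
    (by unfold same; omega)
  norm_num at h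
  exact h

theorem R_Cu (n : ℤ) : rel n 1 0 (-1) 1 1 (-2) := by
  have h := rel_comp (R_CC n) (rel_symm (R_hC n)) (by unfold same; omega)
    (by unfold same; omega) (by unfold same; omega) (by unfold same; omega)
    (by unfold same; omega)
  norm_num at h
  exact h

theorem R_hu (n : ℤ) : rel n 0 1 (-1) 1 1 (-2) := by
  have h := rel_comp (R_hC n) (R_hh n) (by unfold same; omega)
    (by unfold same; omega) (by unfold same; omega) (by unfold same; omega)
    (by unfold same; omega)
  norm_num at h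
  exact h

theorem R_uu (n : ℤ) : rel n 1 1 (-2) 1 1 (-2) := by
  have h := rel_comp (rel_symm (R_Cu n)) (rel_symm (R_hu n)) (by unfold same; omega)
    (by unfold same; omega) (by unfold same; omega) (by unfold same; omega)
    (by unfold same; omega)
  norm_num at h
  exact h

/-! general families -/

theorem rel_cast {n a1 a2 a3 b1 b2 b3 a1' a2' a3' b1' b2' b3' : ℤ}
    (h : rel n a1 a2 a3 b1 b2 b3) (e1 : a1 = a1') (e2 : a2 = a2') (e3 : a3 = a3')
    (e4 : b1 = b1') (e5 : b2 = b2') (e6 : b3 = b3') : rel n a1' a2' a3' b1' b2' b3' := by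
  subst e1; subst e2; subst e3; subst e4; subst e5; subst e6; exact h

/-- `r(v, c + j v)` for `c = b` or `c = u`, from `r(v,c)`, `r(v,v)` -/
theorem R_v_gen (n c1 c2 c3 : ℤ) (h : rel n 1 1 (-1) c1 c2 c3) (p1 : 0 ≤ c1) (p2 : 0 ≤ c2)
    (p3 : c3 ≤ 0) (p4 : c2 + 2 * c3 ≤ 0) (p5 : 0 ≤ c1 + c2 + c3) (j : ℕ) :
    rel n 1 1 (-1) (c1 + j) (c2 + j) (c3 - j) := by
  induction j with
  | zero => exact rel_cast h rfl rfl rfl (by simp) (by simp) (by simp)
  | succ j ih =>
    have := rel_comp ih (R_vv n) (by unfold same; omega) (by unfold same; omega)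
      (by unfold same; omega) (by unfold same; omega) (by unfold same; omega)
    exact rel_cast this rfl rfl rfl (by push_cast; ring) (by push_cast; ring)
      (by push_cast; ring)

/-- `r(c, c + j v)` -/
theorem R_c_gen (n c1 c2 c3 : ℤ) (h : rel n 1 1 (-1) c1 c2 c3) (hc : rel n c1 c2 c3 c1 c2 c3)
    (p1 : 0 ≤ c1) (p2 : 0 ≤ c2)
    (p3 : c3 ≤ 0) (p4 : c2 + 2 * c3 ≤ 0) (p5 : 0 ≤ c1 + c2 + c3) (j : ℕ) :
    rel n c1 c2 c3 (c1 + j) (c2 + j) (c3 - j) := by
  induction j with
  | zero => exact rel_cast hc rfl rfl rfl (by simp) (by simp) (by simp)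
  | succ j ih =>
    have := rel_comp ih (rel_symm h) (by unfold same; omega) (by unfold same; omega)
      (by unfold same; omega) (by unfold same; omega) (by unfold same; omega)
    exact rel_cast this rfl rfl rfl (by push_cast; ring) (by push_cast; ring)
      (by push_cast; ring)

/-- `r(c + i v, c + j v)` -/
theorem R_cc_gen (n c1 c2 c3 : ℤ) (h : rel n 1 1 (-1) c1 c2 c3) (hc : rel n c1 c2 c3 c1 c2 c3)
    (p1 : 0 ≤ c1) (p2 : 0 ≤ c2)
    (p3 : c3 ≤ 0) (p4 : c2 + 2 * c3 ≤ 0) (p5 : 0 ≤ c1 + c2 + c3) (i j : ℕ) :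
    rel n (c1 + i) (c2 + i) (c3 - i) (c1 + j) (c2 + j) (c3 - j) := by
  apply rel_symm
  induction i with
  | zero =>
    exact rel_cast (rel_symm (R_c_gen n c1 c2 c3 h hc p1 p2 p3 p4 p5 j)) rfl rfl rfl
      (by simp) (by simp) (by simp)
  | succ i ih =>
    have := rel_comp ih (rel_symm (R_v_gen n c1 c2 c3 h p1 p2 p3 p4 p5 j))
      (by unfold same; omega) (by unfold same; omega)
      (by unfold same; omega) (by unfold same; omega) (by unfold same; omega)
    exact rel_cast this rfl rfl rfl (by push_cast; ring) (by push_cast; ring)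
      (by push_cast; ring)

end BD.T
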