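import Mathlib

/-!
# Row BD-KL : the discrete Prékopa–Leindler inequality in dimension one (Klartag–Lehec)
-/

namespace BD

/-- elementary inequality: `(U + x)(V + y) ≥ (P + Q)²` if `U V ≥ P²`, `x y ≥ Q²`.
Proof: `U y + x V ≥ 2 P Q` because `(U y + x V)² ≥ 4 U V x y ≥ (2 P Q)²`. -/
theorem add_mul_add_ge (U V x y P Q : ℝ) (hU : 0 ≤ U) (hV : 0 ≤ V) (hx : 0 ≤ x) (hy : 0 ≤ y)
    (hP : 0 ≤ P) (hQ : 0 ≤ Q) (h1 : P ^ 2 ≤ U * V) (h2 : Q ^ 2 ≤ x * y) :
    (P + Q) ^ 2 ≤ (U + x) * (V + y) := by
  have h3 : P ^ 2 * Q ^ 2 ≤ (U * V) * (x * y) :=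
    mul_le_mul h1 h2 (sq_nonneg Q) (mul_nonneg hU hV)
  have h4 : (2 * P * Q) ^ 2 ≤ (U * y + x * V) ^ 2 := by
    nlinarith [sq_nonneg (U * y - x * V)]
  have h5 : 2 * P * Q ≤ U * y + x * V :=
    (sq_le_sq₀ (by positivity) (by positivity)).1 h4
  nlinarith

/-- the last two indices have different parity -/
theorem kl_last (c : ℕ → ℝ) (hc : ∀ i, 0 ≤ c i) (N : ℕ) :
    c N * c (N + 1) ≤ (∑ i ∈ (Finset.range (N + 2)).filter (fun i => Even i), c i)
        * (∑ i ∈ (Finset.range (N + 2)).filter (fun i => ¬ Even i), c i) := by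
  have hE : ∀ i, i < N + 2 → Even i →
      c i ≤ ∑ i ∈ (Finset.range (N + 2)).filter (fun i => Even i), c i := by
    intro i hi he
    exact Finset.single_le_sum (f := c) (fun j _ => hc j)
      (Finset.mem_filter.2 ⟨Finset.mem_range.2 hi, he⟩)
  have hO : ∀ i, i < N + 2 → ¬ Even i →
      c i ≤ ∑ i ∈ (Finset.range (N + 2)).filter (fun i => ¬ Even i), c i := by
    intro i hi he
    exact Finset.single_le_sum (f := c) (fun j _ => hc j)
      (Finset.mem_filter.2 ⟨Finset.mem_range.2 hi, he⟩)
  by_cases hN : Even N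
  · have hN' : ¬ Even (N + 1) := by
      rw [Nat.even_add_one]; exact not_not.2 hN
    exact mul_le_mul (hE N (by omega) hN) (hO (N + 1) (by omega) hN') (hc _)
      (Finset.sum_nonneg fun i _ => hc i)
  · have hN' : Even (N + 1) := Nat.even_add_one.2 hN
    rw [mul_comm]
    exact mul_le_mul (hE (N + 1) (by omega) hN') (hO N (by omega) hN) (hc _)
      (Finset.sum_nonneg fun i _ => hc i)

/-- the statement -/
def KLs (m n : ℕ) : Prop := ∀ (f g c : ℕ → ℝ), (∀ i, 0 ≤ f i) → (∀ i, 0 ≤ g i) →
    (∀ i, 0 ≤ c i) → (∀ i ≤ m, ∀ j ≤ n, f i * g j ≤ c (i + j) * c (i + j + 1)) →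
    (∑ i ∈ Finset.range (m + 1), f i) * (∑ j ∈ Finset.range (n + 1), g j)
      ≤ (∑ i ∈ (Finset.range (m + n + 2)).filter (fun i => Even i), c i)
        * (∑ i ∈ (Finset.range (m + n + 2)).filter (fun i => ¬ Even i), c i)

theorem KLs_symm {m n : ℕ} (h : KLs m n) : KLs n m := by
  intro f g c hf hg hc H
  have := h g f c hg hf hc (fun i hi j hj => by
    rw [mul_comm, add_comm i j]; exact H j hj i hi)
  rw [mul_comm, add_comm n m]
  exact this

/-- enlarging the range -/
theorem kl_mono (c : ℕ → ℝ) (hc : ∀ i, 0 ≤ c i) {N M : ℕ} (h : N ≤ M) :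
    (∑ i ∈ (Finset.range N).filter (fun i => Even i), c i)
        * (∑ i ∈ (Finset.range N).filter (fun i => ¬ Even i), c i) ≤
    (∑ i ∈ (Finset.range M).filter (fun i => Even i), c i)
        * (∑ i ∈ (Finset.range M).filter (fun i => ¬ Even i), c i) := by
  refine mul_le_mul ?_ ?_ (Finset.sum_nonneg fun i _ => hc i) (Finset.sum_nonneg fun i _ => hc i)
  · exact Finset.sum_le_sum_of_subset_of_nonneg
      (Finset.filter_subset_filter _ (Finset.range_mono h)) fun i _ _ => hc i
  · exact Finset.sum_le_sum_of_subset_of_nonneg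
      (Finset.filter_subset_filter _ (Finset.range_mono h)) fun i _ _ => hc i

/-- the parity sums up to `N + 1`, in the form used in the induction -/
theorem kl_parts (c : ℕ → ℝ) (N : ℕ) (v' : ℝ) :
    ∃ A B : ℝ, (0 ≤ A ∨ ∃ i, c i < 0) ∧ (0 ≤ B ∨ ∃ i, c i < 0) ∧
    (∑ i ∈ (Finset.range (N + 1)).filter (fun i => Even i), Function.update c N v' i)
        * (∑ i ∈ (Finset.range (N + 1)).filter (fun i => ¬ Even i), Function.update c N v' i) =
      (A + v') * B ∧
    (∑ i ∈ (Finset.range (N + 2)).filter (fun i => Even i), c i)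
        * (∑ i ∈ (Finset.range (N + 2)).filter (fun i => ¬ Even i), c i) =
      (A + c N) * (B + c (N + 1)) := by
  have hupd : ∀ (p : ℕ → Prop) [DecidablePred p],
      ∑ i ∈ (Finset.range N).filter p, Function.update c N v' i =
        ∑ i ∈ (Finset.range N).filter p, c i := by
    intro p _
    refine Finset.sum_congr rfl fun i hi => ?_
    have : i ≠ N := by
      have := Finset.mem_range.1 (Finset.mem_filter.1 hi).1
      omega
    rw [Function.update_of_ne this]
  have hnn : ∀ (p : ℕ → Prop) [DecidablePred p],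
      0 ≤ ∑ i ∈ (Finset.range N).filter p, c i ∨ ∃ i, c i < 0 := by
    intro p _
    by_cases h : ∃ i, c i < 0
    · exact Or.inr h
    · push Not at h
      exact Or.inl (Finset.sum_nonneg fun i _ => h i)
  have hnot : ∀ (p : ℕ → Prop) [DecidablePred p] (K : ℕ), N ∉ (Finset.range N).filter p := by
    intro p _ K h
    have := Finset.mem_range.1 (Finset.mem_filter.1 h).1
    omega
  have hnot2 : ∀ (p : ℕ → Prop) [DecidablePred p], N + 1 ∉ (Finset.range N).filter p := by
    intro p _ h
    have := Finset.mem_range.1 (Finset.mem_filter.1 h).1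
    omega
  by_cases hN : Even N
  · have hN' : ¬ Even (N + 1) := by
      rw [Nat.even_add_one]; exact not_not.2 hN
    refine ⟨∑ i ∈ (Finset.range N).filter (fun i => Even i), c i,
      ∑ i ∈ (Finset.range N).filter (fun i => ¬ Even i), c i, hnn _, hnn _, ?_, ?_⟩
    · rw [Finset.range_add_one, Finset.filter_insert, if_pos hN, Finset.filter_insert,
        if_neg (not_not.2 hN), Finset.sum_insert (hnot _ 0), Function.update_self, hupd, hupd]
      ring
    · have e2 : Finset.range (N + 2) = insert (N + 1) (insert N (Finset.range N)) := by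
        rw [Finset.range_add_one, Finset.range_add_one]
      rw [e2, Finset.filter_insert, if_neg hN', Finset.filter_insert, if_pos hN,
        Finset.filter_insert, if_pos hN', Finset.filter_insert, if_neg (not_not.2 hN),
        Finset.sum_insert (hnot _ 0), Finset.sum_insert (hnot2 _)]
      ring
  · have hN' : Even (N + 1) := Nat.even_add_one.2 hN
    refine ⟨∑ i ∈ (Finset.range N).filter (fun i => ¬ Even i), c i,
      ∑ i ∈ (Finset.range N).filter (fun i => Even i), c i, hnn _, hnn _, ?_, ?_⟩
    · rw [Finset.range_add_one, Finset.filter_insert, if_neg hN, Finset.filter_insert,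
        if_pos hN, Finset.sum_insert (hnot _ 0), Function.update_self, hupd, hupd]
      ring
    · have e2 : Finset.range (N + 2) = insert (N + 1) (insert N (Finset.range N)) := by
        rw [Finset.range_add_one, Finset.range_add_one]
      rw [e2, Finset.filter_insert, if_pos hN', Finset.filter_insert, if_neg hN,
        Finset.filter_insert, if_neg (not_not.2 hN'), Finset.filter_insert, if_pos hN,
        Finset.sum_insert (hnot _ 0), Finset.sum_insert (hnot2 _)]
      ring

/-- the main step, for `a G ≤ b F` -/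
theorem kl_step (m n : ℕ) (IH : m ≠ 0 → KLs (m - 1) n) (f g c : ℕ → ℝ) (hf : ∀ i, 0 ≤ f i)
    (hg : ∀ i, 0 ≤ g i) (hc : ∀ i, 0 ≤ c i)
    (H : ∀ i ≤ m, ∀ j ≤ n, f i * g j ≤ c (i + j) * c (i + j + 1))
    (ha : 0 < f m) (hb : 0 < g n)
    (hab : f m * (∑ j ∈ Finset.range (n + 1), g j) ≤ g n * (∑ i ∈ Finset.range (m + 1), f i)) :
    (∑ i ∈ Finset.range (m + 1), f i) * (∑ j ∈ Finset.range (n + 1), g j)
      ≤ (∑ i ∈ (Finset.range (m + n + 2)).filter (fun i => Even i), c i)
        * (∑ i ∈ (Finset.range (m + n + 2)).filter (fun i => ¬ Even i), c i) := by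
  by_cases hm : m = 0
  · subst hm
    have hF : ∑ i ∈ Finset.range (0 + 1), f i = f 0 := by simp
    rw [hF] at hab ⊢
    have h1 := H 0 le_rfl n le_rfl
    rw [mul_comm (g n)] at hab
    rw [zero_add] at h1 ⊢
    exact le_trans hab (le_trans h1 (kl_last c hc n))
  · obtain ⟨m', rfl⟩ : ∃ m', m = m' + 1 := ⟨m - 1, by omega⟩
    have IH' := IH (by omega)
    rw [Nat.add_sub_cancel] at IH'
    set F := ∑ i ∈ Finset.range (m' + 1 + 1), f i with hF
    set G := ∑ j ∈ Finset.range (n + 1), g j with hG
    have hFa : F = (∑ i ∈ Finset.range (m' + 1), f i) + f (m' + 1) := by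
      rw [hF, Finset.sum_range_succ]
    have hGb : G = (∑ i ∈ Finset.range n, g i) + g n := by
      rw [hG, Finset.sum_range_succ]
    have hF0 : 0 ≤ ∑ i ∈ Finset.range (m' + 1), f i := Finset.sum_nonneg fun i _ => hf i
    have hG0 : 0 ≤ ∑ i ∈ Finset.range n, g i := Finset.sum_nonneg fun i _ => hg i
    have hFp : 0 < F := by rw [hFa]; linarith
    have hGp : 0 < G := by rw [hGb]; linarith
    set a := f (m' + 1) with hadef
    set b := g n with hbdef
    set v := c (m' + 1 + n) with hv
    set w := c (m' + 1 + n + 1) with hw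
    have hvw : a * b ≤ v * w := H (m' + 1) le_rfl n le_rfl
    set t := a * G / (b * F) with ht
    have ht0 : 0 ≤ t := by positivity
    have ht1 : t ≤ 1 := by
      rw [ht, div_le_one (by positivity)]
      exact hab
    have hbt : b * (1 - t) = b - a * G / F := by
      rw [ht]
      field_simp
    have hgn : ∀ j, 0 ≤ Function.update g n (b * (1 - t)) j := by
      intro j
      by_cases hj : j = n
      · subst hj
        rw [Function.update_self]
        exact mul_nonneg hb.le (by linarith)
      · rw [Function.update_of_ne hj]; exact hg j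
    have hgle : ∀ j, Function.update g n (b * (1 - t)) j ≤ g j := by
      intro j
      by_cases hj : j = n
      · subst hj
        rw [Function.update_self]
        nlinarith
      · rw [Function.update_of_ne hj]
    have hcn : ∀ j, 0 ≤ Function.update c (m' + 1 + n) (v * (1 - t)) j := by
      intro j
      by_cases hj : j = m' + 1 + n
      · subst hj
        rw [Function.update_self]
        exact mul_nonneg (hc _) (by linarith)
      · rw [Function.update_of_ne hj]; exact hc j
    have key := IH' f (Function.update g n (b * (1 - t)))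
      (Function.update c (m' + 1 + n) (v * (1 - t))) hf hgn hcn (by
        intro i hi j hj
        have h0 := H i (by omega) j hj
        have h1 : i + j ≠ m' + 1 + n := by omega
        rw [Function.update_of_ne h1]
        by_cases h2 : i + j + 1 = m' + 1 + n
        · have hj' : j = n := by omega
          subst hj'
          rw [h2, Function.update_self, Function.update_self]
          rw [h2] at h0
          have : 0 ≤ 1 - t := by linarith
          calc f i * (b * (1 - t)) = f i * g j * (1 - t) := by ring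
            _ ≤ c (i + j) * c (m' + 1 + j) * (1 - t) := mul_le_mul_of_nonneg_right h0 this
            _ = c (i + j) * (v * (1 - t)) := by ring
        · rw [Function.update_of_ne h2]
          exact le_trans (mul_le_mul_of_nonneg_left (hgle j) (hf i)) h0)
    have hsum : ∑ j ∈ Finset.range (n + 1), Function.update g n (b * (1 - t)) j =
        G * (F - a) / F := by
      rw [Finset.sum_range_succ, Function.update_self, hbt]
      have : ∑ x ∈ Finset.range n, Function.update g n (b - a * G / F) x =
          ∑ x ∈ Finset.range n, g x := by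
        refine Finset.sum_congr rfl fun x hx => ?_
        have := Finset.mem_range.1 hx
        rw [Function.update_of_ne (by omega)]
      rw [this]
      have h2 : ∑ x ∈ Finset.range n, g x = G - b := by rw [hGb]; ring
      rw [h2]
      field_simp
      ring
    have hN : m' + n + 2 = m' + 1 + n + 1 := by omega
    obtain ⟨A, B, hA, hB, e1, e2⟩ := kl_parts c (m' + 1 + n) (v * (1 - t))
    have hA' : 0 ≤ A := hA.resolve_right (by rintro ⟨i, hi⟩; exact absurd (hc i) (not_le.2 hi))
    have hB' : 0 ≤ B := hB.resolve_right (by rintro ⟨i, hi⟩; exact absurd (hc i) (not_le.2 hi))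
    rw [hN, hsum, e1] at key
    have hFa' : ∑ i ∈ Finset.range (m' + 1), f i = F - a := by rw [hFa]; ring
    rw [hFa'] at key
    rw [e2]
    have hs := Real.sq_sqrt (show 0 ≤ G / F by positivity)
    have main := add_mul_add_ge (A + v * (1 - t)) B (v * t) w ((F - a) * Real.sqrt (G / F))
      (a * Real.sqrt (G / F)) (add_nonneg hA' (mul_nonneg (hc _) (by linarith))) hB'
      (mul_nonneg (hc _) ht0) (hc _)
      (mul_nonneg (by rw [hFa]; linarith) (Real.sqrt_nonneg _))
      (mul_nonneg ha.le (Real.sqrt_nonneg _)) (by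
        rw [mul_pow, hs]
        refine le_trans (le_of_eq ?_) key
        field_simp) (by
        rw [mul_pow, hs]
        calc a ^ 2 * (G / F) = a * b * t := by
              rw [ht]; field_simp
          _ ≤ v * w * t := mul_le_mul_of_nonneg_right hvw ht0
          _ = v * t * w := by ring)
    refine le_trans (le_of_eq ?_) (le_trans main (le_of_eq ?_))
    · have : ((F - a) * Real.sqrt (G / F) + a * Real.sqrt (G / F)) ^ 2 =
          F ^ 2 * Real.sqrt (G / F) ^ 2 := by ring
      rw [this, hs]
      field_simp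
    · ring

/-- all cases -/
theorem kl_all : ∀ N m n : ℕ, m + n = N → KLs m n := by
  intro N
  induction N using Nat.strong_induction_on with
  | _ N ih =>
    intro m n hmn f g c hf hg hc H
    have ihm : m ≠ 0 → KLs (m - 1) n := fun h => ih (m - 1 + n) (by omega) _ _ rfl
    have ihn : n ≠ 0 → KLs m (n - 1) := fun h => ih (m + (n - 1)) (by omega) _ _ rfl
    by_cases ha : f m = 0
    · by_cases hm : m = 0
      · subst hm
        have : ∑ i ∈ Finset.range (0 + 1), f i = 0 := by simp [ha]
        rw [this, zero_mul]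
        exact mul_nonneg (Finset.sum_nonneg fun i _ => hc i) (Finset.sum_nonneg fun i _ => hc i)
      · obtain ⟨m', rfl⟩ : ∃ m', m = m' + 1 := ⟨m - 1, by omega⟩
        have h1 := ihm hm f g c hf hg hc (by
          intro i hi j hj
          exact H i (by omega) j hj)
        rw [Nat.add_sub_cancel] at h1
        rw [Finset.sum_range_succ f, ha, add_zero]
        exact le_trans h1 (kl_mono c hc (by omega))
    · by_cases hb : g n = 0
      · by_cases hn : n = 0
        · subst hn
          have : ∑ i ∈ Finset.range (0 + 1), g i = 0 := by simp [hb]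
          rw [this, mul_zero]
          exact mul_nonneg (Finset.sum_nonneg fun i _ => hc i) (Finset.sum_nonneg fun i _ => hc i)
        · obtain ⟨n', rfl⟩ : ∃ n', n = n' + 1 := ⟨n - 1, by omega⟩
          have h1 := ihn hn f g c hf hg hc (by
            intro i hi j hj
            exact H i hi j (by omega))
          rw [Nat.add_sub_cancel] at h1
          rw [Finset.sum_range_succ g, hb, add_zero]
          exact le_trans h1 (kl_mono c hc (by omega))
      · have ha' : 0 < f m := lt_of_le_of_ne (hf m) (Ne.symm ha)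
        have hb' : 0 < g n := lt_of_le_of_ne (hg n) (Ne.symm hb)
        rcases le_total (f m * (∑ j ∈ Finset.range (n + 1), g j))
          (g n * (∑ i ∈ Finset.range (m + 1), f i)) with h | h
        · exact kl_step m n ihm f g c hf hg hc H ha' hb' h
        · have := kl_step n m (fun h => KLs_symm (ihn h)) g f c hg hf hc (by
            intro i hi j hj
            rw [mul_comm, add_comm i j]; exact H j hj i hi) hb' ha' h
          rw [mul_comm, add_comm m n]
          exact this

/-- Core statement.  `f` supported on `[0,m]`, `g` on `[0,n]`, `f_i g_j ≤ c_{i+j} c_{i+j+1}`.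

Proof by induction on `m + n`.  Let `F = Σ f`, `G = Σ g`, `a = f_m`, `b = g_n`.  If `F = 0` or
`G = 0` the left side is `0`.  If `a = 0`: if `m ≥ 1` apply the induction hypothesis to `(m-1,n)`
(the even/odd sums only get larger), if `m = 0` then `F = 0`.  Same for `b = 0`.  So `a, b > 0`;
by symmetry assume `a / F ≤ b / G` (otherwise exchange the roles of `f` and `g`).
Put `v = c_{m+n}`, `w = c_{m+n+1}`, `v w ≥ a b > 0`.
If `m = 0`: then `F = a`, so `b ≥ G`, i.e. `F G ≤ a b ≤ v w ≤` RHS.
If `m ≥ 1`: let `f' = f` with `f'_m = 0` (supported on `[0,m-1]`, mass `F - a`),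
`g' = g` with `g'_n = b - a G / F ≥ 0` (mass `G (F - a)/F`), `c' = c` with
`c'_{m+n} = v (1 - a G/(b F))`.  The hypothesis holds for `(f', g', c')` on `[0,m-1] × [0,n]`:
only `(i,j) = (m-1,n)` involves the changed values (as `i + j + 1 = m + n`), and
`c_{m+n-1} v (1 - aG/(bF)) ≥ f_{m-1} b (1 - aG/(bF)) = f'_{m-1} g'_n`.
The induction hypothesis gives `U' V' ≥ (F - a) · G (F - a)/F` for the two parity sums of `c'` over
indices `≤ m+n`.  The parity sums `U, V` of `c` over indices `≤ m+n+1` are
`U = U' + x`, `x = v a G/(b F)` (parity of `m+n`) and `V = V' + w`; `x w ≥ a² G / F`.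
By `add_mul_add_ge` with `P = (F - a) √(G/F)`, `Q = a √(G/F)`:
`U V ≥ (G/F) F² = F G`. -/
theorem KL_core (m n : ℕ) (f g c : ℕ → ℝ) (hf : ∀ i, 0 ≤ f i) (hg : ∀ i, 0 ≤ g i)
    (hc : ∀ i, 0 ≤ c i)
    (H : ∀ i ≤ m, ∀ j ≤ n, f i * g j ≤ c (i + j) * c (i + j + 1)) :
    (∑ i ∈ Finset.range (m + 1), f i) * (∑ j ∈ Finset.range (n + 1), g j)
      ≤ (∑ i ∈ (Finset.range (m + n + 2)).filter (fun i => Even i), c i)
        * (∑ i ∈ (Finset.range (m + n + 2)).filter (fun i => ¬ Even i), c i) :=
  kl_all (m + n) m n rfl f g c hf hg hc H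

/-- even and odd part of a sum -/
theorem kl_even (c : ℕ → ℝ) (K : ℕ) :
    (∑ i ∈ (Finset.range (2 * K)).filter (fun i => Even i), c i) = ∑ s ∈ Finset.range K, c (2 * s) ∧
    (∑ i ∈ (Finset.range (2 * K)).filter (fun i => ¬ Even i), c i) =
      ∑ s ∈ Finset.range K, c (2 * s + 1) := by
  induction K with
  | zero => simp
  | succ K ih =>
    have e2 : Finset.range (2 * (K + 1)) =
        insert (2 * K + 1) (insert (2 * K) (Finset.range (2 * K))) := by
      rw [mul_add, mul_one, Finset.range_add_one, Finset.range_add_one]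
    have h1 : Even (2 * K) := even_two_mul K
    have h2 : ¬ Even (2 * K + 1) := by
      rw [Nat.even_add_one]; exact not_not.2 h1
    have hnot : ∀ (p : ℕ → Prop) [DecidablePred p], 2 * K ∉ (Finset.range (2 * K)).filter p := by
      intro p _ h
      have := Finset.mem_range.1 (Finset.mem_filter.1 h).1
      omega
    have hnot2 : ∀ (p : ℕ → Prop) [DecidablePred p],
        2 * K + 1 ∉ (Finset.range (2 * K)).filter p := by
      intro p _ h
      have := Finset.mem_range.1 (Finset.mem_filter.1 h).1
      omega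
    constructor
    · rw [e2, Finset.filter_insert, if_neg h2, Finset.filter_insert, if_pos h1,
        Finset.sum_insert (hnot _), ih.1, Finset.sum_range_succ]
      ring
    · rw [e2, Finset.filter_insert, if_pos h2, Finset.filter_insert, if_neg (not_not.2 h1),
        Finset.sum_insert (hnot2 _), ih.2, Finset.sum_range_succ]
      ring

/-- a finite sum over the integers as a sum over a range -/
theorem kl_finsum (f : ℤ → ℚ) (M : ℕ) (h : ∀ p, f p ≠ 0 → -(M : ℤ) ≤ p ∧ p ≤ M) :
    ∑ᶠ p, f p = ∑ i ∈ Finset.range (2 * M + 1), f ((i : ℤ) - M) := by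
  classical
  rw [finsum_eq_sum_of_support_subset (s := (Finset.range (2 * M + 1)).image
    (fun i : ℕ => (i : ℤ) - M)) f ?_]
  · rw [Finset.sum_image]
    intro i _ j _ hij
    have : (i : ℤ) - M = (j : ℤ) - M := hij
    omega
  · intro p hp
    obtain ⟨h1, h2⟩ := h p hp
    rw [Finset.mem_coe, Finset.mem_image]
    refine ⟨(p + M).toNat, ?_, ?_⟩
    · rw [Finset.mem_range]; omega
    · show (((p + M).toNat : ℕ) : ℤ) - M = p
      omega

/-- Version on the integers.  With supports of `f, g` in `[-M, M]`, apply `KL_core` with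
`f_i = f(i-M)`, `g_j = g(j-M)`, `c_{2s} = k(s-M)`, `c_{2s+1} = h(s-M)`, `m = n = 2M`:
for `i + j = 2s` the product `c_{2s} c_{2s+1} = k(s-M) h(s-M)` and for `i+j = 2s+1` it is
`h(s-M) k(s+1-M)`. -/
theorem KL_finsum (f g h k : ℤ → ℚ)
    (hf0 : ∀ p, 0 ≤ f p) (hg0 : ∀ p, 0 ≤ g p) (hh0 : ∀ p, 0 ≤ h p) (hk0 : ∀ p, 0 ≤ k p)
    (hf : (Function.support f).Finite) (hg : (Function.support g).Finite)
    (hh : (Function.support h).Finite) (hk : (Function.support k).Finite)
    (H : ∀ p q : ℤ, f p * g q ≤ h ((p + q) / 2) * k (p + q - (p + q) / 2)) :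
    (∑ᶠ p, f p) * (∑ᶠ p, g p) ≤ (∑ᶠ p, h p) * (∑ᶠ p, k p) := by
  classical
  -- a common bound for the supports
  have hb : ∀ u : ℤ → ℚ, (Function.support u).Finite → ∃ M : ℕ, ∀ p, u p ≠ 0 → p.natAbs ≤ M := by
    intro u hu
    refine ⟨hu.toFinset.sup Int.natAbs, fun p hp => ?_⟩
    exact Finset.le_sup (f := Int.natAbs) (hu.mem_toFinset.2 hp)
  obtain ⟨M1, h1⟩ := hb f hf
  obtain ⟨M2, h2⟩ := hb g hg
  obtain ⟨M3, h3⟩ := hb h hh
  obtain ⟨M4, h4⟩ := hb k hk
  set M := M1 + M2 + M3 + M4 with hM
  have e1 := kl_finsum f M (fun p hp => by have := h1 p hp; omega)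
  have e2 := kl_finsum g M (fun p hp => by have := h2 p hp; omega)
  have e3 := kl_finsum h M (fun p hp => by have := h3 p hp; omega)
  have e4 := kl_finsum k M (fun p hp => by have := h4 p hp; omega)
  rw [e1, e2, e3, e4]
  let c : ℕ → ℝ := fun i => if Even i then ((k ((i / 2 : ℕ) - M) : ℚ) : ℝ)
    else ((h ((i / 2 : ℕ) - M) : ℚ) : ℝ)
  have c0 : ∀ i, 0 ≤ c i := by
    intro i
    show 0 ≤ (if Even i then ((k ((i / 2 : ℕ) - M) : ℚ) : ℝ) else ((h ((i / 2 : ℕ) - M) : ℚ) : ℝ))
    split_ifs
    · exact_mod_cast hk0 _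
    · exact_mod_cast hh0 _
  have ce : ∀ s : ℕ, c (2 * s) = ((k ((s : ℤ) - M) : ℚ) : ℝ) := by
    intro s
    show (if Even (2 * s) then ((k (((2 * s) / 2 : ℕ) - M) : ℚ) : ℝ)
      else ((h (((2 * s) / 2 : ℕ) - M) : ℚ) : ℝ)) = _
    rw [if_pos (even_two_mul s)]
    have : 2 * s / 2 = s := by omega
    rw [this]
  have co : ∀ s : ℕ, c (2 * s + 1) = ((h ((s : ℤ) - M) : ℚ) : ℝ) := by
    intro s
    show (if Even (2 * s + 1) then ((k (((2 * s + 1) / 2 : ℕ) - M) : ℚ) : ℝ)
      else ((h (((2 * s + 1) / 2 : ℕ) - M) : ℚ) : ℝ)) = _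
    have h2 : ¬ Even (2 * s + 1) := by
      rw [Nat.even_add_one]; exact not_not.2 (even_two_mul s)
    rw [if_neg h2]
    have : (2 * s + 1) / 2 = s := by omega
    rw [this]
  have key := KL_core (2 * M) (2 * M) (fun i => ((f ((i : ℤ) - M) : ℚ) : ℝ))
    (fun i => ((g ((i : ℤ) - M) : ℚ) : ℝ)) c (fun i => by exact_mod_cast hf0 _)
    (fun i => by exact_mod_cast hg0 _) c0 (by
      intro i _ j _
      have h0 := H ((i : ℤ) - M) ((j : ℤ) - M)
      rcases Nat.even_or_odd' (i + j) with ⟨s, hs | hs⟩
      · rw [hs, ce, co]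
        have q1 : ((i : ℤ) - M + (j - M)) / 2 = (s : ℤ) - M := by omega
        have q2 : (i : ℤ) - M + (j - M) - ((s : ℤ) - M) = (s : ℤ) - M := by omega
        rw [q1, q2, mul_comm (h _)] at h0
        exact_mod_cast h0
      · have hs2 : i + j + 1 = 2 * (s + 1) := by omega
        rw [hs2, hs, ce, co]
        have q1 : ((i : ℤ) - M + (j - M)) / 2 = (s : ℤ) - M := by omega
        have q2 : (i : ℤ) - M + (j - M) - ((s : ℤ) - M) = ((s + 1 : ℕ) : ℤ) - M := by
          push_cast; omega
        rw [q1, q2] at h0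
        exact_mod_cast h0)
  have hrange : 2 * M + 2 * M + 2 = 2 * (2 * M + 1) := by ring
  rw [hrange, (kl_even c _).1, (kl_even c _).2, mul_comm (∑ s ∈ _, c (2 * s))] at key
  simp only [ce, co] at key
  exact_mod_cast key

end BD
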