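import Pool.Agent.MP_8b309d_co.AhBase
import Pool.Agent.MP_8b309d_co.AD
import Pool.Agent.MP_8b309d_co.KL
import Pool.Agent.MP_8b309d_co.T.REE
import Pool.Agent.MP_8b309d_co.T.REO
import Pool.Agent.MP_8b309d_co.T.ROO
import Pool.Agent.MP_8b309d_co.T.REG
import Pool.Agent.MP_8b309d_co.T.ROG
import Pool.Agent.MP_8b309d_co.T.RGG
import Pool.Agent.MP_8b309d_co.T.RVG
import Pool.Agent.MP_8b309d_co.T.RHH
import Pool.Agent.MP_8b309d_co.T.RHC
import Pool.Agent.MP_8b309d_co.T.RKU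
import Pool.Agent.MP_8b309d_co.T.ROK
import Pool.Agent.MP_8b309d_co.T.RKK
import Pool.Agent.MP_8b309d_co.T.RVE
import Pool.Agent.MP_8b309d_co.T.RVH
import Pool.Agent.MP_8b309d_co.T.RVC
import Pool.Agent.MP_8b309d_co.T.RCC

/-!
The relations between the arrays (summing the pointwise inequalities)
-/

namespace BD.T

theorem r_ee (n e o k : ℤ) :
    Ah n e o k * Ah n (e + 2) o k ≤ Ah n (e + 1) o k * Ah n (e + 1) o k :=
  AD_finsum _ _ _ _ (1) (0) (1) (fun _ => T_nonneg _ _ _ _ _) (fun _ => T_nonneg _ _ _ _ _)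
    (fun _ => T_nonneg _ _ _ _ _) (fun _ => T_nonneg _ _ _ _ _) (T_support_finite _ _ _ _)
    (T_support_finite _ _ _ _) (T_support_finite _ _ _ _) (T_support_finite _ _ _ _)
    (fun p q => by simpa [sub_eq_add_neg] using ad_ee n e o k p q)

theorem r_eo (n e o k : ℤ) :
    Ah n e o k * Ah n (e + 1) (o + 1) k ≤ Ah n e (o + 1) k * Ah n (e + 1) o k :=
  AD_finsum _ _ _ _ (1) (0) (1) (fun _ => T_nonneg _ _ _ _ _) (fun _ => T_nonneg _ _ _ _ _)
    (fun _ => T_nonneg _ _ _ _ _) (fun _ => T_nonneg _ _ _ _ _) (T_support_finite _ _ _ _)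
    (T_support_finite _ _ _ _) (T_support_finite _ _ _ _) (T_support_finite _ _ _ _)
    (fun p q => by simpa [sub_eq_add_neg] using ad_eo n e o k p q)

theorem r_oo (n e o k : ℤ) :
    Ah n e o k * Ah n e (o + 2) k ≤ Ah n e (o + 1) k * Ah n e (o + 1) k :=
  AD_finsum _ _ _ _ (1) (0) (1) (fun _ => T_nonneg _ _ _ _ _) (fun _ => T_nonneg _ _ _ _ _)
    (fun _ => T_nonneg _ _ _ _ _) (fun _ => T_nonneg _ _ _ _ _) (T_support_finite _ _ _ _)
    (T_support_finite _ _ _ _) (T_support_finite _ _ _ _) (T_support_finite _ _ _ _)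
    (fun p q => by simpa [sub_eq_add_neg] using ad_oo n e o k p q)

theorem r_eg (n e o k : ℤ) :
    Ah n e o k * Ah n (e + 1) (o + 2) (k - 1) ≤ Ah n (e + 1) o k * Ah n e (o + 2) (k - 1) :=
  AD_finsum _ _ _ _ (0) (0) (0) (fun _ => T_nonneg _ _ _ _ _) (fun _ => T_nonneg _ _ _ _ _)
    (fun _ => T_nonneg _ _ _ _ _) (fun _ => T_nonneg _ _ _ _ _) (T_support_finite _ _ _ _)
    (T_support_finite _ _ _ _) (T_support_finite _ _ _ _) (T_support_finite _ _ _ _)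
    (fun p q => by simpa [sub_eq_add_neg] using ad_eg n e o k p q)

theorem r_og (n e o k : ℤ) :
    Ah n e o k * Ah n e (o + 3) (k - 1) ≤ Ah n e (o + 1) k * Ah n e (o + 2) (k - 1) :=
  AD_finsum _ _ _ _ (0) (0) (0) (fun _ => T_nonneg _ _ _ _ _) (fun _ => T_nonneg _ _ _ _ _)
    (fun _ => T_nonneg _ _ _ _ _) (fun _ => T_nonneg _ _ _ _ _) (T_support_finite _ _ _ _)
    (T_support_finite _ _ _ _) (T_support_finite _ _ _ _) (T_support_finite _ _ _ _)
    (fun p q => by simpa [sub_eq_add_neg] using ad_og n e o k p q)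

theorem r_gg (n e o k : ℤ) :
    Ah n e o k * Ah n e (o + 4) (k - 2) ≤ Ah n e (o + 2) (k - 1) * Ah n e (o + 2) (k - 1) :=
  AD_finsum _ _ _ _ (-1) (-1) (0) (fun _ => T_nonneg _ _ _ _ _) (fun _ => T_nonneg _ _ _ _ _)
    (fun _ => T_nonneg _ _ _ _ _) (fun _ => T_nonneg _ _ _ _ _) (T_support_finite _ _ _ _)
    (T_support_finite _ _ _ _) (T_support_finite _ _ _ _) (T_support_finite _ _ _ _)
    (fun p q => by simpa [sub_eq_add_neg] using ad_gg n e o k p q)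

theorem r_vg (n e o k : ℤ) :
    Ah n e o k * Ah n (e + 1) (o + 3) (k - 2) ≤ Ah n (e + 1) (o + 1) (k - 1) * Ah n e (o + 2) (k - 1) :=
  AD_finsum _ _ _ _ (-1) (-1) (0) (fun _ => T_nonneg _ _ _ _ _) (fun _ => T_nonneg _ _ _ _ _)
    (fun _ => T_nonneg _ _ _ _ _) (fun _ => T_nonneg _ _ _ _ _) (T_support_finite _ _ _ _)
    (T_support_finite _ _ _ _) (T_support_finite _ _ _ _) (T_support_finite _ _ _ _)
    (fun p q => by simpa [sub_eq_add_neg] using ad_vg n e o k p q)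

theorem r_hh (n e o k : ℤ) :
    Ah n e o k * Ah n e (o + 2) (k - 2) ≤ Ah n e (o + 1) (k - 1) * Ah n e (o + 1) (k - 1) :=
  AD_finsum _ _ _ _ (-1) (-1) (0) (fun _ => T_nonneg _ _ _ _ _) (fun _ => T_nonneg _ _ _ _ _)
    (fun _ => T_nonneg _ _ _ _ _) (fun _ => T_nonneg _ _ _ _ _) (T_support_finite _ _ _ _)
    (T_support_finite _ _ _ _) (T_support_finite _ _ _ _) (T_support_finite _ _ _ _)
    (fun p q => by simpa [sub_eq_add_neg] using ad_hh n e o k p q)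

theorem r_hC (n e o k : ℤ) :
    Ah n e o k * Ah n (e + 1) (o + 1) (k - 2) ≤ Ah n (e + 1) o (k - 1) * Ah n e (o + 1) (k - 1) :=
  AD_finsum _ _ _ _ (-1) (-1) (0) (fun _ => T_nonneg _ _ _ _ _) (fun _ => T_nonneg _ _ _ _ _)
    (fun _ => T_nonneg _ _ _ _ _) (fun _ => T_nonneg _ _ _ _ _) (T_support_finite _ _ _ _)
    (T_support_finite _ _ _ _) (T_support_finite _ _ _ _) (T_support_finite _ _ _ _)
    (fun p q => by simpa [sub_eq_add_neg] using ad_hC n e o k p q)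

theorem r_Ku (n e o k : ℤ) :
    Ah n e o k * Ah n (e + 1) (o + 1) (k - 3) ≤ Ah n (e + 1) (o + 1) (k - 2) * Ah n e o (k - 1) :=
  AD_finsum _ _ _ _ (-2) (-2) (0) (fun _ => T_nonneg _ _ _ _ _) (fun _ => T_nonneg _ _ _ _ _)
    (fun _ => T_nonneg _ _ _ _ _) (fun _ => T_nonneg _ _ _ _ _) (T_support_finite _ _ _ _)
    (T_support_finite _ _ _ _) (T_support_finite _ _ _ _) (T_support_finite _ _ _ _)
    (fun p q => by simpa [sub_eq_add_neg] using ad_Ku n e o k p q)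

theorem r_ok (n e o k : ℤ) :
    Ah n e o k * Ah n e (o + 1) (k + 1) ≤ Ah n e (o + 1) k * Ah n e o (k + 1) :=
  AD_finsum _ _ _ _ (2) (0) (2) (fun _ => T_nonneg _ _ _ _ _) (fun _ => T_nonneg _ _ _ _ _)
    (fun _ => T_nonneg _ _ _ _ _) (fun _ => T_nonneg _ _ _ _ _) (T_support_finite _ _ _ _)
    (T_support_finite _ _ _ _) (T_support_finite _ _ _ _) (T_support_finite _ _ _ _)
    (fun p q => by simpa [sub_eq_add_neg] using ad_ok n e o k p q)

theorem r_kk (n e o k : ℤ) :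
    Ah n e o k * Ah n e o (k + 2) ≤ Ah n e o (k + 1) * Ah n e o (k + 1) :=
  KL_finsum _ _ _ _ (fun _ => T_nonneg _ _ _ _ _) (fun _ => T_nonneg _ _ _ _ _)
    (fun _ => T_nonneg _ _ _ _ _) (fun _ => T_nonneg _ _ _ _ _) (T_support_finite _ _ _ _)
    (T_support_finite _ _ _ _) (T_support_finite _ _ _ _) (T_support_finite _ _ _ _)
    (fun p q => kl_kk n e o k p q)

theorem r_ve (n e o k : ℤ) :
    Ah n e o k * Ah n (e + 2) (o + 1) (k - 1) ≤ Ah n (e + 1) (o + 1) (k - 1) * Ah n (e + 1) o k :=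
  KL_finsum _ _ _ _ (fun _ => T_nonneg _ _ _ _ _) (fun _ => T_nonneg _ _ _ _ _)
    (fun _ => T_nonneg _ _ _ _ _) (fun _ => T_nonneg _ _ _ _ _) (T_support_finite _ _ _ _)
    (T_support_finite _ _ _ _) (T_support_finite _ _ _ _) (T_support_finite _ _ _ _)
    (fun p q => kl_ve n e o k p q)

theorem r_vh (n e o k : ℤ) :
    Ah n e o k * Ah n (e + 1) (o + 2) (k - 2) ≤ Ah n e (o + 1) (k - 1) * Ah n (e + 1) (o + 1) (k - 1) :=
  KL_finsum _ _ _ _ (fun _ => T_nonneg _ _ _ _ _) (fun _ => T_nonneg _ _ _ _ _)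
    (fun _ => T_nonneg _ _ _ _ _) (fun _ => T_nonneg _ _ _ _ _) (T_support_finite _ _ _ _)
    (T_support_finite _ _ _ _) (T_support_finite _ _ _ _) (T_support_finite _ _ _ _)
    (fun p q => kl_vh n e o k p q)

theorem r_vC (n e o k : ℤ) :
    Ah n e o k * Ah n (e + 2) (o + 1) (k - 2) ≤ Ah n (e + 1) o (k - 1) * Ah n (e + 1) (o + 1) (k - 1) :=
  KL_finsum _ _ _ _ (fun _ => T_nonneg _ _ _ _ _) (fun _ => T_nonneg _ _ _ _ _)
    (fun _ => T_nonneg _ _ _ _ _) (fun _ => T_nonneg _ _ _ _ _) (T_support_finite _ _ _ _)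
    (T_support_finite _ _ _ _) (T_support_finite _ _ _ _) (T_support_finite _ _ _ _)
    (fun p q => kl_vC n e o k p q)

theorem r_CC (n e o k : ℤ) :
    Ah n e o k * Ah n (e + 2) o (k - 2) ≤ Ah n (e + 1) o (k - 1) * Ah n (e + 1) o (k - 1) :=
  KL_finsum _ _ _ _ (fun _ => T_nonneg _ _ _ _ _) (fun _ => T_nonneg _ _ _ _ _)
    (fun _ => T_nonneg _ _ _ _ _) (fun _ => T_nonneg _ _ _ _ _) (T_support_finite _ _ _ _)
    (T_support_finite _ _ _ _) (T_support_finite _ _ _ _) (T_support_finite _ _ _ _)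
    (fun p q => kl_CC n e o k p q)

end BD.T
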