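import Pool.Agent.MP_8b309d_co.Defs

/-!
# Row BD-AV : big descents and pattern avoidance of `L ++ m :: R`
All proofs are elementary (split the sublist `[a,b,c]` of `L ++ m :: R` according to which
letters lie in `L`, are `m`, or lie in `R`).
-/

namespace BD

theorem bd_map_add (a : ℕ) (l : List ℕ) : bd (l.map (· + a)) = bd l := by
  induction l using bd.induct with
  | case1 => rfl
  | case2 x => rfl
  | case3 x y l ih =>
    simp only [List.map_cons] at ih ⊢
    simp only [bd]
    rw [ih]
    have : (y + a + 1 < x + a) ↔ (y + 1 < x) := by omega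
    simp only [this]

/-- no (big) descent into a letter `m` larger than everything before -/
theorem bd_append_max (L : List ℕ) (m : ℕ) (R : List ℕ) (h : ∀ x ∈ L, x < m) :
    bd (L ++ m :: R) = bd L + bd (m :: R) := by
  induction L using bd.induct with
  | case1 => simp [bd]
  | case2 x =>
    have hx : x < m := h x (by simp)
    simp only [List.singleton_append, bd]
    have : ¬ (m + 1 < x) := by omega
    simp [this]
  | case3 x y l ih =>
    have ih' := ih (fun z hz => h z (List.mem_cons_of_mem _ hz))
    simp only [List.cons_append] at ih' ⊢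
    simp only [bd]
    rw [ih']
    ring

open Classical in
/-- prepending a letter `m` larger than all others creates a big descent unless the word is
empty or starts with `m - 1` -/
theorem bd_cons_max (m : ℕ) (R : List ℕ) (h : ∀ y ∈ R, y < m) :
    bd (m :: R) = bd R + (if R = [] ∨ R.head? = some (m - 1) then 0 else 1) := by
  cases R with
  | nil => simp [bd]
  | cons y R =>
    have hy : y < m := h y (by simp)
    simp only [bd, List.head?_cons, Option.some.injEq, reduceCtorEq, false_or]
    by_cases h1 : y = m - 1
    · have h2 : ¬ (y + 1 < m) := by omega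
      simp [h1, h2]
      omega
    · have h2 : y + 1 < m := by omega
      simp [h1, h2]
      omega

theorem bd_range (n : ℕ) : bd (List.range n) = 0 := by
  have key : ∀ l : List ℕ, l.Pairwise (· < ·) → bd l = 0 := by
    intro l
    induction l using bd.induct with
    | case1 => intro _; rfl
    | case2 x => intro _; rfl
    | case3 x y l ih =>
      intro h
      rw [List.pairwise_cons] at h
      simp only [bd]
      rw [ih h.2]
      have hxy : x < y := h.1 y (by simp)
      have : ¬ (y + 1 < x) := by omega
      simp [this]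
  exact key _ List.pairwise_lt_range

/-- the decreasing word has only descents by one -/
theorem bd_range_reverse (n : ℕ) : bd (List.range n).reverse = 0 := by
  induction n with
  | zero => rfl
  | succ n ih =>
    have e : (List.range (n + 1)).reverse = n :: (List.range n).reverse := by
      rw [List.range_succ, List.reverse_append]
      rfl
    rw [e, bd_cons_max n _ (by intro y hy; simpa using hy), ih]
    cases n with
    | zero => simp
    | succ k =>
      have e2 : (List.range (k + 1)).reverse = k :: (List.range k).reverse := by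
        rw [List.range_succ, List.reverse_append]
        rfl
      rw [e2]
      simp

/-- a pattern relation which is invariant under translation -/
def ShiftInv (p : Pat) : Prop := ∀ a x y z, p (x + a) (y + a) (z + a) ↔ p x y z

theorem shiftInv_all : ShiftInv p123 ∧ ShiftInv p132 ∧ ShiftInv p213 ∧ ShiftInv p231 ∧
    ShiftInv p312 ∧ ShiftInv p321 := by
  refine ⟨?_, ?_, ?_, ?_, ?_, ?_⟩ <;> intro a x y z <;>
    simp only [p123, p132, p213, p231, p312, p321, Nat.add_lt_add_iff_right]

theorem Av_map_add {p : Pat} (hp : ShiftInv p) (a : ℕ) (l : List ℕ) :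
    Av p (l.map (· + a)) ↔ Av p l := by
  constructor
  · intro h x y z hs hpxyz
    have h1 : [x + a, y + a, z + a].Sublist (l.map (· + a)) := by
      have := hs.map (· + a)
      simpa using this
    exact h _ _ _ h1 ((hp a x y z).2 hpxyz)
  · intro h x y z hs hpxyz
    rw [List.sublist_map_iff] at hs
    obtain ⟨l', hl', e⟩ := hs
    match l', hl', e with
    | [u, v, w], hl', e =>
      simp only [List.map_cons, List.map_nil, List.cons.injEq, and_true] at e
      obtain ⟨e1, e2, e3⟩ := e
      subst e1 e2 e3
      exact h u v w hl' ((hp a u v w).1 hpxyz)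

theorem Av_of_sublist {p : Pat} {l l' : List ℕ} (h : l'.Sublist l) (hl : Av p l) : Av p l' :=
  fun a b c hs => hl a b c (hs.trans h)

theorem Av_nil (p : Pat) : Av p [] := by
  intro a b c hs
  simp at hs

theorem Av_singleton (p : Pat) (x : ℕ) : Av p [x] := by
  intro a b c hs
  have := hs.length_le
  simp at this

private theorem bdav_mem {a b : ℕ} {L : List ℕ} (h : [a, b].Sublist L) : a ∈ L ∧ b ∈ L :=
  ⟨h.subset (by simp), h.subset (by simp)⟩

private theorem bdav_ne {a b : ℕ} {L : List ℕ} (hd : L.Nodup) (h : [a, b].Sublist L) : a ≠ b :=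
  List.pairwise_iff_forall_sublist.1 hd h

private theorem bdav_ab {a b c : ℕ} {L : List ℕ} (h : [a, b, c].Sublist L) :
    [a, b].Sublist L := by
  refine List.Sublist.trans ?_ h
  exact List.Sublist.cons_cons _ (List.Sublist.cons_cons _ (List.nil_sublist _))

private theorem bdav_bc {a b c : ℕ} {L : List ℕ} (h : [a, b, c].Sublist L) :
    [b, c].Sublist L := by
  refine List.Sublist.trans ?_ h
  exact List.Sublist.cons _ (List.Sublist.refl _)

/-- The seven cases. -/
private theorem bdav_split (p : Pat) (L R : List ℕ) (m : ℕ) :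
    Av p (L ++ m :: R) ↔ Av p L ∧ Av p R ∧ (∀ a b, [a, b].Sublist L → ¬ p a b m) ∧
      (∀ a b c, [a, b].Sublist L → c ∈ R → ¬ p a b c) ∧
      (∀ a c, a ∈ L → c ∈ R → ¬ p a m c) ∧
      (∀ a b c, a ∈ L → [b, c].Sublist R → ¬ p a b c) ∧
      (∀ b c, [b, c].Sublist R → ¬ p m b c) := by
  constructor
  · intro h
    refine ⟨?_, ?_, ?_, ?_, ?_, ?_, ?_⟩
    · exact Av_of_sublist (List.sublist_append_left L _) h
    · exact Av_of_sublist ((List.sublist_cons_self m R).trans (List.sublist_append_right L _)) h
    · intro a b hab
      apply h a b m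
      have : [a, b, m] = [a, b] ++ [m] := rfl
      rw [this]
      exact hab.append (List.Sublist.cons_cons _ (List.nil_sublist _))
    · intro a b c hab hc
      apply h a b c
      have : [a, b, c] = [a, b] ++ [c] := rfl
      rw [this]
      exact hab.append (List.singleton_sublist.2 (List.mem_cons_of_mem _ hc))
    · intro a c ha hc
      apply h a m c
      have : [a, m, c] = [a] ++ [m, c] := rfl
      rw [this]
      exact (List.singleton_sublist.2 ha).append
        (List.Sublist.cons_cons _ (List.singleton_sublist.2 hc))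
    · intro a b c ha hbc
      apply h a b c
      have : [a, b, c] = [a] ++ [b, c] := rfl
      rw [this]
      exact (List.singleton_sublist.2 ha).append (List.Sublist.cons _ hbc)
    · intro b c hbc
      apply h m b c
      exact (List.Sublist.cons_cons _ hbc).trans (List.sublist_append_right L _)
  · rintro ⟨h1, h2, h3, h4, h5, h6, h7⟩ a b c hs
    rw [List.sublist_append_iff] at hs
    obtain ⟨l₁, l₂, e, s1, s2⟩ := hs
    match l₁, e, s1 with
    | [], e, s1 =>
      simp only [List.nil_append] at e
      subst e
      rw [List.sublist_cons_iff] at s2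
      rcases s2 with s2 | ⟨r, e, s2⟩
      · exact h2 a b c s2
      · simp only [List.cons.injEq] at e
        obtain ⟨rfl, rfl⟩ := e
        exact h7 b c s2
    | [x], e, s1 =>
      simp only [List.singleton_append, List.cons.injEq] at e
      obtain ⟨rfl, rfl⟩ := e
      have ha : a ∈ L := List.singleton_sublist.1 s1
      rw [List.sublist_cons_iff] at s2
      rcases s2 with s2 | ⟨r, e, s2⟩
      · exact h6 a b c ha s2
      · simp only [List.cons.injEq] at e
        obtain ⟨rfl, rfl⟩ := e
        exact h5 a c ha (List.singleton_sublist.1 s2)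
    | [x, y], e, s1 =>
      simp only [List.cons_append, List.nil_append, List.cons.injEq] at e
      obtain ⟨rfl, rfl, rfl⟩ := e
      rw [List.sublist_cons_iff] at s2
      rcases s2 with s2 | ⟨r, e, s2⟩
      · exact h4 a b c s1 (List.singleton_sublist.1 s2)
      · simp only [List.cons.injEq] at e
        obtain ⟨rfl, -⟩ := e
        exact h3 a b s1
    | x :: y :: z :: t, e, s1 =>
      simp only [List.cons_append, List.cons.injEq] at e
      obtain ⟨rfl, rfl, rfl, e⟩ := e
      have : t = [] := (List.append_eq_nil_iff.1 e.symm).1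
      subst this
      exact h1 a b c s1

/-- For duplicate-free words: `L ++ m :: R` (all letters `< m`) avoids 132 iff `L`, `R` do and
all letters of `L` are larger than all letters of `R`. -/
theorem av132_split {L R : List ℕ} {m : ℕ} (hL : ∀ x ∈ L, x < m) (hR : ∀ y ∈ R, y < m)
    (hd : (L ++ R).Nodup) :
    Av p132 (L ++ m :: R) ↔ Av p132 L ∧ Av p132 R ∧ ∀ x ∈ L, ∀ y ∈ R, y < x := by
  have hdis : ∀ x ∈ L, ∀ y ∈ R, x ≠ y := (List.nodup_append.1 hd).2.2
  rw [bdav_split]
  constructor
  · rintro ⟨h1, h2, h3, h4, h5, h6, h7⟩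
    refine ⟨h1, h2, ?_⟩
    intro x hx y hy
    have := h5 x y hx hy
    have := hR y hy
    have := hdis x hx y hy
    unfold p132 at *
    omega
  · rintro ⟨h1, h2, h3⟩
    refine ⟨h1, h2, ?_, ?_, ?_, ?_, ?_⟩
    · intro a b hab
      have := hL b (bdav_mem hab).2
      unfold p132; omega
    · intro a b c hab hc
      have := h3 a (bdav_mem hab).1 c hc
      unfold p132; omega
    · intro a c ha hc
      have := h3 a ha c hc
      unfold p132; omega
    · intro a b c ha hbc
      have := h3 a ha c (bdav_mem hbc).2
      unfold p132; omega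
    · intro b c hbc
      have := hR c (bdav_mem hbc).2
      unfold p132; omega

theorem av231_split {L R : List ℕ} {m : ℕ} (hL : ∀ x ∈ L, x < m) (hR : ∀ y ∈ R, y < m)
    (hd : (L ++ R).Nodup) :
    Av p231 (L ++ m :: R) ↔ Av p231 L ∧ Av p231 R ∧ ∀ x ∈ L, ∀ y ∈ R, x < y := by
  have hdis : ∀ x ∈ L, ∀ y ∈ R, x ≠ y := (List.nodup_append.1 hd).2.2
  rw [bdav_split]
  constructor
  · rintro ⟨h1, h2, h3, h4, h5, h6, h7⟩
    refine ⟨h1, h2, ?_⟩
    intro x hx y hy
    have := h5 x y hx hy
    have := hL x hx
    have := hdis x hx y hy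
    unfold p231 at *
    omega
  · rintro ⟨h1, h2, h3⟩
    refine ⟨h1, h2, ?_, ?_, ?_, ?_, ?_⟩
    · intro a b hab
      have := hL a (bdav_mem hab).1
      unfold p231; omega
    · intro a b c hab hc
      have := h3 a (bdav_mem hab).1 c hc
      unfold p231; omega
    · intro a c ha hc
      have := h3 a ha c hc
      unfold p231; omega
    · intro a b c ha hbc
      have := h3 a ha c (bdav_mem hbc).2
      unfold p231; omega
    · intro b c hbc
      have := hR b (bdav_mem hbc).1
      unfold p231; omega

/-! The other patterns when all letters of `L` are larger than all letters of `R` -/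

theorem av213_gt {L R : List ℕ} {m : ℕ} (hL : ∀ x ∈ L, x < m) (hR : ∀ y ∈ R, y < m)
    (hd : (L ++ R).Nodup) (h : ∀ x ∈ L, ∀ y ∈ R, y < x) :
    Av p213 (L ++ m :: R) ↔ L.Pairwise (· < ·) ∧ Av p213 R := by
  have hdL : L.Nodup := (List.nodup_append.1 hd).1
  rw [bdav_split, List.pairwise_iff_forall_sublist]
  constructor
  · rintro ⟨h1, h2, h3, h4, h5, h6, h7⟩
    refine ⟨?_, h2⟩
    intro a b hab
    have := h3 a b hab
    have := hL a (bdav_mem hab).1
    have := bdav_ne hdL hab
    unfold p213 at *
    omega
  · rintro ⟨h1, h2⟩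
    refine ⟨?_, h2, ?_, ?_, ?_, ?_, ?_⟩
    · intro a b c hs
      have : a < b := h1 (bdav_ab hs)
      unfold p213; omega
    · intro a b hab
      have : a < b := h1 hab
      unfold p213; omega
    · intro a b c hab hc
      have : a < b := h1 hab
      unfold p213; omega
    · intro a c ha hc
      have := hL a ha
      unfold p213; omega
    · intro a b c ha hbc
      have := h a ha c (bdav_mem hbc).2
      unfold p213; omega
    · intro b c hbc
      have := hR c (bdav_mem hbc).2
      unfold p213; omega

theorem av123_gt {L R : List ℕ} {m : ℕ} (hL : ∀ x ∈ L, x < m) (hR : ∀ y ∈ R, y < m)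
    (hd : (L ++ R).Nodup) (h : ∀ x ∈ L, ∀ y ∈ R, y < x) :
    Av p123 (L ++ m :: R) ↔ L.Pairwise (· > ·) ∧ Av p123 R := by
  have hdL : L.Nodup := (List.nodup_append.1 hd).1
  rw [bdav_split, List.pairwise_iff_forall_sublist]
  constructor
  · rintro ⟨h1, h2, h3, h4, h5, h6, h7⟩
    refine ⟨?_, h2⟩
    intro a b hab
    have := h3 a b hab
    have := hL b (bdav_mem hab).2
    have := bdav_ne hdL hab
    unfold p123 at *
    omega
  · rintro ⟨h1, h2⟩
    refine ⟨?_, h2, ?_, ?_, ?_, ?_, ?_⟩
    · intro a b c hs
      have : a > b := h1 (bdav_ab hs)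
      unfold p123; omega
    · intro a b hab
      have : a > b := h1 hab
      unfold p123; omega
    · intro a b c hab hc
      have : a > b := h1 hab
      unfold p123; omega
    · intro a c ha hc
      have := hR c hc
      unfold p123; omega
    · intro a b c ha hbc
      have := h a ha b (bdav_mem hbc).1
      unfold p123; omega
    · intro b c hbc
      have := hR b (bdav_mem hbc).1
      unfold p123; omega

theorem av231_gt {L R : List ℕ} {m : ℕ} (hL : ∀ x ∈ L, x < m) (hR : ∀ y ∈ R, y < m)
    (hd : (L ++ R).Nodup) (h : ∀ x ∈ L, ∀ y ∈ R, y < x) :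
    Av p231 (L ++ m :: R) ↔ (L = [] ∨ R = []) ∧ Av p231 L ∧ Av p231 R := by
  rw [av231_split hL hR hd]
  constructor
  · rintro ⟨h1, h2, h3⟩
    refine ⟨?_, h1, h2⟩
    cases L with
    | nil => left; rfl
    | cons x L =>
      cases R with
      | nil => right; rfl
      | cons y R =>
        exfalso
        have := h x (by simp) y (by simp)
        have := h3 x (by simp) y (by simp)
        omega
  · rintro ⟨h1, h2, h3⟩
    refine ⟨h2, h3, ?_⟩
    intro x hx y hy
    rcases h1 with rfl | rfl
    · simp at hx
    · simp at hy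

theorem av312_gt {L R : List ℕ} {m : ℕ} (hL : ∀ x ∈ L, x < m) (hR : ∀ y ∈ R, y < m)
    (hd : (L ++ R).Nodup) (h : ∀ x ∈ L, ∀ y ∈ R, y < x) :
    Av p312 (L ++ m :: R) ↔ Av p312 L ∧ R.Pairwise (· > ·) := by
  have hdR : R.Nodup := (List.nodup_append.1 hd).2.1
  rw [bdav_split, List.pairwise_iff_forall_sublist]
  constructor
  · rintro ⟨h1, h2, h3, h4, h5, h6, h7⟩
    refine ⟨h1, ?_⟩
    intro a b hab
    have := h7 a b hab
    have := hR b (bdav_mem hab).2
    have := bdav_ne hdR hab
    unfold p312 at *
    omega
  · rintro ⟨h1, h2⟩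
    refine ⟨h1, ?_, ?_, ?_, ?_, ?_, ?_⟩
    · intro a b c hs
      have : b > c := h2 (bdav_bc hs)
      unfold p312; omega
    · intro a b hab
      have := hL a (bdav_mem hab).1
      unfold p312; omega
    · intro a b c hab hc
      have := h b (bdav_mem hab).2 c hc
      unfold p312; omega
    · intro a c ha hc
      have := hR c hc
      unfold p312; omega
    · intro a b c ha hbc
      have : b > c := h2 hbc
      unfold p312; omega
    · intro b c hbc
      have : b > c := h2 hbc
      unfold p312; omega

theorem av321_gt {L R : List ℕ} {m : ℕ} (hL : ∀ x ∈ L, x < m) (hR : ∀ y ∈ R, y < m)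
    (hd : (L ++ R).Nodup) (h : ∀ x ∈ L, ∀ y ∈ R, y < x) :
    Av p321 (L ++ m :: R) ↔
      Av p321 L ∧ R.Pairwise (· < ·) ∧ (R ≠ [] → L.Pairwise (· < ·)) := by
  have hdL : L.Nodup := (List.nodup_append.1 hd).1
  have hdR : R.Nodup := (List.nodup_append.1 hd).2.1
  rw [bdav_split, List.pairwise_iff_forall_sublist, List.pairwise_iff_forall_sublist]
  constructor
  · rintro ⟨h1, h2, h3, h4, h5, h6, h7⟩
    refine ⟨h1, ?_, ?_⟩
    · intro a b hab
      have := h7 a b hab
      have := hR a (bdav_mem hab).1
      have := bdav_ne hdR hab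
      unfold p321 at *
      omega
    · intro hne a b hab
      obtain ⟨c, hc⟩ := List.exists_mem_of_ne_nil R hne
      have := h4 a b c hab hc
      have := h b (bdav_mem hab).2 c hc
      have := bdav_ne hdL hab
      unfold p321 at *
      omega
  · rintro ⟨h1, h2, h3⟩
    refine ⟨h1, ?_, ?_, ?_, ?_, ?_, ?_⟩
    · intro a b c hs
      have : b < c := h2 (bdav_bc hs)
      unfold p321; omega
    · intro a b hab
      have := hL b (bdav_mem hab).2
      unfold p321; omega
    · intro a b c hab hc
      have : a < b := h3 (List.ne_nil_of_mem hc) hab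
      unfold p321; omega
    · intro a c ha hc
      have := hL a ha
      unfold p321; omega
    · intro a b c ha hbc
      have : b < c := h2 hbc
      unfold p321; omega
    · intro b c hbc
      have : b < c := h2 hbc
      unfold p321; omega

/-! The other patterns when all letters of `L` are smaller than all letters of `R` -/

theorem av312_lt {L R : List ℕ} {m : ℕ} (hL : ∀ x ∈ L, x < m) (hR : ∀ y ∈ R, y < m)
    (hd : (L ++ R).Nodup) (h : ∀ x ∈ L, ∀ y ∈ R, x < y) :
    Av p312 (L ++ m :: R) ↔ Av p312 L ∧ R.Pairwise (· > ·) := by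
  have hdR : R.Nodup := (List.nodup_append.1 hd).2.1
  rw [bdav_split, List.pairwise_iff_forall_sublist]
  constructor
  · rintro ⟨h1, h2, h3, h4, h5, h6, h7⟩
    refine ⟨h1, ?_⟩
    intro a b hab
    have := h7 a b hab
    have := hR b (bdav_mem hab).2
    have := bdav_ne hdR hab
    unfold p312 at *
    omega
  · rintro ⟨h1, h2⟩
    refine ⟨h1, ?_, ?_, ?_, ?_, ?_, ?_⟩
    · intro a b c hs
      have : b > c := h2 (bdav_bc hs)
      unfold p312; omega
    · intro a b hab
      have := hL a (bdav_mem hab).1
      unfold p312; omega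
    · intro a b c hab hc
      have := h a (bdav_mem hab).1 c hc
      unfold p312; omega
    · intro a c ha hc
      have := hL a ha
      unfold p312; omega
    · intro a b c ha hbc
      have : b > c := h2 hbc
      unfold p312; omega
    · intro b c hbc
      have : b > c := h2 hbc
      unfold p312; omega

theorem av321_lt {L R : List ℕ} {m : ℕ} (hL : ∀ x ∈ L, x < m) (hR : ∀ y ∈ R, y < m)
    (hd : (L ++ R).Nodup) (h : ∀ x ∈ L, ∀ y ∈ R, x < y) :
    Av p321 (L ++ m :: R) ↔ Av p321 L ∧ R.Pairwise (· < ·) := by
  have hdR : R.Nodup := (List.nodup_append.1 hd).2.1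
  rw [bdav_split, List.pairwise_iff_forall_sublist]
  constructor
  · rintro ⟨h1, h2, h3, h4, h5, h6, h7⟩
    refine ⟨h1, ?_⟩
    intro a b hab
    have := h7 a b hab
    have := hR a (bdav_mem hab).1
    have := bdav_ne hdR hab
    unfold p321 at *
    omega
  · rintro ⟨h1, h2⟩
    refine ⟨h1, ?_, ?_, ?_, ?_, ?_, ?_⟩
    · intro a b c hs
      have : b < c := h2 (bdav_bc hs)
      unfold p321; omega
    · intro a b hab
      have := hL b (bdav_mem hab).2
      unfold p321; omega
    · intro a b c hab hc
      have := h a (bdav_mem hab).1 c hc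
      have := h b (bdav_mem hab).2 c hc
      unfold p321; omega
    · intro a c ha hc
      have := hL a ha
      unfold p321; omega
    · intro a b c ha hbc
      have : b < c := h2 hbc
      unfold p321; omega
    · intro b c hbc
      have : b < c := h2 hbc
      unfold p321; omega

theorem av123_lt {L R : List ℕ} {m : ℕ} (hL : ∀ x ∈ L, x < m) (hR : ∀ y ∈ R, y < m)
    (hd : (L ++ R).Nodup) (h : ∀ x ∈ L, ∀ y ∈ R, x < y) :
    Av p123 (L ++ m :: R) ↔
      L.Pairwise (· > ·) ∧ Av p123 R ∧ (L ≠ [] → R.Pairwise (· > ·)) := by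
  have hdL : L.Nodup := (List.nodup_append.1 hd).1
  have hdR : R.Nodup := (List.nodup_append.1 hd).2.1
  rw [bdav_split, List.pairwise_iff_forall_sublist, List.pairwise_iff_forall_sublist]
  constructor
  · rintro ⟨h1, h2, h3, h4, h5, h6, h7⟩
    refine ⟨?_, h2, ?_⟩
    · intro a b hab
      have := h3 a b hab
      have := hL b (bdav_mem hab).2
      have := bdav_ne hdL hab
      unfold p123 at *
      omega
    · intro hne b c hbc
      obtain ⟨a, ha⟩ := List.exists_mem_of_ne_nil L hne
      have := h6 a b c ha hbc
      have := h a ha b (bdav_mem hbc).1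
      have := bdav_ne hdR hbc
      unfold p123 at *
      omega
  · rintro ⟨h1, h2, h3⟩
    refine ⟨?_, h2, ?_, ?_, ?_, ?_, ?_⟩
    · intro a b c hs
      have : a > b := h1 (bdav_ab hs)
      unfold p123; omega
    · intro a b hab
      have : a > b := h1 hab
      unfold p123; omega
    · intro a b c hab hc
      have : a > b := h1 hab
      unfold p123; omega
    · intro a c ha hc
      have := hR c hc
      unfold p123; omega
    · intro a b c ha hbc
      have : b > c := h3 (List.ne_nil_of_mem ha) hbc
      unfold p123; omega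
    · intro b c hbc
      have := hR b (bdav_mem hbc).1
      unfold p123; omega

end BD
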