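import Pool.Agent.MP_8b309d_co.Words
namespace BD
open Finset

def patOf (τ : Equiv.Perm (Fin 3)) : Pat := fun a b c =>
  (a < b ↔ τ 0 < τ 1) ∧ (b < a ↔ τ 1 < τ 0) ∧ (a < c ↔ τ 0 < τ 2) ∧ (c < a ↔ τ 2 < τ 0) ∧
  (b < c ↔ τ 1 < τ 2) ∧ (c < b ↔ τ 2 < τ 1)

def toWord {n : ℕ} (σ : Equiv.Perm (Fin n)) : List ℕ := List.ofFn (fun i => ((σ i : Fin n) : ℕ))

theorem toWord_injective (n : ℕ) : Function.Injective (toWord (n := n)) := by
  intro σ τ h
  have h1 := List.ofFn_injective h
  ext i
  exact congrFun h1 i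

theorem toWord_length {n : ℕ} (σ : Equiv.Perm (Fin n)) : (toWord σ).length = n := by
  simp [toWord]

theorem toWord_mem {n : ℕ} (σ : Equiv.Perm (Fin n)) : toWord σ ∈ words (range n) := by
  rw [mem_words]
  constructor
  · rw [toWord, List.nodup_ofFn]
    intro i j hij
    exact σ.injective (Fin.ext hij)
  · ext a
    rw [List.mem_toFinset, toWord, List.mem_ofFn, mem_range]
    constructor
    · rintro ⟨i, rfl⟩
      exact (σ i).2
    · intro ha
      exact ⟨σ.symm ⟨a, ha⟩, by simp⟩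

theorem toWord_surj {n : ℕ} {l : List ℕ} (h : l ∈ words (range n)) :
    ∃ σ : Equiv.Perm (Fin n), toWord σ = l := by
  rw [mem_words] at h
  obtain ⟨hnd, hset⟩ := h
  have hlen : l.length = n := by
    have := List.toFinset_card_of_nodup hnd
    rw [hset, card_range] at this
    exact this.symm
  have hlt : ∀ a ∈ l, a < n := by
    intro a ha
    have : a ∈ l.toFinset := List.mem_toFinset.2 ha
    rw [hset, mem_range] at this
    exact this
  let u : Fin n → Fin n := fun i => ⟨l[(i : ℕ)]'(by rw [hlen]; exact i.2), hlt _ (List.getElem_mem _)⟩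
  have hu : Function.Injective u := by
    intro i j hij
    have h1 : l[(i : ℕ)]'(by rw [hlen]; exact i.2) = l[(j : ℕ)]'(by rw [hlen]; exact j.2) :=
      congrArg Fin.val hij
    have := (List.Nodup.getElem_inj_iff hnd).1 h1
    exact Fin.ext this
  refine ⟨Equiv.ofBijective u (Finite.injective_iff_bijective.1 hu), ?_⟩
  apply List.ext_getElem
  · rw [toWord_length, hlen]
  · intro i h1 h2
    simp [toWord, u]

theorem bd_eq_sum (l : List ℕ) :
    bd l = ∑ i ∈ range l.length,
      if (i + 1 < l.length ∧ l.getD (i + 1) 0 + 1 < l.getD i 0) then 1 else 0 := by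
  induction l with
  | nil => simp [bd]
  | cons x l ih =>
    cases l with
    | nil => simp [bd]
    | cons y l =>
      rw [bd, ih]
      have h1 : (x :: y :: l).length = (y :: l).length + 1 := rfl
      rw [h1, Finset.sum_range_succ']
      rw [add_comm]
      congr 1
      · apply Finset.sum_congr rfl
        intro i _
        simp
      · simp

theorem bd_toWord {n : ℕ} (σ : Equiv.Perm (Fin n)) : bd (toWord σ) = bdes σ := by
  classical
  rw [bd_eq_sum, toWord_length, Finset.sum_range, bdes, Finset.card_filter]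
  apply Finset.sum_congr rfl
  intro i _
  have hi : (toWord σ).getD (i : ℕ) 0 = ((σ i : Fin n) : ℕ) := by
    rw [List.getD_eq_getElem _ _ (by rw [toWord_length]; exact i.2)]
    simp [toWord]
  by_cases h : (i : ℕ) + 1 < n
  · have hi1 : (toWord σ).getD ((i : ℕ) + 1) 0 = ((σ ⟨(i : ℕ) + 1, h⟩ : Fin n) : ℕ) := by
      rw [List.getD_eq_getElem _ _ (by rw [toWord_length]; exact h)]
      simp [toWord]
    rw [hi, hi1]
    by_cases h2 : ((σ ⟨(i : ℕ) + 1, h⟩ : Fin n) : ℕ) + 1 < ((σ i : Fin n) : ℕ)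
    · rw [if_pos ⟨h, h2⟩, if_pos ⟨h, h2⟩]
    · rw [if_neg (fun hh => h2 hh.2), if_neg (fun hh => h2 hh.2)]
  · rw [if_neg (fun hh => h hh.1), if_neg]
    rintro ⟨hh, _⟩
    exact h hh

theorem get_toWord {n : ℕ} (σ : Equiv.Perm (Fin n)) (t : Fin (toWord σ).length) :
    (toWord σ).get t = ((σ (Fin.cast (toWord_length σ) t) : Fin n) : ℕ) := by
  rw [List.get_eq_getElem]
  simp only [toWord, List.getElem_ofFn]
  rfl

/-- three-letter sublists of the word of a permutation -/
theorem sublist_toWord {n : ℕ} (σ : Equiv.Perm (Fin n)) (a b c : ℕ) :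
    [a, b, c].Sublist (toWord σ) ↔
      ∃ i j k : Fin n, i < j ∧ j < k ∧ a = ((σ i : Fin n) : ℕ) ∧ b = ((σ j : Fin n) : ℕ) ∧
        c = ((σ k : Fin n) : ℕ) := by
  constructor
  · intro h
    rw [List.sublist_iff_exists_fin_orderEmbedding_get_eq] at h
    obtain ⟨f, hf⟩ := h
    have hl : (toWord σ).length = n := toWord_length σ
    let i : Fin n := Fin.cast hl (f ⟨0, by simp⟩)
    let j : Fin n := Fin.cast hl (f ⟨1, by simp⟩)
    let k : Fin n := Fin.cast hl (f ⟨2, by simp⟩)
    refine ⟨i, j, k, ?_, ?_, ?_, ?_, ?_⟩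
    · have : f ⟨0, by simp⟩ < f ⟨1, by simp⟩ := f.lt_iff_lt.2 (by simp)
      exact this
    · have : f ⟨1, by simp⟩ < f ⟨2, by simp⟩ := f.lt_iff_lt.2 (by simp)
      exact this
    · have := hf ⟨0, by simp⟩
      rw [get_toWord] at this
      exact this
    · have := hf ⟨1, by simp⟩
      rw [get_toWord] at this
      exact this
    · have := hf ⟨2, by simp⟩
      rw [get_toWord] at this
      exact this
  · rintro ⟨i, j, k, hij, hjk, rfl, rfl, rfl⟩
    have hl : (toWord σ).length = n := toWord_length σ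
    rw [List.sublist_iff_exists_fin_orderEmbedding_get_eq]
    refine ⟨OrderEmbedding.ofStrictMono (fun t : Fin 3 => Fin.cast hl.symm (![i, j, k] t)) ?_, ?_⟩
    · intro s t hst
      fin_cases s <;> fin_cases t <;> simp_all
      exact hij.trans hjk
    · intro t
      have : ∀ t : Fin 3, [((σ i : Fin n) : ℕ), ((σ j : Fin n) : ℕ), ((σ k : Fin n) : ℕ)].get t
          = (toWord σ).get (Fin.cast hl.symm (![i, j, k] t)) := by
        intro t
        rw [get_toWord]
        fin_cases t <;> rfl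
      exact this t

/-- Containing a pattern of length three, for words.  (`[a,b,c]` is a sublist of `List.ofFn u`
iff there are positions `i < j < k` with these letters.) -/
theorem contains_iff {n : ℕ} (σ : Equiv.Perm (Fin n)) (τ : Equiv.Perm (Fin 3)) :
    Contains σ τ ↔ ¬ Av (patOf τ) (toWord σ) := by
  unfold Av
  push Not
  constructor
  · rintro ⟨f, hf⟩
    refine ⟨_, _, _, (sublist_toWord σ _ _ _).2 ⟨f 0, f 1, f 2, f.lt_iff_lt.2 (by decide),
      f.lt_iff_lt.2 (by decide), rfl, rfl, rfl⟩, ?_⟩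
    exact ⟨hf 0 1, hf 1 0, hf 0 2, hf 2 0, hf 1 2, hf 2 1⟩
  · rintro ⟨a, b, c, hs, hp⟩
    rw [sublist_toWord] at hs
    obtain ⟨i, j, k, hij, hjk, rfl, rfl, rfl⟩ := hs
    have hm : StrictMono (![i, j, k]) := by
      intro s t hst
      fin_cases s <;> fin_cases t <;> simp_all
      exact hij.trans hjk
    refine ⟨OrderEmbedding.ofStrictMono (![i, j, k]) hm, ?_⟩
    obtain ⟨h1, h2, h3, h4, h5, h6⟩ := hp
    simp only [Fin.val_fin_lt] at h1 h2 h3 h4 h5 h6
    have key : ∀ s t : Fin 3, σ (![i, j, k] s) < σ (![i, j, k] t) ↔ τ s < τ t := by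
      intro s t
      fin_cases s <;> fin_cases t
      · simp
      · exact h1
      · exact h3
      · exact h2
      · simp
      · exact h5
      · exact h4
      · exact h6
      · simp
    exact key

/-- the numbers `b P n k` count words -/
theorem b_eq_cnt (P : Finset (Equiv.Perm (Fin 3))) (n k : ℕ) :
    b P n k = cnt (fun l => ∀ τ ∈ P, Av (patOf τ) l) n k := by
  classical
  obtain ⟨Q, hQ⟩ : ∃ Q : List ℕ → Prop, Q = fun l => ∀ τ ∈ P, Av (patOf τ) l := ⟨_, rfl⟩
  have hQ' : ∀ l, Q l ↔ ∀ τ ∈ P, Av (patOf τ) l := by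
    intro l
    rw [hQ]
  rw [← hQ]
  unfold b cnt
  apply Finset.card_bij (fun σ _ => toWord σ)
  · intro σ hσ
    have hσ' := Finset.mem_filter.1 hσ
    obtain ⟨_, h1, h2⟩ := hσ'
    refine Finset.mem_filter.2 ⟨toWord_mem σ, ?_, ?_⟩
    · rw [hQ']
      intro τ hτ
      by_contra hc
      exact h1 τ hτ ((contains_iff σ τ).2 hc)
    · rw [bd_toWord, h2]
  · intro σ _ τ _ h
    exact toWord_injective n h
  · intro l hl
    have hl' := Finset.mem_filter.1 hl
    obtain ⟨h0, h1, h2⟩ := hl'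
    obtain ⟨σ, rfl⟩ := toWord_surj h0
    refine ⟨σ, ?_, rfl⟩
    refine Finset.mem_filter.2 ⟨Finset.mem_univ _, ?_, ?_⟩
    · intro τ hτ hc
      exact (contains_iff σ τ).1 hc ((hQ' _).1 h1 τ hτ)
    · rw [← bd_toWord, h2]

end BD
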