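import Mathlib

/-!
# Row BD-QUAD : quadratic equations for power series
-/

namespace BD

open PowerSeries

/-- the truncated Catalan polynomial satisfies the quadratic equation up to high order -/
theorem catPoly_dvd {R : Type*} [CommRing R] (N : ℕ) (z : R) :
    z ^ (N + 1) ∣ 1 + z * (∑ j ∈ Finset.range (N + 1), (catalan j : R) * z ^ j) ^ 2
      - ∑ j ∈ Finset.range (N + 1), (catalan j : R) * z ^ j := by
  classical
  set p : Polynomial R := ∑ j ∈ Finset.range (N + 1), Polynomial.C (catalan j : R) * Polynomial.X ^ j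
    with hp
  have hcoef : ∀ d, p.coeff d = if d < N + 1 then (catalan d : R) else 0 := by
    intro d
    rw [hp, Polynomial.finsetSum_coeff]
    simp only [Polynomial.coeff_C_mul_X_pow]
    rw [Finset.sum_ite_eq]
    simp
  have h1 : (Polynomial.X : Polynomial R) ^ (N + 1) ∣ 1 + Polynomial.X * p ^ 2 - p := by
    rw [Polynomial.X_pow_dvd_iff]
    intro d hd
    rcases d with _ | d
    · simp [hcoef, Polynomial.coeff_one]
    · rw [Polynomial.coeff_sub, Polynomial.coeff_add, Polynomial.coeff_X_mul, pow_two,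
        Polynomial.coeff_mul, hcoef (d + 1), if_pos hd, catalan_succ', Polynomial.coeff_one]
      push_cast
      rw [zero_add, sub_eq_zero]
      refine Finset.sum_congr rfl ?_
      rintro ⟨i, j⟩ hij
      have := Finset.HasAntidiagonal.mem_antidiagonal.1 hij
      simp only at this ⊢
      rw [hcoef, hcoef, if_pos (by omega), if_pos (by omega)]
  have h2 := map_dvd (Polynomial.evalRingHom z) h1
  have he : Polynomial.evalRingHom z p
      = ∑ j ∈ Finset.range (N + 1), (catalan j : R) * z ^ j := by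
    rw [hp, map_sum]
    refine Finset.sum_congr rfl ?_
    intro j _
    simp
  rw [map_sub, map_add, map_mul, map_pow, map_pow, he, map_one] at h2
  simpa using h2

/-- The solution of `D G = X + X E G²` is `G = Σ_j Cat_j X^{2j+1} E^j D^{-(2j+1)}`.

Proof.  Put `z = X² E Di²`, `H = Σ_{j ≤ N} Cat_j X^{2j+1} E^j Di^{2j+1} = X Di c`,
`c = Σ_{j ≤ N} Cat_j z^j`.  Then `D H = X c` and `X E H² = X z c²`, and
`1 + z c² - c` is divisible by `z^{N+1}` (`catalan_succ`: the coefficient of `z^{j+1}` in `z c²`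
is `Σ_{i ≤ j} Cat_i Cat_{j-i} = Cat_{j+1}` for `j ≤ N`), so `D H - X - X E H²` is divisible by
`X^{2N+3}`.  Subtracting: `(G - H) (D - X E (G + H))` is divisible by `X^{2N+3}`, and
`D - X E (G+H)` is a unit (its constant coefficient is that of `D`, a unit as `D Di = 1`).
So `coeff n G = coeff n H` for `n ≤ 2N+2`; take `N = n`. -/
theorem quad_solution {R : Type*} [CommRing R] (D Di E G : R⟦X⟧) (hD : D * Di = 1)
    (hG : D * G = X + X * E * G ^ 2) (n : ℕ) :
    coeff n G = ∑ j ∈ Finset.range (n + 1),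
      (catalan j : R) * coeff n (X ^ (2 * j + 1) * E ^ j * Di ^ (2 * j + 1)) := by
  classical
  set z : R⟦X⟧ := X ^ 2 * E * Di ^ 2 with hz
  set c : R⟦X⟧ := ∑ j ∈ Finset.range (n + 1), (catalan j : R⟦X⟧) * z ^ j with hc
  set H : R⟦X⟧ := X * Di * c with hH
  have hcd : z ^ (n + 1) ∣ 1 + z * c ^ 2 - c := catPoly_dvd n z
  have hzd : (X : R⟦X⟧) ^ (n + 1) ∣ z ^ (n + 1) := by
    apply pow_dvd_pow_of_dvd
    exact ⟨X * E * Di ^ 2, by rw [hz]; ring⟩
  have hDH : D * H = X * c := by
    rw [hH]
    calc D * (X * Di * c) = (D * Di) * (X * c) := by ring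
      _ = X * c := by rw [hD, one_mul]
  have hEH : X * E * H ^ 2 = X * (z * c ^ 2) := by
    rw [hH, hz]; ring
  have hprod : (G - H) * (D - X * E * (G + H)) = X * (1 + z * c ^ 2 - c) := by
    have : (G - H) * (D - X * E * (G + H)) = (D * G - X * E * G ^ 2) - (D * H - X * E * H ^ 2) := by
      ring
    rw [this, hG, hDH, hEH]
    ring
  have hunit : IsUnit (D - X * E * (G + H)) := by
    rw [PowerSeries.isUnit_iff_constantCoeff]
    have h1 : constantCoeff (D - X * E * (G + H)) = constantCoeff D := by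
      simp
    rw [h1]
    have h2 : IsUnit D := IsUnit.of_mul_eq_one Di hD
    exact h2.map _
  have hdvd : (X : R⟦X⟧) ^ (n + 1) ∣ G - H := by
    have h1 : (X : R⟦X⟧) ^ (n + 1) ∣ (G - H) * (D - X * E * (G + H)) := by
      rw [hprod]
      exact (hzd.trans hcd).mul_left _
    exact (hunit.dvd_mul_right).1 h1
  have hco : coeff n G = coeff n H := by
    have := (X_pow_dvd_iff.1 hdvd) n (Nat.lt_succ_self n)
    rw [map_sub, sub_eq_zero] at this
    exact this
  rw [hco, hH, hc, Finset.mul_sum, map_sum]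
  refine Finset.sum_congr rfl ?_
  intro j _
  have : X * Di * ((catalan j : R⟦X⟧) * z ^ j)
      = C (catalan j : R) * (X ^ (2 * j + 1) * E ^ j * Di ^ (2 * j + 1)) := by
    rw [hz, map_natCast]
    ring
  rw [this, coeff_C_mul]

/-- existence of the solution of `a = c + X (c1 a + c2 a²)`.
Proof: iterate `Φ(a) = c + X (c1 a + c2 a²)` starting from `0`; the coefficient of degree `n` of
`Φ^[m] 0` is constant for `m > n` (two series agreeing up to degree `n` have images agreeing up
to degree `n+1`); take the limit coefficientwise. -/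
theorem quad_exists {R : Type*} [CommRing R] (c c1 c2 : R⟦X⟧) :
    ∃ a : R⟦X⟧, a = c + X * (c1 * a + c2 * a ^ 2) := by
  classical
  set Φ : R⟦X⟧ → R⟦X⟧ := fun a => c + X * (c1 * a + c2 * a ^ 2) with hΦ
  have hstep : ∀ (m : ℕ) (a b : R⟦X⟧), X ^ m ∣ a - b → X ^ (m + 1) ∣ Φ a - Φ b := by
    intro m a b hab
    have : Φ a - Φ b = X * ((a - b) * (c1 + c2 * (a + b))) := by
      simp only [hΦ]; ring
    rw [this, pow_succ']
    exact mul_dvd_mul_left _ (hab.mul_right _)
  set f : ℕ → R⟦X⟧ := fun m => Φ^[m] 0 with hf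
  have hfs : ∀ m, f (m + 1) = Φ (f m) := fun m => Function.iterate_succ_apply' Φ m 0
  have h1 : ∀ m, X ^ m ∣ f (m + 1) - f m := by
    intro m
    induction m with
    | zero => simp
    | succ m ih =>
      rw [hfs (m + 1), hfs m]
      have := hstep m (f (m + 1)) (f m) ih
      rwa [hfs m] at this
  have h2 : ∀ m k, X ^ m ∣ f (m + k) - f m := by
    intro m k
    induction k with
    | zero => simp
    | succ k ih =>
      have h3 : X ^ m ∣ f (m + k + 1) - f (m + k) := (pow_dvd_pow X (Nat.le_add_right m k)).trans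
        (h1 (m + k))
      have := dvd_add h3 ih
      rw [sub_add_sub_cancel] at this
      exact this
  set a : R⟦X⟧ := PowerSeries.mk (fun n => coeff n (f (n + 1))) with ha
  have h4 : ∀ m, X ^ m ∣ a - f m := by
    intro m
    rw [X_pow_dvd_iff]
    intro n hn
    rw [map_sub, ha, coeff_mk]
    obtain ⟨k, rfl⟩ : ∃ k, m = n + 1 + k := ⟨m - (n + 1), by omega⟩
    have := (X_pow_dvd_iff.1 (h2 (n + 1) k)) n (Nat.lt_succ_self n)
    rw [map_sub] at this
    rw [← neg_sub, this, neg_zero]
  refine ⟨a, ?_⟩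
  have h5 : ∀ m, X ^ m ∣ a - Φ a := by
    intro m
    have e1 := h4 (m + 1)
    have e2 := hstep m (f m) a (by rw [← neg_sub]; exact (h4 m).neg_right)
    rw [← hfs] at e2
    have := dvd_add ((pow_dvd_pow X (Nat.le_succ m)).trans e1)
      ((pow_dvd_pow X (Nat.le_succ m)).trans e2)
    rwa [sub_add_sub_cancel] at this
  have h6 : a - Φ a = 0 := by
    ext n
    have := (X_pow_dvd_iff.1 (h5 (n + 1))) n (Nat.lt_succ_self n)
    rw [this, map_zero]
  exact sub_eq_zero.1 h6

/-- uniqueness: `(a - b) (1 - X (c1 + c2 (a+b))) = 0` and the second factor is a unit -/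
theorem quad_unique {R : Type*} [CommRing R] (c c1 c2 a b : R⟦X⟧)
    (ha : a = c + X * (c1 * a + c2 * a ^ 2)) (hb : b = c + X * (c1 * b + c2 * b ^ 2)) :
    a = b := by
  have h1 : (a - b) * (1 - X * (c1 + c2 * (a + b))) = 0 := by
    have : (a - b) * (1 - X * (c1 + c2 * (a + b)))
        = (a - (c + X * (c1 * a + c2 * a ^ 2))) - (b - (c + X * (c1 * b + c2 * b ^ 2))) := by
      ring
    rw [this, ← ha, ← hb]
    ring
  have hunit : IsUnit (1 - X * (c1 + c2 * (a + b))) := by
    rw [PowerSeries.isUnit_iff_constantCoeff]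
    simp
  exact sub_eq_zero.1 ((hunit.mul_left_eq_zero).1 h1)

end BD
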