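import Pool.Agent.MP_8b309d_co.E132
import Pool.Agent.MP_8b309d_co.CQuad

/-!
# Row BD-C132GF : explicit formula for the class {132}
-/

namespace BD

open Finset Polynomial

/-- generating function `Σ_{n ≥ 1} A_n x^n` with coefficients in `ℚ[t]` -/
noncomputable def G132 : PowerSeries ℚ[X] :=
  PowerSeries.mk (fun n => if n = 0 then 0 else AA (Av p132) n)

/-- `D = (1-x)² - t x²` -/
noncomputable def D132 : PowerSeries ℚ[X] :=
  (1 - PowerSeries.X) ^ 2 - PowerSeries.C (X : ℚ[X]) * PowerSeries.X ^ 2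

/-- `L = 1 - x + t x` -/
noncomputable def L132 : PowerSeries ℚ[X] :=
  1 - PowerSeries.X + PowerSeries.C (X : ℚ[X]) * PowerSeries.X

/-- generating function of the words starting with their maximum -/
noncomputable def cgf_H : PowerSeries ℚ[X] :=
  PowerSeries.mk (fun n => if n = 0 then 0 else MM (Av p132) n)

theorem cgf_HL : cgf_H * L132
    = PowerSeries.X + PowerSeries.C (X : ℚ[X]) * PowerSeries.X * G132 := by
  ext1 n
  have e1 : cgf_H * L132 = cgf_H + (PowerSeries.C (X : ℚ[X]) - 1) * (PowerSeries.X * cgf_H) := by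
    unfold L132; ring
  rw [e1, mul_assoc (PowerSeries.C (X : ℚ[X]))]
  rw [show (PowerSeries.C (X : ℚ[X]) - 1 : PowerSeries ℚ[X]) = PowerSeries.C ((X : ℚ[X]) - 1) by
    rw [map_sub, map_one]]
  rw [map_add, map_add, PowerSeries.coeff_C_mul, PowerSeries.coeff_C_mul]
  rcases n with _ | n
  · simp [cgf_H, PowerSeries.coeff_zero_X_mul]
  · rw [PowerSeries.coeff_succ_X_mul, PowerSeries.coeff_succ_X_mul]
    rcases n with _ | n
    · simp only [cgf_H, G132, PowerSeries.coeff_mk]
      rw [show (0 + 1 : ℕ) = 1 from rfl, PowerSeries.coeff_one_X,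
        MM_one _ (Av_singleton p132 0)]
      simp
    · simp only [cgf_H, G132, PowerSeries.coeff_mk]
      rw [PowerSeries.coeff_X, if_neg (by omega : ¬ (n + 1 + 1 = 0)), if_neg (by omega : ¬ (n + 1 = 0)),
        if_neg (by omega : ¬ (n + 1 + 1 = 1)), if_neg (by omega : ¬ (n + 1 = 0)),
        MM_rec (Av p132) hQ132 n]
      ring

theorem cgf_GG : G132 = cgf_H + PowerSeries.X * G132
    + PowerSeries.C (X : ℚ[X]) * (PowerSeries.X * G132 ^ 2) := by
  ext1 n
  rw [map_add, map_add, PowerSeries.coeff_C_mul]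
  rcases n with _ | n
  · simp [cgf_H, G132, PowerSeries.coeff_zero_X_mul]
  · rw [PowerSeries.coeff_succ_X_mul, PowerSeries.coeff_succ_X_mul]
    rcases n with _ | n
    · have h0 : PowerSeries.coeff 0 (G132 ^ 2) = 0 := by
        rw [PowerSeries.coeff_zero_eq_constantCoeff_apply, map_pow,
          ← PowerSeries.coeff_zero_eq_constantCoeff_apply]
        simp [G132]
      rw [h0]
      simp only [cgf_H, G132, PowerSeries.coeff_mk]
      rw [show (0 + 1 : ℕ) = 1 from rfl, MM_one _ (Av_singleton p132 0),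
        AA_one _ (Av_singleton p132 0)]
      simp
    · have h2 : PowerSeries.coeff (n + 1) (G132 ^ 2)
          = ∑ r ∈ Finset.Icc 1 n, AA (Av p132) (n + 1 - r) * AA (Av p132) r := by
        rw [pow_two, PowerSeries.coeff_mul,
          Finset.Nat.sum_antidiagonal_eq_sum_range_succ_mk, ← Finset.sum_range_reflect]
        have h3 : Finset.Icc 1 n ⊆ Finset.range (n + 1 + 1) := by
          intro r hr
          rw [Finset.mem_Icc] at hr
          rw [Finset.mem_range]; omega
        rw [← Finset.sum_subset h3]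
        · refine Finset.sum_congr rfl fun r hr => ?_
          rw [Finset.mem_Icc] at hr
          simp only [G132, PowerSeries.coeff_mk]
          rw [if_neg (by omega : ¬ (n + 1 + 1 - 1 - r = 0)),
            if_neg (by omega : ¬ (n + 1 - (n + 1 + 1 - 1 - r) = 0))]
          rw [show n + 1 + 1 - 1 - r = n + 1 - r by omega,
            show n + 1 - (n + 1 - r) = r by omega]
        · intro r hr hr'
          rw [Finset.mem_range] at hr
          rw [Finset.mem_Icc] at hr'
          simp only [G132, PowerSeries.coeff_mk]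
          by_cases h4 : r = 0
          · rw [if_pos (by omega : n + 1 - (n + 1 + 1 - 1 - r) = 0), mul_zero]
          · rw [if_pos (by omega : n + 1 + 1 - 1 - r = 0), zero_mul]
      rw [h2]
      simp only [cgf_H, G132, PowerSeries.coeff_mk]
      rw [if_neg (by omega : ¬ (n + 1 + 1 = 0)), if_neg (by omega : ¬ (n + 1 + 1 = 0)),
        if_neg (by omega : ¬ (n + 1 = 0)), rec132 n]

/-- `D G = x + x (t L) G²`.
Proof.  `H = Σ_{n ≥ 1} M_n x^n` satisfies `H L = x + t x G` (`MM_rec`, `MM_one`), and `rec132`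
(with `AA_one`) gives `G = H + x G + t x G²`.  So `(1-x) L G = x + t x G + t x L G²` and
`(1-x) L - t x = D`. -/
theorem gf132 : D132 * G132
    = PowerSeries.X + PowerSeries.X * (PowerSeries.C (X : ℚ[X]) * L132) * G132 ^ 2 := by
  have h1 : (1 - PowerSeries.X) * G132 = cgf_H
      + PowerSeries.C (X : ℚ[X]) * (PowerSeries.X * G132 ^ 2) := by
    have := cgf_GG
    linear_combination this
  have h2 : (1 - PowerSeries.X) * L132 * G132 = PowerSeries.X
      + PowerSeries.C (X : ℚ[X]) * PowerSeries.X * G132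
      + PowerSeries.C (X : ℚ[X]) * L132 * (PowerSeries.X * G132 ^ 2) := by
    have h3 := cgf_HL
    linear_combination L132 * h1 + h3
  have h4 : D132 = (1 - PowerSeries.X) * L132 - PowerSeries.C (X : ℚ[X]) * PowerSeries.X := by
    unfold D132 L132; ring
  rw [h4]
  linear_combination h2

/-- the explicit numbers -/
def b132 (n k : ℕ) : ℕ :=
  ∑ j ∈ range (k + 1), catalan j * ∑ p ∈ range (k - j + 1),
    j.choose p * (2 * j + (k - j - p)).choose (k - j - p)
      * (n + j).choose (3 * j + 1 + 2 * (k - j) - p)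

/-- one step of the truncated negative binomial series -/
theorem cgf_step {R : Type*} [CommRing R] (z : R) (m N : ℕ) :
    (1 - z) * ∑ i ∈ range N, (((m + 1 + i).choose (m + 1) : ℕ) : R) * z ^ i
      = ∑ i ∈ range N, (((m + i).choose m : ℕ) : R) * z ^ i
        - (((m + N).choose (m + 1) : ℕ) : R) * z ^ N := by
  induction N with
  | zero => simp
  | succ N ih =>
    rw [Finset.sum_range_succ, Finset.sum_range_succ, mul_add, ih]
    have h1 : (((m + 1 + N).choose (m + 1) : ℕ) : R)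
        = (((m + N).choose m : ℕ) : R) + (((m + N).choose (m + 1) : ℕ) : R) := by
      rw [show m + 1 + N = m + N + 1 by omega, Nat.choose_succ_succ]
      push_cast; rfl
    rw [show m + (N + 1) = m + 1 + N by omega, h1, pow_succ]
    ring

/-- truncated negative binomial series -/
theorem cgf_trunc {R : Type*} [CommRing R] (z : R) (m N : ℕ) :
    ∃ r : R, (1 - z) ^ (m + 1) * ∑ i ∈ range N, (((m + i).choose m : ℕ) : R) * z ^ i
      = 1 - z ^ N * r := by
  induction m with
  | zero =>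
    refine ⟨1, ?_⟩
    simp only [zero_add, Nat.choose_zero_right, Nat.cast_one, one_mul, pow_one, mul_one]
    exact mul_neg_geom_sum z N
  | succ m ih =>
    obtain ⟨r, hr⟩ := ih
    refine ⟨r + (1 - z) ^ (m + 1) * (((m + N).choose (m + 1) : ℕ) : R), ?_⟩
    rw [pow_succ, mul_assoc, cgf_step, mul_sub, hr]
    ring

theorem cgf_trunc' {R : Type*} [CommRing R] (z v : R) (hv : (1 - z) * v = 1) (m N : ℕ) :
    ∃ r : R, v ^ (m + 1) = ∑ i ∈ range N, (((m + i).choose m : ℕ) : R) * z ^ i + z ^ N * r := by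
  obtain ⟨r, hr⟩ := cgf_trunc z m N
  refine ⟨r * v ^ (m + 1), ?_⟩
  have h1 : (1 - z) ^ (m + 1) * v ^ (m + 1) = 1 := by rw [← mul_pow, hv, one_pow]
  calc v ^ (m + 1) = v ^ (m + 1) * (1 - z ^ N * r) + z ^ N * (r * v ^ (m + 1)) := by ring
    _ = v ^ (m + 1) * ((1 - z) ^ (m + 1) * ∑ i ∈ range N, (((m + i).choose m : ℕ) : R) * z ^ i)
        + z ^ N * (r * v ^ (m + 1)) := by rw [hr]
    _ = ((1 - z) ^ (m + 1) * v ^ (m + 1)) * ∑ i ∈ range N, (((m + i).choose m : ℕ) : R) * z ^ i
        + z ^ N * (r * v ^ (m + 1)) := by ring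
    _ = _ := by rw [h1, one_mul]

/-- the series `(1 - x)⁻¹` -/
noncomputable def cgf_u : PowerSeries ℚ[X] := PowerSeries.mk 1

theorem cgf_u_mul : cgf_u * (1 - PowerSeries.X) = 1 := PowerSeries.mk_one_mul_one_sub_eq_one _

/-- coefficients of `x^a u^(a+j+1)` -/
theorem cgf_coeff_u (n a j : ℕ) :
    PowerSeries.coeff n (PowerSeries.X ^ a * cgf_u ^ (a + j + 1) : PowerSeries ℚ[X])
      = (((n + j).choose (a + j) : ℕ) : ℚ[X]) := by
  rw [PowerSeries.coeff_X_pow_mul']
  unfold cgf_u
  rw [PowerSeries.mk_one_pow_eq_mk_choose_add, PowerSeries.coeff_mk]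
  split_ifs with h
  · rw [show a + j + (n - a) = n + j by omega]
  · rw [Nat.choose_eq_zero_of_lt (by omega), Nat.cast_zero]

theorem cgf_upow (j p i : ℕ) (hp : p ≤ j) :
    (1 - PowerSeries.X : PowerSeries ℚ[X]) ^ (j - p) * cgf_u ^ (4 * j + 2 + 2 * i)
      = cgf_u ^ ((2 * j + 1 + p + 2 * i) + j + 1) := by
  have h1 : 4 * j + 2 + 2 * i = (j - p) + ((2 * j + 1 + p + 2 * i) + j + 1) := by omega
  rw [h1, pow_add, ← mul_assoc, ← mul_pow, mul_comm (1 - PowerSeries.X), cgf_u_mul, one_pow,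
    one_mul]

/-- the finite double sum -/
theorem cgf_expand (Di : PowerSeries ℚ[X]) (hD : D132 * Di = 1) (j N : ℕ) :
    ∃ r : PowerSeries ℚ[X], PowerSeries.X ^ (2 * j + 1)
      * (PowerSeries.C (X : ℚ[X]) * L132) ^ j * Di ^ (2 * j + 1)
      = ∑ p ∈ range (j + 1), ∑ i ∈ range N,
          PowerSeries.C (X ^ (j + p + i) * ((j.choose p * (2 * j + i).choose (2 * j) : ℕ) : ℚ[X]))
            * (PowerSeries.X ^ (2 * j + 1 + p + 2 * i)
              * cgf_u ^ ((2 * j + 1 + p + 2 * i) + j + 1))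
        + PowerSeries.X ^ N * r := by
  have hu := cgf_u_mul
  have hv : (1 - PowerSeries.C (X : ℚ[X]) * PowerSeries.X ^ 2 * cgf_u ^ 2)
      * ((1 - PowerSeries.X) ^ 2 * Di) = 1 := by
    have h1 : cgf_u ^ 2 * (1 - PowerSeries.X) ^ 2 = 1 := by rw [← mul_pow, hu, one_pow]
    calc (1 - PowerSeries.C (X : ℚ[X]) * PowerSeries.X ^ 2 * cgf_u ^ 2)
          * ((1 - PowerSeries.X) ^ 2 * Di)
        = ((1 - PowerSeries.X) ^ 2 - PowerSeries.C (X : ℚ[X]) * PowerSeries.X ^ 2
            * (cgf_u ^ 2 * (1 - PowerSeries.X) ^ 2)) * Di := by ring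
      _ = D132 * Di := by rw [h1, mul_one]; rfl
      _ = 1 := hD
  obtain ⟨r, hr⟩ := cgf_trunc' _ _ hv (2 * j) N
  have hDi : Di ^ (2 * j + 1) = cgf_u ^ (4 * j + 2) * ((1 - PowerSeries.X) ^ 2 * Di) ^ (2 * j + 1) := by
    have h2 : Di = cgf_u ^ 2 * ((1 - PowerSeries.X) ^ 2 * Di) := by
      rw [← mul_assoc, ← mul_pow, hu, one_pow, one_mul]
    calc Di ^ (2 * j + 1) = (cgf_u ^ 2 * ((1 - PowerSeries.X) ^ 2 * Di)) ^ (2 * j + 1) := by
          rw [← h2]
      _ = cgf_u ^ (4 * j + 2) * ((1 - PowerSeries.X) ^ 2 * Di) ^ (2 * j + 1) := by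
          rw [mul_pow, ← pow_mul]; congr 2; ring
  have hL : L132 ^ j = ∑ p ∈ range (j + 1), (PowerSeries.C (X : ℚ[X]) * PowerSeries.X) ^ p
      * (1 - PowerSeries.X) ^ (j - p) * ((j.choose p : ℕ) : PowerSeries ℚ[X]) := by
    rw [← add_pow]; congr 1; unfold L132; ring
  rw [hDi, hr, mul_pow, hL]
  refine ⟨PowerSeries.X ^ (2 * j + 1) * (PowerSeries.C (X : ℚ[X]) ^ j
    * ∑ p ∈ range (j + 1), (PowerSeries.C (X : ℚ[X]) * PowerSeries.X) ^ p
      * (1 - PowerSeries.X) ^ (j - p) * ((j.choose p : ℕ) : PowerSeries ℚ[X]))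
    * cgf_u ^ (4 * j + 2) * (PowerSeries.C (X : ℚ[X]) ^ N * PowerSeries.X ^ N * cgf_u ^ (2 * N) * r),
    ?_⟩
  have hz : (PowerSeries.C (X : ℚ[X]) * PowerSeries.X ^ 2 * cgf_u ^ 2) ^ N * r
      = PowerSeries.X ^ N *
        (PowerSeries.C (X : ℚ[X]) ^ N * PowerSeries.X ^ N * cgf_u ^ (2 * N) * r) := by
    rw [mul_pow, mul_pow, ← pow_mul, ← pow_mul]
    rw [show 2 * N = N + N by ring, pow_add, pow_add]; ring
  rw [hz]
  have hmain : PowerSeries.X ^ (2 * j + 1) * (PowerSeries.C (X : ℚ[X]) ^ j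
    * ∑ p ∈ range (j + 1), (PowerSeries.C (X : ℚ[X]) * PowerSeries.X) ^ p
      * (1 - PowerSeries.X) ^ (j - p) * ((j.choose p : ℕ) : PowerSeries ℚ[X]))
    * (cgf_u ^ (4 * j + 2) * ∑ i ∈ range N, (((2 * j + i).choose (2 * j) : ℕ) : PowerSeries ℚ[X])
        * (PowerSeries.C (X : ℚ[X]) * PowerSeries.X ^ 2 * cgf_u ^ 2) ^ i)
    = ∑ p ∈ range (j + 1), ∑ i ∈ range N,
          PowerSeries.C (X ^ (j + p + i) * ((j.choose p * (2 * j + i).choose (2 * j) : ℕ) : ℚ[X]))
            * (PowerSeries.X ^ (2 * j + 1 + p + 2 * i)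
              * cgf_u ^ ((2 * j + 1 + p + 2 * i) + j + 1)) := by
    rw [Finset.mul_sum, Finset.mul_sum, Finset.mul_sum, Finset.sum_mul]
    refine Finset.sum_congr rfl fun p hp => ?_
    rw [Finset.mul_sum]
    refine Finset.sum_congr rfl fun i _ => ?_
    have hp' : p ≤ j := by rw [Finset.mem_range] at hp; omega
    rw [← cgf_upow j p i hp']
    have hc : (PowerSeries.C (X ^ (j + p + i)
        * ((j.choose p * (2 * j + i).choose (2 * j) : ℕ) : ℚ[X])) : PowerSeries ℚ[X])
        = PowerSeries.C (X : ℚ[X]) ^ (j + p + i) * (((j.choose p : ℕ) : PowerSeries ℚ[X])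
          * (((2 * j + i).choose (2 * j) : ℕ) : PowerSeries ℚ[X])) := by
      rw [map_mul, map_pow, map_natCast]; push_cast; rfl
    rw [hc]
    simp only [mul_pow, pow_add, pow_mul]
    ring
  rw [← hmain]
  ring

/-- Coefficient extraction.  `L^j = Σ_p C(j,p) t^p x^p (1-x)^{j-p}`,
`D^{-(2j+1)} = Σ_i C(2j+i,i) t^i x^{2i} (1-x)^{-(4j+2+2i)}`; the coefficient of
`t^k` in `x^{2j+1} t^j L^j D^{-(2j+1)}` is
`Σ_{p+i=k-j} C(j,p) C(2j+i,i) x^{2j+1+p+2i} (1-x)^{-(3j+2+p+2i)}` whose coefficient of `x^n` is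
`C(n+j, 3j+1+p+2i)` for `n ≥ 1` (`p + 2 i = 2(k-j) - p`). -/
theorem coeff132 (Di : PowerSeries ℚ[X]) (hD : D132 * Di = 1) (j n k : ℕ) (hn : 1 ≤ n) :
    (PowerSeries.coeff n (PowerSeries.X ^ (2 * j + 1)
      * (PowerSeries.C (X : ℚ[X]) * L132) ^ j * Di ^ (2 * j + 1))).coeff k
      = if j ≤ k then ((∑ p ∈ range (k - j + 1),
          j.choose p * (2 * j + (k - j - p)).choose (k - j - p)
            * (n + j).choose (3 * j + 1 + 2 * (k - j) - p) : ℕ) : ℚ) else 0 := by
  obtain ⟨r, hr⟩ := cgf_expand Di hD j (n + k + 1)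
  rw [hr, map_add, PowerSeries.coeff_X_pow_mul', if_neg (by omega), add_zero, map_sum]
  simp only [map_sum, PowerSeries.coeff_C_mul, cgf_coeff_u]
  rw [Polynomial.finsetSum_coeff]
  simp only [Polynomial.finsetSum_coeff]
  have hterm : ∀ p i : ℕ, (X ^ (j + p + i) * ((j.choose p * (2 * j + i).choose (2 * j) : ℕ) : ℚ[X])
      * (((n + j).choose (2 * j + 1 + p + 2 * i + j) : ℕ) : ℚ[X])).coeff k
      = if k = j + p + i then ((j.choose p * (2 * j + i).choose i
        * (n + j).choose (3 * j + 1 + p + 2 * i) : ℕ) : ℚ) else 0 := by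
    intro p i
    have h1 : (X ^ (j + p + i) * ((j.choose p * (2 * j + i).choose (2 * j) : ℕ) : ℚ[X])
      * (((n + j).choose (2 * j + 1 + p + 2 * i + j) : ℕ) : ℚ[X]))
      = Polynomial.C ((j.choose p * (2 * j + i).choose i
        * (n + j).choose (3 * j + 1 + p + 2 * i) : ℕ) : ℚ) * X ^ (j + p + i) := by
      rw [show 2 * j + 1 + p + 2 * i + j = 3 * j + 1 + p + 2 * i by ring,
        show (2 * j + i).choose (2 * j) = (2 * j + i).choose i from by
          rw [← Nat.choose_symm_add]]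
      rw [Polynomial.C_eq_natCast]
      push_cast; ring
    rw [h1, Polynomial.coeff_C_mul_X_pow]
  simp only [hterm]
  by_cases hjk : j ≤ k
  · rw [if_pos hjk]
    have hin : ∀ p ∈ range (j + 1), ∑ i ∈ range (n + k + 1),
        (if k = j + p + i then ((j.choose p * (2 * j + i).choose i
          * (n + j).choose (3 * j + 1 + p + 2 * i) : ℕ) : ℚ) else 0)
        = if p ≤ k - j then ((j.choose p * (2 * j + (k - j - p)).choose (k - j - p)
          * (n + j).choose (3 * j + 1 + 2 * (k - j) - p) : ℕ) : ℚ) else 0 := by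
      intro p _
      by_cases hp : p ≤ k - j
      · rw [if_pos hp, Finset.sum_eq_single (k - j - p)]
        · rw [if_pos (by omega), show 3 * j + 1 + p + 2 * (k - j - p) = 3 * j + 1 + 2 * (k - j) - p by
            omega]
        · intro i _ hi
          rw [if_neg (by omega)]
        · intro hi
          rw [Finset.mem_range] at hi
          omega
      · rw [if_neg hp]
        refine Finset.sum_eq_zero fun i _ => ?_
        rw [if_neg (by omega)]
    rw [Finset.sum_congr rfl hin]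
    push_cast
    have hb : ∀ p, (if p ≤ k - j then ((j.choose p : ℚ) * ((2 * j + (k - j - p)).choose (k - j - p) : ℚ)
          * ((n + j).choose (3 * j + 1 + 2 * (k - j) - p) : ℚ)) else 0)
        = if p < k - j + 1 then ((j.choose p : ℚ) * ((2 * j + (k - j - p)).choose (k - j - p) : ℚ)
          * ((n + j).choose (3 * j + 1 + 2 * (k - j) - p) : ℚ)) else 0 := by
      intro p
      by_cases hp : p ≤ k - j
      · rw [if_pos hp, if_pos (by omega)]
      · rw [if_neg hp, if_neg (by omega)]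
    simp only [hb]
    rw [← Finset.sum_filter]
    have hsub : (range (j + 1)).filter (fun p => p < k - j + 1) ⊆ range (k - j + 1) := by
      intro p hp
      rw [Finset.mem_filter] at hp
      exact Finset.mem_range.2 hp.2
    refine Finset.sum_subset hsub fun p hp hp' => ?_
    rw [Finset.mem_range] at hp
    rw [Finset.mem_filter, Finset.mem_range] at hp'
    rw [Nat.choose_eq_zero_of_lt (by omega : j < p)]
    simp
  · rw [if_neg hjk]
    refine Finset.sum_eq_zero fun p _ => Finset.sum_eq_zero fun i _ => ?_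
    rw [if_neg (by omega)]

/-- explicit formula (from `quad_solution`, `gf132`, `coeff132`; `D132` is invertible as its
constant coefficient is `1`) -/
theorem AA132_formula (n k : ℕ) (hn : 1 ≤ n) :
    (AA (Av p132) n).coeff k = (b132 n k : ℚ) := by
  have hunit : IsUnit D132 := by
    rw [PowerSeries.isUnit_iff_constantCoeff]
    have : PowerSeries.constantCoeff D132 = 1 := by
      simp [D132]
    rw [this]; exact isUnit_one
  obtain ⟨Di, hDi⟩ := hunit.exists_right_inv
  have h1 : AA (Av p132) n = PowerSeries.coeff n G132 := by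
    simp only [G132, PowerSeries.coeff_mk]
    rw [if_neg (by omega)]
  rw [h1, quad_solution D132 Di _ G132 hDi gf132 n, Polynomial.finsetSum_coeff]
  have h2 : ∀ j ∈ range (n + 1), (((catalan j : ℕ) : ℚ[X]) * PowerSeries.coeff n
      (PowerSeries.X ^ (2 * j + 1) * (PowerSeries.C (X : ℚ[X]) * L132) ^ j * Di ^ (2 * j + 1))).coeff k
      = if j ≤ k then ((catalan j * ∑ p ∈ range (k - j + 1),
          j.choose p * (2 * j + (k - j - p)).choose (k - j - p)
            * (n + j).choose (3 * j + 1 + 2 * (k - j) - p) : ℕ) : ℚ) else 0 := by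
    intro j _
    rw [← Polynomial.C_eq_natCast, Polynomial.coeff_C_mul, coeff132 Di hDi j n k hn]
    split_ifs with h
    · rw [Nat.cast_mul]
    · rw [mul_zero]
  rw [Finset.sum_congr rfl h2, ← Finset.sum_filter]
  unfold b132
  rw [Nat.cast_sum]
  have hsub : (range (n + 1)).filter (fun j => j ≤ k) ⊆ range (k + 1) := by
    intro j hj
    rw [Finset.mem_filter] at hj
    rw [Finset.mem_range]; omega
  refine Finset.sum_subset hsub fun j hj hj' => ?_
  rw [Finset.mem_range] at hj
  rw [Finset.mem_filter, Finset.mem_range] at hj'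
  have hnj : n < j := by
    by_contra h
    exact hj' ⟨by omega, by omega⟩
  rw [Finset.sum_eq_zero, mul_zero, Nat.cast_zero]
  intro p hp
  rw [Finset.mem_range] at hp
  rw [Nat.choose_eq_zero_of_lt (by omega : n + j < 3 * j + 1 + 2 * (k - j) - p), mul_zero]

end BD
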