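import Pool.Agent.MP_8b309d_co.C1Defs

/-!
# Row BD-C1A : properties of `f`
-/

namespace BD.C1

/-! ### relations between the values of `ch` -/

theorem c1a_ch_of_neg_left {a : ℤ} (k : ℤ) (h : a < 0) : ch a k = 0 := by
  unfold ch
  rw [if_neg]
  omega

theorem c1a_ch_of_neg_right (a : ℤ) {k : ℤ} (h : k < 0) : ch a k = 0 := by
  unfold ch
  rw [if_neg]
  omega

theorem c1a_ch_nat (a k : ℕ) : ch (a : ℤ) (k : ℤ) = (a.choose k : ℚ) := by
  unfold ch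
  rw [if_pos ⟨by omega, by omega⟩, Int.toNat_natCast, Int.toNat_natCast]

theorem c1a_ch_of_lt {a k : ℤ} (h : a < k) : ch a k = 0 := by
  unfold ch
  split_ifs with h1
  · rw [Nat.choose_eq_zero_of_lt (by omega)]
    simp
  · rfl

theorem ch_nonneg (a k : ℤ) : 0 ≤ ch a k := by
  unfold ch
  split_ifs
  · exact Nat.cast_nonneg _
  · exact le_rfl

/-- Pascal's rule fails only at `(0,0)` -/
theorem ch_pascal (a k : ℤ) (h : ¬ (a = -1 ∧ k = -1)) :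
    ch (a + 1) (k + 1) = ch a k + ch a (k + 1) := by
  by_cases ha : 0 ≤ a
  · by_cases hk : 0 ≤ k
    · obtain ⟨n, rfl⟩ := Int.eq_ofNat_of_zero_le ha
      obtain ⟨m, rfl⟩ := Int.eq_ofNat_of_zero_le hk
      have e1 : ((n : ℤ) + 1) = ((n + 1 : ℕ) : ℤ) := by push_cast; ring
      have e2 : ((m : ℤ) + 1) = ((m + 1 : ℕ) : ℤ) := by push_cast; ring
      rw [e1, e2, c1a_ch_nat, c1a_ch_nat, c1a_ch_nat, Nat.choose_succ_succ]
      push_cast
      ring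
    · by_cases hk1 : k = -1
      · subst hk1
        obtain ⟨n, rfl⟩ := Int.eq_ofNat_of_zero_le ha
        have e1 : ((n : ℤ) + 1) = ((n + 1 : ℕ) : ℤ) := by push_cast; ring
        have e2 : ((-1 : ℤ) + 1) = ((0 : ℕ) : ℤ) := by norm_num
        rw [e1, e2, c1a_ch_nat, c1a_ch_nat, c1a_ch_of_neg_right _ (by norm_num : (-1 : ℤ) < 0)]
        simp
      · rw [c1a_ch_of_neg_right _ (by omega : k + 1 < 0), c1a_ch_of_neg_right _ (by omega : k < 0),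
          c1a_ch_of_neg_right _ (by omega : k + 1 < 0), zero_add]
  · rw [c1a_ch_of_neg_left k (by omega), c1a_ch_of_neg_left (k + 1) (by omega : a < 0), zero_add]
    by_cases ha1 : a = -1
    · by_cases hk : k < -1
      · rw [c1a_ch_of_neg_right _ (by omega)]
      · rw [c1a_ch_of_lt]
        omega
    · rw [c1a_ch_of_neg_left _ (by omega)]

/-- `k C(a,k) = a C(a-1,k-1)` (fails at most for `a = 0`, `k = 0`, where both sides are 0) -/
theorem ch_absorb (a k : ℤ) : (k : ℚ) * ch a k = (a : ℚ) * ch (a - 1) (k - 1) := by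
  by_cases ha : 0 < a
  · by_cases hk : 0 < k
    · obtain ⟨n, hn⟩ : ∃ n : ℕ, a = ((n + 1 : ℕ) : ℤ) := ⟨(a - 1).toNat, by omega⟩
      obtain ⟨m, hm⟩ : ∃ m : ℕ, k = ((m + 1 : ℕ) : ℤ) := ⟨(k - 1).toNat, by omega⟩
      have e1 : a - 1 = (n : ℤ) := by omega
      have e2 : k - 1 = (m : ℤ) := by omega
      rw [e1, e2, hn, hm, c1a_ch_nat, c1a_ch_nat]
      have h := Nat.add_one_mul_choose_eq n m
      have h' : ((n + 1 : ℕ) : ℚ) * (n.choose m : ℚ) = ((n + 1).choose (m + 1) : ℚ) * ((m + 1 : ℕ) : ℚ) := by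
        exact_mod_cast h
      push_cast at h' ⊢
      linear_combination -h'
    · rw [c1a_ch_of_neg_right (a - 1) (by omega : k - 1 < 0), mul_zero]
      by_cases hk0 : k = 0
      · subst hk0
        simp
      · rw [c1a_ch_of_neg_right a (by omega : k < 0), mul_zero]
  · rw [c1a_ch_of_neg_left (k - 1) (by omega : a - 1 < 0), mul_zero]
    by_cases hk0 : k = 0
    · subst hk0
      simp
    · by_cases hk1 : k < 0
      · rw [c1a_ch_of_neg_right a hk1, mul_zero]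
      · rw [c1a_ch_of_lt (by omega : a < k), mul_zero]

/-- `(a - k) C(a,k) = a C(a-1,k)` for `k ≥ 0` -/
theorem ch_absorb' (a k : ℤ) : ((a - k : ℤ) : ℚ) * ch a k = (a : ℚ) * ch (a - 1) k := by
  have h1 := ch_absorb a k
  by_cases h : a - 1 = -1 ∧ k - 1 = -1
  · have ha : a = 0 := by omega
    have hk : k = 0 := by omega
    subst ha
    subst hk
    simp
  · have h2 := ch_pascal (a - 1) (k - 1) h
    have e1 : a - 1 + 1 = a := by ring
    have e2 : k - 1 + 1 = k := by ring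
    rw [e1, e2] at h2
    push_cast
    rw [h2] at h1 ⊢
    linear_combination -h1

theorem f_nonneg (k i : ℤ) : 0 ≤ f k i := ch_nonneg _ _

theorem f_supp {k i : ℤ} (h : f k i ≠ 0) : k ≤ 2 * i ∧ i ≤ k + 1 := by
  constructor
  · by_contra hc
    exact h (c1a_ch_of_neg_right _ (by omega))
  · by_contra hc
    exact h (c1a_ch_of_lt (by omega))

/-- `(m+1) C(a,m+1) = (a-m) C(a,m)` -/
theorem c1a_step (a m : ℤ) : ((m + 1 : ℤ) : ℚ) * ch a (m + 1) = ((a - m : ℤ) : ℚ) * ch a m := by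
  have h1 := ch_absorb a (m + 1)
  have h2 := ch_absorb' a m
  have e : m + 1 - 1 = m := by ring
  rw [e] at h1
  rw [h1, h2]

/-- `(2i-k+1) f_{k-1}(i) = (k+1-i) f_k(i)` -/
theorem c1a_R1 (k i : ℤ) : ((2 * i - k + 1 : ℤ) : ℚ) * f (k - 1) i = ((k + 1 - i : ℤ) : ℚ) * f k i := by
  have h := c1a_step (i + 1) (2 * i - k)
  unfold f
  have e1 : 2 * i - (k - 1) = 2 * i - k + 1 := by ring
  have e2 : i + 1 - (2 * i - k) = k + 1 - i := by ring
  rw [e1, h, e2]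

/-- `f_k(i+1) (2i-k+1)(2i-k+2) = (i+2)(k+1-i) f_k(i)` -/
theorem c1a_R3 (k i : ℤ) :
    ((2 * i - k + 1 : ℤ) : ℚ) * ((2 * i - k + 2 : ℤ) : ℚ) * f k (i + 1)
      = ((i + 2 : ℤ) : ℚ) * ((k + 1 - i : ℤ) : ℚ) * f k i := by
  have h1 := ch_absorb (i + 2) (2 * i - k + 2)
  have h2 := c1a_step (i + 1) (2 * i - k)
  unfold f
  have e1 : i + 1 + 1 = i + 2 := by ring
  have e2 : 2 * (i + 1) - k = 2 * i - k + 2 := by ring
  have e3 : i + 2 - 1 = i + 1 := by ring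
  have e4 : 2 * i - k + 2 - 1 = 2 * i - k + 1 := by ring
  have e5 : i + 1 - (2 * i - k) = k + 1 - i := by ring
  rw [e3, e4] at h1
  rw [e5] at h2
  rw [e1, e2]
  linear_combination ((2 * i - k + 1 : ℤ) : ℚ) * h1 + ((i + 2 : ℤ) : ℚ) * h2

/-- `(k+1-i) f_{k+1}(i+1) = (i+2) f_{k-1}(i)` -/
theorem c1a_R4 (k i : ℤ) :
    ((k + 1 - i : ℤ) : ℚ) * f (k + 1) (i + 1) = ((i + 2 : ℤ) : ℚ) * f (k - 1) i := by
  have h := ch_absorb' (i + 2) (2 * i - k + 1)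
  unfold f
  have e1 : i + 1 + 1 = i + 2 := by ring
  have e2 : 2 * (i + 1) - (k + 1) = 2 * i - k + 1 := by ring
  have e3 : i + 2 - 1 = i + 1 := by ring
  have e4 : 2 * i - (k - 1) = 2 * i - k + 1 := by ring
  have e5 : i + 2 - (2 * i - k + 1) = k + 1 - i := by ring
  rw [e3, e5] at h
  rw [e1, e2, e4, h]

theorem c1a_f_pos_of_ne {k i : ℤ} (h : f k i ≠ 0) : 0 < f k i :=
  lt_of_le_of_ne (f_nonneg k i) (Ne.symm h)

/-- Exact identity.  In terms of `q = s-1-p` it reads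
`(p+q+1-k) (f_{k-1}(p) f_{k+1}(q+1) + f_{k-1}(q) f_{k+1}(p+1))
  = (2q+2-k) f_k(p) f_k(q+1) + (2p+2-k) f_k(p+1) f_k(q)`.
Proof.  `f_k(i) = (i+1)!/((2i-k)! (k+1-i)!)`.  With `A = 2p-k`, `B = 2q-k`, `a = k+1-p`,
`b = k+1-q` (all four products vanish unless `A ≥ -1`, `B ≥ -1`, `a, b ≥ 0`; treat the boundary
cases separately; or multiply out using the one-step relations
`(2i-k+1) f_{k-1}(i) = (k+1-i) f_k(i)`, `(k+2-i) f_{k+1}(i) = (2i-k) f_k(i)` and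
`f_k(i+1) (2i-k+1)(2i-k+2) = (i+2)(k+1-i) f_k(i)`). -/
theorem S_ident (k s p : ℤ) (hk : 1 ≤ k) (hs : k + 1 ≤ s) :
    ((s - k : ℤ) : ℚ) * Sf k s p
      = ((2 * (s - p) - k : ℤ) : ℚ) * Wf k s p + ((2 * (p + 1) - k : ℤ) : ℚ) * Wf k s (p + 1) := by
  obtain ⟨q, hq⟩ : ∃ q : ℤ, q = s - 1 - p := ⟨_, rfl⟩
  have hs' : s = p + q + 1 := by omega
  unfold Sf wf Wf
  have e1 : s - p = q + 1 := by omega
  have e2 : s - 1 - p = q := hq.symm
  have e3 : s - q = p + 1 := by omega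
  have e4 : s - (p + 1) = q := by omega
  rw [e1, e2, e3, e4, hs']
  -- Pascal
  have hPp0 : ch (p + 1 + 1) (2 * p - k + 1) = ch (p + 1) (2 * p - k) + ch (p + 1) (2 * p - k + 1) :=
    ch_pascal _ _ (by omega)
  have hPp1 : ch (p + 1 + 1) (2 * p - k + 1 + 1)
      = ch (p + 1) (2 * p - k + 1) + ch (p + 1) (2 * p - k + 1 + 1) := ch_pascal _ _ (by omega)
  have hPq0 : ch (q + 1 + 1) (2 * q - k + 1) = ch (q + 1) (2 * q - k) + ch (q + 1) (2 * q - k + 1) :=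
    ch_pascal _ _ (by omega)
  have hPq1 : ch (q + 1 + 1) (2 * q - k + 1 + 1)
      = ch (q + 1) (2 * q - k + 1) + ch (q + 1) (2 * q - k + 1 + 1) := ch_pascal _ _ (by omega)
  have hp1 := c1a_step (p + 1) (2 * p - k)
  have hp2 := c1a_step (p + 1) (2 * p - k + 1)
  have hq1 := c1a_step (q + 1) (2 * q - k)
  have hq2 := c1a_step (q + 1) (2 * q - k + 1)
  unfold f
  have a1 : 2 * p - (k - 1) = 2 * p - k + 1 := by ring
  have a2 : 2 * (q + 1) - (k + 1) = 2 * q - k + 1 := by ring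
  have a3 : 2 * q - (k - 1) = 2 * q - k + 1 := by ring
  have a4 : 2 * (p + 1) - (k + 1) = 2 * p - k + 1 := by ring
  have a5 : 2 * (q + 1) - k = 2 * q - k + 1 + 1 := by ring
  have a6 : 2 * (p + 1) - k = 2 * p - k + 1 + 1 := by ring
  rw [a1, a2, a3, a4, a5, a6, hPp0, hPp1, hPq0, hPq1]
  generalize ch (p + 1) (2 * p - k) = u0 at *
  generalize ch (p + 1) (2 * p - k + 1) = u1 at *
  generalize ch (p + 1) (2 * p - k + 1 + 1) = u2 at *
  generalize ch (q + 1) (2 * q - k) = v0 at *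
  generalize ch (q + 1) (2 * q - k + 1) = v1 at *
  generalize ch (q + 1) (2 * q - k + 1 + 1) = v2 at *
  push_cast at *
  linear_combination v1 * hp1 + u1 * hq1 - u0 * hq2 - v0 * hp2

/-- `w_{s-1-p} ≤ w_p` for `p ≤ s-1-p`: with `q = s-1-p ≥ p`,
`f_{k-1}(q) f_{k+1}(p+1) ≤ f_{k-1}(p) f_{k+1}(q+1)` since
`f_{k+1}(i+1)/f_{k-1}(i) = C(i+2,2i+1-k)/C(i+1,2i+1-k) = (i+2)/(k+1-i)` is increasing in `i`. -/
theorem w_mono (k s p : ℤ) (hk : 1 ≤ k) (hp : p ≤ s - 1 - p) :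
    wf k s (s - 1 - p) ≤ wf k s p := by
  obtain ⟨q, hq⟩ : ∃ q : ℤ, q = s - 1 - p := ⟨_, rfl⟩
  unfold wf
  have e1 : s - p = q + 1 := by omega
  have e3 : s - q = p + 1 := by omega
  rw [← hq, e1, e3]
  by_cases h1 : f (k - 1) q = 0
  · rw [h1, zero_mul]
    exact mul_nonneg (f_nonneg _ _) (f_nonneg _ _)
  by_cases h2 : f (k + 1) (p + 1) = 0
  · rw [h2, mul_zero]
    exact mul_nonneg (f_nonneg _ _) (f_nonneg _ _)
  have s1 := f_supp h1
  have s2 := f_supp h2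
  have hRp := c1a_R4 k p
  have hRq := c1a_R4 k q
  have hF : 0 ≤ f (k - 1) p * f (k - 1) q := mul_nonneg (f_nonneg _ _) (f_nonneg _ _)
  have hap : (0 : ℚ) < ((k + 1 - p : ℤ) : ℚ) := by
    exact_mod_cast (by omega : 0 < k + 1 - p)
  have haq : (0 : ℚ) < ((k + 1 - q : ℤ) : ℚ) := by
    exact_mod_cast (by omega : 0 < k + 1 - q)
  have hcmp : ((p + 2 : ℤ) : ℚ) * ((k + 1 - q : ℤ) : ℚ) ≤ ((q + 2 : ℤ) : ℚ) * ((k + 1 - p : ℤ) : ℚ) := by
    have : (p + 2) * (k + 1 - q) ≤ (q + 2) * (k + 1 - p) := by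
      have h3 : 0 ≤ (q - p) * (k + 3) := mul_nonneg (by omega) (by omega)
      nlinarith [h3]
    exact_mod_cast this
  have key : (((k + 1 - p : ℤ) : ℚ) * ((k + 1 - q : ℤ) : ℚ)) * (f (k - 1) q * f (k + 1) (p + 1))
      ≤ (((k + 1 - p : ℤ) : ℚ) * ((k + 1 - q : ℤ) : ℚ)) * (f (k - 1) p * f (k + 1) (q + 1)) := by
    have l1 : (((k + 1 - p : ℤ) : ℚ) * ((k + 1 - q : ℤ) : ℚ)) * (f (k - 1) q * f (k + 1) (p + 1))
        = (((p + 2 : ℤ) : ℚ) * ((k + 1 - q : ℤ) : ℚ)) * (f (k - 1) p * f (k - 1) q) := by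
      linear_combination (((k + 1 - q : ℤ) : ℚ) * f (k - 1) q) * hRp
    have l2 : (((k + 1 - p : ℤ) : ℚ) * ((k + 1 - q : ℤ) : ℚ)) * (f (k - 1) p * f (k + 1) (q + 1))
        = (((q + 2 : ℤ) : ℚ) * ((k + 1 - p : ℤ) : ℚ)) * (f (k - 1) p * f (k - 1) q) := by
      linear_combination (((k + 1 - p : ℤ) : ℚ) * f (k - 1) p) * hRq
    rw [l1, l2]
    exact mul_le_mul_of_nonneg_right hcmp hF
  exact le_of_mul_le_mul_left key (mul_pos hap haq)

theorem W_symm (k s p : ℤ) : Wf k s (s - p) = Wf k s p := by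
  unfold Wf
  rw [sub_sub_cancel, mul_comm]

/-- `f_k` is log-concave (`f_k(p) f_k(q) ≤ f_k(p+1) f_k(q-1)` for `p < q`):
`f_k(i+1)/f_k(i) = (i+2)(k+1-i)/((2i-k+1)(2i-k+2))` is nonincreasing on the support. -/
theorem W_uni (k s p : ℤ) (hk : 1 ≤ k) (hp : p < s - p) : Wf k s p ≤ Wf k s (p + 1) := by
  obtain ⟨q, hq⟩ : ∃ q : ℤ, q = s - 1 - p := ⟨_, rfl⟩
  unfold Wf
  have e1 : s - p = q + 1 := by omega
  have e3 : s - (p + 1) = q := by omega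
  rw [e1, e3]
  have hpq : p ≤ q := by omega
  by_cases h1 : f k p = 0
  · rw [h1, zero_mul]
    exact mul_nonneg (f_nonneg _ _) (f_nonneg _ _)
  by_cases h2 : f k (q + 1) = 0
  · rw [h2, mul_zero]
    exact mul_nonneg (f_nonneg _ _) (f_nonneg _ _)
  have s1 := f_supp h1
  have s2 := f_supp h2
  have hRp := c1a_R3 k p
  have hRq := c1a_R3 k q
  have hF : 0 ≤ f k p * f k q := mul_nonneg (f_nonneg _ _) (f_nonneg _ _)
  have hA : (0 : ℚ) < ((2 * p - k + 1 : ℤ) : ℚ) * ((2 * p - k + 2 : ℤ) : ℚ) :=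
    mul_pos (by exact_mod_cast (by omega : 0 < 2 * p - k + 1))
      (by exact_mod_cast (by omega : 0 < 2 * p - k + 2))
  have hB : (0 : ℚ) < ((2 * q - k + 1 : ℤ) : ℚ) * ((2 * q - k + 2 : ℤ) : ℚ) :=
    mul_pos (by exact_mod_cast (by omega : 0 < 2 * q - k + 1))
      (by exact_mod_cast (by omega : 0 < 2 * q - k + 2))
  have hAB : ((2 * p - k + 1 : ℤ) : ℚ) * ((2 * p - k + 2 : ℤ) : ℚ)
      ≤ ((2 * q - k + 1 : ℤ) : ℚ) * ((2 * q - k + 2 : ℤ) : ℚ) := by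
    have : (2 * p - k + 1) * (2 * p - k + 2) ≤ (2 * q - k + 1) * (2 * q - k + 2) :=
      mul_le_mul (by omega) (by omega) (by omega) (by omega)
    exact_mod_cast this
  have hc : ((q + 2 : ℤ) : ℚ) * ((k + 1 - q : ℤ) : ℚ) ≤ ((p + 2 : ℤ) : ℚ) * ((k + 1 - p : ℤ) : ℚ) := by
    have : (q + 2) * (k + 1 - q) ≤ (p + 2) * (k + 1 - p) := by
      have h3 : 0 ≤ (q - p) * (p + q + 1 - k) := mul_nonneg (by omega) (by omega)
      nlinarith [h3]
    exact_mod_cast this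
  have hc0 : (0 : ℚ) ≤ ((q + 2 : ℤ) : ℚ) * ((k + 1 - q : ℤ) : ℚ) :=
    mul_nonneg (by exact_mod_cast (by omega : 0 ≤ q + 2))
      (by exact_mod_cast (by omega : 0 ≤ k + 1 - q))
  have hcmp : (((q + 2 : ℤ) : ℚ) * ((k + 1 - q : ℤ) : ℚ)) *
        (((2 * p - k + 1 : ℤ) : ℚ) * ((2 * p - k + 2 : ℤ) : ℚ))
      ≤ (((p + 2 : ℤ) : ℚ) * ((k + 1 - p : ℤ) : ℚ)) *
        (((2 * q - k + 1 : ℤ) : ℚ) * ((2 * q - k + 2 : ℤ) : ℚ)) :=
    mul_le_mul hc hAB hA.le (hc0.trans hc)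
  have key : ((((2 * p - k + 1 : ℤ) : ℚ) * ((2 * p - k + 2 : ℤ) : ℚ)) *
      (((2 * q - k + 1 : ℤ) : ℚ) * ((2 * q - k + 2 : ℤ) : ℚ))) * (f k p * f k (q + 1))
      ≤ ((((2 * p - k + 1 : ℤ) : ℚ) * ((2 * p - k + 2 : ℤ) : ℚ)) *
      (((2 * q - k + 1 : ℤ) : ℚ) * ((2 * q - k + 2 : ℤ) : ℚ))) * (f k (p + 1) * f k q) := by
    have l1 : ((((2 * p - k + 1 : ℤ) : ℚ) * ((2 * p - k + 2 : ℤ) : ℚ)) *
        (((2 * q - k + 1 : ℤ) : ℚ) * ((2 * q - k + 2 : ℤ) : ℚ))) * (f k p * f k (q + 1))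
        = ((((q + 2 : ℤ) : ℚ) * ((k + 1 - q : ℤ) : ℚ)) *
        (((2 * p - k + 1 : ℤ) : ℚ) * ((2 * p - k + 2 : ℤ) : ℚ))) * (f k p * f k q) := by
      linear_combination (((2 * p - k + 1 : ℤ) : ℚ) * ((2 * p - k + 2 : ℤ) : ℚ) * f k p) * hRq
    have l2 : ((((2 * p - k + 1 : ℤ) : ℚ) * ((2 * p - k + 2 : ℤ) : ℚ)) *
        (((2 * q - k + 1 : ℤ) : ℚ) * ((2 * q - k + 2 : ℤ) : ℚ))) * (f k (p + 1) * f k q)
        = ((((p + 2 : ℤ) : ℚ) * ((k + 1 - p : ℤ) : ℚ)) *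
        (((2 * q - k + 1 : ℤ) : ℚ) * ((2 * q - k + 2 : ℤ) : ℚ))) * (f k p * f k q) := by
      linear_combination (((2 * q - k + 1 : ℤ) : ℚ) * ((2 * q - k + 2 : ℤ) : ℚ) * f k q) * hRp
    rw [l1, l2]
    exact mul_le_mul_of_nonneg_right hcmp hF
  exact le_of_mul_le_mul_left key (mul_pos hA hB)

theorem S_symm (k s p : ℤ) : Sf k s (s - 1 - p) = Sf k s p := by
  unfold Sf
  have e : s - 1 - (s - 1 - p) = p := by ring
  rw [e, add_comm]

/-- `S_{p-1} ≤ S_p` for `p ≤ s-1-p`.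
Proof.  Let `u = s-1-2p ≥ 0`, `b = s-k ≥ 1`; by `S_ident` and `W_symm`
`b (S_p - S_{p-1}) = (b-u+1) W_{p+1} + (2u+2) W_p - (b+u+3) W_{p-1}` where
`W_{p-1} ≤ W_p`, and `W_p ≤ W_{p+1}` if `u ≥ 1`, `W_p = W_{p+1}` if `u = 0`.
If `b-u+1 ≥ 0` the right side is `≥ (b+u+3)(W_p - W_{p-1}) ≥ 0`; if `b-u+1 < 0` all three `W`
vanish (`W_q ≠ 0` needs `|s-2q| ≤ b`). -/
theorem S_uni (k s p : ℤ) (hk : 1 ≤ k) (hs : k + 1 ≤ s) (hp : p ≤ s - 1 - p) :
    Sf k s (p - 1) ≤ Sf k s p := by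
  have h1 := S_ident k s p hk hs
  have h0 := S_ident k s (p - 1) hk hs
  have e1 : p - 1 + 1 = p := by ring
  rw [e1] at h0
  have hb : (0 : ℚ) < ((s - k : ℤ) : ℚ) := by exact_mod_cast (by omega : 0 < s - k)
  have hW0 : Wf k s (p - 1) ≤ Wf k s p := by
    have := W_uni k s (p - 1) hk (by omega)
    rwa [e1] at this
  have hW1 : Wf k s p ≤ Wf k s (p + 1) := W_uni k s p hk (by omega)
  have hWn : 0 ≤ Wf k s (p - 1) := mul_nonneg (f_nonneg _ _) (f_nonneg _ _)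
  apply le_of_mul_le_mul_left _ hb
  rw [h0, h1]
  by_cases hc : 0 ≤ 2 * (p + 1) - k
  · have hc' : (0 : ℚ) ≤ ((2 * (p + 1) - k : ℤ) : ℚ) := by exact_mod_cast hc
    have hd' : (0 : ℚ) ≤ ((2 * (s - (p - 1)) - k : ℤ) : ℚ) := by
      exact_mod_cast (by omega : 0 ≤ 2 * (s - (p - 1)) - k)
    have t1 := mul_le_mul_of_nonneg_left hW1 hc'
    have t2 := mul_le_mul_of_nonneg_left hW0 hd'
    push_cast at t1 t2 ⊢
    nlinarith [t1, t2]
  · have hz : ∀ x : ℤ, x ≤ p + 1 → Wf k s x = 0 := by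
      intro x hx
      unfold Wf
      by_contra hne
      have := (f_supp (left_ne_zero_of_mul hne)).1
      omega
    rw [hz (p - 1) (by omega), hz p (by omega), hz (p + 1) le_rfl]
    simp

theorem c1a_Icc_succ (a : ℤ) (n : ℕ) :
    Finset.Icc a (a + ((n + 1 : ℕ) : ℤ)) = insert (a + n + 1) (Finset.Icc a (a + (n : ℤ))) := by
  ext x
  rw [Finset.mem_insert, Finset.mem_Icc, Finset.mem_Icc]
  push_cast
  omega

/-- telescoping -/
theorem c1a_tele (D h h' : ℤ → ℚ) (hD : ∀ p, D p = (h p - h (p + 1)) + (h' p - h' (p - 1)))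
    (a : ℤ) (n : ℕ) :
    ∑ p ∈ Finset.Icc a (a + (n : ℤ)), D p
      = (h a - h (a + n + 1)) + (h' (a + n) - h' (a - 1)) := by
  induction n with
  | zero =>
    simp only [Nat.cast_zero, add_zero, Finset.Icc_self, Finset.sum_singleton]
    exact hD a
  | succ n ih =>
    rw [c1a_Icc_succ, Finset.sum_insert (by
      rw [Finset.mem_Icc]
      omega), ih, hD]
    have e1 : a + (n : ℤ) + 1 - 1 = a + n := by ring
    have e2 : a + ((n + 1 : ℕ) : ℤ) = a + n + 1 := by push_cast; ring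
    rw [e1, e2]
    ring

/-- Windows.  With `h_p = (2p-k) W_p`, `h'_p = (2(s-p)-k) W_p = h_{s-p}` and `b = s-k`,
`S_ident` gives `b (4 W_p - S_p - S_{p-1}) = (h_p - h_{p+1}) + (h'_p - h'_{p-1})`, so the window
sum over `[a, s-a]` times `b` is `2 (h_a - h_{s-a+1})
 = 2((2a-k) f_k(a) f_k(s-a) - (2(s-a+1)-k) f_k(a-1) f_k(s-a+1))`.
It is `≥ 0`: if `f_k(a-1) ≠ 0` then `(2a-k) f_k(a) = f_k(a-1) (a+1)(k+2-a)/(2a-k-1)`, with
`c = s-a+1 > a`: `(2c-k) f_k(c) = f_k(c-1) (c+1)(k+2-c)/(2c-k-1)`, and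
`z ↦ (z+1)(k+2-z)/(2z-k-1)` is decreasing for `z > (k+1)/2`. -/
theorem W_window (k s a : ℤ) (hk : 1 ≤ k) (hs : k + 1 ≤ s) (ha : a ≤ s - a) :
    0 ≤ ∑ p ∈ Finset.Icc a (s - a), (4 * Wf k s p - Sf k s p - Sf k s (p - 1)) := by
  have hb : (0 : ℚ) < ((s - k : ℤ) : ℚ) := by exact_mod_cast (by omega : 0 < s - k)
  obtain ⟨n, hn⟩ : ∃ n : ℕ, s - a = a + (n : ℤ) := ⟨(s - a - a).toNat, by omega⟩
  have htel := c1a_tele (fun p => ((s - k : ℤ) : ℚ) * (4 * Wf k s p - Sf k s p - Sf k s (p - 1)))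
    (fun p => ((2 * p - k : ℤ) : ℚ) * Wf k s p) (fun p => ((2 * (s - p) - k : ℤ) : ℚ) * Wf k s p)
    (by
      intro p
      have h1 := S_ident k s p hk hs
      have h0 := S_ident k s (p - 1) hk hs
      have e1 : p - 1 + 1 = p := by ring
      rw [e1] at h0
      push_cast at h0 h1 ⊢
      linear_combination -h0 - h1) a n
  rw [← hn] at htel
  rw [← Finset.mul_sum] at htel
  have hW1 : Wf k s (s - a) = Wf k s a := W_symm k s a
  have hW2 : Wf k s (s - a + 1) = Wf k s (a - 1) := by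
    have := W_symm k s (a - 1)
    have e : s - (a - 1) = s - a + 1 := by ring
    rwa [e] at this
  have hmain : ((2 * (s - a + 1) - k : ℤ) : ℚ) * Wf k s (s - a + 1)
      ≤ ((2 * a - k : ℤ) : ℚ) * Wf k s a := by
    obtain ⟨c, hcdef⟩ : ∃ c : ℤ, c = s - a + 1 := ⟨_, rfl⟩
    have hca : s - a = c - 1 := by omega
    have hsc : s - c = a - 1 := by omega
    have hnn : 0 ≤ ((2 * a - k : ℤ) : ℚ) * Wf k s a := by
      by_cases hf : f k a = 0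
      · unfold Wf
        rw [hf, zero_mul, mul_zero]
      · have := (f_supp hf).1
        exact mul_nonneg (by exact_mod_cast (by omega : 0 ≤ 2 * a - k))
          (mul_nonneg (f_nonneg _ _) (f_nonneg _ _))
    rw [← hcdef]
    unfold Wf at hnn ⊢
    rw [hsc, hca]
    rw [hca] at hnn
    by_cases h1 : f k c = 0
    · rw [h1, zero_mul, mul_zero]
      exact hnn
    by_cases h2 : f k (a - 1) = 0
    · rw [h2, mul_zero, mul_zero]
      exact hnn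
    have s1 := f_supp h1
    have s2 := f_supp h2
    have hRa := c1a_R3 k (a - 1)
    have hRc := c1a_R3 k (c - 1)
    have ea : a - 1 + 1 = a := by ring
    have ec : c - 1 + 1 = c := by ring
    rw [ea] at hRa
    rw [ec] at hRc
    have hF : 0 ≤ f k (a - 1) * f k (c - 1) := mul_nonneg (f_nonneg _ _) (f_nonneg _ _)
    have hA : (0 : ℚ) < ((2 * (a - 1) - k + 1 : ℤ) : ℚ) := by
      exact_mod_cast (by omega : 0 < 2 * (a - 1) - k + 1)
    have hC : (0 : ℚ) < ((2 * (c - 1) - k + 1 : ℤ) : ℚ) := by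
      exact_mod_cast (by omega : 0 < 2 * (c - 1) - k + 1)
    have hAC : ((2 * (a - 1) - k + 1 : ℤ) : ℚ) ≤ ((2 * (c - 1) - k + 1 : ℤ) : ℚ) := by
      exact_mod_cast (by omega : 2 * (a - 1) - k + 1 ≤ 2 * (c - 1) - k + 1)
    have hq : ((c - 1 + 2 : ℤ) : ℚ) * ((k + 1 - (c - 1) : ℤ) : ℚ)
        ≤ ((a - 1 + 2 : ℤ) : ℚ) * ((k + 1 - (a - 1) : ℤ) : ℚ) := by
      have : (c - 1 + 2) * (k + 1 - (c - 1)) ≤ (a - 1 + 2) * (k + 1 - (a - 1)) := by
        have h3 : 0 ≤ (c - a) * (a + c - k - 1) := mul_nonneg (by omega) (by omega)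
        nlinarith [h3]
      exact_mod_cast this
    have hq0 : (0 : ℚ) ≤ ((c - 1 + 2 : ℤ) : ℚ) * ((k + 1 - (c - 1) : ℤ) : ℚ) :=
      mul_nonneg (by exact_mod_cast (by omega : 0 ≤ c - 1 + 2))
        (by exact_mod_cast (by omega : 0 ≤ k + 1 - (c - 1)))
    have hcmp : (((c - 1 + 2 : ℤ) : ℚ) * ((k + 1 - (c - 1) : ℤ) : ℚ)) *
          ((2 * (a - 1) - k + 1 : ℤ) : ℚ)
        ≤ (((a - 1 + 2 : ℤ) : ℚ) * ((k + 1 - (a - 1) : ℤ) : ℚ)) *
          ((2 * (c - 1) - k + 1 : ℤ) : ℚ) :=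
      mul_le_mul hq hAC hA.le (hq0.trans hq)
    have key : (((2 * (a - 1) - k + 1 : ℤ) : ℚ) * ((2 * (c - 1) - k + 1 : ℤ) : ℚ)) *
        (((2 * c - k : ℤ) : ℚ) * (f k c * f k (a - 1)))
        ≤ (((2 * (a - 1) - k + 1 : ℤ) : ℚ) * ((2 * (c - 1) - k + 1 : ℤ) : ℚ)) *
        (((2 * a - k : ℤ) : ℚ) * (f k a * f k (c - 1))) := by
      have l1 : (((2 * (a - 1) - k + 1 : ℤ) : ℚ) * ((2 * (c - 1) - k + 1 : ℤ) : ℚ)) *
          (((2 * c - k : ℤ) : ℚ) * (f k c * f k (a - 1)))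
          = ((((c - 1 + 2 : ℤ) : ℚ) * ((k + 1 - (c - 1) : ℤ) : ℚ)) *
          ((2 * (a - 1) - k + 1 : ℤ) : ℚ)) * (f k (a - 1) * f k (c - 1)) := by
        push_cast at hRc ⊢
        linear_combination ((2 * ((a : ℚ) - 1) - k + 1) * f k (a - 1)) * hRc
      have l2 : (((2 * (a - 1) - k + 1 : ℤ) : ℚ) * ((2 * (c - 1) - k + 1 : ℤ) : ℚ)) *
          (((2 * a - k : ℤ) : ℚ) * (f k a * f k (c - 1)))
          = ((((a - 1 + 2 : ℤ) : ℚ) * ((k + 1 - (a - 1) : ℤ) : ℚ)) *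
          ((2 * (c - 1) - k + 1 : ℤ) : ℚ)) * (f k (a - 1) * f k (c - 1)) := by
        push_cast at hRa ⊢
        linear_combination ((2 * ((c : ℚ) - 1) - k + 1) * f k (c - 1)) * hRa
      rw [l1, l2]
      exact mul_le_mul_of_nonneg_right hcmp hF
    exact le_of_mul_le_mul_left key (mul_pos hA hC)
  have e3 : s - (s - a) = a := by ring
  have e4 : ((2 * (s - (a - 1)) - k : ℤ) : ℚ) * Wf k s (a - 1)
      = ((2 * (s - a + 1) - k : ℤ) : ℚ) * Wf k s (s - a + 1) := by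
    rw [hW2]
    congr 2
    ring
  rw [e3, e4, hW1] at htel
  have hfin : 0 ≤ ((s - k : ℤ) : ℚ) *
      ∑ p ∈ Finset.Icc a (s - a), (4 * Wf k s p - Sf k s p - Sf k s (p - 1)) := by
    rw [htel]
    linarith
  exact nonneg_of_mul_nonneg_right hfin hb

end BD.C1
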