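import Pool.Agent.MP_8b309d_co.C1Defs

/-!
# Row BD-C1B : properties of `g`
-/

namespace BD.C1

theorem c1b_ch (n m : ℕ) : ch (n : ℤ) (m : ℤ) = (n.choose m : ℚ) := by
  unfold ch
  rw [if_pos ⟨Int.natCast_nonneg n, Int.natCast_nonneg m⟩, Int.toNat_natCast, Int.toNat_natCast]

theorem c1b_ch_nonneg (a k : ℤ) : 0 ≤ ch a k := by
  unfold ch
  split_ifs
  · positivity
  · exact le_rfl

theorem c1b_ch_neg {a k : ℤ} (h : a < 0) : ch a k = 0 := by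
  unfold ch
  rw [if_neg (by omega)]

/-- Pascal's rule -/
theorem c1b_pascal (a k : ℤ) (hk : 1 ≤ k) : ch (a + 1) k = ch a (k - 1) + ch a k := by
  obtain ⟨m, rfl⟩ : ∃ m : ℕ, k = (m : ℤ) + 1 := ⟨(k - 1).toNat, by omega⟩
  rw [add_sub_cancel_right]
  rcases lt_or_ge a (-1) with h | h
  · rw [c1b_ch_neg (by omega), c1b_ch_neg (by omega), c1b_ch_neg (by omega), add_zero]
  rcases eq_or_lt_of_le h with h | h
  · rw [← h]
    have e : ((-1 : ℤ) + 1) = ((0 : ℕ) : ℤ) := by norm_num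
    have e2 : ((m : ℤ) + 1) = ((m + 1 : ℕ) : ℤ) := by push_cast; ring
    rw [e, e2, c1b_ch, c1b_ch_neg (by omega), c1b_ch_neg (by omega), Nat.choose_zero_succ]
    simp
  · obtain ⟨n, rfl⟩ : ∃ n : ℕ, a = (n : ℤ) := ⟨a.toNat, by omega⟩
    have e : ((n : ℤ) + 1) = ((n + 1 : ℕ) : ℤ) := by push_cast; ring
    have e2 : ((m : ℤ) + 1) = ((m + 1 : ℕ) : ℤ) := by push_cast; ring
    rw [e, e2, c1b_ch, c1b_ch, c1b_ch, Nat.choose_succ_succ]
    push_cast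
    ring

theorem c1b_r (Z j : ℕ) : ((j : ℚ) + 1) * (Z.choose (j + 1) : ℚ) = ((Z : ℚ) - j) * (Z.choose j : ℚ) := by
  rcases le_or_gt j Z with h | h
  · have h1 := Nat.choose_succ_right_eq Z j
    have h2 : (Z.choose (j + 1) : ℚ) * ((j : ℚ) + 1) = (Z.choose j : ℚ) * ((Z : ℚ) - j) := by
      rw [← Nat.cast_sub h]
      exact_mod_cast h1
    linear_combination h2
  · rw [Nat.choose_eq_zero_of_lt h, Nat.choose_eq_zero_of_lt (by omega)]
    simp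

theorem c1b_u (Z j : ℕ) : ((Z : ℚ) + 1) * (Z.choose j : ℚ) =
    ((Z : ℚ) + 1 - j) * ((Z + 1).choose j : ℚ) := by
  rcases le_or_gt j (Z + 1) with h | h
  · have h1 := Nat.choose_mul_succ_eq Z j
    have h2 : (Z.choose j : ℚ) * ((Z : ℚ) + 1) = ((Z + 1).choose j : ℚ) * (((Z : ℚ) + 1) - j) := by
      have h3 : ((Z : ℚ) + 1) - j = ((Z + 1 - j : ℕ) : ℚ) := by
        rw [Nat.cast_sub h]; push_cast; ring
      rw [h3]
      exact_mod_cast h1
    linear_combination h2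
  · rw [Nat.choose_eq_zero_of_lt h, Nat.choose_eq_zero_of_lt (by omega)]
    simp

theorem c1b_gen {x y K a b c d P Q : ℚ} (hx : 0 < x) (hy : 0 < y) (hK : 0 < K) (ha : 0 ≤ a)
    (hb : 0 ≤ b) (h1 : x * K * c = P * a) (h2 : y * K * d = Q * b) (h : P * y ≤ Q * x) :
    b * c ≤ a * d := by
  have h3 : (x * y * K) * (b * c) ≤ (x * y * K) * (a * d) := by
    have e1 : (x * y * K) * (b * c) = (a * b) * (P * y) := by linear_combination (y * b) * h1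
    have e2 : (x * y * K) * (a * d) = (a * b) * (Q * x) := by linear_combination (x * a) * h2
    rw [e1, e2]
    exact mul_le_mul_of_nonneg_left h (mul_nonneg ha hb)
  exact le_of_mul_le_mul_left h3 (by positivity)

/-- log-concavity -/
theorem c1b_L1 (A B k : ℕ) (h : B ≤ A) :
    ((A + 1).choose k : ℚ) * (B.choose k : ℚ) ≤ (A.choose k : ℚ) * ((B + 1).choose k : ℚ) := by
  have h1 := c1b_u A k
  have h2 := c1b_u B k
  have hBA : (B : ℚ) ≤ A := by exact_mod_cast h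
  have h3 := c1b_gen (x := (B : ℚ) + 1) (y := (A : ℚ) + 1) (K := 1) (a := ((B + 1).choose k : ℚ))
    (b := ((A + 1).choose k : ℚ)) (c := (B.choose k : ℚ)) (d := (A.choose k : ℚ))
    (P := (B : ℚ) + 1 - k) (Q := (A : ℚ) + 1 - k) (by positivity) (by positivity) one_pos
    (by positivity) (by positivity) (by linear_combination h2) (by linear_combination h1)
    (by nlinarith [mul_nonneg (sub_nonneg.2 hBA) (Nat.cast_nonneg (α := ℚ) k)])
  linarith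

theorem c1b_L2 (X Y j : ℕ) (h : X ≤ Y) :
    ((Y + 1).choose j : ℚ) * (X.choose (j + 2) : ℚ) ≤
      ((X + 1).choose j : ℚ) * (Y.choose (j + 2) : ℚ) := by
  rcases lt_or_ge X (j + 2) with hX | hX
  · rw [Nat.choose_eq_zero_of_lt hX, Nat.cast_zero, mul_zero]
    positivity
  have key : ∀ Z : ℕ, ((Z : ℚ) + 1) * (((j : ℚ) + 1) * ((j : ℚ) + 2)) * (Z.choose (j + 2) : ℚ) =
      (((Z : ℚ) + 1 - j) * ((Z : ℚ) - j) * ((Z : ℚ) - j - 1)) * ((Z + 1).choose j : ℚ) := by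
    intro Z
    have h1 := c1b_u Z (j + 2)
    have h2 := c1b_r (Z + 1) (j + 1)
    have h3 := c1b_r (Z + 1) j
    push_cast at h1 h2 h3
    linear_combination (((j : ℚ) + 1) * ((j : ℚ) + 2)) * h1 +
      (((j : ℚ) + 1) * ((Z : ℚ) - j - 1)) * h2 + (((Z : ℚ) - j - 1) * ((Z : ℚ) - j)) * h3
  have hXY : (X : ℚ) ≤ Y := by exact_mod_cast h
  have hXj : (j : ℚ) + 2 ≤ X := by exact_mod_cast hX
  have hj0 : (0 : ℚ) ≤ j := by positivity
  refine c1b_gen (by positivity) (by positivity) (by positivity) (by positivity) (by positivity)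
    (key X) (key Y) ?_
  obtain ⟨u, hu⟩ : ∃ u : ℚ, (X : ℚ) = u + j + 1 := ⟨(X : ℚ) - j - 1, by ring⟩
  obtain ⟨w, hw⟩ : ∃ w : ℚ, (Y : ℚ) = w + j + 1 := ⟨(Y : ℚ) - j - 1, by ring⟩
  have hu0 : 0 ≤ u := by linarith
  have huw : u ≤ w := by linarith
  have hw0 : 0 ≤ w := hu0.trans huw
  rw [hu, hw]
  have h1 : 0 ≤ ((j : ℚ) + 2) * ((w - u) * (w ^ 2 + w * u + u ^ 2 + 3 * (w + u) + 2)) := by
    have : 0 ≤ w - u := sub_nonneg.2 huw
    positivity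
  have h2 : 0 ≤ u * w * ((w - u) * (w + u + 3)) := by
    have : 0 ≤ w - u := sub_nonneg.2 huw
    positivity
  linarith [h1, h2, (by ring : (w + j + 1 + 1 - j) * (w + j + 1 - j) * (w + j + 1 - j - 1) *
    (u + j + 1 + 1) - (u + j + 1 + 1 - j) * (u + j + 1 - j) * (u + j + 1 - j - 1) *
    (w + j + 1 + 1) = ((j : ℚ) + 2) * ((w - u) * (w ^ 2 + w * u + u ^ 2 + 3 * (w + u) + 2)) +
      u * w * ((w - u) * (w + u + 3)))]

theorem c1b_L3 (m M k : ℕ) (h : m ≤ M) :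
    ((M + 1).choose k : ℚ) * (m.choose (k + 1) : ℚ) ≤
      ((m + 1).choose k : ℚ) * (M.choose (k + 1) : ℚ) := by
  rcases lt_or_ge m (k + 1) with hm | hm
  · rw [Nat.choose_eq_zero_of_lt hm, Nat.cast_zero, mul_zero]
    positivity
  have key : ∀ Z : ℕ, ((Z : ℚ) + 1) * ((k : ℚ) + 1) * (Z.choose (k + 1) : ℚ) =
      (((Z : ℚ) + 1 - k) * ((Z : ℚ) - k)) * ((Z + 1).choose k : ℚ) := by
    intro Z
    have h1 := c1b_u Z (k + 1)
    have h2 := c1b_r (Z + 1) k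
    push_cast at h1 h2
    linear_combination ((k : ℚ) + 1) * h1 + ((Z : ℚ) - k) * h2
  have hmM : (m : ℚ) ≤ M := by exact_mod_cast h
  have hmk : (k : ℚ) + 1 ≤ m := by exact_mod_cast hm
  have hk0 : (0 : ℚ) ≤ k := by positivity
  refine c1b_gen (by positivity) (by positivity) (by positivity) (by positivity) (by positivity)
    (key m) (key M) ?_
  obtain ⟨u, hu⟩ : ∃ u : ℚ, (m : ℚ) = u + k := ⟨(m : ℚ) - k, by ring⟩
  obtain ⟨w, hw⟩ : ∃ w : ℚ, (M : ℚ) = w + k := ⟨(M : ℚ) - k, by ring⟩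
  have hu0 : 0 ≤ u := by linarith
  have huw : u ≤ w := by linarith
  have hw0 : 0 ≤ w := hu0.trans huw
  rw [hu, hw]
  have h1 : 0 ≤ u * w * (w - u) := by
    have : 0 ≤ w - u := sub_nonneg.2 huw
    positivity
  have h2 : 0 ≤ ((k : ℚ) + 1) * ((w - u) * (w + u + 1)) := by
    have : 0 ≤ w - u := sub_nonneg.2 huw
    positivity
  linarith [h1, h2, (by ring : (w + k + 1 - k) * (w + k - k) * (u + k + 1) -
    (u + k + 1 - k) * (u + k - k) * (w + k + 1) =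
      u * w * (w - u) + ((k : ℚ) + 1) * ((w - u) * (w + u + 1)))]

theorem g_nonneg (N k i : ℤ) : 0 ≤ g N k i := c1b_ch_nonneg _ _

theorem g_supp {N k i : ℤ} (h : g N k i ≠ 0) : 0 ≤ k ∧ i ≤ N - k := by
  unfold g ch at h
  split_ifs at h with h1
  · refine ⟨h1.2, ?_⟩
    by_contra hlt
    apply h
    rw [Nat.choose_eq_zero_of_lt (by omega)]
    simp
  · exact absurd rfl h

theorem P_symm (N k s p : ℤ) : Pg N k s (s - p) = Pg N k s p := by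
  unfold Pg
  rw [sub_sub_cancel, mul_comm]

/-- log-concavity of `i ↦ C(N-i,k)` -/
theorem P_uni (N k s p : ℤ) (hk : 1 ≤ k) (hp : p < s - p) : Pg N k s p ≤ Pg N k s (p + 1) := by
  unfold Pg g
  rcases lt_or_ge (N - (s - p)) 0 with h | h
  · rw [c1b_ch_neg h, mul_zero]
    exact mul_nonneg (c1b_ch_nonneg _ _) (c1b_ch_nonneg _ _)
  obtain ⟨B, hB⟩ : ∃ B : ℕ, N - (s - p) = (B : ℤ) := ⟨(N - (s - p)).toNat, by omega⟩
  obtain ⟨A, hA⟩ : ∃ A : ℕ, N - (p + 1) = (A : ℤ) := ⟨(N - (p + 1)).toNat, by omega⟩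
  obtain ⟨m, rfl⟩ : ∃ m : ℕ, k = (m : ℤ) := ⟨k.toNat, by omega⟩
  have e1 : N - p = ((A + 1 : ℕ) : ℤ) := by push_cast; omega
  have e2 : N - (s - (p + 1)) = ((B + 1 : ℕ) : ℤ) := by push_cast; omega
  rw [hB, hA, e1, e2, c1b_ch, c1b_ch, c1b_ch, c1b_ch]
  exact c1b_L1 A B m (by omega)

/-- With `q = s-1-p ≥ p`, `X = N-q ≤ Y = N-p`:
`C(Y,k-1) C(X-1,k+1) ≤ C(X,k-1) C(Y-1,k+1)` because
`C(Z-1,k+1)/C(Z,k-1) = (Z-k+1)(Z-k)(Z-k-1)/(Z k (k+1))` is nondecreasing. -/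
theorem Q_mono (N k s p : ℤ) (hk : 1 ≤ k) (hp : p ≤ s - 1 - p) :
    Qg N k s p ≤ Qg N k s (s - 1 - p) := by
  unfold Qg g
  rcases lt_or_ge (N - (s - p)) 0 with h | h
  · rw [c1b_ch_neg h, mul_zero]
    exact mul_nonneg (c1b_ch_nonneg _ _) (c1b_ch_nonneg _ _)
  obtain ⟨X, hX⟩ : ∃ X : ℕ, N - (s - p) = (X : ℤ) := ⟨(N - (s - p)).toNat, by omega⟩
  obtain ⟨Y, hY⟩ : ∃ Y : ℕ, N - (s - (s - 1 - p)) = (Y : ℤ) :=
    ⟨(N - (s - (s - 1 - p))).toNat, by omega⟩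
  obtain ⟨j, rfl⟩ : ∃ j : ℕ, k = (j : ℤ) + 1 := ⟨(k - 1).toNat, by omega⟩
  have e1 : N - p = ((Y + 1 : ℕ) : ℤ) := by push_cast; omega
  have e2 : N - (s - 1 - p) = ((X + 1 : ℕ) : ℤ) := by push_cast; omega
  have e3 : (j : ℤ) + 1 - 1 = (j : ℤ) := by ring
  have e4 : (j : ℤ) + 1 + 1 = ((j + 2 : ℕ) : ℤ) := by push_cast; ring
  rw [hX, hY, e1, e2, e3, e4, c1b_ch, c1b_ch, c1b_ch, c1b_ch]
  exact c1b_L2 X Y j (by omega)

theorem c1b_tele (H : ℤ → ℚ) (a : ℤ) (n : ℕ) :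
    ∑ p ∈ Finset.Icc a (a + n), (H (p + 1) - H p) = H (a + n + 1) - H a := by
  induction n with
  | zero => simp
  | succ n ih =>
    have e : Finset.Icc a (a + (n + 1 : ℕ)) = insert (a + n + 1) (Finset.Icc a (a + n)) := by
      ext p
      simp only [Finset.mem_insert, Finset.mem_Icc]
      push_cast
      omega
    rw [e, Finset.sum_insert (by simp only [Finset.mem_Icc]; omega), ih]
    push_cast
    ring_nf

/-- Windows: exact telescoping (Pascal)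
`Σ_{p=a}^{s-1-a} (P_p - Q_p) = C(N-s+1+a,k) C(N-a,k+1) - C(N-a+1,k) C(N-s+a,k+1)`
(for `p = a-1` replaced by one more step on both sides the difference telescopes: with
`G(A) = C(A,k) C(τ-A,k+1)`, `τ = 2N-s`,
`C(A,k) C(τ-A,k) - C(A-1,k-1) C(τ-A+1,k+1) = G(A-1) - G(A)`). -/
theorem PQ_window_eq (N k s a : ℤ) (hk : 1 ≤ k) (ha : a ≤ s - 1 - a) :
    ∑ p ∈ Finset.Icc a (s - 1 - a), (Pg N k s p - Qg N k s p)
      = ch (N - s + 1 + a) k * ch (N - a) (k + 1) - ch (N - a + 1) k * ch (N - s + a) (k + 1) := by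
  set H : ℤ → ℚ := fun p => ch (N - p + 1) k * ch (N - s + p) (k + 1) with hH
  have h1 : ∀ p, Pg N k s p - Qg N k s p = H (p + 1) - H p := by
    intro p
    have e1 := c1b_pascal (N - s + p) (k + 1) (by omega)
    have e2 := c1b_pascal (N - p) k hk
    have e3 : N - (p + 1) + 1 = N - p := by ring
    have e4 : N - s + (p + 1) = N - s + p + 1 := by ring
    have e5 : N - (s - p) = N - s + p := by ring
    simp only [hH, Pg, Qg, g]
    rw [e3, e4, e5, e1, e2, add_sub_cancel_right]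
    ring
  rw [Finset.sum_congr rfl fun p _ => h1 p]
  obtain ⟨n, hn⟩ : ∃ n : ℕ, s - 1 - a = a + n := ⟨(s - 1 - a - a).toNat, by omega⟩
  rw [hn, c1b_tele, ← hn]
  simp only [hH]
  have e1 : N - (s - 1 - a + 1) + 1 = N - s + 1 + a := by ring
  have e2 : N - s + (s - 1 - a + 1) = N - a := by ring
  rw [e1, e2]

/-- nonnegativity: with `m = N-s+1+a ≤ M = N-a`:
`C(m-1,k+1) C(M+1,k) ≤ C(m,k) C(M,k+1)` since `z/((z-k)(z-k-1))` is decreasing. -/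
theorem PQ_window (N k s a : ℤ) (hk : 1 ≤ k) (ha : a ≤ s - 1 - a) :
    0 ≤ ∑ p ∈ Finset.Icc a (s - 1 - a), (Pg N k s p - Qg N k s p) := by
  rw [PQ_window_eq N k s a hk ha, sub_nonneg]
  rcases lt_or_ge (N - s + a) 0 with h | h
  · rw [c1b_ch_neg h, mul_zero]
    exact mul_nonneg (c1b_ch_nonneg _ _) (c1b_ch_nonneg _ _)
  obtain ⟨m, hm⟩ : ∃ m : ℕ, N - s + a = (m : ℤ) := ⟨(N - s + a).toNat, by omega⟩
  obtain ⟨M, hM⟩ : ∃ M : ℕ, N - a = (M : ℤ) := ⟨(N - a).toNat, by omega⟩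
  obtain ⟨j, rfl⟩ : ∃ j : ℕ, k = (j : ℤ) := ⟨k.toNat, by omega⟩
  have e1 : N - a + 1 = ((M + 1 : ℕ) : ℤ) := by push_cast; omega
  have e2 : N - s + 1 + a = ((m + 1 : ℕ) : ℤ) := by push_cast; omega
  have e3 : (j : ℤ) + 1 = ((j + 1 : ℕ) : ℤ) := by push_cast; ring
  rw [e1, e2, hm, hM, e3, c1b_ch, c1b_ch, c1b_ch, c1b_ch]
  exact c1b_L3 m M j (by omega)

end BD.C1
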