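import Pool.Agent.MP_8b309d_co.C1A
import Pool.Agent.MP_8b309d_co.C1B

/-!
# Row BD-C1C : the inequality for fixed `s ≥ k+1`
-/

namespace BD.C1

theorem fin_of {u : ℤ → ℚ} (a b : ℤ) (h : ∀ p, p < a ∨ b < p → u p = 0) :
    Function.HasFiniteSupport u := by
  apply Set.Finite.subset (Set.finite_Icc a b)
  intro p hp
  rw [Function.mem_support] at hp
  by_contra hc
  rw [Set.mem_Icc, not_and_or, not_le, not_le] at hc
  exact hp (h p hc)

theorem Icc_window (a c : ℤ) (hac : a ≤ c) (x : ℤ → ℚ) :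
    ∑ p ∈ Finset.Icc (a - 1) (c + 1), x p =
      x (a - 1) + x (c + 1) + ∑ p ∈ Finset.Icc a c, x p := by
  have e : Finset.Icc (a - 1) (c + 1) = insert (a - 1) (insert (c + 1) (Finset.Icc a c)) := by
    ext p
    simp only [Finset.mem_insert, Finset.mem_Icc]
    omega
  rw [e, Finset.sum_insert (by simp only [Finset.mem_insert, Finset.mem_Icc]; omega),
    Finset.sum_insert (by simp only [Finset.mem_Icc]; omega)]
  ring

/-- Abel summation for symmetric unimodal weights: if `h ≥ 0` is symmetric about `c/2`,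
nondecreasing to the left of the centre and vanishes below `lo`, and all symmetric window sums
of `x` are nonnegative, then `Σ h x ≥ 0`.
Proof: `Σ_{p ∈ [lo, c-lo]} h_p x_p = Σ_{a ≥ lo, 2a ≤ c} (h_a - h_{a-1}) Σ_{p ∈ [a,c-a]} x_p`. -/
theorem abel_sym (c lo : ℤ) (h x : ℤ → ℚ) (h0 : ∀ p, 0 ≤ h p) (hsym : ∀ p, h (c - p) = h p)
    (hmono : ∀ p, 2 * p ≤ c → h (p - 1) ≤ h p) (hlo : ∀ p, p < lo → h p = 0)
    (hx : ∀ a, 2 * a ≤ c → 0 ≤ ∑ p ∈ Finset.Icc a (c - a), x p) :
    0 ≤ ∑ᶠ p : ℤ, h p * x p := by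
  set m : ℤ := c / 2 with hm
  have hm1 : 2 * m ≤ c := by omega
  have hm2 : c ≤ 2 * m + 1 := by omega
  have key : ∀ n : ℕ, h (m - n) * ∑ p ∈ Finset.Icc (m - n) (c - (m - n)), x p ≤
      ∑ p ∈ Finset.Icc (m - n) (c - (m - n)), h p * x p := by
    intro n
    induction n with
    | zero =>
      rw [Finset.mul_sum]
      apply le_of_eq
      apply Finset.sum_congr rfl
      intro p hp
      rw [Finset.mem_Icc] at hp
      simp only [Nat.cast_zero, sub_zero] at hp ⊢
      have : p = m ∨ p = c - m := by omega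
      rcases this with rfl | rfl
      · rfl
      · rw [hsym]
    | succ n ih =>
      have e1 : m - ((n + 1 : ℕ) : ℤ) = (m - n) - 1 := by push_cast; ring
      have e2 : c - ((m - n) - 1) = (c - (m - n)) + 1 := by ring
      rw [e1, e2, Icc_window _ _ (by omega), Icc_window _ _ (by omega)]
      have hs : h (c - (m - n) + 1) = h ((m - n) - 1) := by
        rw [← hsym ((m - n) - 1)]; congr 1; ring
      rw [hs]
      have hmn := hmono (m - n) (by omega)
      have hxn := hx (m - n) (by omega)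
      have := mul_le_mul_of_nonneg_right hmn hxn
      linarith
  -- choose a large window
  obtain ⟨n, hn⟩ : ∃ n : ℕ, m - n < lo := ⟨(m - lo + 1).toNat, by omega⟩
  have hk := key n
  rw [hlo _ hn, zero_mul] at hk
  have hsupp : Function.support (fun p => h p * x p) ⊆
      ((Finset.Icc (m - n) (c - (m - n)) : Finset ℤ) : Set ℤ) := by
    intro p hp
    rw [Function.mem_support] at hp
    rw [Finset.coe_Icc, Set.mem_Icc]
    by_contra hc
    apply hp
    rw [not_and_or, not_le, not_le] at hc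
    rcases hc with hc | hc
    · rw [hlo p (by omega), zero_mul]
    · rw [← hsym p, hlo (c - p) (by omega), zero_mul]
  rw [finsum_eq_sum_of_support_subset _ hsupp]
  exact hk

theorem wf_zero {k s p : ℤ} (hk : 1 ≤ k) (h : p < 0 ∨ s < p) : wf k s p = 0 := by
  unfold wf
  by_contra hne
  have h1 := f_supp (left_ne_zero_of_mul hne)
  have h2 := f_supp (right_ne_zero_of_mul hne)
  omega

theorem Wf_zero {k s p : ℤ} (hk : 1 ≤ k) (h : p < 0 ∨ s < p) : Wf k s p = 0 := by
  unfold Wf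
  by_contra hne
  have h1 := f_supp (left_ne_zero_of_mul hne)
  have h2 := f_supp (right_ne_zero_of_mul hne)
  omega

theorem Sf_zero {k s p : ℤ} (hk : 1 ≤ k) (h : p < 0 ∨ s < p) : Sf k s p = 0 := by
  have h1 : wf k s (s - 1 - p) = 0 := by
    unfold wf
    by_contra hne
    have h1 := f_supp (left_ne_zero_of_mul hne)
    have h2 := f_supp (right_ne_zero_of_mul hne)
    omega
  unfold Sf
  rw [wf_zero hk h, h1, add_zero]

theorem wf_nonneg (k s p : ℤ) : 0 ≤ wf k s p := mul_nonneg (f_nonneg _ _) (f_nonneg _ _)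

theorem Sf_nonneg (k s p : ℤ) : 0 ≤ Sf k s p := add_nonneg (wf_nonneg _ _ _) (wf_nonneg _ _ _)

theorem Pg_nonneg (N k s p : ℤ) : 0 ≤ Pg N k s p := mul_nonneg (g_nonneg _ _ _) (g_nonneg _ _ _)

/-- reflection of a finite sum -/
theorem finsum_refl (c : ℤ) (u : ℤ → ℚ) : ∑ᶠ p : ℤ, u (c - p) = ∑ᶠ p : ℤ, u p :=
  finsum_comp_equiv (Equiv.subLeft c)

/-- The inequality `D_s ≥ 0`.
Proof (all sums over `p : ℤ`, finite supports because of `f_supp`, `g_supp`).  Let `p* = s-1-p`.
1. `Σ w_p Q_p = ½ Σ (w_p Q_p + w_{p*} Q_{p*}) ≤ ¼ Σ (w_p + w_{p*})(Q_p + Q_{p*}) = ½ Σ S_p Q_p`,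
   since `(w_p - w_{p*})(Q_p - Q_{p*}) ≤ 0` (`w_mono`, `Q_mono`).
2. `Σ S_p (P_p - Q_p) ≥ 0`: `abel_sym` with `c = s-1`, `h = S`, `x = P - Q` (`S_symm`, `S_uni`,
   `PQ_window`).
3. `Σ S_p P_p = ½ Σ (S_p + S_{p-1}) P_p` (reflect `p ↦ s-p`: `P_{s-p} = P_p`,
   `S_{s-p} = S_{p-1}`), and `Σ P_p (4 W_p - S_p - S_{p-1}) ≥ 0` by `abel_sym` with `c = s`,
   `h = P` (`P_symm`, `P_uni`, `W_window`).
Together `Σ w Q ≤ ½ Σ S Q ≤ ½ Σ S P = ¼ Σ (S_p + S_{p-1}) P_p ≤ Σ W P`. -/
theorem D_nonneg (N k s : ℤ) (hk : 1 ≤ k) (hs : k + 1 ≤ s) :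
    0 ≤ ∑ᶠ p : ℤ, (Wf k s p * Pg N k s p - wf k s p * Qg N k s p) := by
  -- finite supports
  have F1 : Function.HasFiniteSupport (fun p => wf k s p * Qg N k s p) :=
    fin_of 0 s fun p hp => by simp only [wf_zero hk hp, zero_mul]
  have F2 : Function.HasFiniteSupport (fun p => wf k s p * Qg N k s (s - 1 - p)) :=
    fin_of 0 s fun p hp => by simp only [wf_zero hk hp, zero_mul]
  have F3 : Function.HasFiniteSupport (fun p => Wf k s p * Pg N k s p) :=
    fin_of 0 s fun p hp => by simp only [Wf_zero hk hp, zero_mul]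
  have F4 : Function.HasFiniteSupport (fun p => Sf k s p * Pg N k s p) :=
    fin_of 0 s fun p hp => by simp only [Sf_zero hk hp, zero_mul]
  have F5 : Function.HasFiniteSupport (fun p => Sf k s (p - 1) * Pg N k s p) :=
    fin_of 0 (s + 1) fun p hp => by
      simp only [Sf_zero (s := s) (p := p - 1) hk (by omega), zero_mul]
  have F6 : Function.HasFiniteSupport (fun p => Sf k s p * Qg N k s p) :=
    fin_of 0 s fun p hp => by simp only [Sf_zero hk hp, zero_mul]
  have F7 : Function.HasFiniteSupport (fun p => wf k s (s - 1 - p) * Qg N k s (s - 1 - p)) :=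
    fin_of (-1) (s - 1) fun p hp => by
      simp only [wf_zero (p := s - 1 - p) (s := s) hk (by omega), zero_mul]
  have F8 : Function.HasFiniteSupport (fun p => wf k s (s - 1 - p) * Qg N k s p) :=
    fin_of (-1) (s - 1) fun p hp => by
      simp only [wf_zero (p := s - 1 - p) (s := s) hk (by omega), zero_mul]
  -- reflections
  have e1 : ∑ᶠ p : ℤ, wf k s (s - 1 - p) * Qg N k s (s - 1 - p) =
      ∑ᶠ p : ℤ, wf k s p * Qg N k s p :=
    finsum_refl (s - 1) (fun p => wf k s p * Qg N k s p)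
  have e2 : ∑ᶠ p : ℤ, wf k s (s - 1 - p) * Qg N k s p =
      ∑ᶠ p : ℤ, wf k s p * Qg N k s (s - 1 - p) := by
    rw [← finsum_refl (s - 1) (fun p => wf k s p * Qg N k s (s - 1 - p))]
    apply finsum_congr
    intro p
    have : s - 1 - (s - 1 - p) = p := by ring
    simp only [this]
  have e3 : ∑ᶠ p : ℤ, Sf k s (p - 1) * Pg N k s p = ∑ᶠ p : ℤ, Sf k s p * Pg N k s p := by
    rw [← finsum_refl s (fun p => Sf k s (p - 1) * Pg N k s p)]
    apply finsum_congr
    intro p
    simp only [P_symm]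
    have : s - p - 1 = s - 1 - p := by ring
    rw [this, S_symm]
  -- step 1
  have s1 : 0 ≤ ∑ᶠ p : ℤ, ((wf k s p * Qg N k s (s - 1 - p) + wf k s (s - 1 - p) * Qg N k s p) -
      (wf k s p * Qg N k s p + wf k s (s - 1 - p) * Qg N k s (s - 1 - p))) := by
    apply finsum_nonneg
    intro p
    have e : (wf k s p * Qg N k s (s - 1 - p) + wf k s (s - 1 - p) * Qg N k s p) -
      (wf k s p * Qg N k s p + wf k s (s - 1 - p) * Qg N k s (s - 1 - p)) =
      (wf k s p - wf k s (s - 1 - p)) * (Qg N k s (s - 1 - p) - Qg N k s p) := by ring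
    rw [e]
    rcases le_total p (s - 1 - p) with hp | hp
    · exact mul_nonneg (sub_nonneg.mpr (w_mono k s p hk hp)) (sub_nonneg.mpr (Q_mono N k s p hk hp))
    · have hq : s - 1 - (s - 1 - p) = p := by ring
      have h1 := w_mono k s (s - 1 - p) hk (by omega)
      have h2 := Q_mono N k s (s - 1 - p) hk (by omega)
      rw [hq] at h1 h2
      exact mul_nonneg_of_nonpos_of_nonpos (by linarith) (by linarith)
  rw [finsum_sub_distrib (F2.fun_add F8) (F1.fun_add F7), finsum_add_distrib F2 F8,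
    finsum_add_distrib F1 F7, e1, e2] at s1
  have s1' : ∑ᶠ p : ℤ, Sf k s p * Qg N k s p = ∑ᶠ p : ℤ, wf k s p * Qg N k s p +
      ∑ᶠ p : ℤ, wf k s p * Qg N k s (s - 1 - p) := by
    rw [← e2, ← finsum_add_distrib F1 F8]
    apply finsum_congr
    intro p
    unfold Sf
    ring
  -- step 2
  have s2 : 0 ≤ ∑ᶠ p : ℤ, Sf k s p * (Pg N k s p - Qg N k s p) := by
    apply abel_sym (s - 1) 0 (Sf k s) _ (Sf_nonneg k s)
    · intro p; exact S_symm k s p
    · intro p hp; exact S_uni k s p hk hs (by omega)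
    · intro p hp; exact Sf_zero hk (Or.inl hp)
    · intro a ha; exact PQ_window N k s a hk (by omega)
  have s2' : ∑ᶠ p : ℤ, Sf k s p * (Pg N k s p - Qg N k s p) =
      ∑ᶠ p : ℤ, Sf k s p * Pg N k s p - ∑ᶠ p : ℤ, Sf k s p * Qg N k s p := by
    rw [← finsum_sub_distrib F4 F6]
    apply finsum_congr
    intro p
    ring
  -- step 3
  have s3 : 0 ≤ ∑ᶠ p : ℤ, Pg N k s p * (4 * Wf k s p - Sf k s p - Sf k s (p - 1)) := by
    apply abel_sym s (s - N + k) (Pg N k s) _ (Pg_nonneg N k s)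
    · intro p; exact P_symm N k s p
    · intro p hp
      have := P_uni N k s (p - 1) hk (by omega)
      rwa [sub_add_cancel] at this
    · intro p hp
      unfold Pg
      by_contra hne
      have h2 := g_supp (right_ne_zero_of_mul hne)
      omega
    · intro a ha
      exact W_window k s a hk hs (by omega)
  have F3' : Function.HasFiniteSupport (fun p => 4 * (Wf k s p * Pg N k s p)) :=
    fin_of 0 s fun p hp => by simp only [Wf_zero hk hp, zero_mul, mul_zero]
  have s3' : ∑ᶠ p : ℤ, Pg N k s p * (4 * Wf k s p - Sf k s p - Sf k s (p - 1)) =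
      4 * ∑ᶠ p : ℤ, Wf k s p * Pg N k s p - (∑ᶠ p : ℤ, Sf k s p * Pg N k s p +
        ∑ᶠ p : ℤ, Sf k s (p - 1) * Pg N k s p) := by
    rw [← finsum_add_distrib F4 F5, mul_finsum, ← finsum_sub_distrib F3' (F4.fun_add F5)]
    apply finsum_congr
    intro p
    ring
  rw [finsum_sub_distrib F3 F1]
  rw [s3', e3] at s3
  rw [s2', s1'] at s2
  linarith

end BD.C1
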