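import Pool.Agent.MP_8b309d_co.C1C

/-!
# Row BD-C1D : the terms `s ≤ k`, and the total inequality
-/

namespace BD.C1

theorem ch_of_nat (a k : ℕ) : ch (a : ℤ) (k : ℤ) = (a.choose k : ℚ) := by
  unfold ch
  rw [if_pos ⟨Int.natCast_nonneg _, Int.natCast_nonneg _⟩]
  simp

theorem ch_eq_zero_of_lt {a k : ℤ} (h : a < k) : ch a k = 0 := by
  unfold ch
  split_ifs with h'
  · obtain ⟨ha, hk⟩ := h'
    rw [Nat.choose_eq_zero_of_lt (by omega)]
    simp
  · rfl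

theorem WfD_supp {k s p : ℤ} (h : Wf k s p ≠ 0) : k ≤ 2 * p ∧ k ≤ 2 * (s - p) := by
  unfold Wf at h
  exact ⟨(f_supp (left_ne_zero_of_mul h)).1, (f_supp (right_ne_zero_of_mul h)).1⟩

theorem wfD_supp {k s p : ℤ} (h : wf k s p ≠ 0) : k - 1 ≤ 2 * p ∧ k + 1 ≤ 2 * (s - p) := by
  unfold wf at h
  exact ⟨(f_supp (left_ne_zero_of_mul h)).1, (f_supp (right_ne_zero_of_mul h)).1⟩

theorem WfD_zero {k s p : ℤ} (h : ¬ (k ≤ 2 * p ∧ k ≤ 2 * (s - p))) : Wf k s p = 0 := by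
  by_contra h'
  exact h (WfD_supp h')

theorem wfD_zero {k s p : ℤ} (h : ¬ (k - 1 ≤ 2 * p ∧ k + 1 ≤ 2 * (s - p))) : wf k s p = 0 := by
  by_contra h'
  exact h (wfD_supp h')

/-- for `s < k` all products vanish (`f_supp`: `2p ≥ k`, `2(s-p) ≥ k`, resp. `2p ≥ k-1`,
`2(s-p) ≥ k+1`) -/
theorem D_low (N k s : ℤ) (hk : 1 ≤ k) (hs : s < k) :
    ∑ᶠ p : ℤ, (Wf k s p * Pg N k s p - wf k s p * Qg N k s p) = 0 := by
  have : ∀ p : ℤ, (Wf k s p * Pg N k s p - wf k s p * Qg N k s p) = 0 := by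
    intro p
    rw [WfD_zero (by omega), wfD_zero (by omega)]
    ring
  rw [finsum_congr this, finsum_zero]

theorem corner_nat (μ y : ℕ) (hy : 1 ≤ y) :
    ((μ + 3 : ℕ).choose 2 : ℚ) * ((y + 2 * μ + 2).choose (2 * μ) : ℚ)
        * ((y + 2 * μ).choose (2 * μ + 2) : ℚ)
      + ((μ + 2 : ℕ).choose 2 : ℚ) * ((y + 2 * μ + 1).choose (2 * μ) : ℚ)
        * ((y + 2 * μ + 1).choose (2 * μ + 2) : ℚ)
      + ((y + 2 * μ + 2).choose (2 * μ) : ℚ) * ((y + 2 * μ + 1).choose (2 * μ + 2) : ℚ)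
      ≤ ((μ : ℚ) + 2) ^ 2 * ((y + 2 * μ + 1).choose (2 * μ + 1) : ℚ) ^ 2 := by
  obtain ⟨t, rfl⟩ : ∃ t, y = t + 1 := ⟨y - 1, by omega⟩
  have e1 : (((t + 1) + 2 * μ + 1).choose (2 * μ + 2) : ℚ) * (2 * μ + 2)
      = ((t + 1) + 2 * μ + 1).choose (2 * μ + 1) * ((t : ℚ) + 1) := by
    have := Nat.choose_succ_right_eq ((t + 1) + 2 * μ + 1) (2 * μ + 1)
    have h2 : (t + 1) + 2 * μ + 1 - (2 * μ + 1) = t + 1 := by omega
    rw [h2] at this
    exact_mod_cast this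
  have e2 : (((t + 1) + 2 * μ + 1).choose (2 * μ + 1) : ℚ) * (2 * μ + 1)
      = ((t + 1) + 2 * μ + 1).choose (2 * μ) * ((t : ℚ) + 2) := by
    have := Nat.choose_succ_right_eq ((t + 1) + 2 * μ + 1) (2 * μ)
    have h2 : (t + 1) + 2 * μ + 1 - (2 * μ) = t + 2 := by omega
    rw [h2] at this
    exact_mod_cast this
  have e3 : (((t + 1) + 2 * μ + 2).choose (2 * μ) : ℚ) * ((t : ℚ) + 3)
      = ((t + 1) + 2 * μ + 1).choose (2 * μ) * ((t : ℚ) + 2 * μ + 3) := by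
    have := Nat.choose_mul_succ_eq ((t + 1) + 2 * μ + 1) (2 * μ)
    have h2 : (t + 1) + 2 * μ + 1 + 1 - (2 * μ) = t + 3 := by omega
    rw [h2] at this
    have h3 : (((t + 1 + 2 * μ + 1).choose (2 * μ) * (t + 1 + 2 * μ + 1 + 1) : ℕ) : ℚ)
      = (((t + 1 + 2 * μ + 1 + 1).choose (2 * μ) * (t + 3) : ℕ) : ℚ) := by rw [this]
    push_cast at h3
    have h4 : t + 1 + 2 * μ + 2 = t + 1 + 2 * μ + 1 + 1 := by ring
    rw [h4]
    linear_combination -h3
  have e4 : (((t + 1) + 2 * μ).choose (2 * μ + 2) : ℚ) * ((t : ℚ) + 2 * μ + 2)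
      = ((t + 1) + 2 * μ + 1).choose (2 * μ + 2) * (t : ℚ) := by
    have := Nat.choose_mul_succ_eq ((t + 1) + 2 * μ) (2 * μ + 2)
    have h2 : (t + 1) + 2 * μ + 1 - (2 * μ + 2) = t := by omega
    rw [h2] at this
    have h3 : (((t + 1 + 2 * μ).choose (2 * μ + 2) * (t + 1 + 2 * μ + 1) : ℕ) : ℚ)
      = (((t + 1 + 2 * μ + 1).choose (2 * μ + 2) * t : ℕ) : ℚ) := by rw [this]
    push_cast at h3
    linear_combination h3
  have c3 : ((μ + 3 : ℕ).choose 2 : ℚ) = ((μ : ℚ) + 3) * (μ + 2) / 2 := by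
    rw [Nat.cast_choose_two]; push_cast; ring
  have c2 : ((μ + 2 : ℕ).choose 2 : ℚ) = ((μ : ℚ) + 2) * (μ + 1) / 2 := by
    rw [Nat.cast_choose_two]; push_cast; ring
  rw [c3, c2]
  set B : ℚ := (((t + 1) + 2 * μ + 1).choose (2 * μ + 1) : ℚ) with hB
  have hB0 : 0 ≤ B := by positivity
  set x1 : ℚ := (((t + 1) + 2 * μ + 1).choose (2 * μ + 2) : ℚ)
  set x2 : ℚ := (((t + 1) + 2 * μ + 1).choose (2 * μ) : ℚ)
  set x3 : ℚ := (((t + 1) + 2 * μ + 2).choose (2 * μ) : ℚ)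
  set x4 : ℚ := (((t + 1) + 2 * μ).choose (2 * μ + 2) : ℚ)
  have hm0 : (0 : ℚ) ≤ μ := by positivity
  have ht0 : (0 : ℚ) ≤ t := by positivity
  have f1 : x1 = B * ((t : ℚ) + 1) / (2 * μ + 2) := by
    rw [eq_div_iff (by positivity)]; exact e1
  have f2 : x2 = B * (2 * μ + 1) / ((t : ℚ) + 2) := by
    rw [eq_div_iff (by positivity)]; exact e2.symm
  have f3 : x3 = x2 * ((t : ℚ) + 2 * μ + 3) / ((t : ℚ) + 3) := by
    rw [eq_div_iff (by positivity)]; exact e3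
  have f4 : x4 = x1 * (t : ℚ) / ((t : ℚ) + 2 * μ + 2) := by
    rw [eq_div_iff (by positivity)]; exact e4
  rw [f4, f3, f2, f1]
  rw [← sub_nonneg]
  have key : ((μ : ℚ) + 2) ^ 2 * B ^ 2 -
      (((μ : ℚ) + 3) * (μ + 2) / 2 * (B * (2 * μ + 1) / ((t : ℚ) + 2) * ((t : ℚ) + 2 * μ + 3) / ((t : ℚ) + 3))
        * (B * ((t : ℚ) + 1) / (2 * μ + 2) * (t : ℚ) / ((t : ℚ) + 2 * μ + 2))
      + ((μ : ℚ) + 2) * (μ + 1) / 2 * (B * (2 * μ + 1) / ((t : ℚ) + 2)) * (B * ((t : ℚ) + 1) / (2 * μ + 2))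
      + (B * (2 * μ + 1) / ((t : ℚ) + 2) * ((t : ℚ) + 2 * μ + 3) / ((t : ℚ) + 3)) * (B * ((t : ℚ) + 1) / (2 * μ + 2)))
      = B ^ 2 / (4 * (μ + 1) * (t + 2) * (t + 3) * (t + 2 * μ + 2)) *
        (4 * (μ + 1) * (μ + 2) ^ 2 * (t + 2) * (t + 3) * (t + 2 * μ + 2)
          - (μ + 3) * (μ + 2) * (2 * μ + 1) * (t + 2 * μ + 3) * (t + 1) * t
          - (μ + 1) * (μ + 2) * (2 * μ + 1) * (t + 1) * (t + 3) * (t + 2 * μ + 2)
          - 2 * (2 * μ + 1) * (t + 2 * μ + 3) * (t + 1) * (t + 2 * μ + 2)) := by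
    field_simp
    ring
  rw [key]
  apply mul_nonneg (by positivity)
  ring_nf
  positivity

/-- The corner inequality as an inequality between binomial coefficients (`k = 2m-1`,
`z = N-m`).  Proof: if `C(z,2m) = 0` and `C(z-1,2m) = 0` trivial.  Otherwise `z = y + 2m-1`,
`y ≥ 1`; divide by `C(z,2m-1)²`: with `m ≥ 1` it becomes, after multiplication by
`4m(y+1)(y+2)(y+2m-1)`,
`4m(m+1)²(y+1)(y+2)(y+2m-1) - (m+2)(m+1)(2m-1)(y+2m)y(y-1) - m(m+1)(2m-1)y(y+2)(y+2m-1)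
 - 2(2m-1)(y+2m)y(y+2m-1) ≥ 0`, a polynomial with nonnegative coefficients in `m-1` and `y`:
(with `m = μ+1`) `20μ⁴y+16μ⁴+12μ³y²+118μ³y+88μ³+2μ²y³+48μ²y²+274μ²y+168μ²+4μy³+86μy²+260μy
+128μ+6y³+46y²+84y+32`. -/
theorem corner_ineq (z m : ℤ) (hm : 1 ≤ m) :
    ch (m + 2) 2 * ch (z + 1) (2 * m - 2) * ch (z - 1) (2 * m)
      + ch (m + 1) 2 * ch z (2 * m - 2) * ch z (2 * m)
      + ch (z + 1) (2 * m - 2) * ch z (2 * m)
      ≤ ((m + 1 : ℤ) : ℚ) ^ 2 * ch z (2 * m - 1) ^ 2 := by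
  rcases lt_or_ge z (2 * m) with hz | hz
  · rw [ch_eq_zero_of_lt hz, ch_eq_zero_of_lt (show z - 1 < 2 * m by omega)]
    have : 0 ≤ ((m + 1 : ℤ) : ℚ) ^ 2 * ch z (2 * m - 1) ^ 2 := by positivity
    linarith
  · obtain ⟨μ, hμ⟩ : ∃ μ : ℕ, m = μ + 1 := ⟨(m - 1).toNat, by omega⟩
    obtain ⟨y, hy⟩ : ∃ y : ℕ, z = y + 2 * μ + 1 := ⟨(z - 2 * m + 1).toNat, by omega⟩
    have hy1 : 1 ≤ y := by omega
    subst hμ hy
    have a1 : ((μ : ℤ) + 1 + 2) = ((μ + 3 : ℕ) : ℤ) := by push_cast; ring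
    have a2 : ((μ : ℤ) + 1 + 1) = ((μ + 2 : ℕ) : ℤ) := by push_cast; ring
    have a3 : ((y : ℤ) + 2 * μ + 1 + 1) = ((y + 2 * μ + 2 : ℕ) : ℤ) := by push_cast; ring
    have a4 : ((y : ℤ) + 2 * μ + 1 - 1) = ((y + 2 * μ : ℕ) : ℤ) := by push_cast; ring
    have a5 : ((y : ℤ) + 2 * μ + 1) = ((y + 2 * μ + 1 : ℕ) : ℤ) := by push_cast; ring
    have b1 : (2 * ((μ : ℤ) + 1) - 2) = ((2 * μ : ℕ) : ℤ) := by push_cast; ring
    have b2 : (2 * ((μ : ℤ) + 1) - 1) = ((2 * μ + 1 : ℕ) : ℤ) := by push_cast; ring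
    have b3 : (2 * ((μ : ℤ) + 1)) = ((2 * μ + 2 : ℕ) : ℤ) := by push_cast; ring
    have b4 : (2 : ℤ) = ((2 : ℕ) : ℤ) := by norm_num
    have h := corner_nat μ y hy1
    rw [← ch_of_nat, ← ch_of_nat, ← ch_of_nat, ← ch_of_nat, ← ch_of_nat, ← ch_of_nat,
      ← ch_of_nat] at h
    rw [a3, a4, a1, a2, a5, b1, b2, b3]
    have hc : (((μ + 2 : ℕ) : ℤ) : ℚ) = (μ : ℚ) + 2 := by push_cast; ring
    rw [hc]
    exact h

/-- `D_k + D_{k+1} ≥ 0`.
`k` even: in `D_k` only `W_{k/2} P_{k/2} ≥ 0` survives and `D_{k+1} ≥ 0` (`D_nonneg`).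
`k = 2m-1`: `D_k = - C(N-m+1,2m-2) C(N-m,2m)` (only `p = m-1`, `w = 1`),
`D_{k+1} = (m+1)² C(N-m,2m-1)² - C(m+2,2) C(N-m+1,2m-2) C(N-m-1,2m)
  - C(m+1,2) C(N-m,2m-2) C(N-m,2m)` (`W`: only `p = m`; `w`: only `p = m-1, m`); use
`corner_ineq` with `z = N-m`. -/
theorem D_corner (N k : ℤ) (hk : 1 ≤ k) :
    0 ≤ (∑ᶠ p : ℤ, (Wf k k p * Pg N k k p - wf k k p * Qg N k k p))
      + ∑ᶠ p : ℤ, (Wf k (k + 1) p * Pg N k (k + 1) p - wf k (k + 1) p * Qg N k (k + 1) p) := by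
  rcases Int.even_or_odd' k with ⟨m, hm | hm⟩
  · apply add_nonneg
    · apply finsum_nonneg
      intro p
      rw [wfD_zero (by omega)]
      have h1 : 0 ≤ Wf k k p := mul_nonneg (f_nonneg _ _) (f_nonneg _ _)
      have h2 : 0 ≤ Pg N k k p := mul_nonneg (g_nonneg _ _ _) (g_nonneg _ _ _)
      have := mul_nonneg h1 h2
      linarith
    · exact D_nonneg N k (k + 1) hk le_rfl
  · obtain ⟨m, rfl⟩ : ∃ m' : ℤ, m = m' - 1 := ⟨m + 1, by ring⟩
    have hk2 : k = 2 * m - 1 := by omega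
    have hm1 : 1 ≤ m := by omega
    subst hk2
    have c0 : ∀ a : ℤ, 0 ≤ a → ch a 0 = 1 := by
      intro a ha
      obtain ⟨n, rfl⟩ := Int.eq_ofNat_of_zero_le ha
      have := ch_of_nat n 0
      simpa using this
    have c1 : ∀ a : ℤ, 0 ≤ a → ch a 1 = (a : ℚ) := by
      intro a ha
      obtain ⟨n, rfl⟩ := Int.eq_ofNat_of_zero_le ha
      have := ch_of_nat n 1
      simpa using this
    have e1 : (∑ᶠ p : ℤ, (Wf (2 * m - 1) (2 * m - 1) p * Pg N (2 * m - 1) (2 * m - 1) p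
        - wf (2 * m - 1) (2 * m - 1) p * Qg N (2 * m - 1) (2 * m - 1) p))
        = - (ch (N - m + 1) (2 * m - 2) * ch (N - m) (2 * m)) := by
      rw [finsum_eq_single _ (m - 1)]
      · rw [WfD_zero (by omega)]
        have h1 : wf (2 * m - 1) (2 * m - 1) (m - 1) = 1 := by
          unfold wf f
          have i1 : m - 1 + 1 = m := by ring
          have i2 : 2 * (m - 1) - (2 * m - 1 - 1) = 0 := by ring
          have i3 : 2 * m - 1 - (m - 1) + 1 = m + 1 := by ring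
          have i4 : 2 * (2 * m - 1 - (m - 1)) - (2 * m - 1 + 1) = 0 := by ring
          rw [i1, i2, i3, i4, c0 _ (by omega), c0 _ (by omega)]
          ring
        have h2 : Qg N (2 * m - 1) (2 * m - 1) (m - 1)
            = ch (N - m + 1) (2 * m - 2) * ch (N - m) (2 * m) := by
          unfold Qg g
          have i1 : N - (m - 1) = N - m + 1 := by ring
          have i2 : 2 * m - 1 - 1 = 2 * m - 2 := by ring
          have i3 : N - (2 * m - 1 - (m - 1)) = N - m := by ring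
          have i4 : 2 * m - 1 + 1 = 2 * m := by ring
          rw [i1, i2, i3, i4]
        rw [h1, h2]; ring
      · intro p hp
        rw [WfD_zero (by omega), wfD_zero (by omega)]
        ring
    have e2 : (∑ᶠ p : ℤ, (Wf (2 * m - 1) (2 * m - 1 + 1) p * Pg N (2 * m - 1) (2 * m - 1 + 1) p
        - wf (2 * m - 1) (2 * m - 1 + 1) p * Qg N (2 * m - 1) (2 * m - 1 + 1) p))
        = (((m + 1 : ℤ) : ℚ) ^ 2 * ch (N - m) (2 * m - 1) ^ 2
            - ch (m + 1) 2 * ch (N - m) (2 * m - 2) * ch (N - m) (2 * m))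
          - ch (m + 2) 2 * ch (N - m + 1) (2 * m - 2) * ch (N - m - 1) (2 * m) := by
      rw [finsum_eq_sum_of_support_subset (s := {m, m - 1})]
      · rw [Finset.sum_pair (by omega)]
        have w1 : Wf (2 * m - 1) (2 * m - 1 + 1) (m - 1) = 0 := WfD_zero (by omega)
        have w2 : Wf (2 * m - 1) (2 * m - 1 + 1) m = ((m + 1 : ℤ) : ℚ) ^ 2 := by
          unfold Wf f
          have i1 : 2 * m - (2 * m - 1) = 1 := by ring
          have i2 : 2 * m - 1 + 1 - m = m := by ring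
          rw [i2, i1, c1 _ (by omega)]
          ring
        have w3 : wf (2 * m - 1) (2 * m - 1 + 1) m = ch (m + 1) 2 := by
          unfold wf f
          have i1 : 2 * m - (2 * m - 1 - 1) = 2 := by ring
          have i2 : 2 * m - 1 + 1 - m = m := by ring
          have i3 : 2 * m - (2 * m - 1 + 1) = 0 := by ring
          rw [i2, i1, i3, c0 _ (by omega)]
          ring
        have w4 : wf (2 * m - 1) (2 * m - 1 + 1) (m - 1) = ch (m + 2) 2 := by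
          unfold wf f
          have i0 : m - 1 + 1 = m := by ring
          have i1 : 2 * (m - 1) - (2 * m - 1 - 1) = 0 := by ring
          have i2 : 2 * m - 1 + 1 - (m - 1) = m + 1 := by ring
          have i3 : 2 * (m + 1) - (2 * m - 1 + 1) = 2 := by ring
          have i4 : m + 1 + 1 = m + 2 := by ring
          rw [i2, i1, i3, i0, i4, c0 _ (by omega)]
          ring
        have p1 : Pg N (2 * m - 1) (2 * m - 1 + 1) m = ch (N - m) (2 * m - 1) ^ 2 := by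
          unfold Pg g
          have i2 : 2 * m - 1 + 1 - m = m := by ring
          rw [i2]; ring
        have p2 : Qg N (2 * m - 1) (2 * m - 1 + 1) m
            = ch (N - m) (2 * m - 2) * ch (N - m) (2 * m) := by
          unfold Qg g
          have i2 : 2 * m - 1 + 1 - m = m := by ring
          have i3 : 2 * m - 1 - 1 = 2 * m - 2 := by ring
          have i4 : 2 * m - 1 + 1 = 2 * m := by ring
          rw [i2, i3, i4]
        have p3 : Qg N (2 * m - 1) (2 * m - 1 + 1) (m - 1)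
            = ch (N - m + 1) (2 * m - 2) * ch (N - m - 1) (2 * m) := by
          unfold Qg g
          have i1 : N - (m - 1) = N - m + 1 := by ring
          have i2 : N - (2 * m - 1 + 1 - (m - 1)) = N - m - 1 := by ring
          have i3 : 2 * m - 1 - 1 = 2 * m - 2 := by ring
          have i4 : 2 * m - 1 + 1 = 2 * m := by ring
          rw [i2, i3, i1, i4]
        rw [w1, w2, w3, w4, p1, p2, p3]
        ring
      · intro p hp
        simp only [Finset.coe_insert, Finset.coe_singleton, Set.mem_insert_iff,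
          Set.mem_singleton_iff]
        by_contra hc
        apply hp
        show Wf (2 * m - 1) (2 * m - 1 + 1) p * Pg N (2 * m - 1) (2 * m - 1 + 1) p -
          wf (2 * m - 1) (2 * m - 1 + 1) p * Qg N (2 * m - 1) (2 * m - 1 + 1) p = 0
        rw [WfD_zero (by omega), wfD_zero (by omega)]
        ring
    rw [e1, e2]
    have := corner_ineq (N - m) m hm1
    linarith

theorem finsum_f_eq (a b : ℤ) (u : ℤ → ℚ) (hab : ∀ i, u i ≠ 0 → a ≤ i ∧ i ≤ b) :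
    ∑ᶠ i : ℤ, u i = ∑ i ∈ Finset.Icc a b, u i := by
  apply finsum_eq_sum_of_support_subset
  intro i hi
  rw [Finset.coe_Icc, Set.mem_Icc]
  exact hab i hi

/-- double sums grouped by the sum of the indices -/
theorem double_sum (L : ℤ) (hL : 0 ≤ L) (u v : ℤ → ℚ) (hu : ∀ i, u i ≠ 0 → 0 ≤ i ∧ i ≤ L)
    (hv : ∀ i, v i ≠ 0 → 0 ≤ i ∧ i ≤ L) :
    (∑ᶠ i : ℤ, u i) * (∑ᶠ i : ℤ, v i)
      = ∑ s ∈ Finset.Icc 0 (2 * L), ∑ᶠ p : ℤ, u p * v (s - p) := by
  have h1 : ∀ s : ℤ, ∑ᶠ p : ℤ, u p * v (s - p) = ∑ p ∈ Finset.Icc 0 L, u p * v (s - p) := by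
    intro s
    apply finsum_f_eq
    intro i hi
    exact hu i (left_ne_zero_of_mul hi)
  rw [Finset.sum_congr rfl (fun s _ => h1 s), Finset.sum_comm,
    finsum_f_eq 0 L u hu, Finset.sum_mul]
  apply Finset.sum_congr rfl
  intro p hp
  rw [Finset.mem_Icc] at hp
  rw [← Finset.mul_sum]
  congr 1
  rw [← finsum_comp_equiv (Equiv.subRight p) (f := v)]
  apply finsum_f_eq
  intro i hi
  have := hv _ hi
  simp only [Equiv.subRight_apply] at this
  omega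

/-- The total inequality: the difference of the two sides is `Σ_s D_s` (group the double sum
`Σ_{p,q}` by `s = p + q`); `D_low`, `D_corner`, `D_nonneg`. -/
theorem total (N k : ℤ) (hk : 1 ≤ k) :
    (∑ᶠ i : ℤ, f (k - 1) i * g N (k - 1) i) * (∑ᶠ i : ℤ, f (k + 1) i * g N (k + 1) i)
      ≤ (∑ᶠ i : ℤ, f k i * g N k i) ^ 2 := by
  have hF : ∀ j : ℤ, 0 ≤ j → j ≤ k + 1 → ∀ i, f j i * g N j i ≠ 0 → 0 ≤ i ∧ i ≤ k + 2 := by
    intro j hj hjk i hi
    have := f_supp (left_ne_zero_of_mul hi)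
    omega
  rw [sq, double_sum (k + 2) (by omega) _ _ (hF (k - 1) (by omega) (by omega))
    (hF (k + 1) (by omega) (by omega)),
    double_sum (k + 2) (by omega) _ _ (hF k (by omega) (by omega)) (hF k (by omega) (by omega)),
    ← sub_nonneg, ← Finset.sum_sub_distrib]
  have key : ∀ s : ℤ, (∑ᶠ p : ℤ, f k p * g N k p * (f k (s - p) * g N k (s - p)))
      - (∑ᶠ p : ℤ, f (k - 1) p * g N (k - 1) p * (f (k + 1) (s - p) * g N (k + 1) (s - p)))
      = ∑ᶠ p : ℤ, (Wf k s p * Pg N k s p - wf k s p * Qg N k s p) := by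
    intro s
    rw [← finsum_sub_distrib]
    · apply finsum_congr
      intro p
      unfold Wf wf Pg Qg
      ring
    · apply Set.Finite.subset (Set.finite_Icc 0 (k + 2))
      intro p hp
      exact hF k (by omega) (by omega) p (left_ne_zero_of_mul hp)
    · apply Set.Finite.subset (Set.finite_Icc 0 (k + 2))
      intro p hp
      exact hF (k - 1) (by omega) (by omega) p (left_ne_zero_of_mul hp)
  rw [Finset.sum_congr rfl (fun s _ => key s)]
  rw [← Finset.add_sum_erase (Finset.Icc 0 (2 * (k + 2))) _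
    (show k ∈ Finset.Icc 0 (2 * (k + 2)) by rw [Finset.mem_Icc]; omega),
    ← Finset.add_sum_erase ((Finset.Icc 0 (2 * (k + 2))).erase k) _
    (show k + 1 ∈ (Finset.Icc 0 (2 * (k + 2))).erase k by
      rw [Finset.mem_erase, Finset.mem_Icc]; omega), ← add_assoc]
  apply add_nonneg (D_corner N k hk)
  apply Finset.sum_nonneg
  intro s hs
  rw [Finset.mem_erase, Finset.mem_erase, Finset.mem_Icc] at hs
  rcases lt_or_ge s k with h | h
  · rw [D_low N k s hk h]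
  · exact D_nonneg N k s hk (by omega)

end BD.C1
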