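import Mathlib

/-!
# Class (1) ({123,132}, {132,213}): definitions
-/

namespace BD.C1

/-- binomial coefficient with integer arguments, zero if an argument is negative -/
def ch (a k : ℤ) : ℚ := if 0 ≤ a ∧ 0 ≤ k then ((a.toNat).choose (k.toNat) : ℚ) else 0

def f (k i : ℤ) : ℚ := ch (i + 1) (2 * i - k)

def g (N k i : ℤ) : ℚ := ch (N - i) k

def Wf (k s p : ℤ) : ℚ := f k p * f k (s - p)

def wf (k s p : ℤ) : ℚ := f (k - 1) p * f (k + 1) (s - p)

def Sf (k s p : ℤ) : ℚ := wf k s p + wf k s (s - 1 - p)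

def Pg (N k s p : ℤ) : ℚ := g N k p * g N k (s - p)

def Qg (N k s p : ℤ) : ℚ := g N (k - 1) p * g N (k + 1) (s - p)

end BD.C1
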