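import Pool.Agent.MP_8b309d_co.EBase

/-!
# Row BD-EP2 : Av(132,213) and Av(123,132) ('class (1)')
-/

namespace BD

open Finset Polynomial

def Q132_213 : List ℕ → Prop := fun l => Av p132 l ∧ Av p213 l
def Q132_123 : List ℕ → Prop := fun l => Av p132 l ∧ Av p123 l

/-! ## Helper lemmas (names start with `ep2_`) -/

theorem ep2_mem {n : ℕ} {l : List ℕ} (h : l ∈ words (range n)) : l.Nodup ∧ ∀ x ∈ l, x < n := by
  obtain ⟨h1, h2⟩ := mem_words.1 h
  refine ⟨h1, fun x hx => ?_⟩
  have : x ∈ l.toFinset := List.mem_toFinset.2 hx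
  rw [h2, Finset.mem_range] at this
  exact this

/-- the word of the decomposition is an arrangement of `{0,…,n}` without repetition -/
theorem ep2_bounds {n r : ℕ} (hr : r ≤ n) {L R : List ℕ} (hL : L ∈ words (range (n - r)))
    (hR : R ∈ words (range r)) :
    (∀ x ∈ L.map (· + r), x < n) ∧ (∀ y ∈ R, y < n) ∧ (L.map (· + r) ++ R).Nodup ∧
      ∀ x ∈ L.map (· + r), ∀ y ∈ R, y < x := by
  obtain ⟨hL1, hL2⟩ := ep2_mem hL
  obtain ⟨hR1, hR2⟩ := ep2_mem hR
  have h1 : ∀ x ∈ L.map (· + r), r ≤ x ∧ x < n := by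
    intro x hx
    obtain ⟨y, hy, rfl⟩ := List.mem_map.1 hx
    have := hL2 y hy
    constructor <;> omega
  refine ⟨fun x hx => (h1 x hx).2, fun y hy => lt_of_lt_of_le (hR2 y hy) hr, ?_,
    fun x hx y hy => lt_of_lt_of_le (hR2 y hy) (h1 x hx).1⟩
  rw [List.nodup_append]
  refine ⟨hL1.map (fun a b h => by simpa using h), hR1, fun x hx y hy => ?_⟩
  have := hR2 y hy
  have := (h1 x hx).1
  omega

open Classical in
theorem ep2_W (Q : List ℕ → Prop) (U : Finset ℕ) :
    W Q U = ∑ l ∈ words U, if Q l then (X : ℚ[X]) ^ (bd l) else 0 := by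
  unfold W
  rw [Finset.sum_filter]

open Classical in
/-- words starting with their maximum -/
theorem ep2_MM (Q : List ℕ → Prop) (hQ : ∀ n l, l ∈ words (range n) → (Q (n :: l) ↔ Q l)) (n : ℕ) :
    MM Q (n + 2) = ∑ R ∈ words (range (n + 1)),
      if Q R then (X : ℚ[X]) ^ (bd ((n + 1) :: R)) else 0 := by
  unfold MM W1
  rw [Finset.sum_filter, sum_words_cons _ ⟨0, Finset.mem_range.2 (by omega)⟩,
    Finset.sum_eq_single (n + 1)]
  · have h1 : (range (n + 2)).erase (n + 1) = range (n + 1) := by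
      ext x; rw [Finset.mem_erase, Finset.mem_range, Finset.mem_range]; omega
    rw [h1]
    refine Finset.sum_congr rfl fun R hR => ?_
    have h2 : (Q ((n + 1) :: R) ∧ ((n + 1) :: R).head? = some (n + 2 - 1)) ↔ Q R := by
      rw [hQ (n + 1) R hR]
      simp
    by_cases h3 : Q R
    · rw [if_pos (h2.2 h3), if_pos h3]
    · rw [if_neg (fun h => h3 (h2.1 h)), if_neg h3]
  · intro x _ hx
    refine Finset.sum_eq_zero fun l _ => ?_
    rw [if_neg]
    rintro ⟨-, h⟩
    apply hx
    simpa using h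
  · intro h
    exact absurd (Finset.mem_range.2 (by omega)) h

open Classical in
/-- the general recursion: `L` has to be the word `w k` of its length without big descents -/
theorem ep2_gen (Q P : List ℕ → Prop) (w : ℕ → List ℕ) (hQ0 : Q [])
    (hQ : ∀ n l, l ∈ words (range n) → (Q (n :: l) ↔ Q l))
    (hF : ∀ (L R : List ℕ) (m : ℕ), (∀ x ∈ L, x < m) → (∀ y ∈ R, y < m) → (L ++ R).Nodup →
      (Q (L ++ m :: R) ↔ (∀ x ∈ L, ∀ y ∈ R, y < x) ∧ P L ∧ Q R))
    (hw : ∀ k, w k ∈ words (range k)) (hbw : ∀ k, bd (w k) = 0)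
    (hP : ∀ k r L, L ∈ words (range k) → (P (L.map (· + r)) ↔ L = w k)) (n : ℕ) :
    AA Q (n + 2) = MM Q (n + 2) + 1 + X * ∑ m ∈ Finset.Icc 1 n, AA Q m := by
  have h1 : AA Q (n + 2) = ∑ l ∈ words (range (n + 1 + 1)),
      if (Q l ∧ l.Nodup ∧ ∀ x ∈ l, x < n + 2) then (X : ℚ[X]) ^ (bd l) else 0 := by
    unfold AA
    rw [ep2_W]
    refine Finset.sum_congr rfl fun l hl => ?_
    obtain ⟨g1, g2⟩ := ep2_mem hl
    by_cases h : Q l
    · rw [if_pos h, if_pos ⟨h, g1, g2⟩]
    · rw [if_neg h, if_neg (fun h' => h h'.1)]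
  rw [h1, sum_split_gt (n + 1)]
  · have hterm : ∀ r ∈ range (n + 1 + 1), ∑ L ∈ words (range (n + 1 - r)), ∑ R ∈ words (range r),
        (if (Q (L.map (· + r) ++ (n + 1) :: R) ∧ (L.map (· + r) ++ (n + 1) :: R).Nodup ∧
          ∀ x ∈ L.map (· + r) ++ (n + 1) :: R, x < n + 2) then
          (X : ℚ[X]) ^ (bd (L.map (· + r) ++ (n + 1) :: R)) else 0)
        = ∑ R ∈ words (range r), if Q R then (X : ℚ[X]) ^ (bd ((n + 1) :: R)) else 0 := by
      intro r hr
      have hr' : r ≤ n + 1 := by rw [Finset.mem_range] at hr; omega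
      rw [Finset.sum_eq_single (w (n + 1 - r))]
      · refine Finset.sum_congr rfl fun R hR => ?_
        obtain ⟨b1, b2, b3, b4⟩ := ep2_bounds hr' (hw (n + 1 - r)) hR
        have hbd : bd ((w (n + 1 - r)).map (· + r) ++ (n + 1) :: R) = bd ((n + 1) :: R) := by
          rw [bd_append_max _ _ _ b1, bd_map_add, hbw, zero_add]
        have hnd : ((w (n + 1 - r)).map (· + r) ++ (n + 1) :: R).Nodup := by
          rw [List.nodup_append] at b3 ⊢
          refine ⟨b3.1, List.nodup_cons.2 ⟨fun h => lt_irrefl _ (b2 _ h), b3.2.1⟩, ?_⟩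
          intro x hx y hy
          rcases List.mem_cons.1 hy with rfl | hy
          · exact ne_of_lt (b1 x hx)
          · exact b3.2.2 x hx y hy
        have hlt : ∀ x ∈ (w (n + 1 - r)).map (· + r) ++ (n + 1) :: R, x < n + 2 := by
          intro x hx
          rcases List.mem_append.1 hx with hx | hx
          · exact lt_trans (b1 x hx) (by omega)
          · rcases List.mem_cons.1 hx with rfl | hx
            · omega
            · exact lt_trans (b2 x hx) (by omega)
        have hiff := hF _ R (n + 1) b1 b2 b3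
        rw [hbd]
        by_cases h : Q R
        · rw [if_pos h, if_pos ⟨hiff.2 ⟨b4, (hP _ _ _ (hw _)).2 rfl, h⟩, hnd, hlt⟩]
        · rw [if_neg h, if_neg (fun h' => h (hiff.1 h'.1).2.2)]
      · intro L hL hne
        refine Finset.sum_eq_zero fun R hR => ?_
        obtain ⟨b1, b2, b3, -⟩ := ep2_bounds hr' hL hR
        rw [if_neg]
        rintro ⟨h, -⟩
        exact hne ((hP _ _ _ hL).1 ((hF _ R (n + 1) b1 b2 b3).1 h).2.1)
      · intro h
        exact absurd (hw _) h
    rw [Finset.sum_congr rfl hterm, Finset.sum_range_succ, ← ep2_MM Q hQ n, Finset.sum_range_succ']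
    have h0 : (∑ R ∈ words (range 0), if Q R then (X : ℚ[X]) ^ (bd ((n + 1) :: R)) else 0) = 1 := by
      rw [Finset.range_zero, words_empty, Finset.sum_singleton, if_pos hQ0]
      simp [bd]
    rw [h0]
    have h2 : ∑ k ∈ range n, (∑ R ∈ words (range (k + 1)),
        if Q R then (X : ℚ[X]) ^ (bd ((n + 1) :: R)) else 0)
        = X * ∑ m ∈ Finset.Icc 1 n, AA Q m := by
      rw [Finset.mul_sum, Finset.range_eq_Ico,
        Finset.sum_Ico_add' (fun k => ∑ R ∈ words (range k),
          if Q R then (X : ℚ[X]) ^ (bd ((n + 1) :: R)) else 0) 0 n 1]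
      have h3 : Finset.Ico (0 + 1) (n + 1) = Finset.Icc 1 n := by
        ext x; rw [Finset.mem_Ico, Finset.mem_Icc]; omega
      rw [h3]
      refine Finset.sum_congr rfl fun k hk => ?_
      rw [Finset.mem_Icc] at hk
      unfold AA
      rw [ep2_W, Finset.mul_sum]
      refine Finset.sum_congr rfl fun R hR => ?_
      obtain ⟨g1, g2⟩ := ep2_mem hR
      have hne : R ≠ [] := by
        rintro rfl
        have := (mem_words.1 hR).2
        have h5 : (0 : ℕ) ∈ range k := Finset.mem_range.2 (by omega)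
        rw [← this] at h5
        simp at h5
      have hhead : ¬ (R = [] ∨ R.head? = some (n + 1 - 1)) := by
        rintro (h | h)
        · exact hne h
        · have h6 : n + 1 - 1 ∈ R := List.mem_of_head? h
          have := g2 _ h6
          omega
      rw [bd_cons_max (n + 1) R (fun y hy => lt_of_lt_of_le (g2 y hy) (by omega)), if_neg hhead]
      split_ifs
      · rw [pow_succ]; ring
      · rw [mul_zero]
    rw [h2]
    ring
  · rintro L R ⟨x, hx, y, hy, hxy⟩
    rw [if_neg]
    rintro ⟨h, hnd, hlt⟩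
    have hnd' := hnd
    rw [List.nodup_append] at hnd'
    obtain ⟨n1, n2, n3⟩ := hnd'
    have c1 : ∀ x ∈ L, x < n + 1 := by
      intro z hz
      have := hlt z (List.mem_append_left _ hz)
      have h7 := n3 z hz (n + 1) (List.mem_cons_self)
      omega
    have c2 : ∀ y ∈ R, y < n + 1 := by
      intro z hz
      have := hlt z (List.mem_append_right _ (List.mem_cons_of_mem _ hz))
      have h7 : z ≠ n + 1 := fun h8 => (List.nodup_cons.1 n2).1 (h8 ▸ hz)
      omega
    have c3 : (L ++ R).Nodup := by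
      rw [List.nodup_append]
      exact ⟨n1, (List.nodup_cons.1 n2).2, fun a ha b hb => n3 a ha b (List.mem_cons_of_mem _ hb)⟩
    have := ((hF L R (n + 1) c1 c2 c3).1 h).1 x hx y hy
    omega

theorem ep2_pairwise_map (r : ℕ) (L : List ℕ) :
    (L.map (· + r)).Pairwise (· < ·) ↔ L.Pairwise (· < ·) := by
  rw [List.pairwise_map]
  simp

theorem ep2_pairwise_map' (r : ℕ) (L : List ℕ) :
    (L.map (· + r)).Pairwise (· > ·) ↔ L.Pairwise (· > ·) := by
  rw [List.pairwise_map]
  simp

theorem hQ132_213 : ∀ n l, l ∈ words (range n) → (Q132_213 (n :: l) ↔ Q132_213 l) := by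
  intro n l hl
  obtain ⟨g1, g2⟩ := ep2_mem hl
  have h1 := av132_split (L := []) (R := l) (m := n) (by simp) g2 (by simpa using g1)
  have h2 := av213_gt (L := []) (R := l) (m := n) (by simp) g2 (by simpa using g1) (by simp)
  rw [List.nil_append] at h1 h2
  unfold Q132_213
  rw [h1, h2]
  simp [Av_nil]

theorem hQ132_123 : ∀ n l, l ∈ words (range n) → (Q132_123 (n :: l) ↔ Q132_123 l) := by
  intro n l hl
  obtain ⟨g1, g2⟩ := ep2_mem hl
  have h1 := av132_split (L := []) (R := l) (m := n) (by simp) g2 (by simpa using g1)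
  have h2 := av123_gt (L := []) (R := l) (m := n) (by simp) g2 (by simpa using g1) (by simp)
  rw [List.nil_append] at h1 h2
  unfold Q132_123
  rw [h1, h2]
  simp [Av_nil]

/-- `A_{n+2} = M_{n+2} + 1 + X Σ_{m=1}^{n} A_m`.
Proof: `sum_split_gt`, `av132_split`, `av213_gt`: `l = L' ++ (n+1) :: R` with `L'` the increasing
word on `{r,…,n}` (`words_pairwise_lt`, `bd = 0`) and `R ∈ words (range r)` with property
`Q132_213`.  `r = n+1` (`L = []`): `M_{n+2}`; `1 ≤ r ≤ n`: the descent from `n+1` to a letter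
`≤ r-1 ≤ n-1` is big: `X A_r`; `r = 0`: `1`. -/
theorem rec132_213 (n : ℕ) :
    AA Q132_213 (n + 2) = MM Q132_213 (n + 2) + 1
      + X * ∑ m ∈ Finset.Icc 1 n, AA Q132_213 m := by
  refine ep2_gen Q132_213 (fun L => L.Pairwise (· < ·)) List.range ⟨Av_nil _, Av_nil _⟩ hQ132_213
    ?_ ?_ bd_range ?_ n
  · intro L R m hL hR hd
    unfold Q132_213
    rw [av132_split hL hR hd]
    constructor
    · rintro ⟨⟨_, h2, h3⟩, h4⟩
      rw [av213_gt hL hR hd h3] at h4
      exact ⟨h3, h4.1, h2, h4.2⟩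
    · rintro ⟨h3, h5, h2, h4⟩
      refine ⟨⟨?_, h2, h3⟩, (av213_gt hL hR hd h3).2 ⟨h5, h4⟩⟩
      intro a b c habc hp
      have h6 := h5.sublist habc
      simp only [List.pairwise_cons, List.mem_cons, List.not_mem_nil, or_false] at h6
      have h7 := h6.2.1 c rfl
      have h8 := hp.2
      omega
  · exact fun k => ((words_pairwise_lt k _).2 rfl).1
  · intro k r L hL
    rw [ep2_pairwise_map]
    constructor
    · intro h
      exact (words_pairwise_lt k L).1 ⟨hL, h⟩
    · rintro rfl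
      exact ((words_pairwise_lt k _).2 rfl).2

/-- The same recursion; now `L'` is the decreasing word on `{r,…,n}` (`av123_gt`,
`words_pairwise_gt`, `bd = 0`). -/
theorem rec132_123 (n : ℕ) :
    AA Q132_123 (n + 2) = MM Q132_123 (n + 2) + 1
      + X * ∑ m ∈ Finset.Icc 1 n, AA Q132_123 m := by
  refine ep2_gen Q132_123 (fun L => L.Pairwise (· > ·)) (fun k => (List.range k).reverse)
    ⟨Av_nil _, Av_nil _⟩ hQ132_123 ?_ ?_ bd_range_reverse ?_ n
  · intro L R m hL hR hd
    unfold Q132_123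
    rw [av132_split hL hR hd]
    constructor
    · rintro ⟨⟨_, h2, h3⟩, h4⟩
      rw [av123_gt hL hR hd h3] at h4
      exact ⟨h3, h4.1, h2, h4.2⟩
    · rintro ⟨h3, h5, h2, h4⟩
      refine ⟨⟨?_, h2, h3⟩, (av123_gt hL hR hd h3).2 ⟨h5, h4⟩⟩
      intro a b c habc hp
      have h6 := h5.sublist habc
      simp only [List.pairwise_cons, List.mem_cons, List.not_mem_nil, or_false] at h6
      have h7 := h6.1 c (Or.inr rfl)
      have h8 := hp.1
      omega
  · exact fun k => ((words_pairwise_gt k _).2 rfl).1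
  · intro k r L hL
    rw [ep2_pairwise_map']
    constructor
    · intro h
      exact (words_pairwise_gt k L).1 ⟨hL, h⟩
    · rintro rfl
      exact ((words_pairwise_gt k _).2 rfl).2

end BD
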