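import Pool.Agent.MP_8b309d_co.C1Defs
import Pool.Agent.MP_8b309d_co.EPairs2

/-!
# Row BD-C1E : the coefficients for the pairs {123,132}, {132,213}
-/

namespace BD.C1

open Finset Polynomial

theorem chE_pascal (a : ℤ) (k : ℕ) :
    ch (a + 1) ((k + 1 : ℕ) : ℤ) = ch a ((k + 1 : ℕ) : ℤ) + ch a k := by
  unfold ch
  rcases lt_or_ge a 0 with h | h
  · rcases eq_or_ne a (-1) with h1 | h1
    · subst h1
      simp
    · have : ¬ (0 ≤ a + 1 ∧ (0:ℤ) ≤ ((k + 1 : ℕ) : ℤ)) := fun hh => by omega
      rw [if_neg this, if_neg (fun hh => by omega), if_neg (fun hh => by omega)]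
      norm_num
  · obtain ⟨m, rfl⟩ := Int.eq_ofNat_of_zero_le h
    rw [if_pos ⟨by omega, by omega⟩, if_pos ⟨by omega, by omega⟩, if_pos ⟨by omega, by omega⟩]
    have e1 : ((m : ℤ) + 1).toNat = m + 1 := by omega
    have e2 : (((k + 1 : ℕ)) : ℤ).toNat = k + 1 := by omega
    have e3 : ((m : ℤ)).toNat = m := by omega
    have e4 : ((k : ℤ)).toNat = k := by omega
    rw [e1, e2, e3, e4, Nat.choose_succ_succ]
    push_cast
    ring

/-- `s j k N = Σ_{m ≤ j} C(m+1,j-m) C(N-m,k)` -/
def s (j k : ℕ) (N : ℤ) : ℚ :=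
  ∑ m ∈ range (j + 1), ((m + 1).choose (j - m) : ℚ) * ch (N - m) k

theorem s_pascal (j k : ℕ) (N : ℤ) : s j (k + 1) (N + 1) = s j (k + 1) N + s j k N := by
  unfold s
  rw [← sum_add_distrib]
  refine sum_congr rfl fun m _ => ?_
  have : N + 1 - (m:ℤ) = (N - m) + 1 := by ring
  rw [this, chE_pascal]; ring

theorem ch_neg {a : ℤ} (h : a < 0) (k : ℤ) : ch a k = 0 := by
  unfold ch; rw [if_neg]; omega

theorem s_neg (j k : ℕ) {N : ℤ} (h : N < 0) : s j k N = 0 := by
  unfold s
  refine sum_eq_zero fun m _ => ?_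
  rw [ch_neg (by omega)]; ring

theorem ch_zero_right {a : ℤ} (h : 0 ≤ a) : ch a ((0 : ℕ) : ℤ) = 1 := by
  unfold ch; rw [if_pos ⟨h, by simp⟩]; simp

/-- the splitting `a = u + v` for `k ≥ 1` -/
theorem s_split (k : ℕ) (N : ℤ) :
    s (k + 2) (k + 1) (N + 1) = s k (k + 1) N + s (k + 1) (k + 1) N := by
  unfold s
  rw [sum_range_succ' _ (k + 2)]
  have h0 : (((0 + 1).choose (k + 2 - 0) : ℕ) : ℚ) * ch (N + 1 - ((0 : ℕ) : ℤ)) ((k + 1 : ℕ) : ℤ) = 0 := by
    rw [Nat.choose_eq_zero_of_lt (by omega)]; simp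
  rw [h0, add_zero, sum_range_succ _ (k + 1), sum_range_succ _ (k + 1), ← add_assoc,
    ← sum_add_distrib]
  congr 1
  · refine sum_congr rfl fun m hm => ?_
    have hm' := mem_range.1 hm
    have e1 : k + 2 - (m + 1) = (k - m) + 1 := by omega
    have e2 : k + 1 - m = (k - m) + 1 := by omega
    have e3 : N + 1 - ((m + 1 : ℕ) : ℤ) = N - m := by push_cast; ring
    rw [e1, e2, e3, Nat.choose_succ_succ]
    push_cast
    ring
  · have e3 : N + 1 - ((k + 1 + 1 : ℕ) : ℤ) = N - ((k + 1 : ℕ) : ℤ) := by push_cast; ring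
    rw [e3]
    have e1 : k + 2 - (k + 1 + 1) = 0 := by omega
    have e2 : k + 1 - (k + 1) = 0 := by omega
    rw [e1, e2]; simp

theorem coeffs (A M : ℕ → ℚ[X]) (hM1 : M 1 = 1) (hA1 : A 1 = 1)
    (hM : ∀ n, M (n + 2) = M (n + 1) + X * (A (n + 1) - M (n + 1)))
    (hA : ∀ n, A (n + 2) = M (n + 2) + 1 + X * ∑ m ∈ Finset.Icc 1 n, A m) (n : ℕ) :
    ((M (n + 1)).coeff 0 = 1 ∧ ∀ k, (M (n + 1)).coeff (k + 1) = s k (k + 1) ((n:ℤ) - 1)) ∧
    (∀ k, (A (n + 1) - M (n + 1)).coeff k = s k k ((n:ℤ) - 1)) ∧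
    (∀ k, (A (n + 1)).coeff k = s (k + 1) k n) := by
  -- the third statement follows from the first two
  have third : ∀ n : ℕ, ((M (n + 1)).coeff 0 = 1 ∧
      ∀ k, (M (n + 1)).coeff (k + 1) = s k (k + 1) ((n:ℤ) - 1)) →
      (∀ k, (A (n + 1) - M (n + 1)).coeff k = s k k ((n:ℤ) - 1)) →
      (∀ k, (A (n + 1)).coeff k = s (k + 1) k n) := by
    intro n h1 h2 k
    have e : (A (n + 1)).coeff k = (M (n + 1)).coeff k + (A (n + 1) - M (n + 1)).coeff k := by
      rw [coeff_sub]; ring
    rw [e, h2]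
    rcases k with _ | k
    · rw [h1.1]
      unfold s
      simp only [sum_range_succ, sum_range_zero, zero_add]
      rcases n with _ | n
      · rw [ch_neg (by norm_num), ch_zero_right (by simp), ch_neg (by norm_num)]
        norm_num
      · rw [ch_zero_right (by push_cast; omega), ch_zero_right (by push_cast; omega),
          ch_zero_right (by push_cast; omega)]
        norm_num
    · rw [h1.2]
      have := s_split k ((n:ℤ) - 1)
      rw [sub_add_cancel] at this
      rw [this]
  -- difference of consecutive `A - M`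
  have hV : ∀ n, A (n + 3) - M (n + 3) = (A (n + 2) - M (n + 2)) + X * A (n + 1) := by
    intro n
    have h1 := hA (n + 1)
    have h2 := hA n
    have h3 : ∑ m ∈ Finset.Icc 1 (n + 1), A m = (∑ m ∈ Finset.Icc 1 n, A m) + A (n + 1) :=
      Finset.sum_Icc_succ_top (by omega) _
    rw [h3] at h1
    have e : n + 1 + 2 = n + 3 := rfl
    rw [e] at h1
    rw [h1, h2]; ring
  have key : ∀ n : ℕ, ((M (n + 1)).coeff 0 = 1 ∧
      ∀ k, (M (n + 1)).coeff (k + 1) = s k (k + 1) ((n:ℤ) - 1)) ∧
      (∀ k, (A (n + 1) - M (n + 1)).coeff k = s k k ((n:ℤ) - 1)) := by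
    intro n
    induction n using Nat.strong_induction_on with
    | _ n ih =>
      rcases n with _ | n
      · refine ⟨⟨by rw [hM1]; simp, fun k => ?_⟩, fun k => ?_⟩
        · rw [s_neg _ _ (by norm_num), hM1, coeff_one]; simp
        · rw [s_neg _ _ (by norm_num), hM1, hA1]; simp
      · have ihn := ih n (by omega)
        have hMc : (M (n + 2)).coeff 0 = 1 ∧
            ∀ k, (M (n + 2)).coeff (k + 1) = s k (k + 1) (((n + 1 : ℕ) : ℤ) - 1) := by
          constructor
          · rw [hM, coeff_add, ihn.1.1, coeff_X_mul_zero, add_zero]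
          · intro k
            rw [hM, coeff_add, coeff_X_mul, ihn.1.2, ihn.2]
            have := s_pascal k k ((n:ℤ) - 1)
            rw [sub_add_cancel] at this
            rw [← this]; congr 1; push_cast; ring
        refine ⟨hMc, ?_⟩
        intro k
        rcases n with _ | n
        · have h1 : A (0 + 1 + 1) - M (0 + 1 + 1) = 1 := by
            have := hA 0
            simp at this
            simp [this]
          rw [h1, coeff_one]
          rcases k with _ | k
          · unfold s
            simp only [sum_range_succ, sum_range_zero, zero_add]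
            rw [ch_zero_right (by simp)]
            norm_num
          · rw [if_neg (by omega)]
            unfold s
            symm
            refine sum_eq_zero fun m _ => ?_
            rcases m with _ | m
            · have : ch (((0 + 1 : ℕ) : ℤ) - 1 - ((0 : ℕ) : ℤ)) ((k + 1 : ℕ) : ℤ) = 0 := by
                unfold ch
                rw [if_pos ⟨by simp, by omega⟩]
                have e1 : ((((0 + 1 : ℕ) : ℤ) - 1 - ((0 : ℕ) : ℤ))).toNat = 0 := by simp
                have e2 : (((k + 1 : ℕ)) : ℤ).toNat = k + 1 := by omega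
                rw [e1, e2]; simp
              rw [this, mul_zero]
            · rw [ch_neg (by push_cast; omega), mul_zero]
        · have hn1 := ih (n + 1) (by omega)
          have hn0 := ih n (by omega)
          have h3 := third n hn0.1 hn0.2
          have h4 := hV n
          have e : n + 1 + 1 + 1 = n + 3 := rfl
          rw [e, h4, coeff_add]
          have h5 := hn1.2 k
          rw [h5]
          rcases k with _ | k
          · rw [coeff_X_mul_zero, add_zero]
            unfold s
            simp only [sum_range_succ, sum_range_zero, zero_add]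
            rw [ch_zero_right (by push_cast; omega), ch_zero_right (by push_cast; omega)]
          · rw [coeff_X_mul, h3]
            have := s_pascal (k + 1) k (n:ℤ)
            have e1 : (((n + 1 : ℕ) : ℤ) - 1) = n := by push_cast; ring
            have e2 : (((n + 1 + 1 : ℕ) : ℤ) - 1) = (n:ℤ) + 1 := by push_cast; ring
            rw [e1, e2, this]
  exact ⟨(key n).1, (key n).2, third n (key n).1 (key n).2⟩

theorem f_nat {k i : ℕ} (h : i ≤ k + 1) : f k i = ((i + 1).choose (k + 1 - i) : ℚ) := by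
  unfold f ch
  rcases Nat.lt_or_ge (2 * i) k with h1 | h1
  · rw [if_neg (by omega), Nat.choose_eq_zero_of_lt (by omega)]; simp
  · rw [if_pos ⟨by omega, by omega⟩]
    have e1 : ((i:ℤ) + 1).toNat = i + 1 := by omega
    have e2 : (2 * (i:ℤ) - k).toNat = 2 * i - k := by omega
    rw [e1, e2, ← Nat.choose_symm (n := i + 1) (k := 2 * i - k) (by omega)]
    congr 2
    omega

/-- Any sequences `A, M` of polynomials with the recursion of `EPairs2` have
`(A_n).coeff k = Σ_m C(m+1,k+1-m) C(n-1-m,k)` for `n ≥ 1`, i.e. `Σ_i f k i * g (n-1) k i`. -/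
theorem coeff_formula (A M : ℕ → ℚ[X]) (hM1 : M 1 = 1) (hA1 : A 1 = 1)
    (hM : ∀ n, M (n + 2) = M (n + 1) + X * (A (n + 1) - M (n + 1)))
    (hA : ∀ n, A (n + 2) = M (n + 2) + 1 + X * ∑ m ∈ Finset.Icc 1 n, A m) (n k : ℕ)
    (hn : 1 ≤ n) :
    (A n).coeff k = ∑ᶠ i : ℤ, f k i * g ((n : ℤ) - 1) k i := by
  obtain ⟨n, rfl⟩ : ∃ m, n = m + 1 := ⟨n - 1, by omega⟩
  rw [(coeffs A M hM1 hA1 hM hA n).2.2 k]
  have h1 : Function.support (fun i : ℤ => f k i * g (((n + 1 : ℕ) : ℤ) - 1) k i) ⊆
      ((range (k + 2)).map Nat.castEmbedding : Finset ℤ) := by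
    intro i hi
    rw [Function.mem_support] at hi
    have hf : f k i ≠ 0 := left_ne_zero_of_mul hi
    rw [Finset.coe_map, Set.mem_image]
    have h0 : 0 ≤ i ∧ i ≤ k + 1 := by
      unfold f ch at hf
      split_ifs at hf with h
      · constructor
        · omega
        · by_contra h2
          apply hf
          rw [Nat.choose_eq_zero_of_lt (by omega)]; simp
      · exact absurd rfl hf
    refine ⟨i.toNat, ?_, ?_⟩
    · rw [Finset.mem_coe, mem_range]; omega
    · simp [Nat.castEmbedding, h0.1]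
  rw [finsum_eq_sum_of_support_subset _ h1, Finset.sum_map]
  unfold s
  refine sum_congr rfl fun m hm => ?_
  have hm' := mem_range.1 hm
  have e0 : (Nat.castEmbedding m : ℤ) = (m : ℤ) := rfl
  rw [e0, f_nat (by omega), g]
  congr 2
  push_cast; ring

end BD.C1
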