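import Pool.Agent.MP_8b309d_co.C1D
import Pool.Agent.MP_8b309d_co.C1E

/-!
# Row BD-C1F : log-concavity for {132,213} and {123,132}
-/

namespace BD.C1

open Finset Polynomial

theorem Av_nil' (p : Pat) : Av p [] := by
  intro a b c h
  simp at h

theorem Av_singleton' (p : Pat) (x : ℕ) : Av p [x] := by
  intro a b c h
  have := h.length_le
  simp at this

/-- common assembly for the two pairs -/
theorem LC_of_rec (Q : List ℕ → Prop) (h0 : Q []) (h1 : Q [0])
    (hQ : ∀ n l, l ∈ words (range n) → (Q (n :: l) ↔ Q l))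
    (hA : ∀ n, AA Q (n + 2) = MM Q (n + 2) + 1 + X * ∑ m ∈ Finset.Icc 1 n, AA Q m) :
    LC Q := by
  intro n k hk
  rcases Nat.eq_zero_or_pos n with rfl | hn
  · have hz : cnt Q 0 (k + 1) = 0 := by
      have h2 := AA_coeff Q 0 (k + 1)
      rw [AA_zero Q h0, Polynomial.coeff_one, if_neg (by omega)] at h2
      exact_mod_cast h2.symm
    rw [hz, mul_zero]
    exact Nat.zero_le _
  · have key : ∀ j : ℕ, (cnt Q n j : ℚ) = ∑ᶠ i : ℤ, f j i * g ((n : ℤ) - 1) j i := by
      intro j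
      rw [← AA_coeff Q n j]
      exact coeff_formula (AA Q) (MM Q) (MM_one Q h1) (AA_one Q h1) (MM_rec Q hQ) hA n j hn
    have ht := total ((n : ℤ) - 1) (k : ℤ) (by exact_mod_cast hk)
    have e1 : (((k - 1 : ℕ) : ℤ)) = (k : ℤ) - 1 := by omega
    have e2 : (((k + 1 : ℕ) : ℤ)) = (k : ℤ) + 1 := by omega
    have k1 := key (k - 1)
    have k2 := key (k + 1)
    rw [e1] at k1
    rw [e2] at k2
    rw [← k1, ← k2, ← key k] at ht
    exact_mod_cast ht

/-- from `coeff_formula` (with `MM_rec`, `rec132_213`), `total` and `AA_coeff`; `n = 0` trivial -/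
theorem LC132_213 : LC Q132_213 :=
  LC_of_rec _ ⟨Av_nil' _, Av_nil' _⟩ ⟨Av_singleton' _ _, Av_singleton' _ _⟩ hQ132_213 rec132_213

theorem LC132_123 : LC Q132_123 :=
  LC_of_rec _ ⟨Av_nil' _, Av_nil' _⟩ ⟨Av_singleton' _ _, Av_singleton' _ _⟩ hQ132_123 rec132_123

end BD.C1
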