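import Pool.Agent.MP_8b309d_co.E231
import Pool.Agent.MP_8b309d_co.CQuad

/-!
# Row BD-C231 : the class {231}
-/

namespace BD

open Finset Polynomial

/-- generating function `Σ_{n ≥ 1} A_n x^n` with coefficients in `ℚ[t]` -/
noncomputable def G231 : PowerSeries ℚ[X] :=
  PowerSeries.mk (fun n => if n = 0 then 0 else AA (Av p231) n)

/-- generating function `Σ_{n ≥ 1} M_n x^n` with coefficients in `ℚ[t]` -/
noncomputable def H231 : PowerSeries ℚ[X] :=
  PowerSeries.mk (fun n => if n = 0 then 0 else MM (Av p231) n)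

theorem c231_av_nil : Av p231 [] := by
  intro a b c h
  have := h.length_le
  simp at this

theorem c231_av_single : Av p231 [0] := by
  intro a b c h
  have := h.length_le
  simp at this

theorem c231_H_eq : H231 = PowerSeries.X + PowerSeries.X * H231
    + PowerSeries.X * (PowerSeries.C (X : ℚ[X]) * (G231 - H231)) := by
  ext1 n
  rcases n with _ | n
  · simp [H231]
  · rw [map_add, map_add, PowerSeries.coeff_succ_X_mul, PowerSeries.coeff_succ_X_mul,
      PowerSeries.coeff_C_mul, map_sub]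
    rcases n with _ | n
    · simp [H231, G231, MM_one _ c231_av_single]
    · have h1 : (PowerSeries.coeff (n + 1 + 1)) (PowerSeries.X : PowerSeries ℚ[X]) = 0 := by
        rw [PowerSeries.coeff_X]; simp
      rw [h1]
      simp only [H231, G231, PowerSeries.coeff_mk]
      rw [if_neg (by omega), if_neg (by omega), if_neg (by omega), MM_rec _ hQ231 n]
      ring

theorem c231_G_eq : G231 = (1 + G231) * H231 := by
  ext1 n
  rcases n with _ | n
  · rw [PowerSeries.coeff_mul]
    simp [H231, G231]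
  · rw [PowerSeries.coeff_mul, Finset.Nat.sum_antidiagonal_eq_sum_range_succ_mk,
      Finset.sum_range_succ]
    simp only [G231, H231, PowerSeries.coeff_mk, map_add]
    rw [if_neg (by omega : ¬ (n + 1 = 0)), rec231 n]
    simp only [Nat.sub_self, if_true, mul_zero, add_zero]
    refine Finset.sum_congr rfl ?_
    intro i hi
    have hi' := Finset.mem_range.1 hi
    rw [if_neg (by omega : ¬ (n + 1 - i = 0))]
    congr 1
    rcases i with _ | i
    · rw [AA_zero _ c231_av_nil]; simp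
    · rw [if_neg (by omega)]
      rw [PowerSeries.coeff_one]
      simp

/-- `(1 - 2x) G = x + x t G²`.
Proof.  `H = Σ_{n ≥ 1} M_n x^n` satisfies `H (1 - x + t x) = x + t x G` (`MM_rec`, `MM_one`), and
`rec231` gives `G = (1 + G) H` (`AA_zero`).  Hence
`G (1 - x + t x) = (1 + G)(x + t x G)`, i.e. `G = x + 2 x G + t x G²`. -/
theorem gf231 : (1 - 2 * PowerSeries.X) * G231
    = PowerSeries.X + PowerSeries.X * PowerSeries.C (X : ℚ[X]) * G231 ^ 2 := by
  have h1 := c231_H_eq
  have h2 := c231_G_eq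
  linear_combination (1 + G231) * h1
    + (1 - PowerSeries.X + PowerSeries.X * PowerSeries.C (X : ℚ[X])) * h2

theorem c231_inv_pow (j m : ℕ) :
    PowerSeries.coeff m ((PowerSeries.mk (fun n => (2:ℚ[X]) ^ n)) ^ (2 * j + 1))
      = (2:ℚ[X]) ^ m * ((2 * j + m).choose (2 * j) : ℚ[X]) := by
  have h1 : (PowerSeries.mk (fun n => (2:ℚ[X]) ^ n))
      = PowerSeries.rescale (2:ℚ[X]) (PowerSeries.mk 1) := by
    ext1 n
    rw [PowerSeries.coeff_rescale]
    simp
  rw [h1, ← map_pow, PowerSeries.coeff_rescale, PowerSeries.mk_one_pow_eq_mk_choose_add,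
    PowerSeries.coeff_mk]

theorem c231_term (n j : ℕ) :
    (catalan j : ℚ[X]) * PowerSeries.coeff n (PowerSeries.X ^ (2 * j + 1)
      * (PowerSeries.C (X : ℚ[X])) ^ j
      * (PowerSeries.mk (fun n => (2:ℚ[X]) ^ n)) ^ (2 * j + 1))
      = if 2 * j + 1 ≤ n then
          Polynomial.C ((2 ^ (n - 1 - 2 * j) * (n - 1).choose (2 * j) * catalan j : ℕ) : ℚ) * X ^ j
        else 0 := by
  rw [mul_assoc, PowerSeries.coeff_X_pow_mul', ← map_pow, PowerSeries.coeff_C_mul, c231_inv_pow]
  by_cases h : 2 * j + 1 ≤ n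
  · rw [if_pos h, if_pos h]
    have e1 : n - (2 * j + 1) = n - 1 - 2 * j := by omega
    have e2 : 2 * j + (n - 1 - 2 * j) = n - 1 := by omega
    rw [e1, e2]
    push_cast
    simp only [map_mul, map_pow, map_natCast, map_ofNat]
    ring
  · rw [if_neg h, if_neg h, mul_zero]

/-- For `n ≥ 1`: `b(n,k) = 2^{n-1-2k} C(n-1,2k) Cat_k`.
Proof: `quad_solution` with `D = 1 - 2x`, `Di = Σ 2^n x^n`, `E = C t`;
`coeff n (x^{2j+1} (1-2x)^{-(2j+1)}) = 2^{n-1-2j} C(n-1,2j)`. -/
theorem coeff231 (n k : ℕ) (hn : 1 ≤ n) :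
    (AA (Av p231) n).coeff k
      = if 2 * k ≤ n - 1 then ((2 ^ (n - 1 - 2 * k) * (n - 1).choose (2 * k) * catalan k : ℕ) : ℚ)
        else 0 := by
  have hD : (1 - 2 * PowerSeries.X) * (PowerSeries.mk (fun n => (2:ℚ[X]) ^ n)) = 1 := by
    ext1 m
    rw [sub_mul, one_mul, mul_assoc, map_sub]
    have h2 : (2 : PowerSeries ℚ[X]) = PowerSeries.C (2 : ℚ[X]) := by
      rw [map_ofNat]
    rw [h2, PowerSeries.coeff_C_mul]
    rcases m with _ | m
    · simp
    · rw [PowerSeries.coeff_succ_X_mul, PowerSeries.coeff_mk, PowerSeries.coeff_mk,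
        PowerSeries.coeff_one, if_neg (by omega), pow_succ]
      ring
  have h := quad_solution (1 - 2 * PowerSeries.X) (PowerSeries.mk (fun n => (2:ℚ[X]) ^ n))
    (PowerSeries.C (X : ℚ[X])) G231 hD gf231 n
  have hG : PowerSeries.coeff n G231 = AA (Av p231) n := by
    simp only [G231, PowerSeries.coeff_mk]
    rw [if_neg (by omega)]
  rw [hG] at h
  rw [h, Polynomial.finsetSum_coeff]
  have key : ∀ j ∈ Finset.range (n + 1),
      ((catalan j : ℚ[X]) * PowerSeries.coeff n (PowerSeries.X ^ (2 * j + 1)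
      * (PowerSeries.C (X : ℚ[X])) ^ j
      * (PowerSeries.mk (fun n => (2:ℚ[X]) ^ n)) ^ (2 * j + 1))).coeff k
      = if k = j then (if 2 * k ≤ n - 1 then
        ((2 ^ (n - 1 - 2 * k) * (n - 1).choose (2 * k) * catalan k : ℕ) : ℚ) else 0) else 0 := by
    intro j _
    rw [c231_term]
    by_cases h1 : 2 * j + 1 ≤ n
    · rw [if_pos h1, Polynomial.coeff_C_mul, Polynomial.coeff_X_pow]
      by_cases h2 : k = j
      · subst h2
        rw [if_pos rfl, if_pos rfl, if_pos (by omega), mul_one]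
      · rw [if_neg h2, if_neg h2, mul_zero]
    · rw [if_neg h1, Polynomial.coeff_zero]
      by_cases h2 : k = j
      · subst h2
        rw [if_pos rfl, if_neg (by omega)]
      · rw [if_neg h2]
  rw [Finset.sum_congr rfl key, Finset.sum_ite_eq]
  by_cases h3 : k ∈ Finset.range (n + 1)
  · rw [if_pos h3]
  · rw [if_neg h3]
    have h4 : ¬ (k < n + 1) := fun h => h3 (Finset.mem_range.2 h)
    rw [if_neg (by omega)]

theorem c231_cnt (n k : ℕ) (hn : 1 ≤ n) :
    cnt (Av p231) n k
      = if 2 * k ≤ n - 1 then 2 ^ (n - 1 - 2 * k) * (n - 1).choose (2 * k) * catalan k else 0 := by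
  have h := coeff231 n k hn
  rw [AA_coeff] at h
  by_cases h1 : 2 * k ≤ n - 1
  · rw [if_pos h1] at h ⊢
    exact_mod_cast h
  · rw [if_neg h1] at h ⊢
    exact_mod_cast h

theorem c231_cat (i : ℕ) : (i + 2) * catalan (i + 1) = 2 * (2 * i + 1) * catalan i := by
  have h1 := succ_mul_catalan_eq_centralBinom i
  have h2 := succ_mul_catalan_eq_centralBinom (i + 1)
  have h3 := Nat.succ_mul_centralBinom_succ i
  have h4 : (i + 1) * ((i + 2) * catalan (i + 1)) = (i + 1) * (2 * (2 * i + 1) * catalan i) := by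
    calc (i + 1) * ((i + 2) * catalan (i + 1)) = (i + 1) * ((i + 1 + 1) * catalan (i + 1)) := by ring
      _ = (i + 1) * Nat.centralBinom (i + 1) := by rw [h2]
      _ = 2 * (2 * i + 1) * Nat.centralBinom i := h3
      _ = 2 * (2 * i + 1) * ((i + 1) * catalan i) := by rw [h1]
      _ = _ := by ring
  exact Nat.eq_of_mul_eq_mul_left (by omega) h4

/-- the ratio of consecutive terms -/
theorem c231_ratio (M i : ℕ) :
    4 * ((i + 1) * (i + 2)) * (2 ^ M * (M + 2 * i + 2).choose (2 * i + 2) * catalan (i + 1))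
      = ((M + 2) * (M + 1)) * (2 ^ (M + 2) * (M + 2 * i + 2).choose (2 * i) * catalan i) := by
  have h1 := Nat.choose_succ_right_eq (M + 2 * i + 2) (2 * i + 1)
  have h2 := Nat.choose_succ_right_eq (M + 2 * i + 2) (2 * i)
  have e1 : M + 2 * i + 2 - (2 * i + 1) = M + 1 := by omega
  have e2 : M + 2 * i + 2 - 2 * i = M + 2 := by omega
  rw [e1] at h1
  rw [e2] at h2
  have h3 := c231_cat i
  have e3 : 2 * i + 1 + 1 = 2 * i + 2 := by ring
  rw [e3] at h1
  have hpos : 0 < (2 * i + 1) := by omega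
  refine Nat.eq_of_mul_eq_mul_left hpos ?_
  calc (2 * i + 1) * (4 * ((i + 1) * (i + 2)) * (2 ^ M * (M + 2 * i + 2).choose (2 * i + 2)
        * catalan (i + 1)))
      = 2 * 2 ^ M * (2 * i + 1) * ((M + 2 * i + 2).choose (2 * i + 2) * (2 * i + 2))
        * ((i + 2) * catalan (i + 1)) := by ring
    _ = 2 * 2 ^ M * (2 * i + 1) * ((M + 2 * i + 2).choose (2 * i + 1) * (M + 1))
        * (2 * (2 * i + 1) * catalan i) := by rw [h1, h3]
    _ = 4 * 2 ^ M * (2 * i + 1) * (M + 1) * ((M + 2 * i + 2).choose (2 * i + 1) * (2 * i + 1))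
        * catalan i := by ring
    _ = 4 * 2 ^ M * (2 * i + 1) * (M + 1) * ((M + 2 * i + 2).choose (2 * i) * (M + 2))
        * catalan i := by rw [h2]
    _ = _ := by ring

/-- Log-concavity for {231}: with `ρ_k = (n-1-2k)(n-2-2k)/(4(k+1)(k+2))` (nonincreasing in `k`)
one has `b(n,k+1) = ρ_k b(n,k)`. -/
theorem LC_231 : LC (Av p231) := by
  intro n k hk
  obtain ⟨j, rfl⟩ : ∃ j, k = j + 1 := ⟨k - 1, by omega⟩
  rcases Nat.eq_zero_or_pos n with hn | hn
  · subst hn
    have h := AA_coeff (Av p231) 0 (j + 1 + 1)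
    rw [AA_zero _ c231_av_nil, Polynomial.coeff_one, if_neg (by omega)] at h
    have h' : cnt (Av p231) 0 (j + 1 + 1) = 0 := by exact_mod_cast h.symm
    rw [h', mul_zero]
    exact Nat.zero_le _
  · rw [c231_cnt n _ hn, c231_cnt n _ hn, c231_cnt n _ hn]
    by_cases h1 : 2 * (j + 1 + 1) ≤ n - 1
    · obtain ⟨M, hM⟩ : ∃ M, n - 1 = M + 2 * j + 4 := ⟨n - 1 - 2 * j - 4, by omega⟩
      rw [hM]
      rw [if_pos (by omega), if_pos (by omega), if_pos (by omega)]
      have e0 : j + 1 - 1 = j := by omega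
      rw [e0]
      have e1 : M + 2 * j + 4 - 2 * j = M + 2 + 2 := by omega
      have e2 : M + 2 * j + 4 - 2 * (j + 1 + 1) = M := by omega
      have e3 : M + 2 * j + 4 - 2 * (j + 1) = M + 2 := by omega
      rw [e1, e2, e3]
      have r1 := c231_ratio (M + 2) j
      have r2 := c231_ratio M (j + 1)
      have f1 : M + 2 + 2 * j + 2 = M + 2 * j + 4 := by ring
      have f2 : M + 2 * (j + 1) + 2 = M + 2 * j + 4 := by ring
      have f3 : 2 * (j + 1) + 2 = 2 * (j + 1 + 1) := by ring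
      have f4 : 2 * j + 2 = 2 * (j + 1) := by ring
      rw [f1, f4] at r1
      rw [f2, f3] at r2
      generalize hx : 2 ^ (M + 2 + 2) * (M + 2 * j + 4).choose (2 * j) * catalan j = x at r1 ⊢
      generalize hz : 2 ^ M * (M + 2 * j + 4).choose (2 * (j + 1 + 1)) * catalan (j + 1 + 1) = z
        at r2 ⊢
      generalize hy : 2 ^ (M + 2) * (M + 2 * j + 4).choose (2 * (j + 1)) * catalan (j + 1) = y
        at r1 r2 ⊢
      have hpos : 0 < ((M + 2 + 2) * (M + 2 + 1)) * (4 * ((j + 1 + 1) * (j + 1 + 2))) := by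
        positivity
      refine Nat.le_of_mul_le_mul_left ?_ hpos
      calc ((M + 2 + 2) * (M + 2 + 1)) * (4 * ((j + 1 + 1) * (j + 1 + 2))) * (x * z)
          = (((M + 2 + 2) * (M + 2 + 1)) * x) * (4 * ((j + 1 + 1) * (j + 1 + 2)) * z) := by ring
        _ = (4 * ((j + 1) * (j + 2)) * y) * (((M + 2) * (M + 1)) * y) := by rw [← r1, r2]
        _ = (((j + 1) * (j + 2)) * ((M + 2) * (M + 1))) * (4 * y ^ 2) := by ring
        _ ≤ (((j + 1 + 1) * (j + 1 + 2)) * ((M + 2 + 2) * (M + 2 + 1))) * (4 * y ^ 2) := by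
            apply Nat.mul_le_mul_right
            apply Nat.mul_le_mul
            · apply Nat.mul_le_mul <;> omega
            · apply Nat.mul_le_mul <;> omega
        _ = _ := by ring
    · rw [if_neg h1, mul_zero]
      exact Nat.zero_le _

end BD
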