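import Pool.Agent.MP_8b309d_co.EPairs3

/-!
# Row BD-C231-321 : log-concavity for {231,321}
-/

namespace BD

open Finset Polynomial

/-- The comparison relation. For `f g : ℤ → ℚ` and `c : ℤ`:
`FF c f g` iff `f_{i-1} g_{j+1} ≤ f_i g_j` for all `i, j` with `j - i ≥ c`. -/
def FF (c : ℤ) (f g : ℤ → ℚ) : Prop := ∀ i j : ℤ, c ≤ j - i → f (i - 1) * g (j + 1) ≤ f i * g j

theorem c231321_addl {c : ℤ} {f f' g : ℤ → ℚ} (h : FF c f g) (h' : FF c f' g) :
    FF c (fun i => f i + f' i) g := by
  intro i j hij
  have h1 := h i j hij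
  have h2 := h' i j hij
  simp only
  rw [add_mul, add_mul]
  exact add_le_add h1 h2

theorem c231321_addr {c : ℤ} {f g g' : ℤ → ℚ} (h : FF c f g) (h' : FF c f g') :
    FF c f (fun i => g i + g' i) := by
  intro i j hij
  have h1 := h i j hij
  have h2 := h' i j hij
  simp only
  rw [mul_add, mul_add]
  exact add_le_add h1 h2

theorem c231321_mono {c c' : ℤ} {f g : ℤ → ℚ} (h : FF c f g) (hc : c ≤ c') : FF c' f g :=
  fun i j hij => h i j (hc.trans hij)

theorem c231321_shl {c : ℤ} {f g : ℤ → ℚ} (h : FF c f g) : FF (c - 1) (fun i => f (i - 1)) g := by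
  intro i j hij
  exact h (i - 1) j (by omega)

theorem c231321_shl0 {f g : ℤ → ℚ} (h : FF 0 f g) : FF (-1) (fun i => f (i - 1)) g := by
  intro i j hij
  exact h (i - 1) j (by omega)

theorem c231321_shr {c : ℤ} {f g : ℤ → ℚ} (h : FF c f g) : FF (c + 1) f (fun i => g (i - 1)) := by
  intro i j hij
  have := h i (j - 1) (by omega)
  simp only
  have e : j - 1 + 1 = j + 1 - 1 := by ring
  rwa [e] at this

theorem c231321_shr0 {f g : ℤ → ℚ} (h : FF (-1) f g) : FF 0 f (fun i => g (i - 1)) := by
  have := c231321_shr h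
  simpa using this

theorem c231321_self {f : ℤ → ℚ} (h : FF 0 f f) : FF (-1) f f := by
  intro i j hij
  rcases eq_or_lt_of_le hij with h1 | h1
  · have e : j = i - 1 := by omega
    subst e
    have e2 : i - 1 + 1 = i := by ring
    rw [e2, mul_comm]
  · exact h i j (by omega)

/-- One step of the recursion `(a,b,d) ↦ (a+b+d, a, d + t b)` (`t` = shift) preserves the family
of inequalities (F): `FF 0` for all nine ordered pairs of `a,b,d`, and `FF (-1)` for `(a,b)`,
`(d,a)`, `(d,b)`, `(b+d,a)`.

Proof.  `FF c` is additive in each argument; with `(t f)_i = f_{i-1}`: `FF c f g → FF (c-1) (t f) g`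
and `FF c f g → FF (c+1) f (t g)`; `FF (-1) f f` follows from `FF 0 f f` (the case `j = i-1` is an
equality).  With `a' = a+b+d`, `b' = a`, `d' = d + t b`:
FF 0 (a',a'), (a',b'), (b',a'), (b',b'): clear.
FF 0 (a',d'): FF 0 (·,d) and FF 0 (x, t b) ⟸ FF (-1) (x,b) for x = a, b, d.
FF 0 (d',y), y = a', b', d: FF 0 (d,y), FF 0 (t b, y) ⟸ FF 0 (b,y).
FF 0 (b',d') = (a, d + t b) ⟸ FF 0 (a,d), FF (-1) (a,b).
FF 0 (d',d'): (d,d), (d,t b) ⟸ FF (-1) (d,b), (t b, d), (t b, t b) ⟸ FF 0 (b,b).
FF (-1) (a',b') = (a+b+d, a): (a,a) and (b+d,a).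
FF (-1) (d',a') = (d + t b, a+b+d): (d,a), (d,b), (d,d), and (t b, y) ⟸ FF 0 (b,y).
FF (-1) (d',b') : (d,a), (t b,a).
FF (-1) (b'+d',a') = (a + d + t b, a+b+d): (a,a), (a,b), (d,b), (d,d), (t b,·), and the sum
(a,d)+(d,a): for `j = i-1` it is an equality, for `j ≥ i` use FF 0. -/
theorem FF_step (a b d : ℤ → ℚ)
    (haa : FF 0 a a) (hab : FF 0 a b) (had : FF 0 a d) (hba : FF 0 b a) (hbb : FF 0 b b)
    (hbd : FF 0 b d) (hda : FF 0 d a) (hdb : FF 0 d b) (hdd : FF 0 d d)
    (mab : FF (-1) a b) (mda : FF (-1) d a) (mdb : FF (-1) d b)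
    (mbda : FF (-1) (fun i => b i + d i) a) :
    let a' : ℤ → ℚ := fun i => a i + b i + d i
    let b' : ℤ → ℚ := a
    let d' : ℤ → ℚ := fun i => d i + b (i - 1)
    (FF 0 a' a' ∧ FF 0 a' b' ∧ FF 0 a' d' ∧ FF 0 b' a' ∧ FF 0 b' b' ∧ FF 0 b' d' ∧
      FF 0 d' a' ∧ FF 0 d' b' ∧ FF 0 d' d') ∧
    FF (-1) a' b' ∧ FF (-1) d' a' ∧ FF (-1) d' b' ∧ FF (-1) (fun i => b' i + d' i) a' := by
  intro a' b' d'
  have naa := c231321_self haa
  have nbb := c231321_self hbb
  have ndd := c231321_self hdd
  -- t b against y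
  have tb : ∀ y, FF 0 b y → FF (-1) (fun i => b (i - 1)) y := fun y h => c231321_shl0 h
  have tb0 : ∀ y, FF 0 b y → FF 0 (fun i => b (i - 1)) y := fun y h =>
    c231321_mono (c231321_shl0 h) (by norm_num)
  have hbd' : FF 0 b d' := c231321_addr hbd (c231321_shr0 nbb)
  have hba' : FF 0 b a' := c231321_addr (c231321_addr hba hbb) hbd
  have hda' : FF 0 d a' := c231321_addr (c231321_addr hda hdb) hdd
  have hdd' : FF 0 d d' := c231321_addr hdd (c231321_shr0 mdb)
  have had' : FF 0 a d' := c231321_addr had (c231321_shr0 mab)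
  have haa' : FF 0 a a' := c231321_addr (c231321_addr haa hab) had
  have ka'a : FF 0 a' a := c231321_addl (c231321_addl haa hba) hda
  have ka'a' : FF 0 a' a' := c231321_addl (c231321_addl haa' hba') hda'
  have ka'd' : FF 0 a' d' := c231321_addl (c231321_addl had' hbd') hdd'
  have kd'a' : FF 0 d' a' := c231321_addl hda' (tb0 _ hba')
  have kd'a : FF 0 d' a := c231321_addl hda (tb0 _ hba)
  have kd'd' : FF 0 d' d' := c231321_addl hdd' (tb0 _ hbd')
  refine ⟨⟨ka'a', ka'a, ka'd', haa', haa, had', kd'a', kd'a, kd'd'⟩, ?_, ?_, ?_, ?_⟩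
  · -- FF (-1) a' a
    have e : a' = fun i => a i + (b i + d i) := by funext i; simp only [a']; ring
    rw [e]
    exact c231321_addl naa mbda
  · exact c231321_addl (c231321_addr (c231321_addr mda mdb) ndd) (tb _ hba')
  · exact c231321_addl mda (tb _ hba)
  · -- FF (-1) (a + d + t b) a'
    have h1 : FF (-1) (fun i => b (i - 1)) a' := tb _ hba'
    have h2 : FF (-1) (fun i => a i + d i) a' := by
      intro i j hij
      have k1 := c231321_addr naa mab i j hij
      have k2 := c231321_addr mdb ndd i j hij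
      have k3 : a (i - 1) * d (j + 1) + d (i - 1) * a (j + 1) ≤ a i * d j + d i * a j := by
        rcases eq_or_lt_of_le hij with h1 | h1
        · have e : j = i - 1 := by omega
          subst e
          have e2 : i - 1 + 1 = i := by ring
          rw [e2]
          linarith
        · have := had i j (by omega)
          have := hda i j (by omega)
          linarith
      simp only at k1 k2
      simp only [a']
      nlinarith
    have h3 := c231321_addl h2 h1
    have e : (fun i => b' i + d' i) = fun i => a i + d i + b (i - 1) := by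
      funext i; simp only [b', d']; ring
    rw [e]
    exact h3

/-- coefficients as a function on the integers -/
noncomputable def c231321_cz (p : ℚ[X]) : ℤ → ℚ := fun i => if i < 0 then 0 else p.coeff i.toNat

theorem c231321_cz_add (p q : ℚ[X]) :
    c231321_cz (p + q) = fun i => c231321_cz p i + c231321_cz q i := by
  funext i
  unfold c231321_cz
  split_ifs
  · norm_num
  · rw [coeff_add]

theorem c231321_cz_X (p : ℚ[X]) : c231321_cz (X * p) = fun i => c231321_cz p (i - 1) := by
  funext i
  unfold c231321_cz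
  rcases lt_trichotomy i 0 with h | h | h
  · rw [if_pos h, if_pos (by omega)]
  · subst h
    norm_num
  · rw [if_neg (by omega), if_neg (by omega)]
    obtain ⟨n, hn⟩ := Int.eq_ofNat_of_zero_le (show 0 ≤ i - 1 by omega)
    have e : i = (n : ℤ) + 1 := by omega
    subst e
    have e1 : ((n : ℤ) + 1).toNat = n + 1 := by omega
    have e2 : ((n : ℤ) + 1 - 1).toNat = n := by omega
    rw [e1, e2, coeff_X_mul]

/-- the family (F) -/
def c231321_P (a b d : ℤ → ℚ) : Prop :=
  (FF 0 a a ∧ FF 0 a b ∧ FF 0 a d ∧ FF 0 b a ∧ FF 0 b b ∧ FF 0 b d ∧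
      FF 0 d a ∧ FF 0 d b ∧ FF 0 d d) ∧
    FF (-1) a b ∧ FF (-1) d a ∧ FF (-1) d b ∧ FF (-1) (fun i => b i + d i) a

noncomputable def c231321_b : ℕ → ℚ[X]
  | 0 => 0
  | n + 1 => AA Q231_321 n

theorem c231321_all (n : ℕ) : c231321_P (c231321_cz (AA Q231_321 n)) (c231321_cz (c231321_b n))
    (c231321_cz (X * ∑ m ∈ range (n - 1), AA Q231_321 m)) := by
  have hnil : Q231_321 [] := by
    constructor
    · intro a b c h
      simp at h
    · intro a b c h
      simp at h
  have hone : Q231_321 [0] := by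
    constructor
    · intro a b c h
      have := h.length_le
      simp at this
    · intro a b c h
      have := h.length_le
      simp at this
  have h0 : AA Q231_321 0 = 1 := AA_zero _ hnil
  have h1 : AA Q231_321 1 = 1 := AA_one _ hone
  induction n with
  | zero =>
    have e1 : c231321_cz (c231321_b 0) = fun _ => 0 := by
      funext i
      unfold c231321_cz c231321_b
      simp
    have e2 : c231321_cz (X * ∑ m ∈ range (0 - 1), AA Q231_321 m) = fun _ => 0 := by
      funext i
      unfold c231321_cz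
      simp
    have hz1 : ∀ (c : ℤ) (f : ℤ → ℚ), FF c f (fun _ => 0) := fun c f i j _ => by simp
    have hz2 : ∀ (c : ℤ) (f : ℤ → ℚ), FF c (fun _ => 0) f := fun c f i j _ => by simp
    have haa : FF 0 (c231321_cz (AA Q231_321 0)) (c231321_cz (AA Q231_321 0)) := by
      rw [h0]
      have hnn : ∀ i, 0 ≤ c231321_cz 1 i := by
        intro i
        unfold c231321_cz
        split_ifs
        · exact le_rfl
        · rw [coeff_one]
          split_ifs <;> norm_num
      intro i j hij
      have : c231321_cz 1 (i - 1) * c231321_cz 1 (j + 1) = 0 := by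
        rcases le_or_gt i 0 with h | h
        · have : c231321_cz 1 (i - 1) = 0 := by
            unfold c231321_cz
            rw [if_pos (by omega)]
          rw [this, zero_mul]
        · have : c231321_cz 1 (j + 1) = 0 := by
            unfold c231321_cz
            rw [if_neg (by omega), coeff_one, if_neg (by omega)]
          rw [this, mul_zero]
      rw [this]
      exact mul_nonneg (hnn _) (hnn _)
    rw [e1, e2]
    unfold c231321_P
    refine ⟨⟨haa, hz1 _ _, hz1 _ _, hz2 _ _, hz2 _ _, hz2 _ _, hz2 _ _, hz2 _ _, hz2 _ _⟩,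
      hz1 _ _, hz2 _ _, hz2 _ _, ?_⟩
    simp only [add_zero]
    exact hz2 _ _
  | succ n ih =>
    obtain ⟨⟨q1, q2, q3, q4, q5, q6, q7, q8, q9⟩, q10, q11, q12, q13⟩ := ih
    have hst := FF_step _ _ _ q1 q2 q3 q4 q5 q6 q7 q8 q9 q10 q11 q12 q13
    simp only at hst
    have ea : c231321_cz (AA Q231_321 (n + 1)) = fun i => c231321_cz (AA Q231_321 n) i +
        c231321_cz (c231321_b n) i + c231321_cz (X * ∑ m ∈ range (n - 1), AA Q231_321 m) i := by
      have e : AA Q231_321 (n + 1) = AA Q231_321 n + c231321_b n +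
          X * ∑ m ∈ range (n - 1), AA Q231_321 m := by
        cases n with
        | zero =>
          rw [h0, h1]
          unfold c231321_b
          simp
        | succ n =>
          rw [rec231_321 n]
          rfl
      rw [e, c231321_cz_add, c231321_cz_add]
    have ed : c231321_cz (X * ∑ m ∈ range (n + 1 - 1), AA Q231_321 m) = fun i =>
        c231321_cz (X * ∑ m ∈ range (n - 1), AA Q231_321 m) i +
          c231321_cz (c231321_b n) (i - 1) := by
      have e : X * ∑ m ∈ range (n + 1 - 1), AA Q231_321 m =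
          X * ∑ m ∈ range (n - 1), AA Q231_321 m + X * c231321_b n := by
        cases n with
        | zero => simp [c231321_b]
        | succ n =>
          rw [Nat.add_sub_cancel, Nat.add_sub_cancel, Finset.sum_range_succ, mul_add]
          rfl
      rw [e, c231321_cz_add, c231321_cz_X (c231321_b n)]
    have eb : c231321_cz (c231321_b (n + 1)) = c231321_cz (AA Q231_321 n) := rfl
    unfold c231321_P
    rw [ea, eb, ed]
    exact hst

/-- Log-concavity for {231,321}.  From `rec231_321`: the vector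
`(a,b,d)_n = (A_n, A_{n-1}, X Σ_{m ≤ n-2} A_m)` (coefficients, as functions on `ℤ` vanishing on
negative arguments) satisfies the recursion of `FF_step`, starting at `n = 0` with `(1,0,0)`
(where (F) is trivial); `FF 0 a a` with `i = j = k` is log-concavity. -/
theorem LC231_321 : LC Q231_321 := by
  intro n k hk
  obtain ⟨⟨q1, -⟩, -⟩ := c231321_all n
  have h1 := q1 (k : ℤ) (k : ℤ) (by omega)
  unfold c231321_cz at h1
  rw [if_neg (by omega), if_neg (by omega), if_neg (by omega)] at h1
  have e1 : ((k : ℤ) - 1).toNat = k - 1 := by omega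
  have e2 : ((k : ℤ) + 1).toNat = k + 1 := by omega
  have e3 : ((k : ℤ)).toNat = k := by omega
  rw [e1, e2, e3, AA_coeff, AA_coeff, AA_coeff] at h1
  rw [sq]
  exact_mod_cast h1

end BD
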