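import Pool.Agent.MP_8b309d_co.EBase

/-!
# Row BD-EP3 : Av(231,321) and the pairs with at most one big descent
-/

namespace BD

open Finset Polynomial

def Q231_321 : List ℕ → Prop := fun l => Av p231 l ∧ Av p321 l
def Q231_312 : List ℕ → Prop := fun l => Av p231 l ∧ Av p312 l
def Q231_123 : List ℕ → Prop := fun l => Av p231 l ∧ Av p123 l
def Q132_321 : List ℕ → Prop := fun l => Av p132 l ∧ Av p321 l

private theorem ep3_mem_range {n : ℕ} {l : List ℕ} (hl : l ∈ words (range n)) {x : ℕ} :
    x ∈ l ↔ x < n := by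
  rw [← List.mem_toFinset, (mem_words.mp hl).2, mem_range]

/-! ### decompositions at big descents -/

private theorem ep3_D1 : ∀ l : List ℕ, bd l ≠ 0 →
    ∃ A x y B, l = A ++ x :: y :: B ∧ y + 1 < x
  | [], h => absurd rfl h
  | [_], h => absurd rfl h
  | x :: y :: l, h => by
    by_cases hxy : y + 1 < x
    · exact ⟨[], x, y, l, rfl, hxy⟩
    · have h1 : bd (y :: l) ≠ 0 := by
        intro h2
        apply h
        show (if y + 1 < x then 1 else 0) + bd (y :: l) = 0
        rw [if_neg hxy, h2]
      obtain ⟨A, x', y', B, hl, hb⟩ := ep3_D1 (y :: l) h1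
      exact ⟨x :: A, x', y', B, by rw [hl]; rfl, hb⟩

private theorem ep3_D2 : ∀ l : List ℕ, 2 ≤ bd l →
    ∃ A x y B, l = A ++ x :: y :: B ∧ y + 1 < x ∧ bd (y :: B) ≠ 0
  | [], h => absurd h (by simp [bd])
  | [_], h => absurd h (by simp [bd])
  | x :: y :: l, h => by
    have h0 : bd (x :: y :: l) = (if y + 1 < x then 1 else 0) + bd (y :: l) := rfl
    by_cases hxy : y + 1 < x
    · refine ⟨[], x, y, l, rfl, hxy, ?_⟩
      rw [h0, if_pos hxy] at h
      omega
    · rw [h0, if_neg hxy, zero_add] at h
      obtain ⟨A, x', y', B, hl, hb⟩ := ep3_D2 (y :: l) h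
      exact ⟨x :: A, x', y', B, by rw [hl]; rfl, hb⟩

private theorem ep3_sub3 (A B C D : List ℕ) (a b c : ℕ) :
    [a, b, c].Sublist (A ++ a :: (B ++ b :: (C ++ c :: D))) := by
  have h1 : [c].Sublist (C ++ c :: D) :=
    List.singleton_sublist.mpr (by simp)
  have h2 : [b, c].Sublist (B ++ b :: (C ++ c :: D)) :=
    (h1.cons_cons b).trans (List.sublist_append_right B _)
  exact (h2.cons_cons a).trans (List.sublist_append_right A _)

private theorem ep3_pair {l : List ℕ} {a b : ℕ} (ha : a ∈ l) (hb : b ∈ l) (hab : a ≠ b) :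
    (∃ A B C, l = A ++ a :: (B ++ b :: C)) ∨ ∃ A B C, l = A ++ b :: (B ++ a :: C) := by
  obtain ⟨s, t, rfl⟩ := List.append_of_mem ha
  rcases List.mem_append.mp hb with h | h
  · obtain ⟨u, v, rfl⟩ := List.append_of_mem h
    exact Or.inr ⟨u, v, t, by simp⟩
  · rcases List.mem_cons.mp h with h | h
    · exact absurd h.symm hab
    · obtain ⟨u, v, rfl⟩ := List.append_of_mem h
      exact Or.inl ⟨s, u, v, rfl⟩

/-- where the letters between `y` and `x` are -/
private theorem ep3_between {n : ℕ} {l A B : List ℕ} {x y : ℕ} (hl : l ∈ words (range n))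
    (h231 : Av p231 l) (hd : l = A ++ x :: y :: B) {z : ℕ} (h1 : y < z) (h2 : z < x) :
    ∃ C D, B = C ++ z :: D := by
  have hx : x < n := (ep3_mem_range hl).mp (by rw [hd]; simp)
  have hz : z ∈ l := (ep3_mem_range hl).mpr (by omega)
  rw [hd] at hz
  rcases List.mem_append.mp hz with h | h
  · exfalso
    obtain ⟨s, t, rfl⟩ := List.append_of_mem h
    refine h231 z x y ?_ ⟨h1, h2⟩
    rw [hd]
    have := ep3_sub3 s t [] B z x y
    simpa using this
  · rcases List.mem_cons.mp h with h | h
    · omega
    · rcases List.mem_cons.mp h with h | h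
      · omega
      · obtain ⟨s, t, ht⟩ := List.append_of_mem h
        exact ⟨s, t, ht⟩

/-- No big descents. -/
theorem bd231_312 (n : ℕ) (l : List ℕ) (hl : l ∈ words (range n)) (hQ : Q231_312 l) :
    bd l = 0 := by
  by_contra hne
  obtain ⟨A, x, y, B, hd, hxy⟩ := ep3_D1 l hne
  obtain ⟨C, D, hB⟩ := ep3_between hl hQ.1 hd (z := y + 1) (by omega) hxy
  refine hQ.2 x y (y + 1) ?_ ⟨by omega, hxy⟩
  rw [hd, hB]
  have := ep3_sub3 A [] C D x y (y + 1)
  simpa using this

/-- At most one big descent. -/
theorem bd231_123 (n : ℕ) (l : List ℕ) (hl : l ∈ words (range n)) (hQ : Q231_123 l) :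
    bd l ≤ 1 := by
  by_contra hne
  obtain ⟨A, x, y, B, hd, hxy, hb⟩ := ep3_D2 l (by omega)
  obtain ⟨A', x', y', B', hd', hxy'⟩ := ep3_D1 _ hb
  have hd2 : l = (A ++ x :: A') ++ x' :: y' :: B' := by
    rw [hd, hd']; simp
  obtain ⟨C, D, hB⟩ := ep3_between hl hQ.1 hd (z := y + 1) (by omega) hxy
  obtain ⟨C', D', hB'⟩ := ep3_between hl hQ.1 hd2 (z := y' + 1) (by omega) hxy'
  have hnd : l.Nodup := (mem_words.mp hl).1
  rcases lt_or_ge y x' with hc | hc
  · -- `y < x'`
    rcases A' with _ | ⟨a, A''⟩
    · simp only [List.nil_append, List.cons.injEq] at hd'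
      omega
    · simp only [List.cons_append, List.cons.injEq] at hd'
      obtain ⟨rfl, hBd⟩ := hd'
      rcases lt_trichotomy y' y with h | h | h
      · refine hQ.1 y x' y' ?_ ⟨h, hc⟩
        rw [hd, hBd]
        have := ep3_sub3 (A ++ [x]) A'' [] B' y x' y'
        simpa using this
      · subst h
        rw [hd, hBd] at hnd
        simp [List.nodup_append] at hnd
      · refine hQ.2 y y' (y' + 1) ?_ ⟨h, by omega⟩
        rw [hd, hBd, hB']
        have := ep3_sub3 (A ++ [x]) (A'' ++ [x']) C' D' y y' (y' + 1)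
        simpa using this
  · -- `x' ≤ y`
    have hzB : y + 1 ∈ B := by rw [hB]; simp
    have hzcase : (∃ P R, B = P ++ (y + 1) :: (R ++ x' :: y' :: B')) ∨ (y + 1) ∈ B' := by
      rcases A' with _ | ⟨a, A''⟩
      · simp only [List.nil_append, List.cons.injEq] at hd'
        obtain ⟨h1, h2⟩ := hd'
        rw [h2] at hzB
        rcases List.mem_cons.mp hzB with h | h
        · omega
        · exact Or.inr h
      · simp only [List.cons_append, List.cons.injEq] at hd'
        obtain ⟨h1, h2⟩ := hd'
        have hz2 := hzB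
        rw [h2] at hz2
        rcases List.mem_append.mp hz2 with h | h
        · obtain ⟨s, t, hs⟩ := List.append_of_mem h
          exact Or.inl ⟨s, t, by rw [h2, hs]; simp⟩
        · rcases List.mem_cons.mp h with h | h
          · omega
          · rcases List.mem_cons.mp h with h | h
            · omega
            · exact Or.inr h
    rcases hzcase with ⟨P, R, hPR⟩ | hz
    · refine hQ.1 y (y + 1) y' ?_ ⟨by omega, by omega⟩
      rw [hd, hPR]
      have := ep3_sub3 (A ++ [x]) P (R ++ [x']) B' y (y + 1) y'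
      simpa using this
    · have hz' : y' + 1 ∈ B' := by rw [hB']; simp
      rcases ep3_pair hz hz' (by omega) with ⟨P, R, S, h⟩ | ⟨P, R, S, h⟩
      · -- `z` before `z'`
        have hB2 : ∃ T, B = T ++ B' := by
          rcases A' with _ | ⟨a, A''⟩
          · simp only [List.nil_append, List.cons.injEq] at hd'
            exact ⟨[y'], by rw [hd'.2]; rfl⟩
          · simp only [List.cons_append, List.cons.injEq] at hd'
            exact ⟨A'' ++ [x', y'], by rw [hd'.2]; simp⟩
        obtain ⟨T, hT⟩ := hB2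
        refine hQ.1 y (y + 1) (y' + 1) ?_ ⟨by omega, by omega⟩
        rw [hd, hT, h]
        have := ep3_sub3 (A ++ [x]) (T ++ P) R S y (y + 1) (y' + 1)
        simpa using this
      · refine hQ.2 y' (y' + 1) (y + 1) ?_ ⟨by omega, by omega⟩
        rw [hd2, h]
        have := ep3_sub3 (A ++ x :: A' ++ [x']) P R S y' (y' + 1) (y + 1)
        simpa using this

/-- At most one big descent. -/
theorem bd132_321 (n : ℕ) (l : List ℕ) (hl : l ∈ words (range n)) (hQ : Q132_321 l) :
    bd l ≤ 1 := by
  by_contra hne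
  obtain ⟨A, x, y, B, hd, hxy, hb⟩ := ep3_D2 l (by omega)
  obtain ⟨A', x', y', B', hd', hxy'⟩ := ep3_D1 _ hb
  have hnd : l.Nodup := (mem_words.mp hl).1
  have hB2 : ∃ T, B = T ++ y' :: B' := by
    rcases A' with _ | ⟨a, A''⟩
    · simp only [List.nil_append, List.cons.injEq] at hd'
      exact ⟨[], by rw [hd'.2]; rfl⟩
    · simp only [List.cons_append, List.cons.injEq] at hd'
      exact ⟨A'' ++ [x'], by rw [hd'.2]; simp⟩
  obtain ⟨T, hT⟩ := hB2
  have hyy : y' ≠ y := by
    intro h
    rw [hd, hT, h] at hnd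
    simp [List.nodup_append] at hnd
  have hlt : y < y' := by
    by_contra h
    have h1 : y' < y := by omega
    refine hQ.2 x y y' ?_ ⟨h1, by omega⟩
    rw [hd, hT]
    have := ep3_sub3 A [] T B' x y y'
    simpa using this
  rcases A' with _ | ⟨a, A''⟩
  · simp only [List.nil_append, List.cons.injEq] at hd'
    omega
  · simp only [List.cons_append, List.cons.injEq] at hd'
    obtain ⟨rfl, hBd⟩ := hd'
    refine hQ.1 y x' y' ?_ ⟨hlt, by omega⟩
    rw [hd, hBd]
    have := ep3_sub3 (A ++ [x]) A'' [] B' y x' y'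
    simpa using this

/-! ### the recursion for Av(231,321) -/

open Classical in
private theorem ep3_term (n i : ℕ) (hi : i ≤ n + 1) (L R : List ℕ) (hL : L ∈ words (range i))
    (hR : R ∈ words (range (n + 1 - i))) :
    (L ++ (n + 1) :: R.map (· + i)) ∈ words (range (n + 2)) ∧
    (Q231_321 (L ++ (n + 1) :: R.map (· + i)) ↔
      Q231_321 L ∧ R = List.range (n + 1 - i)) := by
  have hLm : ∀ x ∈ L, x < i := fun x hx => (ep3_mem_range hL).mp hx
  have hRm : ∀ y ∈ R.map (· + i), i ≤ y ∧ y < n + 1 := by
    intro y hy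
    obtain ⟨z, hz, rfl⟩ := List.mem_map.mp hy
    have := (ep3_mem_range hR).mp hz
    omega
  have hLn : L.Nodup := (mem_words.mp hL).1
  have hRn : (R.map (· + i)).Nodup := (mem_words.mp hR).1.map (add_left_injective i)
  have hnd : (L ++ R.map (· + i)).Nodup := by
    rw [List.nodup_append]
    refine ⟨hLn, hRn, ?_⟩
    intro a ha b hb hab
    have := hLm a ha
    have := (hRm b hb).1
    omega
  have hL' : ∀ x ∈ L, x < n + 1 := fun x hx => by have := hLm x hx; omega
  have hR' : ∀ y ∈ R.map (· + i), y < n + 1 := fun y hy => (hRm y hy).2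
  have hlt : ∀ x ∈ L, ∀ y ∈ R.map (· + i), x < y := fun x hx y hy => by
    have := hLm x hx
    have := (hRm y hy).1
    omega
  refine ⟨?_, ?_⟩
  · rw [mem_words]
    constructor
    · rw [List.nodup_append] at hnd ⊢
      refine ⟨hLn, ?_, ?_⟩
      · rw [List.nodup_cons]
        exact ⟨fun h => absurd (hR' _ h) (by omega), hRn⟩
      · intro a ha b hb hab
        rcases List.mem_cons.mp hb with h | h
        · have := hL' a ha
          omega
        · exact hnd.2.2 a ha b h hab
    · ext x
      rw [List.mem_toFinset, List.mem_append, List.mem_cons, List.mem_map, mem_range]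
      constructor
      · rintro (h | h | ⟨z, hz, rfl⟩)
        · have := hL' x h; omega
        · omega
        · have := (ep3_mem_range hR).mp hz; omega
      · intro hx
        by_cases h1 : x < i
        · exact Or.inl ((ep3_mem_range hL).mpr h1)
        · by_cases h2 : x = n + 1
          · exact Or.inr (Or.inl h2)
          · exact Or.inr (Or.inr ⟨x - i, (ep3_mem_range hR).mpr (by omega), by omega⟩)
  · unfold Q231_321
    rw [av231_split hL' hR' hnd, av321_lt hL' hR' hnd hlt]
    have hpw : (R.map (· + i)).Pairwise (· < ·) ↔ R = List.range (n + 1 - i) := by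
      rw [← words_pairwise_lt]
      constructor
      · intro h
        refine ⟨hR, ?_⟩
        rw [List.pairwise_map] at h
        exact h.imp (by intro a b hab; omega)
      · rintro ⟨-, h⟩
        rw [List.pairwise_map]
        exact h.imp (by intro a b hab; omega)
    rw [hpw]
    constructor
    · rintro ⟨⟨h1, -, -⟩, h4, h5⟩
      exact ⟨⟨h1, h4⟩, h5⟩
    · rintro ⟨⟨h1, h4⟩, h5⟩
      refine ⟨⟨h1, ?_, hlt⟩, h4, h5⟩
      rw [Av_map_add shiftInv_all.2.2.2.1]
      intro a b c hs hp
      rw [h5] at hs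
      have hsp : [a, b, c].Pairwise (· < ·) := List.Pairwise.sublist hs List.pairwise_lt_range
      simp only [List.pairwise_cons, List.mem_cons, List.not_mem_nil, or_false, forall_eq_or_imp,
        forall_eq] at hsp
      have h6 := hsp.1.2
      have h7 : c < a := hp.1
      omega

private theorem ep3_bd (n i : ℕ) (hi : i ≤ n + 1) (L : List ℕ) (hL : L ∈ words (range i)) :
    bd (L ++ (n + 1) :: (List.range (n + 1 - i)).map (· + i)) =
      bd L + if i < n then 1 else 0 := by
  classical
  have hLm : ∀ x ∈ L, x < i := fun x hx => (ep3_mem_range hL).mp hx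
  rw [bd_append_max _ _ _ (fun x hx => by have := hLm x hx; omega), bd_cons_max, bd_map_add,
    bd_range, zero_add]
  · congr 1
    rcases Nat.lt_trichotomy i n with h | h | h
    · rw [if_pos h, if_neg]
      have h1 : n + 1 - i = (n - i) + 1 := by omega
      rw [h1, List.range_succ_eq_map]
      simp only [List.map_cons, reduceCtorEq, List.head?_cons, Option.some.injEq, false_or]
      omega
    · subst h
      have h1 : i + 1 - i = 0 + 1 := by omega
      rw [h1, List.range_succ_eq_map]
      simp
    · have h1 : n + 1 - i = 0 := by omega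
      have h2 : ¬ i < n := by omega
      rw [h1]
      simp [h2]
  · intro y hy
    obtain ⟨z, hz, rfl⟩ := List.mem_map.mp hy
    have := List.mem_range.mp hz
    omega

/-- `A_{n+2} = A_{n+1} + A_n + X Σ_{m<n} A_m`. -/
theorem rec231_321 (n : ℕ) :
    AA Q231_321 (n + 2) = AA Q231_321 (n + 1) + AA Q231_321 n
      + X * ∑ m ∈ range n, AA Q231_321 m := by
  classical
  have hAA : ∀ m, AA Q231_321 m =
      ∑ l ∈ words (range m), if Q231_321 l then (X : ℚ[X]) ^ bd l else 0 := by
    intro m
    unfold AA W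
    rw [Finset.sum_filter]
  let F : List ℕ → ℚ[X] := fun l =>
    if l ∈ words (range (n + 2)) ∧ Q231_321 l then (X : ℚ[X]) ^ bd l else 0
  have h1 : AA Q231_321 (n + 2) = ∑ l ∈ words (range (n + 1 + 1)), F l := by
    rw [hAA]
    refine sum_congr rfl fun l hl => ?_
    by_cases hq : Q231_321 l
    · rw [if_pos hq]
      exact (if_pos ⟨hl, hq⟩).symm
    · rw [if_neg hq]
      exact (if_neg fun h => hq h.2).symm
  have hF : ∀ L R : List ℕ, (∃ x ∈ L, ∃ y ∈ R, y < x) → F (L ++ (n + 1) :: R) = 0 := by
    rintro L R ⟨x, hx, y, hy, hyx⟩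
    refine if_neg ?_
    rintro ⟨hw, hq⟩
    have hnd := (mem_words.mp hw).1
    have hnd1 := List.nodup_append.mp hnd
    have hnd2 := List.nodup_cons.mp hnd1.2.1
    have hL' : ∀ x ∈ L, x < n + 1 := by
      intro a ha
      have h2 : a < n + 2 := (ep3_mem_range hw).mp (by simp [ha])
      have h3 : a ≠ n + 1 := hnd1.2.2 a ha (n + 1) (by simp)
      omega
    have hR' : ∀ x ∈ R, x < n + 1 := by
      intro a ha
      have h2 : a < n + 2 := (ep3_mem_range hw).mp (by simp [ha])
      have h3 : a ≠ n + 1 := fun h => hnd2.1 (h ▸ ha)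
      omega
    have hnd' : (L ++ R).Nodup := by
      rw [List.nodup_append]
      exact ⟨hnd1.1, hnd2.2, fun a ha b hb => hnd1.2.2 a ha b (by simp [hb])⟩
    have := ((av231_split hL' hR' hnd').mp hq.1).2.2 x hx y hy
    omega
  rw [h1, sum_split_lt (n + 1) F hF]
  have hterm : ∀ i ∈ range (n + 1 + 1), ∑ L ∈ words (range i),
      ∑ R ∈ words (range (n + 1 - i)), F (L ++ (n + 1) :: R.map (· + i)) =
        (if i < n then X else 1) * AA Q231_321 i := by
    intro i hi
    have hi' : i ≤ n + 1 := by
      have := mem_range.mp hi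
      omega
    rw [hAA i, mul_sum]
    refine sum_congr rfl fun L hL => ?_
    have hRw : List.range (n + 1 - i) ∈ words (range (n + 1 - i)) :=
      ((words_pairwise_lt _ _).mpr rfl).1
    rw [sum_eq_single_of_mem (List.range (n + 1 - i)) hRw]
    · have ht := ep3_term n i hi' L _ hL hRw
      by_cases hq : Q231_321 L
      · rw [if_pos hq]
        have : F (L ++ (n + 1) :: (List.range (n + 1 - i)).map (· + i)) =
            X ^ bd (L ++ (n + 1) :: (List.range (n + 1 - i)).map (· + i)) :=
          if_pos ⟨ht.1, ht.2.mpr ⟨hq, rfl⟩⟩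
        rw [this, ep3_bd n i hi' L hL]
        split_ifs with h
        · rw [pow_succ']
        · rw [add_zero, one_mul]
      · rw [if_neg hq, mul_zero]
        exact if_neg fun h => hq (ht.2.mp h.2).1
    · intro R hR hne
      have ht := ep3_term n i hi' L R hL hR
      exact if_neg fun h => hne (ht.2.mp h.2).2
  rw [sum_congr rfl hterm, sum_range_succ, sum_range_succ, if_neg (by omega), if_neg (by omega),
    one_mul, one_mul, mul_sum]
  have h2 : ∑ x ∈ range n, (if x < n then (X : ℚ[X]) else 1) * AA Q231_321 x =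
      ∑ i ∈ range n, X * AA Q231_321 i := by
    refine sum_congr rfl fun i hi => ?_
    rw [if_pos (mem_range.mp hi)]
  rw [h2]
  ring

end BD
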