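import Pool.Agent.MP_8b309d_co.EPairs1
import Pool.Agent.MP_8b309d_co.EPairs3

/-!
# Row BD-CEASY : the pairs {132,231}, {132,312} (coefficients `C(n,2k+1)`)
-/

namespace BD

open Finset Polynomial

/-- log-concavity of binomial coefficients along a row, step two:
`C(n,2k-1) C(n,2k+3) ≤ C(n,2k+1)^2`. (From `C(n,j-1) C(n,j+1) ≤ C(n,j)^2`, or directly from
`C(n,j+1) (j+1) = C(n,j) (n-j)`.) -/
theorem choose_lc2 (n k : ℕ) (hk : 1 ≤ k) :
    n.choose (2 * (k - 1) + 1) * n.choose (2 * (k + 1) + 1) ≤ n.choose (2 * k + 1) ^ 2 := by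
  obtain ⟨i, rfl⟩ : ∃ i, k = i + 1 := ⟨k - 1, by omega⟩
  rcases lt_or_ge n (2 * (i + 1 + 1) + 1) with hn | hn
  · rw [Nat.choose_eq_zero_of_lt hn, mul_zero]
    exact Nat.zero_le _
  · obtain ⟨t, ht⟩ : ∃ t, n = 2 * i + 5 + t := ⟨n - (2 * i + 5), by omega⟩
    have h1 := Nat.choose_succ_right_eq n (2 * i + 1)
    have h2 := Nat.choose_succ_right_eq n (2 * i + 2)
    have h3 := Nat.choose_succ_right_eq n (2 * i + 3)
    have h4 := Nat.choose_succ_right_eq n (2 * i + 4)
    rw [show n - (2 * i + 1) = t + 4 by omega] at h1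
    rw [show n - (2 * i + 2) = t + 3 by omega] at h2
    rw [show n - (2 * i + 3) = t + 2 by omega] at h3
    rw [show n - (2 * i + 4) = t + 1 by omega] at h4
    rw [show 2 * (i + 1 - 1) + 1 = 2 * i + 1 by omega,
      show 2 * (i + 1 + 1) + 1 = 2 * i + 5 by omega, show 2 * (i + 1) + 1 = 2 * i + 3 by omega]
    rw [show 2 * i + 1 + 1 = 2 * i + 2 by omega] at h1
    rw [show 2 * i + 2 + 1 = 2 * i + 3 by omega] at h2
    rw [show 2 * i + 3 + 1 = 2 * i + 4 by omega] at h3
    rw [show 2 * i + 4 + 1 = 2 * i + 5 by omega] at h4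
    generalize n.choose (2 * i + 1) = a at *
    generalize n.choose (2 * i + 2) = b at *
    generalize n.choose (2 * i + 3) = c at *
    generalize n.choose (2 * i + 4) = d at *
    generalize n.choose (2 * i + 5) = e at *
    have e1 : a * ((t + 3) * (t + 4)) = c * ((2 * i + 3) * (2 * i + 2)) := by
      calc a * ((t + 3) * (t + 4)) = (a * (t + 4)) * (t + 3) := by ring
        _ = (b * (t + 3)) * (2 * i + 2) := by rw [← h1]; ring
        _ = c * ((2 * i + 3) * (2 * i + 2)) := by rw [← h2]; ring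
    have e2 : e * ((2 * i + 4) * (2 * i + 5)) = c * ((t + 1) * (t + 2)) := by
      calc e * ((2 * i + 4) * (2 * i + 5)) = (e * (2 * i + 5)) * (2 * i + 4) := by ring
        _ = (d * (2 * i + 4)) * (t + 1) := by rw [h4]; ring
        _ = c * ((t + 1) * (t + 2)) := by rw [h3]; ring
    have e3 : (a * e) * (((t + 3) * (t + 4)) * ((2 * i + 4) * (2 * i + 5)))
        = c ^ 2 * (((2 * i + 3) * (2 * i + 2)) * ((t + 1) * (t + 2))) := by
      calc (a * e) * (((t + 3) * (t + 4)) * ((2 * i + 4) * (2 * i + 5)))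
          = (a * ((t + 3) * (t + 4))) * (e * ((2 * i + 4) * (2 * i + 5))) := by ring
        _ = c ^ 2 * (((2 * i + 3) * (2 * i + 2)) * ((t + 1) * (t + 2))) := by rw [e1, e2]; ring
    have e4 : ((2 * i + 3) * (2 * i + 2)) * ((t + 1) * (t + 2))
        ≤ ((t + 3) * (t + 4)) * ((2 * i + 4) * (2 * i + 5)) := by
      have h5 : (2 * i + 3) * (2 * i + 2) ≤ (2 * i + 4) * (2 * i + 5) :=
        Nat.mul_le_mul (by omega) (by omega)
      have h6 : (t + 1) * (t + 2) ≤ (t + 3) * (t + 4) := Nat.mul_le_mul (by omega) (by omega)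
      rw [mul_comm ((t + 3) * (t + 4))]
      exact Nat.mul_le_mul h5 h6
    have hpos : 0 < ((t + 3) * (t + 4)) * ((2 * i + 4) * (2 * i + 5)) := by positivity
    refine Nat.le_of_mul_le_mul_right ?_ hpos
    rw [e3]
    exact Nat.mul_le_mul_left _ e4

private theorem ceasy_A231 (n : ℕ) :
    (∀ k, (AA Q132_231 (n + 1)).coeff k = ((n + 1).choose (2 * k + 1) : ℚ)) ∧
    (∀ k, (MM Q132_231 (n + 1)).coeff k = (n.choose (2 * k) : ℚ)) := by
  have h0 : Q132_231 [0] := ⟨Av_singleton _ _, Av_singleton _ _⟩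
  induction n with
  | zero =>
    rw [zero_add, AA_one _ h0, MM_one _ h0]
    constructor
    · intro k
      rw [coeff_one]
      rcases Nat.eq_zero_or_pos k with hk | hk
      · subst hk
        simp
      · rw [if_neg hk.ne', Nat.choose_eq_zero_of_lt (by omega), Nat.cast_zero]
    · intro k
      rw [coeff_one]
      rcases Nat.eq_zero_or_pos k with hk | hk
      · subst hk
        simp
      · rw [if_neg hk.ne', Nat.choose_eq_zero_of_lt (by omega), Nat.cast_zero]
  | succ n ih =>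
    obtain ⟨ihA, ihM⟩ := ih
    have hM : ∀ k, (MM Q132_231 (n + 2)).coeff k = ((n + 1).choose (2 * k) : ℚ) := by
      intro k
      rw [MM_rec _ hQ132_231]
      rcases Nat.eq_zero_or_pos k with hk | hk
      · subst hk
        rw [coeff_add, ihM, coeff_X_mul_zero]
        simp
      · obtain ⟨j, rfl⟩ : ∃ j, k = j + 1 := ⟨k - 1, by omega⟩
        rw [coeff_add, coeff_X_mul, coeff_sub, ihM, ihA, ihM]
        rw [show 2 * (j + 1) = 2 * j + 1 + 1 by ring, Nat.choose_succ_succ n (2 * j + 1),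
          Nat.choose_succ_succ n (2 * j)]
        push_cast
        ring
    refine ⟨?_, hM⟩
    intro k
    rw [show n + 1 + 1 = n + 2 by ring, rec132_231, coeff_add, hM, ihA,
      show n + 2 = (n + 1) + 1 by ring, Nat.choose_succ_succ (n + 1) (2 * k)]
    push_cast
    ring

private theorem ceasy_LC (Q : List ℕ → Prop) (hnil : Q [])
    (h : ∀ n k, (AA Q (n + 1)).coeff k = ((n + 1).choose (2 * k + 1) : ℚ)) : LC Q := by
  intro n k hk
  rcases Nat.eq_zero_or_pos n with hn | hn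
  · subst hn
    have h1 : cnt Q 0 (k + 1) = 0 := by
      have h2 := AA_coeff Q 0 (k + 1)
      rw [AA_zero Q hnil, coeff_one, if_neg (by omega)] at h2
      exact_mod_cast h2.symm
    rw [h1, mul_zero]
    exact Nat.zero_le _
  · obtain ⟨m, rfl⟩ : ∃ m, n = m + 1 := ⟨n - 1, by omega⟩
    have h1 : ∀ j, cnt Q (m + 1) j = (m + 1).choose (2 * j + 1) := by
      intro j
      have h2 := AA_coeff Q (m + 1) j
      rw [h] at h2
      exact_mod_cast h2.symm
    rw [h1, h1, h1]
    exact choose_lc2 (m + 1) k hk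

/-- From `rec132_231`, `MM_rec`: by induction `(A_n).coeff k = C(n,2k+1)`,
`(M_n).coeff k = C(n-1,2k)` for `n ≥ 1`. -/
theorem LC132_231 : LC Q132_231 :=
  ceasy_LC _ ⟨Av_nil _, Av_nil _⟩ fun n k => (ceasy_A231 n).1 k

private theorem ceasy_rec312 (n : ℕ) :
    AA Q132_312 (n + 3) = 2 * AA Q132_312 (n + 2) - AA Q132_312 (n + 1)
      + X * AA Q132_312 (n + 1) := by
  have h1 := rec132_312 (n + 1)
  have h2 := rec132_312 n
  have h3 : ∀ m : ℕ, ∑ r ∈ Finset.Icc 1 m, AA Q132_312 (m + 1 - r)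
      = ∑ j ∈ range m, AA Q132_312 (j + 1) := by
    intro m
    rw [← Finset.sum_range_reflect (fun j => AA Q132_312 (j + 1)) m]
    rw [← Finset.Ico_succ_right_eq_Icc, Finset.sum_Ico_eq_sum_range]
    simp only [Nat.succ_eq_succ, Nat.succ_eq_add_one, Nat.add_sub_cancel]
    refine Finset.sum_congr rfl fun j hj => ?_
    rw [Finset.mem_range] at hj
    congr 1
    omega
  rw [h3] at h1 h2
  rw [Finset.sum_range_succ, mul_add] at h1
  rw [show n + 1 + 2 = n + 3 by ring, show n + 1 + 1 = n + 2 by ring] at h1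
  linear_combination h1 - h2

private theorem ceasy_A312 (n : ℕ) :
    (∀ k, (AA Q132_312 (n + 1)).coeff k = ((n + 1).choose (2 * k + 1) : ℚ)) ∧
    (∀ k, (AA Q132_312 (n + 2)).coeff k = ((n + 2).choose (2 * k + 1) : ℚ)) := by
  have h0 : Q132_312 [0] := ⟨Av_singleton _ _, Av_singleton _ _⟩
  induction n with
  | zero =>
    have h1 : ∀ k, (AA Q132_312 1).coeff k = ((1 : ℕ).choose (2 * k + 1) : ℚ) := by
      intro k
      rw [AA_one _ h0, coeff_one]
      rcases Nat.eq_zero_or_pos k with hk | hk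
      · subst hk
        simp
      · rw [if_neg hk.ne', Nat.choose_eq_zero_of_lt (by omega), Nat.cast_zero]
    refine ⟨h1, ?_⟩
    intro k
    have h2 := rec132_312 0
    rw [zero_add] at h2 ⊢
    rw [h2, coeff_add, coeff_add, zero_add, h1, coeff_one]
    rcases Nat.eq_zero_or_pos k with hk | hk
    · subst hk
      simp
      norm_num
    · rw [if_neg hk.ne', Nat.choose_eq_zero_of_lt (by omega),
        Nat.choose_eq_zero_of_lt (show 2 < 2 * k + 1 by omega), Nat.cast_zero]
      simp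
  | succ n ih =>
    obtain ⟨ih1, ih2⟩ := ih
    refine ⟨ih2, ?_⟩
    intro k
    rw [show n + 1 + 2 = n + 3 by ring, ceasy_rec312, coeff_add, coeff_sub]
    have h2 : (2 * AA Q132_312 (n + 2) : ℚ[X]).coeff k = 2 * (AA Q132_312 (n + 2)).coeff k := by
      rw [two_mul, coeff_add, two_mul]
    rw [h2, ih2, ih1]
    rcases Nat.eq_zero_or_pos k with hk | hk
    · subst hk
      rw [coeff_X_mul_zero]
      simp
      ring
    · obtain ⟨j, rfl⟩ : ∃ j, k = j + 1 := ⟨k - 1, by omega⟩
      rw [coeff_X_mul, ih1]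
      rw [show 2 * (j + 1) + 1 = 2 * j + 1 + 1 + 1 by ring]
      rw [show n + 3 = n + 2 + 1 by ring, Nat.choose_succ_succ (n + 2) (2 * j + 1 + 1),
        show n + 2 = n + 1 + 1 by ring, Nat.choose_succ_succ (n + 1) (2 * j + 1 + 1),
        Nat.choose_succ_succ (n + 1) (2 * j + 1)]
      push_cast
      ring

/-- From `rec132_312`: `A_{n+2} = 2 A_{n+1} - A_n + X A_n` for `n ≥ 1`, hence
`(A_n).coeff k = C(n,2k+1)` for `n ≥ 1`. -/
theorem LC132_312 : LC Q132_312 :=
  ceasy_LC _ ⟨Av_nil _, Av_nil _⟩ fun n k => (ceasy_A312 n).1 k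

theorem LC231_312 : LC Q231_312 :=
  LC_of_bd_le_one _ fun n l hl hQ => (bd231_312 n l hl hQ).le.trans (Nat.zero_le 1)

theorem LC231_123 : LC Q231_123 := LC_of_bd_le_one _ bd231_123

theorem LC132_321 : LC Q132_321 := LC_of_bd_le_one _ bd132_321

end BD
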