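import Mathlib

/-!
# MP_8b309d_co : common definitions (permutations, words, generating polynomials)
-/

namespace BD

open Polynomial

/-! ## Final definitions -/

/-- `σ` contains the pattern `τ`. -/
def Contains {n m : ℕ} (σ : Equiv.Perm (Fin n)) (τ : Equiv.Perm (Fin m)) : Prop :=
  ∃ f : Fin m ↪o Fin n, ∀ i j, σ (f i) < σ (f j) ↔ τ i < τ j

open Classical in
/-- number of big descents: positions `i` with `σ i > σ (i+1) + 1` -/
noncomputable def bdes {n : ℕ} (σ : Equiv.Perm (Fin n)) : ℕ :=
  (Finset.univ.filter (fun i : Fin n =>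
    ∃ h : (i : ℕ) + 1 < n, ((σ ⟨(i : ℕ) + 1, h⟩ : Fin n) : ℕ) + 1 < ((σ i : Fin n) : ℕ))).card

open Classical in
/-- `b P n k` : number of permutations of `Fin n` avoiding all patterns in `P` with `k` big
descents -/
noncomputable def b (P : Finset (Equiv.Perm (Fin 3))) (n k : ℕ) : ℕ :=
  (Finset.univ.filter (fun σ : Equiv.Perm (Fin n) =>
    (∀ τ ∈ P, ¬ Contains σ τ) ∧ bdes σ = k)).card

/-! ## Words (lists of natural numbers) -/

/-- a pattern of length three as a relation between the three letters (read left to right) -/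
abbrev Pat := ℕ → ℕ → ℕ → Prop

def p123 : Pat := fun a b c => a < b ∧ b < c
def p132 : Pat := fun a b c => a < c ∧ c < b
def p213 : Pat := fun a b c => b < a ∧ a < c
def p231 : Pat := fun a b c => c < a ∧ a < b
def p312 : Pat := fun a b c => b < c ∧ c < a
def p321 : Pat := fun a b c => c < b ∧ b < a

/-- the word `l` avoids the pattern `p` -/
def Av (p : Pat) (l : List ℕ) : Prop := ∀ a b c, [a, b, c].Sublist l → ¬ p a b c

/-- number of big descents of a word -/
def bd : List ℕ → ℕ
  | [] => 0
  | [_] => 0
  | x :: y :: l => (if y + 1 < x then 1 else 0) + bd (y :: l)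

/-- all arrangements (words without repetition) of the finite set `U` -/
noncomputable def words (U : Finset ℕ) : Finset (List ℕ) := U.toList.permutations.toFinset

open Classical in
/-- generating polynomial (variable `X` marks big descents) of the arrangements of `U` with
property `Q` -/
noncomputable def W (Q : List ℕ → Prop) (U : Finset ℕ) : ℚ[X] :=
  ∑ l ∈ (words U).filter Q, X ^ (bd l)

open Classical in
/-- the same, restricted to the words with first letter `m` -/
noncomputable def W1 (Q : List ℕ → Prop) (m : ℕ) (U : Finset ℕ) : ℚ[X] :=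
  ∑ l ∈ (words U).filter (fun l => Q l ∧ l.head? = some m), X ^ (bd l)

open Classical in
/-- number of arrangements of `{0,…,n-1}` with property `Q` and `k` big descents -/
noncomputable def cnt (Q : List ℕ → Prop) (n k : ℕ) : ℕ :=
  ((words (Finset.range n)).filter (fun l => Q l ∧ bd l = k)).card

/-- log-concavity of all the sequences `k ↦ cnt Q n k` -/
def LC (Q : List ℕ → Prop) : Prop :=
  ∀ n k : ℕ, 1 ≤ k → cnt Q n (k - 1) * cnt Q n (k + 1) ≤ cnt Q n k ^ 2

end BD
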