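import Pool.Agent.MP_8b309d_co.ESys

/-!
# Row BD-E123 : the words avoiding 123
-/

namespace BD

open Finset Polynomial

/-- adjacency pattern of a decreasing list -/
def adj : List ℕ → List Bool
  | [] => []
  | [_] => []
  | x :: y :: l => decide (x = y + 1) :: adj (y :: l)

open Classical in
/-- generating polynomial of the continuations: `m` current minimum, `c` last letter -/
private noncomputable def gg (m c : ℕ) (U : Finset ℕ) : ℚ[X] :=
  ∑ l ∈ words U, if Av p123 (m :: l) then X ^ (bd (c :: l)) else 0

private theorem av_small {m y : ℕ} {l : List ℕ} (h : y < m) :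
    Av p123 (m :: y :: l) ↔ Av p123 (y :: l) := by
  constructor
  · exact fun h' => Av_of_sublist (List.sublist_cons_self _ _) h'
  · intro h' a b c hs hp
    rcases List.cons_sublist_cons'.1 hs with h1 | ⟨rfl, h1⟩
    · exact h' a b c h1 hp
    · rcases List.cons_sublist_cons'.1 h1 with h2 | ⟨rfl, _⟩
      · exact h' y b c (List.cons_sublist_cons.2 h2) ⟨h.trans hp.1, hp.2⟩
      · exact absurd hp.1 (not_lt.2 h.le)

private theorem av_head {m g : ℕ} {l : List ℕ} (h : ∀ x ∈ l, x < g) :
    Av p123 (m :: g :: l) ↔ Av p123 (m :: l) := by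
  constructor
  · intro h'
    exact Av_of_sublist (List.cons_sublist_cons.2 (List.sublist_cons_self _ _)) h'
  · intro h' a b c hs hp
    have key : ∀ b c : ℕ, [b, c].Sublist (g :: l) → b < c → [b, c].Sublist l := by
      intro b c h1 hbc
      rcases List.cons_sublist_cons'.1 h1 with h2 | ⟨rfl, h2⟩
      · exact h2
      · have : c ∈ l := h2.subset (by simp)
        exact absurd hbc (not_lt.2 (h c this).le)
    rcases List.cons_sublist_cons'.1 hs with h1 | ⟨rfl, h1⟩
    · rcases List.cons_sublist_cons'.1 h1 with h2 | ⟨rfl, h2⟩
      · exact h' a b c (h2.trans (List.sublist_cons_self _ _)) hp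
      · have : b ∈ l := h2.subset (by simp)
        exact absurd hp.1 (not_lt.2 (h b this).le)
    · exact h' a b c (List.cons_sublist_cons.2 (key b c h1 hp.2)) hp

private theorem av_bad {m y g : ℕ} {l : List ℕ} (h1 : m < y) (h2 : y < g) (hg : g ∈ l) :
    ¬ Av p123 (m :: y :: l) := by
  intro h
  refine h m y g ?_ ⟨h1, h2⟩
  exact List.cons_sublist_cons.2 (List.cons_sublist_cons.2 (List.singleton_sublist.2 hg))

/-- the factor of a step -/
private noncomputable def fc (c y : ℕ) : ℚ[X] := if y + 1 < c then X else 1

private theorem pow_bd (c y : ℕ) (l : List ℕ) :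
    (X : ℚ[X]) ^ (bd (c :: y :: l)) = fc c y * X ^ (bd (y :: l)) := by
  unfold fc
  rw [bd, pow_add]
  split_ifs <;> simp

private theorem inner_small (m c y : ℕ) (S : Finset ℕ) (h : y < m) :
    (∑ l ∈ words S, (open Classical in if Av p123 (m :: y :: l) then
      (X : ℚ[X]) ^ (bd (c :: y :: l)) else 0)) = fc c y * gg y y S := by
  classical
  unfold gg
  rw [Finset.mul_sum]
  refine Finset.sum_congr rfl fun l _ => ?_
  rw [pow_bd]
  by_cases hA : Av p123 (y :: l)
  · rw [if_pos hA, if_pos ((av_small h).2 hA)]
  · rw [if_neg hA, if_neg (fun h' => hA ((av_small h).1 h')), mul_zero]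

private theorem inner_head (m c g : ℕ) (S : Finset ℕ) (h : ∀ x ∈ S, x < g) :
    (∑ l ∈ words S, (open Classical in if Av p123 (m :: g :: l) then
      (X : ℚ[X]) ^ (bd (c :: g :: l)) else 0)) = fc c g * gg m g S := by
  classical
  unfold gg
  rw [Finset.mul_sum]
  refine Finset.sum_congr rfl fun l hl => ?_
  have hl' : ∀ x ∈ l, x < g := by
    intro x hx
    apply h
    rw [← (mem_words.1 hl).2]
    exact List.mem_toFinset.2 hx
  rw [pow_bd]
  by_cases hA : Av p123 (m :: l)
  · rw [if_pos hA, if_pos ((av_head hl').2 hA)]
  · rw [if_neg hA, if_neg (fun h' => hA ((av_head hl').1 h')), mul_zero]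

private theorem inner_bad (m c y g : ℕ) (S : Finset ℕ) (h1 : m < y) (h2 : y < g) (hg : g ∈ S) :
    (∑ l ∈ words S, (open Classical in if Av p123 (m :: y :: l) then
      (X : ℚ[X]) ^ (bd (c :: y :: l)) else 0)) = 0 := by
  classical
  refine Finset.sum_eq_zero fun l hl => ?_
  have : g ∈ l := by
    rw [← (mem_words.1 hl).2] at hg
    exact List.mem_toFinset.1 hg
  rw [if_neg (av_bad h1 h2 this)]

/-- empty set -/
private theorem gg_empty (m c : ℕ) : gg m c ∅ = 1 := by
  classical
  unfold gg
  rw [words_empty, Finset.sum_singleton, if_pos (Av_singleton _ _)]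
  simp [bd]

/-- recursion, no unused letters above the minimum -/
private theorem gg_nil (m c : ℕ) :
    gg (m + 1) c (range (m + 1)) =
      ∑ y ∈ range (m + 1), fc c y * gg y y ((range (m + 1)).erase y) := by
  classical
  conv_lhs => unfold gg
  rw [sum_words_cons _ ⟨0, by simp⟩]
  refine Finset.sum_congr rfl fun y hy => ?_
  exact inner_small (m + 1) c y _ (Finset.mem_range.1 hy)

/-- recursion, unused letters above the minimum -/
private theorem gg_cons (m c g : ℕ) (γ : List ℕ) (hγ : (g :: γ).Pairwise (· > ·))
    (hm : ∀ x ∈ g :: γ, m < x) :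
    gg m c ((g :: γ).toFinset ∪ range m) =
      fc c g * gg m g (γ.toFinset ∪ range m) +
      ∑ y ∈ range m, fc c y * gg y y (((g :: γ).toFinset ∪ range m).erase y) := by
  classical
  conv_lhs => unfold gg
  have hgU : g ∈ (g :: γ).toFinset ∪ range m :=
    Finset.mem_union_left _ (List.mem_toFinset.2 List.mem_cons_self)
  rw [List.pairwise_cons] at hγ
  rw [sum_words_cons _ ⟨g, hgU⟩, Finset.sum_union]
  · congr 1
    · rw [Finset.sum_eq_single g]
      · have e : ((g :: γ).toFinset ∪ range m).erase g = γ.toFinset ∪ range m := by
          ext x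
          simp only [Finset.mem_erase, Finset.mem_union, List.mem_toFinset, List.mem_cons,
            Finset.mem_range]
          constructor
          · rintro ⟨h1, (h2 | h2) | h2⟩
            · exact absurd h2 h1
            · exact Or.inl h2
            · exact Or.inr h2
          · rintro (h | h)
            · exact ⟨(hγ.1 x h).ne, Or.inl (Or.inr h)⟩
            · exact ⟨(h.trans (hm g List.mem_cons_self)).ne, Or.inr h⟩
        rw [e]
        refine inner_head m c g _ fun x hx => ?_
        rw [Finset.mem_union, List.mem_toFinset, Finset.mem_range] at hx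
        rcases hx with h | h
        · exact hγ.1 x h
        · exact h.trans (hm g List.mem_cons_self)
      · intro y hy hyg
        rw [List.mem_toFinset] at hy
        have hy' : y ∈ γ := by
          rcases List.mem_cons.1 hy with h | h
          · exact absurd h hyg
          · exact h
        exact inner_bad m c y g _ (hm y hy) (hγ.1 y hy')
          (Finset.mem_erase.2 ⟨fun h => hyg h.symm, hgU⟩)
      · intro h
        exact absurd (List.mem_toFinset.2 List.mem_cons_self) h
    · refine Finset.sum_congr rfl fun y hy => ?_
      exact inner_small m c y _ (Finset.mem_range.1 hy)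
  · rw [Finset.disjoint_left]
    intro x hx hx'
    rw [List.mem_toFinset] at hx
    rw [Finset.mem_range] at hx'
    exact absurd (hm x hx) (not_lt.2 hx'.le)

/-- the list `[m-1, …, m-j]` -/
private def dn (m j : ℕ) : List ℕ := (List.range j).map fun i => m - 1 - i

private theorem mem_dn {m j x : ℕ} (hj : j < m) : x ∈ dn m j ↔ m - 1 - j < x ∧ x < m := by
  unfold dn
  rw [List.mem_map]
  constructor
  · rintro ⟨i, hi, rfl⟩
    rw [List.mem_range] at hi
    omega
  · rintro ⟨h1, h2⟩
    exact ⟨m - 1 - x, List.mem_range.2 (by omega), by omega⟩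

private theorem dn_pairwise {m j : ℕ} (hj : j < m) : (dn m j).Pairwise (· > ·) := by
  unfold dn
  rw [List.pairwise_map]
  refine List.Pairwise.imp_of_mem ?_ (List.pairwise_lt_range (n := j))
  intro a b ha hb hab
  rw [List.mem_range] at ha hb
  omega

private theorem dn_zero (m : ℕ) : dn m 0 = [] := rfl

private theorem dn_succ (m j : ℕ) : dn (m + 1) (j + 1) = m :: dn m j := by
  unfold dn
  rw [List.range_succ_eq_map, List.map_cons, List.map_map]
  congr 1
  refine List.map_congr_left fun i _ => ?_
  simp only [Function.comp]
  omega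

private theorem dn_length (m j : ℕ) : (dn m j).length = j := by simp [dn]

private theorem erase_eq (m j : ℕ) (γ : List ℕ) (hj : j < m) (hm : ∀ x ∈ γ, m < x) :
    (γ.toFinset ∪ range m).erase (m - 1 - j) = (γ ++ dn m j).toFinset ∪ range (m - 1 - j) := by
  ext x
  simp only [Finset.mem_erase, Finset.mem_union, List.mem_toFinset, List.mem_append,
    Finset.mem_range, mem_dn hj]
  constructor
  · rintro ⟨h1, h2 | h2⟩
    · exact Or.inl (Or.inl h2)
    · rcases lt_or_gt_of_ne h1 with h | h
      · exact Or.inr h
      · exact Or.inl (Or.inr ⟨h, h2⟩)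
  · rintro ((h | h) | h)
    · have := hm x h
      exact ⟨by omega, Or.inl h⟩
    · exact ⟨by omega, Or.inr h.2⟩
    · exact ⟨by omega, Or.inr (by omega)⟩

private theorem adj_dn (j : ℕ) : ∀ m, j < m → adj (dn m j) = List.replicate (j - 1) true := by
  induction j with
  | zero => intro m _; rfl
  | succ j ih =>
    intro m hm
    obtain ⟨m, rfl⟩ : ∃ k, m = k + 1 := ⟨m - 1, by omega⟩
    rw [dn_succ]
    rcases j with _ | j
    · rfl
    · obtain ⟨m, rfl⟩ : ∃ k, m = k + 1 := ⟨m - 1, by omega⟩
      have h1 := ih (m + 1) (by omega)
      rw [dn_succ] at h1 ⊢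
      rw [adj, h1]
      simp only [decide_true, Nat.add_sub_cancel]
      rw [List.replicate_succ]

private theorem adj_append (j m : ℕ) (hj : j < m) :
    ∀ (g : ℕ) (γ : List ℕ), (∀ x ∈ g :: γ, m < x) → adj ((g :: γ) ++ dn m j) = jmp (adj (g :: γ)) j := by
  intro g γ
  induction γ generalizing g with
  | nil =>
    intro h
    have hg : m < g := h g List.mem_cons_self
    unfold jmp
    rcases j with _ | j
    · simp [dn_zero]
    · obtain ⟨m, rfl⟩ : ∃ k, m = k + 1 := ⟨m - 1, by omega⟩
      have h1 := adj_dn (j + 1) (m + 1) hj
      rw [dn_succ] at h1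
      rw [if_neg (by omega), dn_succ]
      have e : adj ([g] ++ m :: dn m j) = decide (g = m + 1) :: adj (m :: dn m j) := rfl
      have e' : adj [g] = [] := rfl
      rw [e, h1, e', List.nil_append, decide_eq_false (by omega)]
  | cons g' γ ih =>
    intro h
    have h1 := ih g' fun x hx => h x (List.mem_cons_of_mem _ hx)
    show adj (g :: g' :: (γ ++ dn m j)) = jmp (adj (g :: g' :: γ)) j
    rw [adj, adj]
    have h2 : adj (g' :: (γ ++ dn m j)) = jmp (adj (g' :: γ)) j := h1
    rw [h2]
    unfold jmp
    split_ifs with h3
    · rfl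
    · rfl

section
variable {P0 : ℕ → ℚ[X]} {Pm Pv : List Bool → ℕ → ℚ[X]} (hs : Sys123 P0 Pm Pv)
include hs

private theorem main_ind (N : ℕ) : ∀ (m : ℕ) (γ : List ℕ), γ.length + m = N →
    γ.Pairwise (· > ·) → (∀ x ∈ γ, m < x) →
    (gg m m (γ.toFinset ∪ range m) = if γ = [] then P0 m else Pm (adj γ) m) ∧
      ∀ v, m < v → (∀ x ∈ γ, x < v) → gg m v (γ.toFinset ∪ range m) = Pv (adj (v :: γ)) m := by
  induction N with
  | zero =>
    intro m γ hN _ _
    have hm : m = 0 := by omega
    have hγ : γ = [] := List.eq_nil_of_length_eq_zero (by omega)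
    subst hm hγ
    have e : (([] : List ℕ).toFinset ∪ range 0) = ∅ := by simp
    rw [e]
    refine ⟨?_, fun v _ _ => ?_⟩
    · rw [gg_empty, if_pos rfl, hs.p00]
    · rw [gg_empty, adj, hs.pv00]
  | succ N ih =>
    intro m γ hN hγ hm
    -- states after a step down
    have hdown : ∀ j ∈ range m, gg (m - 1 - j) (m - 1 - j)
        ((γ.toFinset ∪ range m).erase (m - 1 - j)) =
        if γ ++ dn m j = [] then P0 (m - 1 - j) else Pm (adj (γ ++ dn m j)) (m - 1 - j) := by
      intro j hj
      rw [Finset.mem_range] at hj
      rw [erase_eq m j γ hj hm]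
      refine (ih (m - 1 - j) (γ ++ dn m j) ?_ ?_ ?_).1
      · rw [List.length_append, dn_length]; omega
      · rw [List.pairwise_append]
        refine ⟨hγ, dn_pairwise hj, fun a ha b hb => ?_⟩
        have h1 := hm a ha
        have h2 := ((mem_dn hj).1 hb).2
        omega
      · intro x hx
        rcases List.mem_append.1 hx with h | h
        · have := hm x h; omega
        · exact ((mem_dn hj).1 h).1
    rcases γ with _ | ⟨g, γ⟩
    · -- no letters above
      obtain ⟨m, rfl⟩ : ∃ k, m = k + 1 := ⟨N, by simpa using hN⟩
      have e : (([] : List ℕ).toFinset ∪ range (m + 1)) = range (m + 1) := by simp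
      rw [e] at hdown ⊢
      have hd0 : gg m m ((range (m + 1)).erase m) = P0 m := by
        have := hdown 0 (by simp)
        simpa [dn_zero] using this
      have hd1 : ∀ j ∈ Finset.Icc 1 m, gg (m - j) (m - j) ((range (m + 1)).erase (m - j)) =
          Pm (List.replicate (j - 1) true) (m - j) := by
        intro j hj
        rw [Finset.mem_Icc] at hj
        have h1 := hdown j (Finset.mem_range.2 (by omega))
        rw [List.nil_append, adj_dn j (m + 1) (by omega)] at h1
        have h2 : dn (m + 1) j ≠ [] := by
          intro h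
          have := dn_length (m + 1) j
          rw [h] at this
          simp at this
          omega
        rw [if_neg h2] at h1
        simpa using h1
      have hsplit : ∀ F : ℕ → ℚ[X], ∑ y ∈ range (m + 1), F y =
          F m + ∑ j ∈ Finset.Icc 1 m, F (m - j) := by
        intro F
        rw [← Finset.sum_range_reflect, Finset.sum_range_succ']
        rw [add_comm]
        congr 1
        rw [Finset.sum_bij (fun (i : ℕ) (_ : i ∈ range m) => i + 1)]
        · intro a ha
          rw [Finset.mem_range] at ha
          rw [Finset.mem_Icc]; omega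
        · intro a _ b _ h
          omega
        · intro b hb
          rw [Finset.mem_Icc] at hb
          exact ⟨b - 1, Finset.mem_range.2 (by omega), by omega⟩
        · intro a ha
          congr 1
      refine ⟨?_, fun v hv _ => ?_⟩
      · rw [gg_nil, hsplit, if_pos rfl, hs.p0, hd0]
        have f0 : fc (m + 1) m = 1 := by unfold fc; rw [if_neg (by omega)]
        rw [f0, one_mul, Finset.mul_sum]
        congr 1
        refine Finset.sum_congr rfl fun j hj => ?_
        rw [hd1 j hj]
        have f1 : fc (m + 1) (m - j) = X := by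
          unfold fc
          rw [Finset.mem_Icc] at hj
          rw [if_pos (by omega)]
        rw [f1]
      · rw [gg_nil, hsplit, adj, hs.pv0, hd0]
        have f0 : fc v m = X := by unfold fc; rw [if_pos (by omega)]
        rw [f0, Finset.mul_sum]
        congr 1
        refine Finset.sum_congr rfl fun j hj => ?_
        rw [hd1 j hj]
        have f1 : fc v (m - j) = X := by
          unfold fc
          rw [if_pos (by omega)]
        rw [f1]
    · -- letters above
      have hγ' := hγ
      rw [List.pairwise_cons] at hγ'
      have hV := (ih m γ (by simp at hN; omega) hγ'.2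
        (fun x hx => hm x (List.mem_cons_of_mem _ hx))).2 g (hm g List.mem_cons_self) hγ'.1
      have hd : ∀ j ∈ range m, gg (m - 1 - j) (m - 1 - j)
          (((g :: γ).toFinset ∪ range m).erase (m - 1 - j)) =
          Pm (jmp (adj (g :: γ)) j) (m - 1 - j) := by
        intro j hj
        rw [hdown j hj, if_neg (by simp), adj_append j m (Finset.mem_range.1 hj) g γ hm]
      refine ⟨?_, fun v hv hvg => ?_⟩
      · rw [gg_cons m m g γ hγ hm, hV, if_neg (by simp), hs.pm,
          ← Finset.sum_range_reflect (fun y => fc m y *
            gg y y (((g :: γ).toFinset ∪ range m).erase y)) m]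
        have f0 : fc m g = 1 := by
          unfold fc
          have := hm g List.mem_cons_self
          rw [if_neg (by omega)]
        rw [f0, one_mul]
        congr 1
        refine Finset.sum_congr rfl fun j hj => ?_
        rw [hd j hj]
        congr 1
        unfold fc
        rw [Finset.mem_range] at hj
        by_cases h0 : j = 0
        · rw [if_neg (by omega), if_pos h0]
        · rw [if_pos (by omega), if_neg h0]
      · have hgv : g < v := hvg g List.mem_cons_self
        have e : adj (v :: g :: γ) = decide (v = g + 1) :: adj (g :: γ) := rfl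
        have hrefl : ∑ y ∈ range m, fc v y * gg y y (((g :: γ).toFinset ∪ range m).erase y) =
            X * ∑ j ∈ range m, Pm (jmp (adj (g :: γ)) j) (m - 1 - j) := by
          rw [Finset.mul_sum]
          refine (Finset.sum_range_reflect (fun y => fc v y *
            gg y y (((g :: γ).toFinset ∪ range m).erase y)) m).symm.trans ?_
          refine Finset.sum_congr rfl fun j hj => ?_
          rw [hd j hj]
          congr 1
          unfold fc
          rw [Finset.mem_range] at hj
          rw [if_pos (by omega)]
        have hfac : fc v g = if decide (v = g + 1) = true then 1 else X := by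
          unfold fc
          by_cases h1 : v = g + 1
          · rw [if_neg (by omega), if_pos (by simpa using h1)]
          · rw [if_pos (by omega), if_neg (by simpa using h1)]
        rw [gg_cons m v g γ hγ hm, hV, e, hs.pv, hrefl, hfac]

end

/-- Main combinatorial statement for Av(123).

Proof.  Put `G m c U = Σ X^(bd (c :: l))`, sum over the arrangements `l` of `U` with
`Av p123 (m :: l)` (`m` = current minimum, `c` = last letter).  Claim, by induction on
`U.card`: let `γ` be a strictly decreasing list of numbers `> m`, `U = γ.toFinset ∪ range m`.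
(M0) `γ = []`: `G m m U = P0 m`;
(M)  `γ ≠ []`: `G m m U = Pm (adj γ) m`;
(V)  if `v > m` and `v` is larger than all of `γ`: `G m v U = Pv (adj (v :: γ)) m`.
Expand by the first letter `y` of `l = y :: l'` (`sum_words_cons`).
* `y < m`, `y = m-1-j` (`j < m`): `Av p123 (m :: y :: l') ↔ Av p123 (y :: l')` (if
  `m < b < c` then also `y < b < c`).  New state: minimum `y` = last letter, list
  `γ ++ [m-1, m-2, …, y+1]`, adjacency pattern: `replicate (j-1) true` if `γ = []`, `j ≥ 1`,
  and `jmp (adj γ) j` if `γ ≠ []` (the last element of `γ` is `> m`, so it is not adjacent to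
  `m-1`).  The step `c → y`: for `c = m` it is a big descent iff `j ≥ 1`; for `c = v > m` it is
  always a big descent.
* `y > m`: `Av p123 (m :: y :: l')` iff all letters of `l'` are smaller than `y` (i.e. `y` is the
  head of `γ`) and `Av p123 (m :: l')`.  New state (V) with `v = y` and `γ.tail`; adjacency pattern
  `adj γ`.  The step `c → y`: ascent if `c = m`; if `c = v` it is a descent which is big iff
  `v ≠ y+1`: factor `1` or `X` according to the head of `adj (v :: γ)`.
These are the equations of `Sys123`.  For the words of `range (n+1)`: the first letter is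
`y = n - j` (`0 ≤ j ≤ n`), the state afterwards is (M0) with `m = n` (`j = 0`) or (M) with
`m = n-j`, `γ = [n, n-1, …, y+1]`, `adj γ = replicate (j-1) true`. -/
theorem E123_main (P0 : ℕ → ℚ[X]) (Pm Pv : List Bool → ℕ → ℚ[X]) (hs : Sys123 P0 Pm Pv)
    (n : ℕ) :
    AA (Av p123) (n + 1) = P0 n
      + ∑ j ∈ Finset.Icc 1 n, Pm (List.replicate (j - 1) true) (n - j) := by
  classical
  have h1 : AA (Av p123) (n + 1) =
      ∑ y ∈ range (n + 1), gg y y ((range (n + 1)).erase y) := by
    unfold AA W
    rw [Finset.sum_filter, sum_words_cons _ ⟨0, by simp⟩]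
    refine Finset.sum_congr rfl fun y _ => ?_
    unfold gg
    refine Finset.sum_congr rfl fun l _ => ?_
    split_ifs <;> rfl
  have h2 : ∀ j, j < n + 1 → gg (n - j) (n - j) ((range (n + 1)).erase (n - j)) =
      if dn (n + 1) j = [] then P0 (n - j) else Pm (adj (dn (n + 1) j)) (n - j) := by
    intro j hj
    have e := erase_eq (n + 1) j [] hj (by simp)
    have e1 : (([] : List ℕ).toFinset ∪ range (n + 1)) = range (n + 1) := by simp
    have e2 : n + 1 - 1 - j = n - j := by omega
    rw [e1, e2, List.nil_append] at e
    rw [e]
    refine (main_ind hs n (n - j) (dn (n + 1) j) ?_ (dn_pairwise hj) ?_).1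
    · rw [dn_length]; omega
    · intro x hx
      have := ((mem_dn hj).1 hx).1
      omega
  rw [h1, ← Finset.sum_range_reflect, Finset.sum_range_succ', add_comm]
  congr 1
  · have := h2 0 (by omega)
    simpa [dn_zero] using this
  · rw [Finset.sum_bij (fun (i : ℕ) (_ : i ∈ range n) => i + 1)]
    · intro a ha
      rw [Finset.mem_range] at ha
      rw [Finset.mem_Icc]; omega
    · intro a _ b _ h
      omega
    · intro b hb
      rw [Finset.mem_Icc] at hb
      exact ⟨b - 1, Finset.mem_range.2 (by omega), by omega⟩
    · intro a ha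
      rw [Finset.mem_range] at ha
      have h3 := h2 (a + 1) (by omega)
      have h4 : dn (n + 1) (a + 1) ≠ [] := by
        intro h
        have := dn_length (n + 1) (a + 1)
        rw [h] at this
        simp at this
      rw [if_neg h4, adj_dn (a + 1) (n + 1) (by omega)] at h3
      have e2 : n + 1 - 1 - (a + 1) = n - (a + 1) := by omega
      rw [e2]
      exact h3

end BD
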