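import Pool.Agent.MP_8b309d_co.EBase

/-!
# Row BD-E132 : recursion for Av(132)
-/

namespace BD

open Finset Polynomial

private theorem e132_mem {n : ℕ} {l : List ℕ} (h : l ∈ words (range n)) :
    l.Nodup ∧ ∀ x ∈ l, x < n := by
  rw [mem_words] at h
  refine ⟨h.1, ?_⟩
  intro x hx
  have : x ∈ l.toFinset := List.mem_toFinset.2 hx
  rw [h.2, Finset.mem_range] at this
  exact this

/-- prepending the maximum does not create 132 -/
theorem hQ132 : ∀ n l, l ∈ words (range n) → (Av p132 (n :: l) ↔ Av p132 l) := by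
  intro n l hl
  obtain ⟨h1, h2⟩ := e132_mem hl
  have h := av132_split (L := []) (R := l) (m := n) (by simp) h2 (by simpa using h1)
  rw [List.nil_append] at h
  rw [h]
  constructor
  · exact fun h => h.2.1
  · exact fun h => ⟨Av_nil _, h, by simp⟩

open Classical in
private theorem e132_AA (Q : List ℕ → Prop) (n : ℕ) :
    AA Q n = ∑ l ∈ words (range n), if Q l then (X : ℚ[X]) ^ bd l else 0 := by
  unfold AA W
  rw [Finset.sum_filter]

open Classical in
private theorem e132_MM (Q : List ℕ → Prop) (k : ℕ) :
    MM Q (k + 1) = ∑ R ∈ words (range k), if Q (k :: R) then (X : ℚ[X]) ^ bd (k :: R) else 0 := by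
  unfold MM W1
  rw [Finset.sum_filter, sum_words_cons _ ⟨0, by simp⟩]
  rw [Finset.sum_eq_single k]
  · have e : (range (k + 1)).erase k = range k := by
      rw [Finset.range_add_one, Finset.erase_insert Finset.notMem_range_self]
    rw [e]
    refine Finset.sum_congr rfl ?_
    intro R _
    simp
  · intro x _ hxk
    apply Finset.sum_eq_zero
    intro l _
    have : ¬ (x = k) := hxk
    simp [this]
  · intro h
    simp at h

/-- `A_{n+2} = M_{n+2} + A_{n+1} + X Σ_{r=1}^{n} A_{n+1-r} A_r`.
Proof: `sum_split_gt` with `F l = if Av p132 l then X^(bd l) else 0` (its hypothesis holds by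
`av132_split`).  For `l = L' ++ (n+1) :: R`, `L' = L.map (·+r)`, `R ∈ words (range r)`:
`Av p132 l ↔ Av p132 L ∧ Av p132 R`, `bd l = bd L + bd ((n+1) :: R)`.
`r = 0`: `R = []`, contribution `A_{n+1}`.  `1 ≤ r ≤ n`: `R ≠ []` starts with a letter `≤ r-1 < n`,
so the descent is big: contribution `X A_{n+1-r} A_r`.  `r = n+1`: `L = []`, contribution
`M_{n+2}`. -/
theorem rec132 (n : ℕ) :
    AA (Av p132) (n + 2) = MM (Av p132) (n + 2) + AA (Av p132) (n + 1)
      + X * ∑ r ∈ Finset.Icc 1 n, AA (Av p132) (n + 1 - r) * AA (Av p132) r := by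
  classical
  set F : List ℕ → ℚ[X] := fun l =>
    if (l.Nodup ∧ (∀ x ∈ l, x < n + 2)) ∧ Av p132 l then (X : ℚ[X]) ^ bd l else 0 with hF
  have e1 : AA (Av p132) (n + 2) = ∑ l ∈ words (range (n + 2)), F l := by
    rw [e132_AA]
    refine Finset.sum_congr rfl ?_
    intro l hl
    have := e132_mem hl
    simp only [hF, this, true_and]
    congr 1
    simp only [eq_iff_iff, iff_and_self]
    exact fun _ => this.2
  have hF0 : ∀ L R : List ℕ, (∃ x ∈ L, ∃ y ∈ R, x < y) → F (L ++ (n + 1) :: R) = 0 := by
    rintro L R ⟨x, hx, y, hy, hxy⟩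
    simp only [hF]
    rw [if_neg]
    rintro ⟨⟨h1, h2⟩, h3⟩
    have hy1 : y < n + 2 := h2 y (by simp [hy])
    have hy2 : y ≠ n + 1 := by
      intro hyn
      have h4 := (List.nodup_append.1 h1).2.1
      rw [List.nodup_cons] at h4
      exact h4.1 (hyn ▸ hy)
    have hs : [x, n + 1, y].Sublist (L ++ (n + 1) :: R) := by
      have : [x, n + 1, y] = [x] ++ [n + 1, y] := rfl
      rw [this]
      exact (List.singleton_sublist.2 hx).append
        (List.Sublist.cons_cons _ (List.singleton_sublist.2 hy))
    apply h3 x (n + 1) y hs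
    unfold p132
    omega
  set G : ℕ → ℚ[X] := fun r =>
    ∑ R ∈ words (range r), if Av p132 R then (X : ℚ[X]) ^ bd ((n + 1) :: R) else 0 with hG
  have e2 : ∀ r ∈ range (n + 2), ∑ L ∈ words (range (n + 1 - r)), ∑ R ∈ words (range r),
      F (L.map (· + r) ++ (n + 1) :: R) = AA (Av p132) (n + 1 - r) * G r := by
    intro r hr
    rw [Finset.mem_range] at hr
    rw [e132_AA, hG, Finset.sum_mul_sum]
    refine Finset.sum_congr rfl ?_
    intro L hL
    refine Finset.sum_congr rfl ?_
    intro R hR
    obtain ⟨a1, a2⟩ := e132_mem hL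
    obtain ⟨b1, b2⟩ := e132_mem hR
    have c1 : ∀ x ∈ L.map (· + r), x < n + 1 ∧ r ≤ x := by
      intro x hx
      rw [List.mem_map] at hx
      obtain ⟨z, hz, rfl⟩ := hx
      have := a2 z hz
      omega
    have c2 : ∀ y ∈ R, y < n + 1 := by
      intro y hy
      have := b2 y hy
      omega
    have c3 : (L.map (· + r)).Nodup := a1.map (fun x y h => by simpa using h)
    have c4 : (L.map (· + r) ++ R).Nodup := by
      rw [List.nodup_append]
      refine ⟨c3, b1, ?_⟩
      intro x hx y hy
      have := c1 x hx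
      have := b2 y hy
      omega
    have c5 : (L.map (· + r) ++ (n + 1) :: R).Nodup := by
      rw [List.nodup_append]
      refine ⟨c3, ?_, ?_⟩
      · rw [List.nodup_cons]
        refine ⟨?_, b1⟩
        intro hm
        have := c2 _ hm
        omega
      · intro x hx y hy
        rw [List.mem_cons] at hy
        rcases hy with rfl | hy
        · have := c1 x hx
          omega
        · have := c1 x hx
          have := b2 y hy
          omega
    have c6 : ∀ x ∈ L.map (· + r) ++ (n + 1) :: R, x < n + 2 := by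
      intro x hx
      rw [List.mem_append, List.mem_cons] at hx
      rcases hx with hx | rfl | hx
      · have := c1 x hx
        omega
      · omega
      · have := c2 x hx
        omega
    have c7 : Av p132 (L.map (· + r) ++ (n + 1) :: R) ↔ Av p132 L ∧ Av p132 R := by
      rw [av132_split (fun x hx => (c1 x hx).1) c2 c4, Av_map_add shiftInv_all.2.1]
      constructor
      · exact fun h => ⟨h.1, h.2.1⟩
      · intro h
        refine ⟨h.1, h.2, ?_⟩
        intro x hx y hy
        have := c1 x hx
        have := b2 y hy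
        omega
    have c8 : bd (L.map (· + r) ++ (n + 1) :: R) = bd L + bd ((n + 1) :: R) := by
      rw [bd_append_max _ _ _ (fun x hx => (c1 x hx).1), bd_map_add]
    simp only [hF]
    rw [c8]
    by_cases hA : Av p132 L
    · by_cases hB : Av p132 R
      · rw [if_pos ⟨⟨c5, c6⟩, c7.2 ⟨hA, hB⟩⟩, if_pos hA, if_pos hB, pow_add]
      · rw [if_neg (fun h => hB (c7.1 h.2).2), if_neg hB, mul_zero]
    · rw [if_neg (fun h => hA (c7.1 h.2).1), if_neg hA, zero_mul]
  have g0 : G 0 = 1 := by
    simp only [hG, Finset.range_zero, words_empty, Finset.sum_singleton]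
    rw [if_pos (Av_nil _)]
    simp [bd]
  have g1 : ∀ r ∈ Finset.Icc 1 n, G r = X * AA (Av p132) r := by
    intro r hr
    rw [Finset.mem_Icc] at hr
    rw [e132_AA, Finset.mul_sum]
    simp only [hG]
    refine Finset.sum_congr rfl ?_
    intro R hR
    obtain ⟨b1, b2⟩ := e132_mem hR
    have hne : R ≠ [] := by
      intro h
      rw [mem_words] at hR
      have h0 : (0 : ℕ) ∈ R.toFinset := by
        rw [hR.2, Finset.mem_range]; omega
      rw [h] at h0
      simp at h0
    have hbd : bd ((n + 1) :: R) = bd R + 1 := by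
      rw [bd_cons_max (n + 1) R (fun y hy => by have := b2 y hy; omega), if_neg]
      rintro (h | h)
      · exact hne h
      · have hm : n + 1 - 1 ∈ R := List.mem_of_mem_head? h
        have := b2 _ hm
        omega
    rw [hbd, mul_ite, mul_zero, pow_succ']
  have g2 : G (n + 1) = MM (Av p132) (n + 2) := by
    rw [e132_MM]
    simp only [hG]
    refine Finset.sum_congr rfl ?_
    intro R hR
    have := hQ132 (n + 1) R hR
    simp only [this]
  rw [e1, sum_split_gt (n + 1) F hF0, Finset.sum_congr rfl e2, Finset.sum_range_succ, g2,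
    Finset.sum_range_succ']
  have hA0 : AA (Av p132) (n + 1 - (n + 1)) = 1 := by
    rw [Nat.sub_self, AA_zero _ (Av_nil _)]
  rw [hA0, g0]
  have e3 : ∑ k ∈ range n, AA (Av p132) (n + 1 - (k + 1)) * G (k + 1) =
      X * ∑ r ∈ Finset.Icc 1 n, AA (Av p132) (n + 1 - r) * AA (Av p132) r := by
    rw [Finset.mul_sum]
    rw [← Finset.sum_image (s := range n) (g := fun k => k + 1)
      (f := fun r => AA (Av p132) (n + 1 - r) * G r) (by intro a _ b _ h; simpa using h)]
    have e4 : (range n).image (fun k => k + 1) = Finset.Icc 1 n := by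
      ext x
      simp only [Finset.mem_image, Finset.mem_range, Finset.mem_Icc]
      constructor
      · rintro ⟨a, ha, rfl⟩; omega
      · intro h; exact ⟨x - 1, by omega, by omega⟩
    rw [e4]
    refine Finset.sum_congr rfl ?_
    intro r hr
    rw [g1 r hr]
    ring
  rw [e3]
  simp only [Nat.sub_zero, mul_one, one_mul]
  ring

end BD
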