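import Pool.Agent.MP_8b309d_co.EBase

/-!
# Row BD-E231 : recursion for Av(231)
-/

namespace BD

open Finset Polynomial

private theorem e231_mem {n : ℕ} {l : List ℕ} (h : l ∈ words (range n)) :
    l.Nodup ∧ ∀ x ∈ l, x < n := by
  rw [mem_words] at h
  refine ⟨h.1, ?_⟩
  intro x hx
  have : x ∈ l.toFinset := List.mem_toFinset.2 hx
  rw [h.2, Finset.mem_range] at this
  exact this

theorem hQ231 : ∀ n l, l ∈ words (range n) → (Av p231 (n :: l) ↔ Av p231 l) := by
  intro n l hl
  obtain ⟨h1, h2⟩ := e231_mem hl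
  have h := av231_split (L := []) (R := l) (m := n) (by simp) h2 (by simpa using h1)
  rw [List.nil_append] at h
  rw [h]
  constructor
  · exact fun h => h.2.1
  · exact fun h => ⟨Av_nil _, h, by simp⟩

open Classical in
private theorem e231_AA (Q : List ℕ → Prop) (n : ℕ) :
    AA Q n = ∑ l ∈ words (range n), if Q l then (X : ℚ[X]) ^ bd l else 0 := by
  unfold AA W
  rw [Finset.sum_filter]

open Classical in
private theorem e231_MM (Q : List ℕ → Prop) (k : ℕ) :
    MM Q (k + 1) = ∑ R ∈ words (range k), if Q (k :: R) then (X : ℚ[X]) ^ bd (k :: R) else 0 := by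
  unfold MM W1
  rw [Finset.sum_filter, sum_words_cons _ ⟨0, by simp⟩]
  rw [Finset.sum_eq_single k]
  · have e : (range (k + 1)).erase k = range k := by
      rw [Finset.range_add_one, Finset.erase_insert Finset.notMem_range_self]
    rw [e]
    refine Finset.sum_congr rfl ?_
    intro R _
    simp
  · intro x _ hxk
    apply Finset.sum_eq_zero
    intro l _
    have : ¬ (x = k) := hxk
    simp [this]
  · intro h
    simp at h

/-- `A_{n+1} = Σ_{i=0}^{n} A_i M_{n+1-i}`.
Proof: `sum_split_lt` with `F l = if Av p231 l then X^(bd l) else 0`.  For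
`l = L ++ n :: R'`, `R' = R.map (·+i)`, `L ∈ words (range i)`, `R ∈ words (range (n-i))`:
`Av p231 l ↔ Av p231 L ∧ Av p231 R`, `bd l = bd L + bd (n :: R')` and
`bd (n :: R.map (·+i)) = bd ((n-i) :: R)`, the word `(n-i) :: R` being an arrangement of
`range (n-i+1)` starting with its maximum. -/
theorem rec231 (n : ℕ) :
    AA (Av p231) (n + 1) = ∑ i ∈ range (n + 1), AA (Av p231) i * MM (Av p231) (n + 1 - i) := by
  classical
  set F : List ℕ → ℚ[X] := fun l =>
    if (l.Nodup ∧ (∀ x ∈ l, x < n + 1)) ∧ Av p231 l then (X : ℚ[X]) ^ bd l else 0 with hF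
  have e1 : AA (Av p231) (n + 1) = ∑ l ∈ words (range (n + 1)), F l := by
    rw [e231_AA]
    refine Finset.sum_congr rfl ?_
    intro l hl
    have := e231_mem hl
    simp only [hF, this, true_and]
    congr 1
    simp only [eq_iff_iff, iff_and_self]
    exact fun _ => this.2
  have hF0 : ∀ L R : List ℕ, (∃ x ∈ L, ∃ y ∈ R, y < x) → F (L ++ n :: R) = 0 := by
    rintro L R ⟨x, hx, y, hy, hxy⟩
    simp only [hF]
    rw [if_neg]
    rintro ⟨⟨h1, h2⟩, h3⟩
    have hx1 : x < n + 1 := h2 x (by simp [hx])
    have hx2 : x ≠ n := (List.nodup_append.1 h1).2.2 x hx n (by simp)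
    have hs : [x, n, y].Sublist (L ++ n :: R) := by
      have : [x, n, y] = [x] ++ [n, y] := rfl
      rw [this]
      exact (List.singleton_sublist.2 hx).append
        (List.Sublist.cons_cons _ (List.singleton_sublist.2 hy))
    apply h3 x n y hs
    unfold p231
    omega
  rw [e1, sum_split_lt n F hF0]
  refine Finset.sum_congr rfl ?_
  intro i hi
  rw [Finset.mem_range] at hi
  obtain ⟨k, rfl⟩ : ∃ k, n = i + k := ⟨n - i, by omega⟩
  have f1 : i + k + 1 - i = k + 1 := by omega
  have f2 : i + k - i = k := by omega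
  rw [f1, f2, e231_AA, e231_MM, Finset.sum_mul_sum]
  refine Finset.sum_congr rfl ?_
  intro L hL
  refine Finset.sum_congr rfl ?_
  intro R hR
  obtain ⟨a1, a2⟩ := e231_mem hL
  obtain ⟨b1, b2⟩ := e231_mem hR
  have c1 : ∀ y ∈ R.map (· + i), y < i + k ∧ i ≤ y := by
    intro y hy
    rw [List.mem_map] at hy
    obtain ⟨z, hz, rfl⟩ := hy
    have := b2 z hz
    omega
  have c2 : ∀ x ∈ L, x < i + k := by
    intro x hx
    have := a2 x hx
    omega
  have c3 : (R.map (· + i)).Nodup := b1.map (fun x y h => by simpa using h)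
  have c4 : (L ++ R.map (· + i)).Nodup := by
    rw [List.nodup_append]
    refine ⟨a1, c3, ?_⟩
    intro x hx y hy
    have := c1 y hy
    have := a2 x hx
    omega
  have c5 : (L ++ (i + k) :: R.map (· + i)).Nodup := by
    rw [List.nodup_append]
    refine ⟨a1, ?_, ?_⟩
    · rw [List.nodup_cons]
      refine ⟨?_, c3⟩
      intro hm
      have := c1 _ hm
      omega
    · intro x hx y hy
      rw [List.mem_cons] at hy
      rcases hy with rfl | hy
      · have := a2 x hx
        omega
      · have := c1 y hy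
        have := a2 x hx
        omega
  have c6 : ∀ x ∈ L ++ (i + k) :: R.map (· + i), x < i + k + 1 := by
    intro x hx
    rw [List.mem_append, List.mem_cons] at hx
    rcases hx with hx | rfl | hx
    · have := c2 x hx
      omega
    · omega
    · have := c1 x hx
      omega
  have c7 : Av p231 (L ++ (i + k) :: R.map (· + i)) ↔ Av p231 L ∧ Av p231 R := by
    rw [av231_split c2 (fun x hx => (c1 x hx).1) c4, Av_map_add shiftInv_all.2.2.2.1]
    constructor
    · exact fun h => ⟨h.1, h.2.1⟩
    · intro h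
      refine ⟨h.1, h.2, ?_⟩
      intro x hx y hy
      have := c1 y hy
      have := a2 x hx
      omega
  have c8 : bd (L ++ (i + k) :: R.map (· + i)) = bd L + bd (k :: R) := by
    rw [bd_append_max _ _ _ c2]
    have : (i + k) :: R.map (· + i) = (k :: R).map (· + i) := by
      simp [Nat.add_comm]
    rw [this, bd_map_add]
  simp only [hF]
  rw [c8]
  have hQ := hQ231 k R hR
  by_cases hA : Av p231 L
  · by_cases hB : Av p231 R
    · rw [if_pos ⟨⟨c5, c6⟩, c7.2 ⟨hA, hB⟩⟩, if_pos hA, if_pos (hQ.2 hB), pow_add]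
    · rw [if_neg (fun h => hB (c7.1 h.2).2), if_neg (fun h => hB (hQ.1 h)), mul_zero]
  · rw [if_neg (fun h => hA (c7.1 h.2).1), if_neg hA, zero_mul]

end BD
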