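import Pool.Agent.MP_8b309d_co.ESys

/-!
# Row BD-E321 : the words avoiding 321
-/

namespace BD

open Finset Polynomial

/-! ### avoidance -/

theorem e321_av_gt {m y : ℕ} {l : List ℕ} (h : m < y) :
    Av p321 (m :: y :: l) ↔ Av p321 (y :: l) := by
  constructor
  · intro H
    exact Av_of_sublist (List.sublist_cons_self _ _) H
  · intro H a b c hs hp
    obtain ⟨hcb, hba⟩ := hp
    rcases List.cons_sublist_cons'.1 hs with hs1 | ⟨ha, hs1⟩
    · exact H a b c hs1 ⟨hcb, hba⟩
    · rcases List.cons_sublist_cons'.1 hs1 with hs2 | ⟨hb, hs2⟩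
      · exact H y b c (hs2.cons_cons y) ⟨hcb, by omega⟩
      · omega

theorem e321_av_lt {m y : ℕ} {l : List ℕ} (h : y < m) :
    Av p321 (m :: y :: l) ↔ (∀ z ∈ l, y ≤ z) ∧ Av p321 (m :: l) := by
  constructor
  · intro H
    refine ⟨fun z hz => ?_, Av_of_sublist ?_ H⟩
    · by_contra hlt
      push Not at hlt
      exact H m y z (((List.singleton_sublist.2 hz).cons_cons y).cons_cons m) ⟨hlt, h⟩
    · exact (List.sublist_cons_self _ _).cons_cons m
  · rintro ⟨h1, h2⟩ a b c hs ⟨hcb, hba⟩
    rcases List.cons_sublist_cons'.1 hs with hs1 | ⟨ha, hs1⟩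
    · rcases List.cons_sublist_cons'.1 hs1 with hs2 | ⟨ha, hs2⟩
      · exact h2 a b c (hs2.cons m) ⟨hcb, hba⟩
      · have hb : b ∈ l := hs2.subset List.mem_cons_self
        have := h1 b hb
        omega
    · rcases List.cons_sublist_cons'.1 hs1 with hs2 | ⟨hb, hs2⟩
      · refine h2 m b c (hs2.cons_cons m) ⟨hcb, by omega⟩
      · have hc : c ∈ l := hs2.subset List.mem_cons_self
        have := h1 c hc
        omega

theorem e321_mem_words_mem {U : Finset ℕ} {l : List ℕ} (h : l ∈ words U) (z : ℕ) :
    z ∈ l ↔ z ∈ U := by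
  rw [← (mem_words.1 h).2, List.mem_toFinset]

/-! ### the sums `G` -/

open Classical in
/-- sum over the arrangements of `U` with current maximum `m` and last letter `c` -/
noncomputable def Gs321 (m c : ℕ) (U : Finset ℕ) : ℚ[X] :=
  ∑ l ∈ words U, if Av p321 (m :: l) then X ^ (bd (c :: l)) else 0

open Classical in
theorem Gs321_expand (m c : ℕ) (U : Finset ℕ) (hU : U.Nonempty) (hm : m ∉ U) :
    Gs321 m c U = ∑ y ∈ U, (X ^ (if y + 1 < c then 1 else 0) *
      (if m < y then Gs321 y y (U.erase y)
       else if (∀ z ∈ U.erase y, y ≤ z) then Gs321 m y (U.erase y) else 0)) := by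
  unfold Gs321
  rw [sum_words_cons U hU]
  refine Finset.sum_congr rfl fun y hy => ?_
  by_cases h1 : m < y
  · rw [if_pos h1, Finset.mul_sum]
    refine Finset.sum_congr rfl fun l hl => ?_
    have hb : bd (c :: y :: l) = (if y + 1 < c then 1 else 0) + bd (y :: l) := rfl
    rw [hb, pow_add, mul_ite, mul_zero]
    exact if_congr (e321_av_gt h1) rfl rfl
  · have hym : y < m := by
      rcases Nat.lt_trichotomy y m with h | h | h
      · exact h
      · exact absurd (h ▸ hy) hm
      · exact absurd h h1
    rw [if_neg h1]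
    by_cases h2 : ∀ z ∈ U.erase y, y ≤ z
    · rw [if_pos h2, Finset.mul_sum]
      refine Finset.sum_congr rfl fun l hl => ?_
      have hb : bd (c :: y :: l) = (if y + 1 < c then 1 else 0) + bd (y :: l) := rfl
      rw [hb, pow_add, mul_ite, mul_zero]
      refine if_congr ?_ rfl rfl
      rw [e321_av_lt hym]
      exact ⟨fun h => h.2, fun h => ⟨fun z hz => h2 z ((e321_mem_words_mem hl z).1 hz), h⟩⟩
    · rw [if_neg h2, mul_zero]
      refine Finset.sum_eq_zero fun l hl => ?_
      rw [if_neg]
      rw [e321_av_lt hym]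
      rintro ⟨h3, -⟩
      exact h2 fun z hz => h3 z ((e321_mem_words_mem hl z).2 hz)

/-- the state with unused letters `V` below `m` and `h` unused letters above -/
noncomputable def St321 (m c : ℕ) (V : Finset ℕ) (h : ℕ) : ℚ[X] :=
  Gs321 m c (V ∪ Ico (m + 1) (m + 1 + h))

/-- the part of the expansion where the next letter is larger than the maximum -/
noncomputable def Up321 (m : ℕ) (V : Finset ℕ) (h : ℕ) : ℚ[X] :=
  ∑ j ∈ range h, St321 (m + 1 + j) (m + 1 + j) (V ∪ Ico (m + 1) (m + 1 + j)) (h - 1 - j)

open Classical in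
theorem St321_expand (m c : ℕ) (V : Finset ℕ) (h : ℕ) (hV : V ⊆ range m) (hc : c ≤ m)
    (hne : 0 < V.card + h) :
    St321 m c V h = (∑ y ∈ V, (X ^ (if y + 1 < c then 1 else 0) *
      (if (∀ z ∈ V, y ≤ z) then St321 m y (V.erase y) h else 0))) + Up321 m V h := by
  have hVm : ∀ y ∈ V, y < m := fun y hy => Finset.mem_range.1 (hV hy)
  have hU : (V ∪ Ico (m + 1) (m + 1 + h)).Nonempty := by
    rcases Finset.eq_empty_or_nonempty V with hV0 | hV1
    · subst hV0
      refine ⟨m + 1, ?_⟩
      simp only [Finset.card_empty, zero_add] at hne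
      simp only [Finset.mem_union, Finset.mem_Ico]
      right; omega
    · obtain ⟨y, hy⟩ := hV1
      exact ⟨y, Finset.mem_union_left _ hy⟩
  have hm : m ∉ V ∪ Ico (m + 1) (m + 1 + h) := by
    simp only [Finset.mem_union, Finset.mem_Ico, not_or]
    exact ⟨fun hmV => lt_irrefl _ (hVm m hmV), by omega⟩
  have hdisj : Disjoint V (Ico (m + 1) (m + 1 + h)) := by
    rw [Finset.disjoint_left]
    intro y hy hy2
    have := hVm y hy
    rw [Finset.mem_Ico] at hy2
    omega
  unfold St321
  rw [Gs321_expand m c _ hU hm, Finset.sum_union hdisj]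
  congr 1
  · refine Finset.sum_congr rfl fun y hy => ?_
    have hym := hVm y hy
    rw [if_neg (by omega : ¬ m < y)]
    have he : (V ∪ Ico (m + 1) (m + 1 + h)).erase y = V.erase y ∪ Ico (m + 1) (m + 1 + h) := by
      ext z
      simp only [Finset.mem_erase, Finset.mem_union, Finset.mem_Ico]
      constructor
      · rintro ⟨h1, h2 | h2⟩
        · exact Or.inl ⟨h1, h2⟩
        · exact Or.inr h2
      · rintro (⟨h1, h2⟩ | h2)
        · exact ⟨h1, Or.inl h2⟩
        · exact ⟨by omega, Or.inr h2⟩
    rw [he]
    congr 1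
    refine if_congr ?_ rfl rfl
    constructor
    · intro h1 z hz
      by_cases hzy : z = y
      · exact hzy.ge
      · exact h1 z (Finset.mem_union_left _ (Finset.mem_erase.2 ⟨hzy, hz⟩))
    · intro h1 z hz
      rcases Finset.mem_union.1 hz with hz | hz
      · exact h1 z (Finset.mem_of_mem_erase hz)
      · rw [Finset.mem_Ico] at hz
        omega
  · unfold Up321 St321
    rw [Finset.sum_Ico_eq_sum_range, Nat.add_sub_cancel_left]
    refine Finset.sum_congr rfl fun j hj => ?_
    rw [Finset.mem_range] at hj
    rw [if_neg (by omega : ¬ (m + 1 + j + 1 < c)), pow_zero, one_mul,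
      if_pos (by omega : m < m + 1 + j)]
    congr 1
    ext z
    simp only [Finset.mem_erase, Finset.mem_union, Finset.mem_Ico]
    constructor
    · rintro ⟨h1, h2 | h2⟩
      · exact Or.inl (Or.inl h2)
      · by_cases hz : z < m + 1 + j
        · exact Or.inl (Or.inr ⟨h2.1, hz⟩)
        · exact Or.inr ⟨by omega, by omega⟩
    · rintro ((h2 | h2) | h2)
      · have := hVm z h2
        exact ⟨by omega, Or.inl h2⟩
      · exact ⟨by omega, Or.inr ⟨h2.1, by omega⟩⟩
      · exact ⟨by omega, Or.inr ⟨by omega, by omega⟩⟩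

open Classical in
/-- only the smallest letter of `V` can be taken -/
theorem St321_lower (m c : ℕ) (V : Finset ℕ) (h : ℕ) (hV : V.Nonempty) :
    (∑ y ∈ V, (X ^ (if y + 1 < c then 1 else 0) *
      (if (∀ z ∈ V, y ≤ z) then St321 m y (V.erase y) h else 0)))
      = X ^ (if V.min' hV + 1 < c then 1 else 0) *
        St321 m (V.min' hV) (V.erase (V.min' hV)) h := by
  rw [Finset.sum_eq_single_of_mem (V.min' hV) (V.min'_mem hV)]
  · rw [if_pos (fun z hz => V.min'_le z hz)]
  · intro y hy hne
    have hcond : ¬ (∀ z ∈ V, y ≤ z) := by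
      intro h1
      apply hne
      exact le_antisymm (h1 _ (V.min'_mem hV)) (V.min'_le y hy)
    rw [if_neg hcond, mul_zero]

theorem e321_card_union (m j : ℕ) (V : Finset ℕ) (hV : V ⊆ range m) :
    (V ∪ Ico (m + 1) (m + 1 + j)).card = V.card + j := by
  rw [Finset.card_union_of_disjoint, Nat.card_Ico, Nat.add_sub_cancel_left]
  rw [Finset.disjoint_left]
  intro y hy hy2
  have := Finset.mem_range.1 (hV hy)
  rw [Finset.mem_Ico] at hy2
  omega

theorem St321_main (Dn Mx : ℕ → ℕ → ℚ[X]) (Sm : ℕ → ℚ[X]) (hs : Sys321 Dn Mx Sm) :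
    ∀ N m : ℕ, ∀ V : Finset ℕ, ∀ h : ℕ, V.card + h = N → V ⊆ range m →
      (∀ c, c ≤ m → (∀ y ∈ V, c < y) → St321 m c V h = Dn V.card h) ∧
      (V.Nonempty → V ≠ {m - 1} → St321 m m V h = Mx V.card h) ∧
      (V.Nonempty → V = {m - 1} → St321 m m V h = Sm h) := by
  intro N
  induction N using Nat.strong_induction_on with
  | _ N ih =>
  intro m V h hN hV
  have hVm : ∀ y ∈ V, y < m := fun y hy => Finset.mem_range.1 (hV hy)
  -- the new letters above the maximum
  have hsub : ∀ j, (V ∪ Ico (m + 1) (m + 1 + j)) ⊆ range (m + 1 + j) := by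
    intro j y hy
    rw [Finset.mem_range]
    rcases Finset.mem_union.1 hy with hy | hy
    · have := hVm y hy
      omega
    · exact (Finset.mem_Ico.1 hy).2
  have hUp : V.Nonempty →
      Up321 m V h = ∑ j ∈ range h, Mx (V.card + j) (h - 1 - j) := by
    intro hne
    unfold Up321
    refine Finset.sum_congr rfl fun j hj => ?_
    rw [Finset.mem_range] at hj
    have hcard := e321_card_union m j V hV
    have := (ih (V.card + j + (h - 1 - j)) (by omega) (m + 1 + j)
      (V ∪ Ico (m + 1) (m + 1 + j)) (h - 1 - j) (by rw [hcard]) (hsub j)).2.1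
      (hne.mono Finset.subset_union_left) (by
        intro he
        obtain ⟨y, hy⟩ := hne
        have h1 : y ∈ ({m + 1 + j - 1} : Finset ℕ) := he ▸ Finset.mem_union_left _ hy
        rw [Finset.mem_singleton] at h1
        have := hVm y hy
        omega)
    rw [this, hcard]
  have hUp0 : V = ∅ → ∀ h', h = h' + 1 → Up321 m V h = Dn 0 (h' + 1) := by
    intro hV0 h' hh
    subst hV0
    subst hh
    rw [hs.d0 h']
    unfold Up321
    have hst : ∀ j, j < h' + 1 → St321 (m + 1 + j) (m + 1 + j)
        (∅ ∪ Ico (m + 1) (m + 1 + j)) (h' + 1 - 1 - j)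
        = if j = 0 then Dn 0 h' else if j = 1 then Sm (h' - 1) else Mx j (h' - j) := by
      intro j hj
      have hcard := e321_card_union m j ∅ (Finset.empty_subset _)
      rw [Finset.card_empty, zero_add] at hcard
      have key := ih (j + (h' + 1 - 1 - j)) (by rw [← hN, Finset.card_empty]; omega) (m + 1 + j)
        (∅ ∪ Ico (m + 1) (m + 1 + j)) (h' + 1 - 1 - j) (by rw [hcard]) (hsub j)
      rcases Nat.eq_zero_or_pos j with hj0 | hj0
      · subst hj0
        rw [if_pos rfl]
        have := key.1 (m + 1 + 0) le_rfl (by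
          intro y hy
          rw [Finset.empty_union, add_zero, Finset.Ico_self] at hy
          exact absurd hy (Finset.notMem_empty _))
        rw [this, hcard]
        simp
      · rw [if_neg (by omega : ¬ j = 0)]
        have hne : (∅ ∪ Ico (m + 1) (m + 1 + j)).Nonempty := by
          rw [← Finset.card_pos, hcard]
          exact hj0
        by_cases hj1 : j = 1
        · subst hj1
          rw [if_pos rfl]
          rw [key.2.2 hne (by
            ext z
            simp only [Finset.mem_union, Finset.notMem_empty, false_or, Finset.mem_Ico,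
              Finset.mem_singleton]
            omega)]
          rfl
        · rw [if_neg hj1]
          rw [key.2.1 hne (by
            intro he
            have := congrArg Finset.card he
            rw [hcard, Finset.card_singleton] at this
            exact hj1 this), hcard]
          rfl
    rw [Finset.sum_congr rfl fun j hj => hst j (Finset.mem_range.1 hj)]
    rw [Finset.sum_range_succ']
    simp only [Nat.succ_ne_zero, if_false, if_true]
    rcases h' with _ | k
    · simp
    · rw [Finset.sum_range_succ']
      have hIcc : ∑ j ∈ Finset.Icc 2 (k + 1), Mx j (k + 1 - j)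
          = ∑ i ∈ range k, Mx (i + 1 + 1) (k + 1 - (i + 1 + 1)) := by
        rw [← Finset.Ico_add_one_right_eq_Icc, Finset.sum_Ico_eq_sum_range]
        refine Finset.sum_congr (by congr 1) fun i hi => ?_
        rw [show 2 + i = i + 1 + 1 by omega]
      rw [hIcc]
      simp only [zero_add, if_true, Nat.succ_ne_zero, if_false, Nat.add_sub_cancel]
      have hsum : ∑ x ∈ range k, (if x + 1 + 1 = 1 then Sm k else Mx (x + 1 + 1) (k + 1 - (x + 1 + 1)))
          = ∑ i ∈ range k, Mx (i + 1 + 1) (k + 1 - (i + 1 + 1)) := by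
        refine Finset.sum_congr rfl fun i hi => ?_
        rw [if_neg (by omega)]
      rw [hsum]
      ring
  rcases Finset.eq_empty_or_nonempty V with hV0 | hne
  · -- V empty
    refine ⟨fun c hc _ => ?_, fun h1 => ?_, fun h1 => ?_⟩
    · rcases h with _ | h'
      · rw [hV0, Finset.card_empty, hs.d00]
        unfold St321 Gs321
        rw [Finset.empty_union, add_zero, Finset.Ico_self, words_empty, Finset.sum_singleton,
          if_pos (Av_singleton _ _)]
        rfl
      · rw [St321_expand m c V (h' + 1) hV hc (by omega), hUp0 hV0 h' rfl, hV0,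
          Finset.sum_empty, zero_add, Finset.card_empty]
    · exact absurd hV0 h1.ne_empty
    · exact absurd hV0 h1.ne_empty
  · -- V nonempty
    have hcpos : 0 < V.card := Finset.card_pos.2 hne
    obtain ⟨g, hg⟩ : ∃ g, V.card = g + 1 := ⟨V.card - 1, by omega⟩
    have hmin := V.min'_mem hne
    have hcard : (V.erase (V.min' hne)).card = g := by
      rw [Finset.card_erase_of_mem hmin, hg]
      rfl
    have hlow : St321 m (V.min' hne) (V.erase (V.min' hne)) h = Dn g h := by
      have := (ih (g + h) (by omega) m (V.erase (V.min' hne)) h (by rw [hcard])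
        ((Finset.erase_subset _ _).trans hV)).1 (V.min' hne) (hVm _ hmin).le (by
          intro y hy
          exact Finset.min'_lt_of_mem_erase_min' V hne hy)
      rw [this, hcard]
    refine ⟨fun c hc hcV => ?_, fun _ hnm => ?_, fun _ hem => ?_⟩
    · rw [St321_expand m c V h hV hc (by omega), St321_lower m c V h hne, hlow, hUp hne, hg,
        hs.dg g h, if_neg, pow_zero, one_mul]
      have := hcV _ hmin
      omega
    · rw [St321_expand m m V h hV le_rfl (by omega), St321_lower m m V h hne, hlow, hUp hne, hg,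
        hs.mg g h, if_pos, pow_one]
      by_contra hlt
      apply hnm
      have hmm := hVm _ hmin
      ext z
      rw [Finset.mem_singleton]
      constructor
      · intro hz
        have h1 := V.min'_le z hz
        have h2 := hVm z hz
        omega
      · intro hz
        have : z = V.min' hne := by omega
        rw [this]
        exact hmin
    · have hmine : V.min' hne = m - 1 := by
        have : V.min' hne ∈ ({m - 1} : Finset ℕ) := hem ▸ hmin
        exact Finset.mem_singleton.1 this
      have hg0 : g = 0 := by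
        have := congrArg Finset.card hem
        rw [hg, Finset.card_singleton] at this
        omega
      rw [St321_expand m m V h hV le_rfl (by omega), St321_lower m m V h hne, hlow, hUp hne, hg,
        hs.sm h, if_neg, pow_zero, one_mul, hg0]
      rw [hmine]
      omega

/-- Main combinatorial statement for Av(321).

Proof.  Put `G m c U = Σ X^(bd (c :: l))`, sum over the arrangements `l` of `U` with
`Av p321 (m :: l)` (`m` = current maximum, `c` = last letter).  Claim, by induction on
`U.card`: let `U = V ∪ Ico (m+1) (m+1+h)` with `V ⊆ range m`, `V.card = g`.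
(D) if `c ≤ m` and `c < y` for all `y ∈ V`, then `G m c U = Dn g h`
    (in particular for `c = m`, `V = ∅`);
(M) if `c = m`, `g ≥ 1` and `V ≠ {m-1}`, then `G m m U = Mx g h`;
(S) if `m ≥ 1`, `V = {m-1}`, then `G m m U = Sm h`.
Expand by the first letter `y` of `l = y :: l'` (`sum_words_cons`).
* `y > m`, `y = m+1+j` (`j < h`): `Av p321 (m :: y :: l') ↔ Av p321 (y :: l')` (if `m > b > c`
  with `b,c` in `l'` then also `y > b > c`); `c ≤ m < y` gives no descent; new state: maximum `y`,
  last letter `y`, `V' = V ∪ Ico (m+1) y` of size `g + j`, `h-1-j` letters above.  If `g + j = 0`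
  it is state (D) `Dn 0 (h-1)`; if `g = 0, j = 1` then `V' = {y-1}`: state (S); otherwise
  (`V' ≠ {y-1}`) state (M) `Mx (g+j) (h-1-j)`.
* `y < m` (so `y ∈ V`): `Av p321 (m :: y :: l')` iff `y` is smaller than all letters of `l'`
  that is `y = min V` (otherwise a later `z < y` gives `m > y > z`) and `Av p321 (m :: l')`.
  New state: (D) with last letter `y`, `V.erase y`, so `Dn (g-1) h`.  The descent `c → y`:
  in state (D) `c < y` no descent; in state (M) `c = m`, `y + 1 < m` (else `V = {m-1}`) big
  descent: factor `X`; in state (S) `y = m-1` no big descent.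
These are exactly the equations of `Sys321` (`U = ∅`: `G = 1 = Dn 0 0`).
Finally the words of `range n`: translate by one (`sum_words_map`, `bd_map_add`,
`Av_map_add`): arrangements `l` of `Ico 1 (n+1)`; `Av p321 (0 :: l) ↔ Av p321 l` and
`bd (0 :: l) = bd l`; this is (D) with `m = c = 0`, `V = ∅`, `h = n`. -/
theorem E321_main (Dn Mx : ℕ → ℕ → ℚ[X]) (Sm : ℕ → ℚ[X]) (hs : Sys321 Dn Mx Sm) (n : ℕ) :
    AA (Av p321) n = Dn 0 n := by
  classical
  have h1 : St321 0 0 ∅ n = Dn 0 n := by
    have := (St321_main Dn Mx Sm hs n 0 ∅ n (by simp) (Finset.empty_subset _)).1 0 le_rfl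
      (by intro y hy; exact absurd hy (Finset.notMem_empty _))
    rw [this, Finset.card_empty]
  rw [← h1]
  unfold St321 Gs321 AA W
  have hmap : (∅ ∪ Ico (0 + 1) (0 + 1 + n) : Finset ℕ) = (range n).map (addRightEmbedding 1) := by
    ext z
    simp only [Finset.mem_union, Finset.notMem_empty, false_or, Finset.mem_Ico, Finset.mem_map,
      Finset.mem_range, addRightEmbedding_apply]
    constructor
    · intro hz
      exact ⟨z - 1, by omega, by omega⟩
    · rintro ⟨a, ha, rfl⟩
      omega
  rw [hmap, sum_words_map, Finset.sum_filter]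
  refine Finset.sum_congr rfl fun l hl => ?_
  have hm : List.map (⇑(addRightEmbedding 1 : ℕ ↪ ℕ)) l = l.map (· + 1) := rfl
  rw [hm]
  have hbd : bd (0 :: l.map (· + 1)) = bd l := by
    have h2 : ∀ l' : List ℕ, bd (0 :: l') = bd l' := by
      intro l'
      rcases l' with _ | ⟨y, l'⟩
      · rfl
      · have : bd (0 :: y :: l') = (if y + 1 < 0 then 1 else 0) + bd (y :: l') := rfl
        rw [this, if_neg (by omega), zero_add]
    rw [h2, bd_map_add]
  have hav : Av p321 (0 :: l.map (· + 1)) ↔ Av p321 l := by
    rw [← Av_map_add shiftInv_all.2.2.2.2.2 1 l]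
    constructor
    · intro H
      exact Av_of_sublist (List.sublist_cons_self _ _) H
    · intro H a b c hs' hp
      rcases List.cons_sublist_cons'.1 hs' with hs1 | ⟨ha, hs1⟩
      · exact H a b c hs1 hp
      · have := hp.2
        omega
  rw [hbd]
  exact (if_congr hav rfl rfl).symm

end BD
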