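import Pool.Agent.MP_8b309d_co.EDefs

/-!
# Row BD-EBASE : first facts on `AA`, `MM`
-/

namespace BD

open Finset Polynomial

open Classical in
theorem ebase_W_eq (Q : List ℕ → Prop) (U : Finset ℕ) :
    W Q U = ∑ l ∈ words U, if Q l then (X : ℚ[X]) ^ bd l else 0 := by
  unfold W
  rw [Finset.sum_filter]

open Classical in
theorem ebase_W1_eq (Q : List ℕ → Prop) (m : ℕ) (U : Finset ℕ) :
    W1 Q m U = ∑ l ∈ words U, if Q l ∧ l.head? = some m then (X : ℚ[X]) ^ bd l else 0 := by
  unfold W1
  rw [Finset.sum_filter]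

theorem ebase_words_one : words (range 1) = {[0]} := by
  ext l
  rw [mem_words, Finset.mem_singleton]
  constructor
  · rintro ⟨h1, h2⟩
    have h3 := List.toFinset_card_of_nodup h1
    rw [h2, Finset.card_range] at h3
    obtain ⟨a, rfl⟩ := List.length_eq_one_iff.1 h3.symm
    have h4 : a ∈ [a].toFinset := by simp
    rw [h2, Finset.mem_range] at h4
    have : a = 0 := by omega
    rw [this]
  · rintro rfl
    simp

/-- the coefficients of `AA Q n` count words -/
theorem AA_coeff (Q : List ℕ → Prop) (n k : ℕ) : (AA Q n).coeff k = (cnt Q n k : ℚ) := by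
  classical
  unfold AA W cnt
  rw [Polynomial.finsetSum_coeff]
  simp only [Polynomial.coeff_X_pow]
  rw [← Finset.filter_filter, Finset.card_filter]
  push_cast
  refine Finset.sum_congr ?_ fun l _ => ?_
  · congr
  · simp only [eq_comm]

theorem AA_zero (Q : List ℕ → Prop) (h : Q []) : AA Q 0 = 1 := by
  unfold AA
  rw [ebase_W_eq, Finset.range_zero, words_empty, Finset.sum_singleton, if_pos h, bd, pow_zero]

theorem AA_one (Q : List ℕ → Prop) (h : Q [0]) : AA Q 1 = 1 := by
  unfold AA
  rw [ebase_W_eq, ebase_words_one, Finset.sum_singleton, if_pos h, bd, pow_zero]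

theorem MM_one (Q : List ℕ → Prop) (h : Q [0]) : MM Q 1 = 1 := by
  unfold MM
  rw [ebase_W1_eq, ebase_words_one, Finset.sum_singleton, if_pos ⟨h, rfl⟩, bd, pow_zero]

open Classical in
/-- the words starting with their maximum -/
theorem ebase_MM_eq (Q : List ℕ → Prop) (n : ℕ) :
    MM Q (n + 1) = ∑ R ∈ words (range n), if Q (n :: R) then (X : ℚ[X]) ^ bd (n :: R) else 0 := by
  unfold MM
  rw [ebase_W1_eq, sum_words_cons (range (n + 1)) (by simp)]
  rw [Finset.sum_eq_single n]
  · have h1 : (range (n + 1)).erase n = range n := by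
      ext x
      simp only [Finset.mem_erase, Finset.mem_range]
      omega
    rw [h1]
    refine Finset.sum_congr rfl fun R _ => ?_
    simp
  · intro x _ hx
    refine Finset.sum_eq_zero fun R _ => ?_
    rw [if_neg]
    rintro ⟨-, h⟩
    simp only [List.head?_cons, Nat.add_sub_cancel, Option.some.injEq] at h
    exact hx h
  · intro h
    exact absurd (Finset.mem_range.2 (Nat.lt_succ_self n)) h

/-- If prepending the maximum does not change the property, then
`M_{n+2} = M_{n+1} + X (A_{n+1} - M_{n+1})`.
Proof: the words of `range (n+2)` with first letter `n+1` are `(n+1) :: R` with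
`R ∈ words (range (n+1))`; use `bd_cons_max`: a new big descent unless `R` starts with `n`. -/
theorem MM_rec (Q : List ℕ → Prop)
    (hQ : ∀ n l, l ∈ words (range n) → (Q (n :: l) ↔ Q l)) (n : ℕ) :
    MM Q (n + 2) = MM Q (n + 1) + X * (AA Q (n + 1) - MM Q (n + 1)) := by
  classical
  rw [ebase_MM_eq Q (n + 1)]
  unfold AA
  unfold MM
  rw [ebase_W1_eq, ebase_W_eq, ← Finset.sum_sub_distrib, Finset.mul_sum, ← Finset.sum_add_distrib]
  refine Finset.sum_congr rfl fun R hR => ?_
  have hRm := mem_words.1 hR
  have hlt : ∀ y ∈ R, y < n + 1 := by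
    intro y hy
    have : y ∈ R.toFinset := List.mem_toFinset.2 hy
    rw [hRm.2, Finset.mem_range] at this
    exact this
  have hne : R ≠ [] := by
    rintro rfl
    have := congrArg Finset.card hRm.2
    simp at this
  rw [bd_cons_max (n + 1) R hlt]
  by_cases h1 : Q R
  · have h2 : Q ((n + 1) :: R) := (hQ (n + 1) R hR).2 h1
    rw [if_pos h2, if_pos h1, Nat.add_sub_cancel]
    by_cases h3 : R.head? = some n
    · rw [if_pos (Or.inr h3), if_pos ⟨h1, h3⟩]
      ring
    · rw [if_neg (by simpa [hne] using h3), if_neg (fun h => h3 h.2), pow_succ]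
      ring
  · have h2 : ¬ Q ((n + 1) :: R) := fun h => h1 ((hQ (n + 1) R hR).1 h)
    rw [if_neg h2, if_neg h1, if_neg (fun h => h1 h.1)]
    ring

/-- sequences with at most one big descent are trivially log-concave -/
theorem LC_of_bd_le_one (Q : List ℕ → Prop)
    (h : ∀ n l, l ∈ words (range n) → Q l → bd l ≤ 1) : LC Q := by
  classical
  intro n k hk
  have h0 : cnt Q n (k + 1) = 0 := by
    unfold cnt
    rw [Finset.card_eq_zero, Finset.filter_eq_empty_iff]
    rintro l hl ⟨h1, h2⟩
    have := h n l hl h1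
    omega
  rw [h0, mul_zero]
  exact Nat.zero_le _

/-- `LC` only depends on the property on the words of `range n` -/
theorem LC_congr (Q Q' : List ℕ → Prop)
    (h : ∀ n l, l ∈ words (range n) → (Q l ↔ Q' l)) (hQ : LC Q) : LC Q' := by
  classical
  have h1 : ∀ n k, cnt Q' n k = cnt Q n k := by
    intro n k
    unfold cnt
    congr 1
    refine Finset.filter_congr fun l hl => ?_
    rw [h n l hl]
  intro n k hk
  rw [h1, h1, h1]
  exact hQ n k hk

end BD
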