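import Pool.Agent.MP_8b309d_co.Split

/-!
# Common notions for the enumeration rows

`AA Q n` : generating polynomial of the arrangements of `{0,…,n-1}` with property `Q`
`MM Q n` : the same for those starting with their maximum `n-1`
-/

namespace BD

open Finset Polynomial

noncomputable def AA (Q : List ℕ → Prop) (n : ℕ) : ℚ[X] := W Q (range n)

noncomputable def MM (Q : List ℕ → Prop) (n : ℕ) : ℚ[X] := W1 Q (n - 1) (range n)

end BD
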