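import Pool.Agent.MP_8b309d_co.EBase

/-!
# Row BD-EP1 : Av(132,231) and Av(132,312)
-/

namespace BD

open Finset Polynomial

def Q132_231 : List ℕ → Prop := fun l => Av p132 l ∧ Av p231 l
def Q132_312 : List ℕ → Prop := fun l => Av p132 l ∧ Av p312 l

theorem ep1_lt {n : ℕ} {l : List ℕ} (h : l ∈ words (range n)) {x : ℕ} (hx : x ∈ l) : x < n := by
  have h1 := (mem_words.1 h).2
  have h2 : x ∈ l.toFinset := List.mem_toFinset.2 hx
  rw [h1, Finset.mem_range] at h2
  exact h2

theorem ep1_ne_nil {n : ℕ} {l : List ℕ} (h : l ∈ words (range (n + 1))) : l ≠ [] := by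
  rintro rfl
  have := congrArg Finset.card (mem_words.1 h).2
  simp at this

theorem ep1_nodup {n r : ℕ} (_hr : r ≤ n) {L R : List ℕ} (hL : L ∈ words (range (n - r)))
    (hR : R ∈ words (range r)) : (L.map (· + r) ++ R).Nodup := by
  rw [List.nodup_append]
  refine ⟨(mem_words.1 hL).1.map (add_left_injective r), (mem_words.1 hR).1, ?_⟩
  intro a ha b hb
  rw [List.mem_map] at ha
  obtain ⟨x, -, rfl⟩ := ha
  have := ep1_lt hR hb
  omega

theorem ep1_mem {n r : ℕ} (hr : r ≤ n) {L R : List ℕ} (hL : L ∈ words (range (n - r)))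
    (hR : R ∈ words (range r)) : L.map (· + r) ++ n :: R ∈ words (range (n + 1)) := by
  have h1 := ep1_nodup hr hL hR
  rw [mem_words]
  constructor
  · have h2 : (L.map (· + r) ++ n :: R).Perm (n :: (L.map (· + r) ++ R)) := List.perm_middle
    rw [h2.nodup_iff, List.nodup_cons]
    refine ⟨?_, h1⟩
    rw [List.mem_append, List.mem_map]
    rintro (⟨x, hx, hxr⟩ | hx)
    · have := ep1_lt hL hx
      omega
    · have := ep1_lt hR hx
      omega
  · ext x
    have e1 := (mem_words.1 hL).2
    have e2 := (mem_words.1 hR).2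
    have f1 : ∀ y, y ∈ L ↔ y < n - r := by
      intro y
      rw [← List.mem_toFinset, e1, Finset.mem_range]
    have f2 : ∀ y, y ∈ R ↔ y < r := by
      intro y
      rw [← List.mem_toFinset, e2, Finset.mem_range]
    rw [List.mem_toFinset, List.mem_append, List.mem_cons, List.mem_map, Finset.mem_range, f2]
    constructor
    · rintro (⟨y, hy, rfl⟩ | h | h)
      · rw [f1] at hy; omega
      · omega
      · omega
    · intro h
      by_cases h2 : x < r
      · exact Or.inr (Or.inr h2)
      · by_cases h3 : x = n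
        · exact Or.inr (Or.inl h3)
        · exact Or.inl ⟨x - r, (f1 _).2 (by omega), by omega⟩

open Classical in
/-- decomposition at the maximum for properties contained in `Av p132` -/
theorem ep1_split (Q : List ℕ → Prop) (hQ : ∀ l, Q l → Av p132 l) (n : ℕ) :
    AA Q (n + 1) = ∑ r ∈ range (n + 1), ∑ L ∈ words (range (n - r)), ∑ R ∈ words (range r),
      if Q (L.map (· + r) ++ n :: R) then
        (X : ℚ[X]) ^ (bd L + (bd R + (if R = [] ∨ R.head? = some (n - 1) then 0 else 1)))
      else 0 := by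
  unfold AA
  rw [ebase_W_eq]
  have h1 : ∑ l ∈ words (range (n + 1)), (if Q l then (X : ℚ[X]) ^ bd l else 0) =
      ∑ l ∈ words (range (n + 1)), if l ∈ words (range (n + 1)) ∧ Q l then
        (X : ℚ[X]) ^ bd l else 0 := by
    refine Finset.sum_congr rfl fun l hl => ?_
    by_cases h : Q l
    · rw [if_pos h, if_pos ⟨hl, h⟩]
    · rw [if_neg h, if_neg (fun h' => h h'.2)]
  rw [h1, sum_split_gt n (fun l => if l ∈ words (range (n + 1)) ∧ Q l then
        (X : ℚ[X]) ^ bd l else 0)]
  · refine Finset.sum_congr rfl fun r hr => ?_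
    refine Finset.sum_congr rfl fun L hL => ?_
    refine Finset.sum_congr rfl fun R hR => ?_
    have hrn : r ≤ n := Nat.lt_succ_iff.1 (Finset.mem_range.1 hr)
    have hmem := ep1_mem hrn hL hR
    by_cases h : Q (L.map (· + r) ++ n :: R)
    · rw [if_pos h, if_pos ⟨hmem, h⟩, bd_append_max, bd_map_add, bd_cons_max]
      · intro y hy
        have := ep1_lt hR hy
        omega
      · intro x hx
        rw [List.mem_map] at hx
        obtain ⟨y, hy, rfl⟩ := hx
        have := ep1_lt hL hy
        omega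
    · rw [if_neg h, if_neg (fun h' => h h'.2)]
  · rintro L R ⟨x, hx, y, hy, hxy⟩
    rw [if_neg]
    rintro ⟨hmem, hq⟩
    have hnd := (mem_words.1 hmem).1
    have h2 : (L ++ n :: R).Perm (n :: (L ++ R)) := List.perm_middle
    have h3 := h2.nodup_iff.1 hnd
    rw [List.nodup_cons] at h3
    have hL : ∀ x ∈ L, x < n := by
      intro z hz
      have h4 := ep1_lt hmem (List.mem_append_left _ hz)
      have h5 : z ≠ n := by
        rintro rfl
        exact h3.1 (List.mem_append_left _ hz)
      omega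
    have hR : ∀ x ∈ R, x < n := by
      intro z hz
      have h4 := ep1_lt hmem (List.mem_append_right _ (List.mem_cons_of_mem _ hz))
      have h5 : z ≠ n := by
        rintro rfl
        exact h3.1 (List.mem_append_right _ hz)
      omega
    have := ((av132_split hL hR h3.2).1 (hQ _ hq)).2.2 x hx y hy
    omega

/-- hypotheses of the splitting lemmas -/
theorem ep1_hyps {n r : ℕ} (hr : r ≤ n) {L R : List ℕ} (hL : L ∈ words (range (n - r)))
    (hR : R ∈ words (range r)) :
    (∀ x ∈ L.map (· + r), x < n) ∧ (∀ y ∈ R, y < n) ∧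
      (∀ x ∈ L.map (· + r), ∀ y ∈ R, y < x) := by
  refine ⟨?_, ?_, ?_⟩
  · intro x hx
    rw [List.mem_map] at hx
    obtain ⟨y, hy, rfl⟩ := hx
    have := ep1_lt hL hy
    omega
  · intro y hy
    have := ep1_lt hR hy
    omega
  · intro x hx y hy
    rw [List.mem_map] at hx
    obtain ⟨z, hz, rfl⟩ := hx
    have := ep1_lt hR hy
    omega

theorem hQ132_231 : ∀ n l, l ∈ words (range n) → (Q132_231 (n :: l) ↔ Q132_231 l) := by
  intro n l hl
  have hR : ∀ y ∈ l, y < n := fun y hy => ep1_lt hl hy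
  have hnd : ([] ++ l : List ℕ).Nodup := (mem_words.1 hl).1
  have h1 := av132_split (L := []) (R := l) (m := n) (by simp) hR hnd
  have h2 := av231_split (L := []) (R := l) (m := n) (by simp) hR hnd
  rw [List.nil_append] at h1 h2
  unfold Q132_231
  rw [h1, h2]
  constructor
  · rintro ⟨⟨-, a, -⟩, ⟨-, b, -⟩⟩
    exact ⟨a, b⟩
  · rintro ⟨a, b⟩
    exact ⟨⟨Av_nil _, a, by simp⟩, ⟨Av_nil _, b, by simp⟩⟩

/-- `A_{n+2} = M_{n+2} + A_{n+1}`: the maximum is first or last (`av132_split`, `av231_gt`). -/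
theorem rec132_231 (n : ℕ) :
    AA Q132_231 (n + 2) = MM Q132_231 (n + 2) + AA Q132_231 (n + 1) := by
  classical
  rw [ep1_split Q132_231 (fun l h => h.1) (n + 1), Finset.sum_range_succ', Finset.sum_range_succ]
  -- the middle terms vanish
  have hmid : ∑ k ∈ range n, ∑ L ∈ words (range (n + 1 - (k + 1))),
      ∑ R ∈ words (range (k + 1)),
      (if Q132_231 (L.map (· + (k + 1)) ++ (n + 1) :: R) then
        (X : ℚ[X]) ^ (bd L + (bd R + (if R = [] ∨ R.head? = some (n + 1 - 1) then 0 else 1)))
      else 0) = 0 := by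
    refine Finset.sum_eq_zero fun k hk => ?_
    refine Finset.sum_eq_zero fun L hL => ?_
    refine Finset.sum_eq_zero fun R hR => ?_
    rw [Finset.mem_range] at hk
    obtain ⟨h1, h2, h3⟩ := ep1_hyps (by omega) hL hR
    rw [if_neg]
    rintro ⟨-, h⟩
    rcases ((av231_gt h1 h2 (ep1_nodup (by omega) hL hR) h3).1 h).1 with h4 | h4
    · rw [List.map_eq_nil_iff] at h4
      have h5 : n + 1 - (k + 1) = (n - k - 1) + 1 := by omega
      rw [h5] at hL
      exact ep1_ne_nil hL h4
    · exact ep1_ne_nil hR h4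
  rw [hmid, zero_add]
  congr 1
  · -- `L = []`
    rw [Nat.sub_self, Finset.range_zero, words_empty, Finset.sum_singleton, ebase_MM_eq]
    refine Finset.sum_congr rfl fun R hR => ?_
    rw [List.map_nil, List.nil_append, bd_cons_max (n + 1) R (fun y hy => ep1_lt hR hy)]
    simp only [bd, zero_add]
  · -- `R = []`
    rw [Finset.range_zero, words_empty]
    unfold AA
    rw [ebase_W_eq]
    refine Finset.sum_congr rfl fun L hL => ?_
    rw [Finset.sum_singleton]
    have hR : ([] : List ℕ) ∈ words (range 0) := by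
      rw [Finset.range_zero, words_empty, Finset.mem_singleton]
    obtain ⟨h1, h2, h3⟩ := ep1_hyps (n := n + 1) (Nat.zero_le _) hL hR
    have hnd := ep1_nodup (n := n + 1) (Nat.zero_le _) hL hR
    have hmap : L.map (· + 0) = L := by simp
    have hiff : Q132_231 (L.map (· + 0) ++ (n + 1) :: []) ↔ Q132_231 L := by
      unfold Q132_231
      rw [av132_split h1 h2 hnd, av231_gt h1 h2 hnd h3, hmap]
      constructor
      · rintro ⟨⟨a, -, -⟩, ⟨-, b, -⟩⟩
        exact ⟨a, b⟩
      · rintro ⟨a, b⟩
        exact ⟨⟨a, Av_nil _, by simp⟩, Or.inr rfl, b, Av_nil _⟩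
    by_cases h : Q132_231 L
    · rw [if_pos (hiff.2 h), if_pos h]
      simp [bd]
    · rw [if_neg (fun h' => h (hiff.1 h')), if_neg h]

theorem ep1_av_dec {l : List ℕ} (h : l.Pairwise (· > ·)) : Av p132 l := by
  intro a b c hs hp
  have h1 := h.sublist hs
  simp only [List.pairwise_cons, List.mem_cons, forall_eq_or_imp] at h1
  have h2 : a > c := h1.1.2.1
  have h3 : a < c := hp.1
  omega

/-- `A_{n+2} = 1 + A_{n+1} + X Σ_{r=1}^{n} A_{n+1-r}`.
Proof: `sum_split_gt`, `av132_split`, `av312_gt`: `l = L' ++ (n+1) :: R` with `R` the decreasing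
word of `range r` (`words_pairwise_gt`, `bd = 0`).  `r = 0`: `A_{n+1}`.  `1 ≤ r ≤ n`: the descent
`n+1 → r-1` is big: `X A_{n+1-r}`.  `r = n+1`: the decreasing word of `range (n+2)`: `1`. -/
theorem rec132_312 (n : ℕ) :
    AA Q132_312 (n + 2) = 1 + AA Q132_312 (n + 1)
      + X * ∑ r ∈ Finset.Icc 1 n, AA Q132_312 (n + 1 - r) := by
  classical
  rw [ep1_split Q132_312 (fun l h => h.1) (n + 1)]
  -- the value of the term `r`
  have hterm : ∀ r ∈ range (n + 1 + 1), ∑ L ∈ words (range (n + 1 - r)), ∑ R ∈ words (range r),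
      (if Q132_312 (L.map (· + r) ++ (n + 1) :: R) then
        (X : ℚ[X]) ^ (bd L + (bd R + (if R = [] ∨ R.head? = some (n + 1 - 1) then 0 else 1)))
      else 0) = AA Q132_312 (n + 1 - r) * X ^ (if r = 0 ∨ r = n + 1 then 0 else 1) := by
    intro r hr
    rw [Finset.mem_range] at hr
    have hrn : r ≤ n + 1 := by omega
    set D : List ℕ := (List.range r).reverse with hD
    have hDw := (words_pairwise_gt r D).2 hD
    unfold AA
    rw [ebase_W_eq, Finset.sum_mul]
    refine Finset.sum_congr rfl fun L hL => ?_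
    rw [Finset.sum_eq_single D]
    · obtain ⟨h1, h2, h3⟩ := ep1_hyps hrn hL hDw.1
      have hnd := ep1_nodup hrn hL hDw.1
      have hiff : Q132_312 (L.map (· + r) ++ (n + 1) :: D) ↔ Q132_312 L := by
        unfold Q132_312
        rw [av132_split h1 h2 hnd, av312_gt h1 h2 hnd h3,
          Av_map_add shiftInv_all.2.1, Av_map_add shiftInv_all.2.2.2.2.1]
        constructor
        · rintro ⟨⟨a, -, -⟩, ⟨b, -⟩⟩
          exact ⟨a, b⟩
        · rintro ⟨a, b⟩
          exact ⟨⟨a, ep1_av_dec hDw.2, h3⟩, b, hDw.2⟩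
      have hhead : (D = [] ∨ D.head? = some (n + 1 - 1)) ↔ (r = 0 ∨ r = n + 1) := by
        rcases Nat.eq_zero_or_pos r with h0 | hpos
        · subst h0
          simp [hD]
        · obtain ⟨s, rfl⟩ : ∃ s, r = s + 1 := ⟨r - 1, by omega⟩
          have hDc : D = s :: (List.range s).reverse := by
            rw [hD, List.range_succ, List.reverse_append]
            rfl
          rw [hDc]
          simp
      have hbd : bd D = 0 := by rw [hD]; exact bd_range_reverse r
      by_cases h : Q132_312 L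
      · rw [if_pos (hiff.2 h), if_pos h, hbd, zero_add, pow_add]
        congr 2
        by_cases h5 : r = 0 ∨ r = n + 1
        · rw [if_pos h5, if_pos (hhead.2 h5)]
        · rw [if_neg h5, if_neg (fun h' => h5 (hhead.1 h'))]
      · rw [if_neg (fun h' => h (hiff.1 h')), if_neg h, zero_mul]
    · intro R hR hRD
      rw [if_neg]
      intro h
      obtain ⟨h1, h2, h3⟩ := ep1_hyps hrn hL hR
      have hnd := ep1_nodup hrn hL hR
      have h4 := ((av312_gt h1 h2 hnd h3).1 h.2).2
      exact hRD ((words_pairwise_gt r R).1 ⟨hR, h4⟩)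
    · intro h
      exact absurd hDw.1 h
  rw [Finset.sum_congr rfl hterm, Finset.sum_range_succ', Finset.sum_range_succ]
  have h0 : AA Q132_312 0 = 1 := AA_zero _ ⟨Av_nil _, Av_nil _⟩
  rw [Nat.sub_self, h0, if_pos (Or.inr rfl), if_pos (Or.inl rfl), pow_zero, Nat.sub_zero]
  have hmid : ∑ k ∈ range n, AA Q132_312 (n + 1 - (k + 1)) *
      (X : ℚ[X]) ^ (if k + 1 = 0 ∨ k + 1 = n + 1 then 0 else 1) =
      X * ∑ r ∈ Finset.Icc 1 n, AA Q132_312 (n + 1 - r) := by
    rw [Finset.mul_sum, Finset.sum_bij (fun k _ => k + 1)]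
    · intro k hk
      rw [Finset.mem_range] at hk
      rw [Finset.mem_Icc]
      omega
    · intro a _ b _ h
      omega
    · intro b hb
      rw [Finset.mem_Icc] at hb
      exact ⟨b - 1, by rw [Finset.mem_range]; omega, by omega⟩
    · intro k hk
      rw [Finset.mem_range] at hk
      rw [if_neg (by omega), pow_one, mul_comm]
  rw [hmid]
  ring

end BD
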