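import Pool.Agent.MP_8b309d_co.EBase

/-!
# Row BD-EP4 : Av(123,321)
-/

namespace BD

open Finset Polynomial

def Q123_321 : List ℕ → Prop := fun l => Av p123 l ∧ Av p321 l

private def ep4_t : List ℕ → Bool
  | [a, b, c] => !(decide (a < b) && decide (b < c)) && !(decide (c < b) && decide (b < a))
  | _ => true

private def ep4_B (l : List ℕ) : Bool := (l.sublistsLen 3).all ep4_t

private theorem ep4_B_iff (l : List ℕ) : Q123_321 l ↔ ep4_B l = true := by
  unfold Q123_321 ep4_B Av
  rw [List.all_eq_true]
  constructor
  · rintro ⟨h1, h2⟩ t ht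
    rw [List.mem_sublistsLen] at ht
    obtain ⟨hs, hl⟩ := ht
    rw [List.length_eq_three] at hl
    obtain ⟨a, b, c, rfl⟩ := hl
    have e1 := h1 a b c hs
    have e2 := h2 a b c hs
    unfold p123 at e1
    unfold p321 at e2
    simp only [ep4_t, Bool.and_eq_true, Bool.not_eq_true', Bool.and_eq_false_iff,
      decide_eq_false_iff_not]
    constructor
    · by_contra h; apply e1; tauto
    · by_contra h; apply e2; tauto
  · intro h
    constructor
    · intro a b c hs hp
      have := h [a, b, c] (List.mem_sublistsLen.mpr ⟨hs, rfl⟩)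
      unfold p123 at hp
      simp only [ep4_t, Bool.and_eq_true, Bool.not_eq_true', Bool.and_eq_false_iff,
        decide_eq_false_iff_not] at this
      tauto
    · intro a b c hs hp
      have := h [a, b, c] (List.mem_sublistsLen.mpr ⟨hs, rfl⟩)
      unfold p321 at hp
      simp only [ep4_t, Bool.and_eq_true, Bool.not_eq_true', Bool.and_eq_false_iff,
        decide_eq_false_iff_not] at this
      tauto

private theorem ep4_words (n : ℕ) :
    words (Finset.range n) = (List.range n).permutations'.toFinset := by
  have h : (Finset.range n).toList.Perm (List.range n) := by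
    have h1 : (List.range n).toFinset = Finset.range n := by
      ext x; simp
    rw [← h1]
    exact List.toFinset_toList List.nodup_range
  ext l
  unfold words
  rw [List.mem_toFinset, List.mem_toFinset, List.mem_permutations, List.mem_permutations']
  exact ⟨fun h' => h'.trans h, fun h' => h'.trans h.symm⟩

private theorem ep4_cnt (n k : ℕ) : cnt Q123_321 n k =
    ((List.range n).permutations'.toFinset.filter (fun l => ep4_B l = true ∧ bd l = k)).card := by
  unfold cnt
  rw [ep4_words n]
  congr 1
  ext l
  simp only [Finset.mem_filter, ep4_B_iff]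

private theorem ep4_bd_le (l : List ℕ) : bd l ≤ l.length - 1 := by
  induction l with
  | nil => simp [bd]
  | cons x t ih =>
    cases t with
    | nil => simp [bd]
    | cons y t =>
      simp only [bd, List.length_cons] at ih ⊢
      split_ifs <;> omega

private theorem ep4_cnt_zero (n k : ℕ) (hn : n ≤ k) (hk : 1 ≤ k) : cnt Q123_321 n k = 0 := by
  rw [ep4_cnt, Finset.card_eq_zero, Finset.filter_eq_empty_iff]
  intro l hl
  rw [List.mem_toFinset, List.mem_permutations'] at hl
  have h1 := ep4_bd_le l
  have h2 := hl.length_eq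
  rw [List.length_range] at h2
  rintro ⟨_, h3⟩
  omega

private theorem ep4_ge5 (n k : ℕ) (hn : 5 ≤ n) : cnt Q123_321 n k = 0 := by
  rw [ep4_cnt, Finset.card_eq_zero, Finset.filter_eq_empty_iff]
  intro l hl
  rw [List.mem_toFinset, List.mem_permutations'] at hl
  rintro ⟨h, _⟩
  rw [← ep4_B_iff] at h
  obtain ⟨h1, h2⟩ := h
  have hnd : l.Nodup := hl.nodup_iff.mpr List.nodup_range
  have hlen := hl.length_eq
  rw [List.length_range] at hlen
  match l, hlen with
  | [], h' => simp at h'; omega
  | [_], h' => simp at h'; omega
  | [_, _], h' => simp at h'; omega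
  | [_, _, _], h' => simp at h'; omega
  | [_, _, _, _], h' => simp at h'; omega
  | a :: b :: c :: d :: e :: t, _ =>
    have s1 : [a, b, c].Sublist (a :: b :: c :: d :: e :: t) := by simp
    have s2 : [b, c, d].Sublist (a :: b :: c :: d :: e :: t) :=
      List.Sublist.cons _ (by simp)
    have s3 : [c, d, e].Sublist (a :: b :: c :: d :: e :: t) :=
      List.Sublist.cons _ (List.Sublist.cons _ (by simp))
    have s4 : [b, d, e].Sublist (a :: b :: c :: d :: e :: t) :=
      List.Sublist.cons _ (List.Sublist.cons_cons _ (List.Sublist.cons _ (by simp)))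
    have s5 : [a, b, d].Sublist (a :: b :: c :: d :: e :: t) :=
      List.Sublist.cons_cons _ (List.Sublist.cons_cons _ (List.Sublist.cons _ (by simp)))
    have a1 := h1 _ _ _ s1
    have a2 := h1 _ _ _ s2
    have a3 := h1 _ _ _ s3
    have a4 := h1 _ _ _ s4
    have a5 := h1 _ _ _ s5
    have b1 := h2 _ _ _ s1
    have b2 := h2 _ _ _ s2
    have b3 := h2 _ _ _ s3
    have b4 := h2 _ _ _ s4
    have b5 := h2 _ _ _ s5
    unfold p123 at a1 a2 a3 a4 a5
    unfold p321 at b1 b2 b3 b4 b5
    simp only [List.nodup_cons, List.mem_cons, not_or] at hnd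
    obtain ⟨⟨n1, _, _, _, _⟩, ⟨n2, n3, _, _⟩, ⟨n4, _, _⟩, ⟨n5, _⟩, _⟩ := hnd
    omega

/-- Log-concavity for the pair {123, 321}.
Proof: for `n ≥ 5` there is no word (Erdős–Szekeres; elementary: among 5 distinct numbers in a
row there is a monotone subsequence of length 3; Mathlib has `Theorems100.erdos_szekeres`
only in Archive, so do it by hand: e.g. it suffices to treat the restriction of the word to its
first five letters, comparing the ten pairs, `omega`).  For `n ≤ 4`: `bd l ≤ 2` always because a
word with three descents contains 321 (for `n = 4`), and `bd l ≤ 1` for `n ≤ 3`; for `n = 4` the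
four words are 1032 (bd 0), 1302 (bd 1), 2031 (bd 2), 2301 (bd 1) in the alphabet {0,1,2,3},
so `cnt = 1, 2, 1` and `1 * 1 ≤ 2 ^ 2`. (One can also prove `words (range 4)` has exactly the 24
permutations of `[0,1,2,3]` and use `decide`.) -/
theorem LC123_321 : LC Q123_321 := by
  intro n k hk
  by_cases hn : 5 ≤ n
  · rw [ep4_ge5 n (k - 1) hn]; simp
  · by_cases hk2 : n ≤ k + 1
    · rw [ep4_cnt_zero n (k + 1) hk2 (by omega)]; simp
    · have h4 : n = 3 ∨ n = 4 := by omega
      rcases h4 with rfl | rfl
      · have : k = 1 := by omega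
        subst this
        rw [ep4_cnt, ep4_cnt, ep4_cnt]
        decide +kernel
      · have : k = 1 ∨ k = 2 := by omega
        rcases this with rfl | rfl
        · rw [ep4_cnt, ep4_cnt, ep4_cnt]
          decide +kernel
        · rw [ep4_cnt, ep4_cnt, ep4_cnt]
          decide +kernel

end BD
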