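import Pool.Agent.MP_8b309d_co.EBase

/-!
# The recursive systems for Av(321) and Av(123)
-/

namespace BD

open Finset Polynomial

/-- The system of recursions for Av(321).  `g` = number of unused letters below the current
maximum `m`, `h` = number of (unused) letters above `m`.  `Dn g h`: the last letter was not a
maximum (or `g = 0`); `Mx g h` (`g ≥ 1`): the last letter is the current maximum `m` and the
next smaller letter gives a big descent; `Sm h`: the last letter is the maximum `m` and the only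
unused letter below is `m - 1`. -/
structure Sys321 (Dn Mx : ℕ → ℕ → ℚ[X]) (Sm : ℕ → ℚ[X]) : Prop where
  d00 : Dn 0 0 = 1
  d0 : ∀ h, Dn 0 (h + 1) = Dn 0 h + (if h = 0 then 0 else Sm (h - 1))
    + ∑ j ∈ Finset.Icc 2 h, Mx j (h - j)
  dg : ∀ g h, Dn (g + 1) h = Dn g h + ∑ j ∈ range h, Mx (g + 1 + j) (h - 1 - j)
  mg : ∀ g h, Mx (g + 1) h = X * Dn g h + ∑ j ∈ range h, Mx (g + 1 + j) (h - 1 - j)
  sm : ∀ h, Sm h = Dn 0 h + ∑ j ∈ range h, Mx (1 + j) (h - 1 - j)

/-- `jmp α j` : the adjacency list after the new minimum skips `j` letters -/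
def jmp (α : List Bool) (j : ℕ) : List Bool :=
  if j = 0 then α else α ++ false :: List.replicate (j - 1) true

/-- The system of recursions for Av(123).  `h` = number of (unused) letters below the current
minimum `m`; the unused letters above `m` are `g_0 > g_1 > … > g_{s-1}`.
`P0 h`: last letter is the minimum, `s = 0`.
`Pm α h`: last letter is the minimum, `s ≥ 1`, `α = [g_0 = g_1+1, …, g_{s-2} = g_{s-1}+1]`.
`Pv α h`: last letter is `v > g_0`, `v > m`, `α = [v = g_0+1, g_0 = g_1+1, …]` (length `s`). -/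
structure Sys123 (P0 : ℕ → ℚ[X]) (Pm Pv : List Bool → ℕ → ℚ[X]) : Prop where
  p00 : P0 0 = 1
  p0 : ∀ h, P0 (h + 1) = P0 h
    + X * ∑ j ∈ Finset.Icc 1 h, Pm (List.replicate (j - 1) true) (h - j)
  pm : ∀ α h, Pm α h = Pv α h
    + ∑ j ∈ range h, (if j = 0 then 1 else X) * Pm (jmp α j) (h - 1 - j)
  pv00 : Pv [] 0 = 1
  pv0 : ∀ h, Pv [] (h + 1) = X * P0 h
    + X * ∑ j ∈ Finset.Icc 1 h, Pm (List.replicate (j - 1) true) (h - j)
  pv : ∀ a α h, Pv (a :: α) h = (if a = true then 1 else X) * Pv α h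
    + X * ∑ j ∈ range h, Pm (jmp α j) (h - 1 - j)

end BD
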