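import Pool.Agent.MP_8b309d_co.Defs

/-!
# Row BD-W : sums over all arrangements of a finite set

`words U` is the finite set of all arrangements of `U` (Defs.lean).  Everything here is
elementary list bookkeeping.
-/

namespace BD

open Finset

/-- `l ∈ words U` iff `l` has no repetition and its set of letters is `U`.
Proof: `List.mem_permutations`, `Finset.toList` has no duplicates and its `toFinset` is `U`;
two duplicate-free lists are permutations of each other iff they have the same members
(`List.perm_ext_iff_of_nodup`). -/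
theorem mem_words {U : Finset ℕ} {l : List ℕ} : l ∈ words U ↔ l.Nodup ∧ l.toFinset = U := by
  classical
  unfold words
  rw [List.mem_toFinset, List.mem_permutations]
  constructor
  · intro h
    refine ⟨h.nodup_iff.2 (Finset.nodup_toList U), ?_⟩
    rw [List.toFinset_eq_of_perm _ _ h, Finset.toList_toFinset]
  · rintro ⟨h1, h2⟩
    refine (List.perm_ext_iff_of_nodup h1 (Finset.nodup_toList U)).2 (fun a => ?_)
    rw [Finset.mem_toList, ← h2, List.mem_toFinset]

theorem words_empty : words ∅ = {[]} := by
  ext l
  rw [mem_words, Finset.mem_singleton]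
  constructor
  · rintro ⟨_, h⟩
    exact (List.toFinset_eq_empty_iff l).1 h
  · rintro rfl
    simp

/-- every arrangement of a nonempty set is `x :: l` with `x ∈ U`, `l` an arrangement of
`U.erase x` -/
theorem sum_words_cons {M : Type*} [AddCommMonoid M] (U : Finset ℕ) (hU : U.Nonempty)
    (F : List ℕ → M) :
    ∑ l ∈ words U, F l = ∑ x ∈ U, ∑ l ∈ words (U.erase x), F (x :: l) := by
  classical
  rw [Finset.sum_sigma' U (fun x => words (U.erase x)) (fun x l => F (x :: l))]
  symm
  refine Finset.sum_bij (fun p _ => p.1 :: p.2) ?_ ?_ ?_ ?_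
  · rintro ⟨x, l⟩ hp
    rw [Finset.mem_sigma] at hp
    obtain ⟨hx, hl⟩ := hp
    simp only at hx hl
    rw [mem_words] at hl ⊢
    refine ⟨List.nodup_cons.2 ⟨?_, hl.1⟩, ?_⟩
    · intro h
      have : x ∈ l.toFinset := List.mem_toFinset.2 h
      rw [hl.2] at this
      exact Finset.notMem_erase x U this
    · rw [List.toFinset_cons, hl.2, Finset.insert_erase hx]
  · rintro ⟨x, l⟩ _ ⟨x', l'⟩ _ h
    simp only [List.cons.injEq] at h
    obtain ⟨h1, h2⟩ := h
    subst h1 h2
    rfl
  · intro l hl
    rw [mem_words] at hl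
    cases l with
    | nil =>
      exfalso
      rw [List.toFinset_nil] at hl
      exact hU.ne_empty hl.2.symm
    | cons x l =>
      obtain ⟨h1, h2⟩ := hl
      rw [List.nodup_cons] at h1
      refine ⟨⟨x, l⟩, ?_, rfl⟩
      rw [Finset.mem_sigma]
      have hx : x ∈ U := by
        rw [← h2, List.toFinset_cons]
        exact Finset.mem_insert_self _ _
      refine ⟨hx, ?_⟩
      simp only
      rw [mem_words]
      refine ⟨h1.2, ?_⟩
      rw [← h2, List.toFinset_cons, Finset.erase_insert]
      intro h
      exact h1.1 (List.mem_toFinset.1 h)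
  · rintro ⟨x, l⟩ _
    rfl

/-- transport along an injection -/
theorem sum_words_map {M : Type*} [AddCommMonoid M] (e : ℕ ↪ ℕ) (U : Finset ℕ)
    (F : List ℕ → M) :
    ∑ l ∈ words (U.map e), F l = ∑ l ∈ words U, F (l.map e) := by
  classical
  symm
  refine Finset.sum_bij (fun l _ => l.map e) ?_ ?_ ?_ ?_
  · intro l hl
    rw [mem_words] at hl ⊢
    refine ⟨(List.nodup_map_iff e.injective).2 hl.1, ?_⟩
    ext a
    rw [List.mem_toFinset, List.mem_map, Finset.mem_map]
    constructor
    · rintro ⟨b, hb, rfl⟩
      exact ⟨b, by rw [← hl.2]; exact List.mem_toFinset.2 hb, rfl⟩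
    · rintro ⟨b, hb, rfl⟩
      rw [← hl.2] at hb
      exact ⟨b, List.mem_toFinset.1 hb, rfl⟩
  · intro l _ l' _ h
    exact List.map_injective_iff.2 e.injective h
  · intro l hl
    rw [mem_words] at hl
    have h3 : l ∈ Set.range (List.map e) := by
      rw [Set.range_list_map]
      intro x hx
      have : x ∈ U.map e := by
        rw [← hl.2]
        exact List.mem_toFinset.2 hx
      obtain ⟨b, _, hb⟩ := Finset.mem_map.1 this
      exact ⟨b, hb⟩
    obtain ⟨l', rfl⟩ := h3
    refine ⟨l', ?_, rfl⟩
    rw [mem_words]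
    refine ⟨(List.nodup_map_iff e.injective).1 hl.1, ?_⟩
    ext a
    rw [List.mem_toFinset]
    have h4 : e a ∈ (l'.map e).toFinset ↔ e a ∈ U.map e := by rw [hl.2]
    rw [List.mem_toFinset, List.mem_map_of_injective e.injective, Finset.mem_map'] at h4
    exact h4
  · intro l _
    rfl

theorem sum_words_reverse {M : Type*} [AddCommMonoid M] (U : Finset ℕ) (F : List ℕ → M) :
    ∑ l ∈ words U, F l = ∑ l ∈ words U, F l.reverse := by
  classical
  refine Finset.sum_nbij' List.reverse List.reverse ?_ ?_ ?_ ?_ ?_
  · intro l hl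
    rw [mem_words] at hl ⊢
    exact ⟨List.nodup_reverse.2 hl.1, by rw [List.toFinset_reverse, hl.2]⟩
  · intro l hl
    rw [mem_words] at hl ⊢
    exact ⟨List.nodup_reverse.2 hl.1, by rw [List.toFinset_reverse, hl.2]⟩
  · intro l _
    exact List.reverse_reverse l
  · intro l _
    exact List.reverse_reverse l
  · intro l _
    rw [List.reverse_reverse]

/-- decomposition at the letter `m`: `l = L ++ m :: R` with `L` an arrangement of a subset `V`
of `U.erase m` and `R` an arrangement of the rest.  (The map `(V, L, R) ↦ L ++ m :: R` is a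
bijection onto `words U`; the inverse splits at the position of `m`.) -/
theorem sum_words_split {M : Type*} [AddCommMonoid M] (U : Finset ℕ) (m : ℕ) (hm : m ∈ U)
    (F : List ℕ → M) :
    ∑ l ∈ words U, F l
      = ∑ V ∈ (U.erase m).powerset, ∑ L ∈ words V, ∑ R ∈ words ((U.erase m) \ V),
          F (L ++ m :: R) := by
  classical
  have e1 : ∀ V ∈ (U.erase m).powerset,
      ∑ L ∈ words V, ∑ R ∈ words ((U.erase m) \ V), F (L ++ m :: R)
        = ∑ q ∈ words V ×ˢ words ((U.erase m) \ V), F (q.1 ++ m :: q.2) := by
    intro V _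
    rw [Finset.sum_product]
  rw [Finset.sum_congr rfl e1,
    Finset.sum_sigma' (U.erase m).powerset (fun V => words V ×ˢ words ((U.erase m) \ V))
      (fun _ q => F (q.1 ++ m :: q.2))]
  symm
  refine Finset.sum_bij (fun p _ => p.2.1 ++ m :: p.2.2) ?_ ?_ ?_ ?_
  · rintro ⟨V, L, R⟩ hp
    rw [Finset.mem_sigma, Finset.mem_product] at hp
    obtain ⟨hV, hL, hR⟩ := hp
    simp only at hV hL hR
    rw [Finset.mem_powerset] at hV
    rw [mem_words] at hL hR ⊢
    have hLm : ∀ a ∈ L, a ∈ V := fun a ha => by rw [← hL.2]; exact List.mem_toFinset.2 ha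
    have hRm : ∀ a ∈ R, a ∈ (U.erase m) \ V := fun a ha => by
      rw [← hR.2]; exact List.mem_toFinset.2 ha
    refine ⟨?_, ?_⟩
    · rw [List.nodup_append]
      refine ⟨hL.1, List.nodup_cons.2 ⟨?_, hR.1⟩, ?_⟩
      · intro h
        have := hRm m h
        rw [Finset.mem_sdiff] at this
        exact Finset.notMem_erase m U this.1
      · intro a ha b hb hab
        subst hab
        rcases List.mem_cons.1 hb with h | h
        · subst h
          exact Finset.notMem_erase a U (hV (hLm a ha))
        · have := hRm a h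
          rw [Finset.mem_sdiff] at this
          exact this.2 (hLm a ha)
    · rw [List.toFinset_append, List.toFinset_cons, hL.2, hR.2]
      ext a
      simp only [Finset.mem_union, Finset.mem_insert, Finset.mem_sdiff, Finset.mem_erase]
      constructor
      · rintro (h | h | h)
        · exact (Finset.mem_erase.1 (hV h)).2
        · rw [h]; exact hm
        · exact h.1.2
      · intro h
        by_cases h1 : a = m
        · exact Or.inr (Or.inl h1)
        · by_cases h2 : a ∈ V
          · exact Or.inl h2
          · exact Or.inr (Or.inr ⟨⟨h1, h⟩, h2⟩)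
  · rintro ⟨V, L, R⟩ hp ⟨V', L', R'⟩ hp' h
    rw [Finset.mem_sigma, Finset.mem_product] at hp hp'
    obtain ⟨hV, hL, hR⟩ := hp
    obtain ⟨hV', hL', hR'⟩ := hp'
    simp only at hV hL hR hV' hL' hR' h
    rw [Finset.mem_powerset] at hV hV'
    rw [mem_words] at hL hR hL' hR'
    have n1 : m ∉ L := fun hh => Finset.notMem_erase m U
      (hV (by rw [← hL.2]; exact List.mem_toFinset.2 hh))
    have n2 : m ∉ L' := fun hh => Finset.notMem_erase m U
      (hV' (by rw [← hL'.2]; exact List.mem_toFinset.2 hh))
    have n3 : m ∉ R := fun hh => by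
      have : m ∈ (U.erase m) \ V := by rw [← hR.2]; exact List.mem_toFinset.2 hh
      exact Finset.notMem_erase m U (Finset.mem_sdiff.1 this).1
    have n4 : m ∉ R' := fun hh => by
      have : m ∈ (U.erase m) \ V' := by rw [← hR'.2]; exact List.mem_toFinset.2 hh
      exact Finset.notMem_erase m U (Finset.mem_sdiff.1 this).1
    obtain ⟨h1, _, h2⟩ := (List.append_cons_inj_of_notMem n1 n3).1 h
    have h3 : V = V' := by rw [← hL.2, ← hL'.2, h1]
    subst h1 h2 h3
    rfl
  · intro l hl
    rw [mem_words] at hl
    have hml : m ∈ l := by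
      rw [← List.mem_toFinset, hl.2]; exact hm
    obtain ⟨L, R, rfl⟩ := List.append_of_mem hml
    obtain ⟨h1, h2⟩ := hl
    rw [List.nodup_append] at h1
    obtain ⟨a1, a2, a3⟩ := h1
    rw [List.nodup_cons] at a2
    rw [List.toFinset_append, List.toFinset_cons] at h2
    have hmL : m ∉ L := fun hh => a3 m hh m (List.mem_cons_self) rfl
    refine ⟨⟨L.toFinset, L, R⟩, ?_, rfl⟩
    rw [Finset.mem_sigma, Finset.mem_product]
    refine ⟨?_, ?_, ?_⟩
    · simp only
      rw [Finset.mem_powerset]
      intro a ha
      rw [Finset.mem_erase]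
      refine ⟨?_, ?_⟩
      · rintro rfl
        exact hmL (List.mem_toFinset.1 ha)
      · rw [← h2]
        exact Finset.mem_union_left _ ha
    · simp only
      rw [mem_words]
      exact ⟨a1, rfl⟩
    · simp only
      rw [mem_words]
      refine ⟨a2.2, ?_⟩
      ext a
      rw [Finset.mem_sdiff, Finset.mem_erase, ← h2, Finset.mem_union, Finset.mem_insert]
      constructor
      · intro ha
        have ha' := List.mem_toFinset.1 ha
        refine ⟨⟨?_, Or.inr (Or.inr ha)⟩, ?_⟩
        · rintro rfl
          exact a2.1 ha'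
        · intro hb
          exact a3 a (List.mem_toFinset.1 hb) a (List.mem_cons_of_mem _ ha') rfl
      · rintro ⟨⟨b1, b2 | b2 | b2⟩, b3⟩
        · exact absurd b2 b3
        · exact absurd b2 b1
        · exact b2
  · rintro ⟨V, L, R⟩ _
    rfl

/-- increasing arrangements of `{0,…,n-1}` -/
theorem words_pairwise_lt (n : ℕ) (l : List ℕ) :
    (l ∈ words (Finset.range n) ∧ l.Pairwise (· < ·)) ↔ l = List.range n := by
  constructor
  · rintro ⟨h1, h2⟩
    rw [mem_words] at h1
    refine List.Perm.eq_of_pairwise ?_ h2 List.pairwise_lt_range ?_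
    · intro a b _ _ hab hba
      exact absurd hab (lt_asymm hba)
    · refine (List.perm_ext_iff_of_nodup h1.1 List.nodup_range).2 (fun a => ?_)
      rw [← List.mem_toFinset, h1.2, Finset.mem_range, List.mem_range]
  · rintro rfl
    refine ⟨?_, List.pairwise_lt_range⟩
    rw [mem_words]
    refine ⟨List.nodup_range, ?_⟩
    ext a
    rw [List.mem_toFinset, Finset.mem_range, List.mem_range]

/-- decreasing arrangements of `{0,…,n-1}` -/
theorem words_pairwise_gt (n : ℕ) (l : List ℕ) :
    (l ∈ words (Finset.range n) ∧ l.Pairwise (· > ·)) ↔ l = (List.range n).reverse := by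
  have key : l ∈ words (Finset.range n) ↔ l.reverse ∈ words (Finset.range n) := by
    rw [mem_words, mem_words, List.nodup_reverse, List.toFinset_reverse]
  rw [key]
  have h2 : l.Pairwise (· > ·) ↔ l.reverse.Pairwise (· < ·) := by
    rw [List.pairwise_reverse]
  rw [h2, words_pairwise_lt n l.reverse]
  constructor
  · intro h
    rw [← h, List.reverse_reverse]
  · rintro rfl
    rw [List.reverse_reverse]

end BD
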