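import Pool.Agent.MP_8b309d_co.BdAv
import Pool.Agent.MP_8b309d_co.Words

/-!
# Row BD-RC : reverse-complement symmetry
-/

namespace BD

open Finset

/-- reverse-complement of a word in the letters `{0,…,n-1}` -/
def rc (n : ℕ) (l : List ℕ) : List ℕ := (l.map (fun x => n - 1 - x)).reverse

theorem lt_of_mem_words {n : ℕ} {l : List ℕ} (h : l ∈ words (range n)) {x : ℕ} (hx : x ∈ l) :
    x < n := by
  rw [mem_words] at h
  have : x ∈ l.toFinset := List.mem_toFinset.2 hx
  rw [h.2] at this
  exact Finset.mem_range.1 this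

theorem rc_rc (n : ℕ) {l : List ℕ} (h : l ∈ words (range n)) : rc n (rc n l) = l := by
  unfold rc
  rw [List.map_reverse, List.reverse_reverse, List.map_map]
  conv_rhs => rw [← List.map_id l]
  apply List.map_congr_left
  intro x hx
  have := lt_of_mem_words h hx
  simp only [Function.comp, id]
  omega

theorem rc_mem (n : ℕ) {l : List ℕ} (h : l ∈ words (range n)) : rc n l ∈ words (range n) := by
  have hlt : ∀ x ∈ l, x < n := fun x hx => lt_of_mem_words h hx
  rw [mem_words] at h ⊢
  obtain ⟨h1, h2⟩ := h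
  constructor
  · unfold rc
    rw [List.nodup_reverse]
    refine (List.nodup_map_iff_inj_on h1).2 ?_
    intro x hx y hy hxy
    have h3 := hlt x hx
    have h4 := hlt y hy
    omega
  · ext y
    unfold rc
    simp only [List.mem_toFinset, List.mem_reverse, List.mem_map, Finset.mem_range]
    constructor
    · rintro ⟨x, hx, rfl⟩
      have h3 := hlt x hx
      omega
    · intro hy
      refine ⟨n - 1 - y, ?_, by omega⟩
      rw [← List.mem_toFinset, h2, Finset.mem_range]
      omega

theorem bd_append_two (L : List ℕ) (x y : ℕ) :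
    bd (L ++ [x, y]) = bd (L ++ [x]) + if y + 1 < x then 1 else 0 := by
  induction L with
  | nil => simp [bd]
  | cons a L ih =>
    cases L with
    | nil => simp [bd]
    | cons b L =>
      simp only [List.cons_append, bd] at ih ⊢
      rw [ih]
      omega

theorem bd_rc' (n : ℕ) : ∀ l : List ℕ, (∀ x ∈ l, x < n) → bd (rc n l) = bd l
  | [], _ => by simp [rc]
  | [x], _ => by simp [rc, bd]
  | x :: y :: l, h => by
    have ih := bd_rc' n (y :: l) (fun z hz => h z (List.mem_cons_of_mem _ hz))
    have hx : x < n := h x (by simp)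
    have hy : y < n := h y (by simp)
    have e1 : rc n (x :: y :: l) = rc n l ++ [n - 1 - y, n - 1 - x] := by
      simp [rc]
    have e2 : rc n (y :: l) = rc n l ++ [n - 1 - y] := by
      simp [rc]
    rw [e1, bd_append_two, ← e2, ih]
    simp only [bd]
    have : (n - 1 - x + 1 < n - 1 - y) ↔ (y + 1 < x) := by omega
    simp only [this]
    omega

theorem bd_rc (n : ℕ) {l : List ℕ} (h : l ∈ words (range n)) : bd (rc n l) = bd l :=
  bd_rc' n l (fun _ hx => lt_of_mem_words h hx)

theorem av_rc_aux (n : ℕ) {l : List ℕ} (h : ∀ x ∈ l, x < n) (p p' : Pat)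
    (hp : ∀ a b c, a < n → b < n → c < n → p (n - 1 - c) (n - 1 - b) (n - 1 - a) → p' a b c)
    (hl : Av p' l) : Av p (rc n l) := by
  intro a b c hs hpabc
  unfold rc at hs
  have hs2 : [c, b, a].Sublist (l.map (fun x => n - 1 - x)) := by
    have := hs.reverse
    rw [List.reverse_reverse] at this
    simpa using this
  rw [List.sublist_map_iff] at hs2
  obtain ⟨l', hl', he⟩ := hs2
  match l', he, hl' with
  | [z, y, x], he, hl' =>
    simp only [List.map_cons, List.map_nil, List.cons.injEq, and_true] at he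
    obtain ⟨h1, h2, h3⟩ := he
    have hz : z < n := h z (hl'.subset (by simp))
    have hy : y < n := h y (hl'.subset (by simp))
    have hx : x < n := h x (hl'.subset (by simp))
    subst h1 h2 h3
    exact hl z y x hl' (hp z y x hz hy hx hpabc)

theorem av_rc_iff (n : ℕ) {l : List ℕ} (h : l ∈ words (range n)) (p p' : Pat)
    (hp : ∀ a b c, a < n → b < n → c < n → p (n - 1 - c) (n - 1 - b) (n - 1 - a) → p' a b c)
    (hp' : ∀ a b c, a < n → b < n → c < n → p' (n - 1 - c) (n - 1 - b) (n - 1 - a) → p a b c) :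
    Av p (rc n l) ↔ Av p' l := by
  constructor
  · intro h1
    have h2 := av_rc_aux n (l := rc n l)
      (fun x hx => lt_of_mem_words (rc_mem n h) hx) p' p hp' h1
    rwa [rc_rc n h] at h2
  · exact av_rc_aux n (fun x hx => lt_of_mem_words h hx) p p' hp

theorem av_rc (n : ℕ) {l : List ℕ} (h : l ∈ words (range n)) :
    (Av p123 (rc n l) ↔ Av p123 l) ∧ (Av p132 (rc n l) ↔ Av p213 l) ∧
    (Av p213 (rc n l) ↔ Av p132 l) ∧ (Av p231 (rc n l) ↔ Av p312 l) ∧
    (Av p312 (rc n l) ↔ Av p231 l) ∧ (Av p321 (rc n l) ↔ Av p321 l) := by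
  refine ⟨?_, ?_, ?_, ?_, ?_, ?_⟩ <;>
    refine av_rc_iff n h _ _ ?_ ?_ <;>
    intro a b c ha hb hc <;>
    simp only [p123, p132, p213, p231, p312, p321] <;> omega

/-- transfer of log-concavity along reverse-complement -/
theorem LC_rc (Q Q' : List ℕ → Prop)
    (h : ∀ n l, l ∈ words (range n) → (Q (rc n l) ↔ Q' l)) (hQ : LC Q) : LC Q' := by
  have key : ∀ n k, cnt Q' n k = cnt Q n k := by
    intro n k
    unfold cnt
    refine Finset.card_nbij' (rc n) (rc n) ?_ ?_ ?_ ?_
    · intro l hl
      simp only [Finset.coe_filter, Set.mem_ofPred_eq] at hl ⊢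
      exact ⟨rc_mem n hl.1, (h n l hl.1).2 hl.2.1, by rw [bd_rc n hl.1]; exact hl.2.2⟩
    · intro l hl
      simp only [Finset.coe_filter, Set.mem_ofPred_eq] at hl ⊢
      refine ⟨rc_mem n hl.1, (h n _ (rc_mem n hl.1)).1 ?_, by rw [bd_rc n hl.1]; exact hl.2.2⟩
      rw [rc_rc n hl.1]
      exact hl.2.1
    · intro l hl
      simp only [Finset.coe_filter, Set.mem_ofPred_eq] at hl
      exact rc_rc n hl.1
    · intro l hl
      simp only [Finset.coe_filter, Set.mem_ofPred_eq] at hl
      exact rc_rc n hl.1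
  intro n k hk
  rw [key, key, key]
  exact hQ n k hk

end BD
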