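import Pool.Agent.MP_8b309d_co.Bridge
import Pool.Agent.MP_8b309d_co.Rc
import Pool.Agent.MP_8b309d_co.EPairs1
import Pool.Agent.MP_8b309d_co.EPairs2
import Pool.Agent.MP_8b309d_co.EPairs3
import Pool.Agent.MP_8b309d_co.EPairs4

/-!
# Row BD-FINAL : assembly of the theorem from the 13 classes
-/

namespace BD

open Finset

theorem perm3_cases : ∀ τ : Equiv.Perm (Fin 3),
    (τ 0 < τ 1 ∧ τ 1 < τ 2) ∨ (τ 0 < τ 2 ∧ τ 2 < τ 1) ∨ (τ 1 < τ 0 ∧ τ 0 < τ 2) ∨
    (τ 2 < τ 0 ∧ τ 0 < τ 1) ∨ (τ 1 < τ 2 ∧ τ 2 < τ 0) ∨ (τ 2 < τ 1 ∧ τ 1 < τ 0) := by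
  decide

/-- each of the six patterns of `Perm (Fin 3)` -/
theorem patOf_cases (τ : Equiv.Perm (Fin 3)) :
    patOf τ = p123 ∨ patOf τ = p132 ∨ patOf τ = p213 ∨ patOf τ = p231 ∨ patOf τ = p312 ∨
      patOf τ = p321 := by
  have hmain : ∀ (p : Pat), (∀ a b c, patOf τ a b c ↔ p a b c) → patOf τ = p := by
    intro p h
    funext a b c
    exact propext (h a b c)
  have h01 : ∀ i j : Fin 3, i < j ↔ (i : ℕ) < (j : ℕ) := fun i j => Iff.rfl
  rcases perm3_cases τ with h | h | h | h | h | h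
  · refine Or.inl (hmain _ ?_)
    intro a b c
    simp only [patOf, p123, h01] at h ⊢
    omega
  · refine Or.inr (Or.inl (hmain _ ?_))
    intro a b c
    simp only [patOf, p132, h01] at h ⊢
    omega
  · refine Or.inr (Or.inr (Or.inl (hmain _ ?_)))
    intro a b c
    simp only [patOf, p213, h01] at h ⊢
    omega
  · refine Or.inr (Or.inr (Or.inr (Or.inl (hmain _ ?_))))
    intro a b c
    simp only [patOf, p231, h01] at h ⊢
    omega
  · refine Or.inr (Or.inr (Or.inr (Or.inr (Or.inl (hmain _ ?_)))))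
    intro a b c
    simp only [patOf, p312, h01] at h ⊢
    omega
  · refine Or.inr (Or.inr (Or.inr (Or.inr (Or.inr (hmain _ ?_)))))
    intro a b c
    simp only [patOf, p321, h01] at h ⊢
    omega

theorem perm3_inj : ∀ τ τ' : Equiv.Perm (Fin 3),
    ((τ 0 < τ 1 ↔ τ' 0 < τ' 1) ∧ (τ 1 < τ 0 ↔ τ' 1 < τ' 0) ∧ (τ 0 < τ 2 ↔ τ' 0 < τ' 2) ∧
      (τ 2 < τ 0 ↔ τ' 2 < τ' 0) ∧ (τ 1 < τ 2 ↔ τ' 1 < τ' 2) ∧ (τ 2 < τ 1 ↔ τ' 2 < τ' 1)) →
    τ = τ' := by
  decide

/-- different permutations have different pattern relations -/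
theorem patOf_injective : Function.Injective patOf := by
  intro τ τ' h
  have h1 : patOf τ ((τ 0 : Fin 3) : ℕ) ((τ 1 : Fin 3) : ℕ) ((τ 2 : Fin 3) : ℕ) :=
    ⟨Iff.rfl, Iff.rfl, Iff.rfl, Iff.rfl, Iff.rfl, Iff.rfl⟩
  rw [h] at h1
  exact perm3_inj τ τ' h1

/-- Assembly.  `P = {τ}` or `P = {τ, τ'}` with `τ ≠ τ'` (`Finset.card_eq_one`,
`Finset.card_eq_two`); by `b_eq_cnt` the numbers are `cnt Q n k` with `Q l = Av (patOf τ) l`
resp. `Av (patOf τ) l ∧ Av (patOf τ') l`.  By `patOf_cases`, `patOf_injective` there are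
6 + 15 cases (up to the order).  Up to reverse-complement (`LC_rc`, `av_rc`) they are:
{123}, {321}, {132} ~ {213}, {231} ~ {312};
{123,132} ~ {123,213}, {132,213}, {123,231} ~ {123,312}, {123,321}, {132,231} ~ {213,312},
{132,312} ~ {213,231}, {132,321} ~ {213,321}, {231,312}, {231,321} ~ {312,321}. -/
theorem final_assembly
    (h123 : LC (Av p123)) (h321 : LC (Av p321)) (h132 : LC (Av p132)) (h231 : LC (Av p231))
    (h132_123 : LC Q132_123) (h132_213 : LC Q132_213) (h231_123 : LC Q231_123)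
    (h123_321 : LC Q123_321) (h132_231 : LC Q132_231) (h132_312 : LC Q132_312)
    (h132_321 : LC Q132_321) (h231_312 : LC Q231_312) (h231_321 : LC Q231_321)
    (P : Finset (Equiv.Perm (Fin 3))) (hP : P.card = 1 ∨ P.card = 2) (n k : ℕ) (hk : 1 ≤ k) :
    b P n (k - 1) * b P n (k + 1) ≤ b P n k ^ 2 := by
  suffices hLC : LC (fun l => ∀ τ ∈ P, Av (patOf τ) l) by
    rw [b_eq_cnt, b_eq_cnt, b_eq_cnt]
    exact hLC n k hk
  have h213 : LC (Av p213) := LC_rc _ _ (fun n l hl => (av_rc n hl).2.1) h132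
  have h312 : LC (Av p312) := LC_rc _ _ (fun n l hl => (av_rc n hl).2.2.2.1) h231
  rcases hP with hP | hP
  · obtain ⟨τ, rfl⟩ := Finset.card_eq_one.1 hP
    have he : (fun l => ∀ τ' ∈ ({τ} : Finset (Equiv.Perm (Fin 3))), Av (patOf τ') l)
        = Av (patOf τ) := by
      funext l
      simp only [Finset.mem_singleton, forall_eq]
    rw [he]
    rcases patOf_cases τ with h | h | h | h | h | h <;> rw [h] <;> assumption
  · obtain ⟨τ, τ', hne, rfl⟩ := Finset.card_eq_two.1 hP
    have he : (fun l => ∀ τ'' ∈ ({τ, τ'} : Finset (Equiv.Perm (Fin 3))), Av (patOf τ'') l)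
        = (fun l => Av (patOf τ) l ∧ Av (patOf τ') l) := by
      funext l
      simp only [Finset.mem_insert, Finset.mem_singleton, forall_eq_or_imp, forall_eq]
    rw [he]
    have sym : ∀ p q : Pat, LC (fun l => Av p l ∧ Av q l) → LC (fun l => Av q l ∧ Av p l) := by
      intro p q h
      have : (fun l => Av q l ∧ Av p l) = (fun l => Av p l ∧ Av q l) := by
        funext l
        exact propext and_comm
      rw [this]
      exact h
    -- the fifteen pairs
    have a1 : LC (fun l => Av p123 l ∧ Av p132 l) := sym _ _ h132_123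
    have a2 : LC (fun l => Av p123 l ∧ Av p213 l) :=
      LC_rc (fun l => Av p123 l ∧ Av p132 l) _
        (fun n l hl => and_congr (av_rc n hl).1 (av_rc n hl).2.1) a1
    have a3 : LC (fun l => Av p132 l ∧ Av p213 l) := h132_213
    have a4 : LC (fun l => Av p123 l ∧ Av p231 l) := sym _ _ h231_123
    have a5 : LC (fun l => Av p123 l ∧ Av p312 l) :=
      LC_rc (fun l => Av p123 l ∧ Av p231 l) _
        (fun n l hl => and_congr (av_rc n hl).1 (av_rc n hl).2.2.2.1) a4
    have a6 : LC (fun l => Av p123 l ∧ Av p321 l) := h123_321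
    have a7 : LC (fun l => Av p132 l ∧ Av p231 l) := h132_231
    have a8 : LC (fun l => Av p213 l ∧ Av p312 l) :=
      LC_rc (fun l => Av p132 l ∧ Av p231 l) _
        (fun n l hl => and_congr (av_rc n hl).2.1 (av_rc n hl).2.2.2.1) a7
    have a9 : LC (fun l => Av p132 l ∧ Av p312 l) := h132_312
    have a10 : LC (fun l => Av p213 l ∧ Av p231 l) :=
      LC_rc (fun l => Av p132 l ∧ Av p312 l) _
        (fun n l hl => and_congr (av_rc n hl).2.1 (av_rc n hl).2.2.2.2.1) a9
    have a11 : LC (fun l => Av p132 l ∧ Av p321 l) := h132_321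
    have a12 : LC (fun l => Av p213 l ∧ Av p321 l) :=
      LC_rc (fun l => Av p132 l ∧ Av p321 l) _
        (fun n l hl => and_congr (av_rc n hl).2.1 (av_rc n hl).2.2.2.2.2) a11
    have a13 : LC (fun l => Av p231 l ∧ Av p312 l) := h231_312
    have a14 : LC (fun l => Av p231 l ∧ Av p321 l) := h231_321
    have a15 : LC (fun l => Av p312 l ∧ Av p321 l) :=
      LC_rc (fun l => Av p231 l ∧ Av p321 l) _
        (fun n l hl => and_congr (av_rc n hl).2.2.2.1 (av_rc n hl).2.2.2.2.2) a14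
    have hne' : patOf τ ≠ patOf τ' := fun h => hne (patOf_injective h)
    rcases patOf_cases τ with h | h | h | h | h | h <;>
      rcases patOf_cases τ' with h' | h' | h' | h' | h' | h' <;>
      rw [h, h'] at hne' ⊢ <;>
      first
        | exact absurd rfl hne'
        | assumption
        | (apply sym; assumption)

end BD
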