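import Pool.Agent.MP_8b309d_co.AhComp
import Pool.Agent.MP_8b309d_co.C132gf

/-!
Log-concavity for the class {132}
-/

namespace BD.T

/-- the array along `(e,o) = (j,j+1)` -/
noncomputable def fk (n k j : ℤ) : ℚ := Ah n j (j + 1) (k - j)

theorem outer (n k p q : ℤ) :
    fk n (k - 1) p * fk n (k + 1) q ≤ fk n k ((p + q) / 2) * fk n k (p + q - (p + q) / 2) := by
  unfold fk
  rcases lt_or_ge (q - p) 4 with h4 | h4
  · rcases lt_or_ge (q - p) (-1) with hm | hm
    · -- E ≤ -2
      obtain ⟨i, hi⟩ := Int.eq_ofNat_of_zero_le (show (0 : ℤ) ≤ (p - q) / 2 - 1 by omega)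
      obtain ⟨j, hj⟩ := Int.eq_ofNat_of_zero_le
        (show (0 : ℤ) ≤ (p - q) - (p - q) / 2 - 1 by omega)
      have h := R_cc_gen n 1 1 (-2) (R_vu n) (R_uu n) (by norm_num) (by norm_num) (by norm_num)
        (by norm_num) (by norm_num) i j q (q + 1) (k + 1 - q)
      have e1 : q + (1 + (i : ℤ)) + (1 + (j : ℤ)) = p := by omega
      have e2 : q + 1 + (1 + (i : ℤ)) + (1 + (j : ℤ)) = p + 1 := by omega
      have e3 : k + 1 - q + (-2 - (i : ℤ)) + (-2 - (j : ℤ)) = k - 1 - p := by omega
      have e4 : q + (1 + (i : ℤ)) = (p + q) / 2 := by omega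
      have e5 : q + 1 + (1 + (i : ℤ)) = (p + q) / 2 + 1 := by omega
      have e6 : k + 1 - q + (-2 - (i : ℤ)) = k - (p + q) / 2 := by omega
      have e7 : q + (1 + (j : ℤ)) = p + q - (p + q) / 2 := by omega
      have e8 : q + 1 + (1 + (j : ℤ)) = p + q - (p + q) / 2 + 1 := by omega
      have e9 : k + 1 - q + (-2 - (j : ℤ)) = k - (p + q - (p + q) / 2) := by omega
      rw [e1, e2, e3, e4, e5, e6, e7, e8, e9] at h
      rw [mul_comm (Ah n p (p + 1) (k - 1 - p))]
      exact h
    · -- E = -1,0,1,2,3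
      have hE : q = p - 1 ∨ p = q ∨ q = p + 1 ∨ q = p + 2 ∨ q = p + 3 := by omega
      rcases hE with hE | hE | hE | hE | hE
      · subst hE
        have h := R_Ku n (p - 1) (p - 1 + 1) (k + 1 - (p - 1))
        have e1 : p - 1 + 0 + 1 = p := by omega
        have e2 : p - 1 + 1 + 0 + 1 = p + 1 := by omega
        have e3 : k + 1 - (p - 1) + -1 + -2 = k - 1 - p := by omega
        have e4 : p - 1 + 0 = (p + (p - 1)) / 2 := by omega
        have e5 : p - 1 + 1 + 0 = (p + (p - 1)) / 2 + 1 := by omega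
        have e6 : k + 1 - (p - 1) + -1 = k - (p + (p - 1)) / 2 := by omega
        have e7 : p - 1 + 1 = p + (p - 1) - (p + (p - 1)) / 2 := by omega
        have e8 : p - 1 + 1 + 1 = p + (p - 1) - (p + (p - 1)) / 2 + 1 := by omega
        have e9 : k + 1 - (p - 1) + -2 = k - (p + (p - 1) - (p + (p - 1)) / 2) := by omega
        have h' : Ah n (p - 1) (p - 1 + 1) (k + 1 - (p - 1)) * Ah n p (p + 1) (k - 1 - p)
            ≤ Ah n ((p + (p - 1)) / 2) ((p + (p - 1)) / 2 + 1) (k - (p + (p - 1)) / 2)
              * Ah n (p + (p - 1) - (p + (p - 1)) / 2) (p + (p - 1) - (p + (p - 1)) / 2 + 1)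
                (k - (p + (p - 1) - (p + (p - 1)) / 2)) := by
          calc _ = Ah n (p - 1) (p - 1 + 1) (k + 1 - (p - 1))
              * Ah n (p - 1 + 0 + 1) (p - 1 + 1 + 0 + 1) (k + 1 - (p - 1) + -1 + -2) := by
                rw [e1, e2, e3]
            _ ≤ _ := h
            _ = _ := by rw [e5, e4, e6, e8, e7, e9]
        rw [mul_comm (Ah n p (p + 1) (k - 1 - p))]
        exact h'
      · subst hE
        have h := R_kk n p (p + 1) (k - 1 - p)
        have e0 : (p + p) / 2 = p := by omega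
        rw [e0]
        have e1 : p + 0 + 0 = p := by omega
        have e2 : p + 1 + 0 + 0 = p + 1 := by omega
        have e3 : k - 1 - p + 1 + 1 = k + 1 - p := by omega
        have e4 : p + 0 = p := by omega
        have e5 : p + 1 + 0 = p + 1 := by omega
        have e6 : k - 1 - p + 1 = k - p := by omega
        rw [e1, e2, e3, e4, e5, e6] at h
        have e7 : p + p - p = p := by omega
        rw [e7]
        exact h
      · subst hE
        have h := R_ky n p (p + 1) (k - 1 - p)
        have e0 : (p + (p + 1)) / 2 = p := by omega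
        rw [e0]
        have e1 : p + 0 + 1 = p + 1 := by omega
        have e2 : p + 1 + 0 + 1 = p + 1 + 1 := by omega
        have e3 : k - 1 - p + 1 + 0 = k + 1 - (p + 1) := by omega
        have e4 : p + 0 = p := by omega
        have e5 : p + 1 + 0 = p + 1 := by omega
        have e6 : k - 1 - p + 1 = k - p := by omega
        have e7 : p + (p + 1) - p = p + 1 := by omega
        have e8 : k - 1 - p + 0 = k - (p + 1) := by omega
        rw [e1, e2, e3, e4, e5, e6, e8] at h
        rw [e7]
        exact h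
      · subst hE
        have h := R_yy n p (p + 1) (k - 1 - p)
        have e0 : (p + (p + 2)) / 2 = p + 1 := by omega
        rw [e0]
        have e1 : p + 1 + 1 = p + 2 := by omega
        have e2 : p + 1 + 1 + 1 = p + 2 + 1 := by omega
        have e3 : k - 1 - p + 0 + 0 = k + 1 - (p + 2) := by omega
        have e6 : k - 1 - p + 0 = k - (p + 1) := by omega
        have e7 : p + (p + 2) - (p + 1) = p + 1 := by omega
        rw [e3, e6] at h
        rw [e7]
        rw [e2, e1] at h
        rw [show p + 1 + 1 = p + 2 by omega]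
        exact h
      · subst hE
        have h := rel_symm (R_by n) p (p + 1) (k - 1 - p)
        have e0 : (p + (p + 3)) / 2 = p + 1 := by omega
        rw [e0]
        have e1 : p + 1 + 2 = p + 3 := by omega
        have e2 : p + 1 + 1 + 2 = p + 3 + 1 := by omega
        have e3 : k - 1 - p + 0 + -1 = k + 1 - (p + 3) := by omega
        have e6 : k - 1 - p + 0 = k - (p + 1) := by omega
        have e7 : p + (p + 3) - (p + 1) = p + 2 := by omega
        have e8 : k - 1 - p + -1 = k - (p + 2) := by omega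
        rw [e3, e6, e8] at h
        rw [e7]
        rw [e2] at h
        have e9 : Ah n (p + 1 + 2) (p + 3 + 1) (k + 1 - (p + 3))
            = Ah n (p + 3) (p + 3 + 1) (k + 1 - (p + 3)) := by rw [e1]
        rw [e9] at h
        have e10 : Ah n (p + 2) (p + 1 + 2) (k - (p + 2))
            = Ah n (p + 2) (p + 2 + 1) (k - (p + 2)) := by
          rw [show p + 1 + 2 = p + 2 + 1 by omega]
        rw [e10] at h
        exact h
  · -- E ≥ 4
    obtain ⟨i, hi⟩ := Int.eq_ofNat_of_zero_le (show (0 : ℤ) ≤ (q - p) / 2 - 2 by omega)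
    obtain ⟨j, hj⟩ := Int.eq_ofNat_of_zero_le
      (show (0 : ℤ) ≤ (q - p) - (q - p) / 2 - 2 by omega)
    have h := R_cc_gen n 2 2 (-1) (R_vb n) (R_bb n) (by norm_num) (by norm_num) (by norm_num)
      (by norm_num) (by norm_num) i j p (p + 1) (k - 1 - p)
    have e1 : p + (2 + (i : ℤ)) + (2 + (j : ℤ)) = q := by omega
    have e2 : p + 1 + (2 + (i : ℤ)) + (2 + (j : ℤ)) = q + 1 := by omega
    have e3 : k - 1 - p + (-1 - (i : ℤ)) + (-1 - (j : ℤ)) = k + 1 - q := by omega
    have e4 : p + (2 + (i : ℤ)) = (p + q) / 2 := by omega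
    have e5 : p + 1 + (2 + (i : ℤ)) = (p + q) / 2 + 1 := by omega
    have e6 : k - 1 - p + (-1 - (i : ℤ)) = k - (p + q) / 2 := by omega
    have e7 : p + (2 + (j : ℤ)) = p + q - (p + q) / 2 := by omega
    have e8 : p + 1 + (2 + (j : ℤ)) = p + q - (p + q) / 2 + 1 := by omega
    have e9 : k - 1 - p + (-1 - (j : ℤ)) = k - (p + q - (p + q) / 2) := by omega
    rw [e1, e2, e3, e4, e5, e6, e7, e8, e9] at h
    exact h

theorem fk_nonneg (n k j : ℤ) : 0 ≤ fk n k j := Ah_nonneg _ _ _ _

theorem fk_support (n k : ℤ) : (Function.support (fk n k)) ⊆ Set.Icc 0 k := by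
  intro j hj
  have h := Ah_supp hj
  unfold Supp at h
  constructor <;> omega

theorem fk_finite (n k : ℤ) : (Function.support (fk n k)).Finite :=
  (Set.finite_Icc 0 k).subset (fk_support n k)

theorem fk_LC (n k : ℤ) :
    (∑ᶠ j, fk n (k - 1) j) * (∑ᶠ j, fk n (k + 1) j) ≤ (∑ᶠ j, fk n k j) * (∑ᶠ j, fk n k j) :=
  KL_finsum _ _ _ _ (fun _ => fk_nonneg _ _ _) (fun _ => fk_nonneg _ _ _)
    (fun _ => fk_nonneg _ _ _) (fun _ => fk_nonneg _ _ _) (fk_finite _ _) (fk_finite _ _)
    (fk_finite _ _) (fk_finite _ _) (fun p q => outer n k p q)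

end BD.T
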