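import Pool.Agent.MP_8b309d_co.P132

namespace BD.T

open Finset

theorem fact_cast_ne (m : ℕ) : (m.factorial : ℚ) ≠ 0 := by
  exact_mod_cast Nat.factorial_ne_zero m

theorem choose_cast (a c : ℕ) : ((a + c).choose a : ℚ)
    = ((a + c).factorial : ℚ) / ((a.factorial : ℚ) * (c.factorial : ℚ)) := by
  rw [eq_div_iff (mul_ne_zero (fact_cast_ne _) (fact_cast_ne _))]
  have := Nat.add_choose_mul_factorial_mul_factorial a c
  rw [← this, Nat.choose_symm_add]
  push_cast
  ring

theorem catalan_cast (j : ℕ) : (catalan j : ℚ)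
    = ((2 * j).factorial : ℚ) / ((j.factorial : ℚ) * ((j + 1).factorial : ℚ)) := by
  have h1 := succ_mul_catalan_eq_centralBinom j
  have h2 : ((j + 1 : ℕ) : ℚ) * (catalan j : ℚ) = (j.centralBinom : ℚ) := by exact_mod_cast h1
  have h3 : (j.centralBinom : ℚ) = ((2 * j).factorial : ℚ) / ((j.factorial : ℚ) * (j.factorial : ℚ)) := by
    rw [Nat.centralBinom, two_mul]
    exact choose_cast j j
  rw [h3] at h2
  rw [Nat.factorial_succ]
  have h4 : ((j + 1 : ℕ) : ℚ) ≠ 0 := by positivity
  have h5 := fact_cast_ne j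
  rw [eq_div_iff (by positivity)] at h2 ⊢
  push_cast at h2 ⊢
  nlinarith [h2]

/-- value of the term in natural coordinates -/
theorem t_value (w q p a j : ℕ) (hj : j = a + p) :
    t w q p a j = (catalan j : ℚ) * (j.choose p : ℚ) * ((2 * j + q).choose q : ℚ)
      * ((w + a + 2 * q + 2 * p + 2 * j + 1).choose (a + 2 * q + 2 * p + 2 * j + 1) : ℚ) := by
  have c1 : (j.choose p : ℚ) = (j.factorial : ℚ) / ((p.factorial : ℚ) * (a.factorial : ℚ)) := by
    rw [hj, add_comm a p]; exact choose_cast p a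
  have c2 : ((2 * j + q).choose q : ℚ)
      = ((2 * j + q).factorial : ℚ) / ((q.factorial : ℚ) * ((2 * j).factorial : ℚ)) := by
    rw [add_comm (2 * j) q]; exact choose_cast q (2 * j)
  have c3 : ((w + a + 2 * q + 2 * p + 2 * j + 1).choose (a + 2 * q + 2 * p + 2 * j + 1) : ℚ)
      = ((w + a + 2 * q + 2 * p + 2 * j + 1).factorial : ℚ)
        / (((a + 2 * q + 2 * p + 2 * j + 1).factorial : ℚ) * (w.factorial : ℚ)) := by
    have := choose_cast (a + 2 * q + 2 * p + 2 * j + 1) w
    rw [show a + 2 * q + 2 * p + 2 * j + 1 + w = w + a + 2 * q + 2 * p + 2 * j + 1 by ring] at this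
    exact this
  rw [c1, c2, c3, catalan_cast]
  unfold t F I
  rw [show a + q + p + j = 2 * j + q by omega]
  have n1 := fact_cast_ne j
  have n2 := fact_cast_ne (j + 1)
  have n3 := fact_cast_ne p
  have n4 := fact_cast_ne a
  have n5 := fact_cast_ne q
  have n6 := fact_cast_ne (2 * j)
  have n7 := fact_cast_ne (a + 2 * q + 2 * p + 2 * j + 1)
  have n8 := fact_cast_ne w
  field_simp

/-- value of `T` on the line `(j,j+1)` -/
theorem T_value (n j κ p : ℕ) (hp : p ≤ κ) :
    T (n : ℤ) (j : ℤ) ((j : ℤ) + 1) (κ : ℤ) (p : ℤ)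
      = (catalan j : ℚ) * (((j.choose p * (2 * j + (κ - p)).choose (κ - p)
          * (n + j).choose (3 * j + 1 + 2 * κ - p) : ℕ)) : ℚ) := by
  by_cases hpj : p ≤ j
  · by_cases hw : 2 * j + 1 + 2 * κ ≤ n + p
    · obtain ⟨w, hw'⟩ := Nat.exists_eq_add_of_le hw
      obtain ⟨a, ha⟩ := Nat.exists_eq_add_of_le hpj
      obtain ⟨q, hq⟩ := Nat.exists_eq_add_of_le hp
      rw [T_eq (w := w) (q := q) (pp := p) (a := a) (oo := j) (by push_cast; omega)
        (by push_cast; omega) rfl (by push_cast; omega) rfl]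
      rw [t_value w q p a j (by omega)]
      have e1 : κ - p = q := by omega
      have e2 : 3 * j + 1 + 2 * κ - p = a + 2 * q + 2 * p + 2 * j + 1 := by omega
      have e3 : n + j = w + a + 2 * q + 2 * p + 2 * j + 1 := by omega
      rw [e1, e2, e3]
      push_cast
      ring
    · have hz : (n + j).choose (3 * j + 1 + 2 * κ - p) = 0 := by
        apply Nat.choose_eq_zero_of_lt
        omega
      rw [hz]
      simp only [mul_zero, Nat.cast_zero]
      by_contra hne
      have := T_ne hne
      omega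
  · have hz : j.choose p = 0 := Nat.choose_eq_zero_of_lt (by omega)
    rw [hz]
    simp only [zero_mul, Nat.cast_zero, mul_zero]
    by_contra hne
    have := T_ne hne
    omega

theorem Ah_value (n j κ : ℕ) :
    Ah (n : ℤ) (j : ℤ) ((j : ℤ) + 1) (κ : ℤ)
      = (catalan j : ℚ) * ((∑ p ∈ range (κ + 1), j.choose p * (2 * j + (κ - p)).choose (κ - p)
          * (n + j).choose (3 * j + 1 + 2 * κ - p) : ℕ) : ℚ) := by
  unfold Ah
  rw [finsum_eq_sum_of_support_subset (s := (range (κ + 1)).map Nat.castEmbedding)]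
  · rw [sum_map]
    push_cast
    rw [mul_sum]
    apply sum_congr rfl
    intro p hp
    rw [mem_range] at hp
    have := T_value n j κ p (by omega)
    simp only [Nat.castEmbedding_apply]
    rw [this]
    push_cast
    ring
  · intro p hp
    have h := T_ne hp
    simp only [coe_map, Set.mem_image, mem_coe, mem_range, Nat.castEmbedding_apply]
    exact ⟨p.toNat, by omega, by omega⟩

theorem fk_sum (n k : ℕ) : ∑ᶠ j : ℤ, fk (n : ℤ) (k : ℤ) j = (b132 n k : ℚ) := by
  rw [finsum_eq_sum_of_support_subset (s := (range (k + 1)).map Nat.castEmbedding)]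
  · rw [sum_map]
    unfold b132
    push_cast
    apply sum_congr rfl
    intro j hj
    rw [mem_range] at hj
    simp only [Nat.castEmbedding_apply]
    unfold fk
    rw [show (k : ℤ) - (j : ℤ) = ((k - j : ℕ) : ℤ) by omega, Ah_value]
    push_cast
    rfl
  · intro j hj
    have h := fk_support _ _ hj
    simp only [Set.mem_Icc] at h
    simp only [coe_map, Set.mem_image, mem_coe, mem_range, Nat.castEmbedding_apply]
    exact ⟨j.toNat, by omega, by omega⟩

theorem b132_LC (n k : ℕ) (hk : 1 ≤ k) :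
    b132 n (k - 1) * b132 n (k + 1) ≤ b132 n k ^ 2 := by
  have h := fk_LC (n : ℤ) (k : ℤ)
  have e1 : (k : ℤ) - 1 = ((k - 1 : ℕ) : ℤ) := by omega
  have e2 : (k : ℤ) + 1 = ((k + 1 : ℕ) : ℤ) := by omega
  rw [e1, e2, fk_sum, fk_sum, fk_sum, ← sq] at h
  exact_mod_cast h

end BD.T

namespace BD

theorem LC_132 : LC (Av p132) := by
  intro n k hk
  rcases Nat.eq_zero_or_pos n with hn | hn
  · -- n = 0 : only k = 0 contributes
    subst hn
    have h0 : cnt (Av p132) 0 (k + 1) = 0 := by
      have h := AA_coeff (Av p132) 0 (k + 1)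
      rw [AA_zero (Av p132) (Av_nil _)] at h
      have h1 : (1 : Polynomial ℚ).coeff (k + 1) = 0 := by
        rw [Polynomial.coeff_one, if_neg (by omega)]
      rw [h1] at h
      exact_mod_cast h.symm
    rw [h0, mul_zero]
    exact Nat.zero_le _
  · have e : ∀ k, cnt (Av p132) n k = b132 n k := by
      intro k
      have h1 := AA_coeff (Av p132) n k
      rw [AA132_formula n k hn] at h1
      exact_mod_cast h1.symm
    rw [e, e, e]
    exact T.b132_LC n k hk

end BD
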