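import Pool.Agent.MP_8b309d_co.E123
import Pool.Agent.MP_8b309d_co.CQuad

/-!
# Row BD-S123A : generating function of the words avoiding 123
-/

namespace BD

open PowerSeries

section
variable {R : Type*} [CommRing R]

/-- `Z = S (1+a)` with `(1 - x σ)(1+a) = 1`: coefficients as convolution sums -/
theorem S123A_geom (a σ : R⟦X⟧) (h1 : 1 + a = 1 + X * σ * (1 + a)) (h : ℕ) :
    ∀ S : R⟦X⟧, ∑ j ∈ Finset.range (h + 1), coeff (h - j) (S * σ ^ j) = coeff h (S * (1 + a)) := by
  induction h with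
  | zero =>
    intro S
    have e : S * (1 + a) = S + X * (S * σ * (1 + a)) := by
      conv_lhs => rw [h1]
      ring
    rw [e, map_add, coeff_zero_X_mul, add_zero]
    simp
  | succ h ih =>
    intro S
    have e : S * (1 + a) = S + X * (S * σ * (1 + a)) := by
      conv_lhs => rw [h1]
      ring
    rw [e, map_add, coeff_succ_X_mul, ← ih (S * σ), Finset.sum_range_succ']
    rw [add_comm]
    congr 1
    · simp
    · apply Finset.sum_congr rfl
      intro j _
      rw [Nat.succ_sub_succ, pow_succ']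
      congr 1
      ring

theorem S123A_geom' (a σ : R⟦X⟧) (h1 : 1 + a = 1 + X * σ * (1 + a)) (h : ℕ) (S : R⟦X⟧) :
    ∑ j ∈ Finset.range h, coeff (h - 1 - j) (S * σ ^ j) = coeff h (X * (S * (1 + a))) := by
  cases h with
  | zero => simp
  | succ h =>
    rw [coeff_succ_X_mul, ← S123A_geom a σ h1]
    simp only [Nat.add_sub_cancel]

theorem S123A_geomIcc (a σ : R⟦X⟧) (h1 : 1 + a = 1 + X * σ * (1 + a)) (h : ℕ) (S : R⟦X⟧) :
    ∑ j ∈ Finset.Icc 1 h, coeff (h - j) (S * σ ^ (j - 1)) = coeff h (X * (S * (1 + a))) := by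
  rw [← S123A_geom' a σ h1]
  have : Finset.Icc 1 h = Finset.Ico 1 (h + 1) := by
    ext j; simp only [Finset.mem_Icc, Finset.mem_Ico]; omega
  rw [this, Finset.sum_Ico_eq_sum_range]
  apply Finset.sum_congr (by simp)
  intro j _
  have e1 : 1 + j - 1 = j := by omega
  have e2 : h - (1 + j) = h - 1 - j := by omega
  rw [e1, e2]

end

/-- products of the factors -/
noncomputable def S123A_P {S : Type*} [CommRing S] (σ ρ : S) (α : List Bool) : S :=
  (α.map (fun b => if b = true then σ else ρ)).prod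

theorem S123A_P_nil {S : Type*} [CommRing S] (σ ρ : S) : S123A_P σ ρ [] = 1 := rfl

theorem S123A_P_cons {S : Type*} [CommRing S] (σ ρ : S) (b : Bool) (α : List Bool) :
    S123A_P σ ρ (b :: α) = (if b = true then σ else ρ) * S123A_P σ ρ α := by
  unfold S123A_P
  rw [List.map_cons, List.prod_cons]

theorem S123A_P_rep {S : Type*} [CommRing S] (σ ρ : S) (j : ℕ) :
    S123A_P σ ρ (List.replicate j true) = σ ^ j := by
  unfold S123A_P
  rw [List.map_replicate, List.prod_replicate, if_pos rfl]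

theorem S123A_P_jmp {S : Type*} [CommRing S] (σ ρ : S) (α : List Bool) (j : ℕ) :
    S123A_P σ ρ (jmp α (j + 1)) = S123A_P σ ρ α * ρ * σ ^ j := by
  have e : jmp α (j + 1) = α ++ false :: List.replicate j true := by
    unfold jmp
    rw [if_neg (Nat.succ_ne_zero j), Nat.add_sub_cancel]
  rw [e]
  unfold S123A_P
  rw [List.map_append, List.prod_append, List.map_cons, List.prod_cons, List.map_replicate,
    List.prod_replicate, if_pos rfl, if_neg (by decide), mul_assoc]

theorem S123A_jmp0 (α : List Bool) : jmp α 0 = α := by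
  unfold jmp; rw [if_pos rfl]

/-- the sum over the jumps -/
theorem S123A_jump {R : Type*} [CommRing R] (a σ ρ M : R⟦X⟧) (h1 : 1 + a = 1 + X * σ * (1 + a))
    (h : ℕ) (α : List Bool) (w : R) :
    ∑ j ∈ Finset.range h, (if j = 0 then 1 else w) *
      coeff (h - 1 - j) (M * S123A_P σ ρ (jmp α j)) =
      coeff h (X * (M * S123A_P σ ρ α)) +
        w * coeff h (X * (X * (M * (S123A_P σ ρ α * ρ) * (1 + a)))) := by
  cases h with
  | zero => simp
  | succ h =>
    rw [Finset.sum_range_succ', if_pos rfl, one_mul, S123A_jmp0, coeff_succ_X_mul,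
      coeff_succ_X_mul, ← S123A_geom' a σ h1, Finset.mul_sum, add_comm]
    congr 1
    apply Finset.sum_congr rfl
    intro j _
    rw [if_neg (Nat.succ_ne_zero j), S123A_P_jmp]
    have e : h + 1 - 1 - (j + 1) = h - 1 - j := by omega
    rw [e]
    congr 2
    ring

/-- the system is solved by the coefficients -/
theorem S123A_sys (a t σ ρ M V : (Polynomial ℚ)⟦X⟧) (ht : t = C (Polynomial.X : Polynomial ℚ))
    (h1 : 1 + a = 1 + X * σ * (1 + a)) (ha0 : coeff 0 a = 0)
    (hp0 : 1 + a = 1 + X * (1 + a + t * (X * (M * (1 + a)))))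
    (hpm : M = V + X * M + t * (X * (X * (M * ρ * (1 + a)))))
    (hv0 : V = 1 + X * (t * (1 + a) + t * (X * (M * (1 + a)))))
    (hv1 : V * σ = V + t * (X * M + X * (X * (M * ρ * (1 + a)))))
    (hv2 : V * ρ = t * V + t * (X * M + X * (X * (M * ρ * (1 + a))))) :
    Sys123 (fun h => coeff h (1 + a)) (fun α h => coeff h (M * S123A_P σ ρ α))
      (fun α h => coeff h (V * S123A_P σ ρ α)) := by
  have hC : ∀ (h : ℕ) (S : (Polynomial ℚ)⟦X⟧),
      Polynomial.X * coeff h S = coeff h (t * S) := by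
    intro h S
    rw [ht, coeff_C_mul]
  refine { p00 := ?_, p0 := ?_, pm := ?_, pv00 := ?_, pv0 := ?_, pv := ?_ }
  · rw [map_add, ha0, add_zero, coeff_zero_one]
  · intro h
    simp only [S123A_P_rep]
    rw [S123A_geomIcc a σ h1, hC, ← map_add]
    conv_lhs => rw [hp0]
    rw [map_add, coeff_one, if_neg (Nat.succ_ne_zero h), zero_add, coeff_succ_X_mul]
  · intro α h
    rw [S123A_jump a σ ρ M h1, hC, ← map_add, ← map_add]
    congr 1
    linear_combination (S123A_P σ ρ α) * hpm
  · rw [S123A_P_nil, mul_one, hv0, map_add, coeff_zero_one, coeff_zero_X_mul, add_zero]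
  · intro h
    simp only [S123A_P_rep]
    rw [S123A_geomIcc a σ h1, hC, hC, ← map_add, S123A_P_nil, mul_one]
    conv_lhs => rw [hv0]
    rw [map_add, coeff_one, if_neg (Nat.succ_ne_zero h), zero_add, coeff_succ_X_mul]
  · intro b α h
    have hj := S123A_jump a σ ρ M h1 h α 1
    simp only [ite_self, one_mul] at hj
    rw [hj, ← map_add, hC, S123A_P_cons]
    cases b with
    | true =>
      rw [if_pos rfl, if_pos rfl, one_mul, ← map_add]
      congr 1
      linear_combination (S123A_P σ ρ α) * hv1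
    | false =>
      rw [if_neg (by decide), if_neg (by decide), hC, ← map_add]
      congr 1
      linear_combination (S123A_P σ ρ α) * hv2

/-- `Σ_n A_{n+1} x^n = (1+a)²` where `a = x (1+a)(1+t a)`.

Proof.  `a` exists by `quad_exists` (`a = x + x((1+t) a + t a²)`), constant term `0`.  Let
`σ = 1 + t a`, `ρ = t (1+a)`, `M = (1+a)(1+t a)` (so `x M = a`), `V = 1 + x t (1+a)²`,
`φ(true) = σ`, `φ(false) = ρ`.  Note `(1 - x σ)(1 + a) = 1`.
`P0 h = coeff h (1+a)`, `Pm α h = coeff h (M PP φ(α_i))`, `Pv α h = coeff h (V PP φ(α_i))`.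
For a series `S`: `Z = S (1+a)` satisfies `Z = S + x σ Z`, hence
`coeff h (S (1+a)) = Σ_{j ≤ h} coeff (h-j) (S σ^j)`.  So the sums in `Sys123` are coefficients of
`x · M (1+a)` resp. `PP (x M + x² t... )`:
`p0`: `1 + a = 1 + x (1+a) + t x² M (1+a)`;  `pm`: `M = V + x M + t x² ρ M (1+a)`;
`pv0`: `V = 1 + t x (1+a) + t x² M (1+a)`;
`pv`: `V φ(b) = (1 or t) V + t x M + t x² ρ M (1+a)`, i.e. `V t a = t x M + t x² ρ M (1+a)` since
`σ - 1 = t a = ρ - t`.  All follow from `x M = a`, `a = x(1+a)(1+ta)`, e.g. the last: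
`V a = a (1 + x t (1+a)²)`.
`E123_main`: `A_{n+1} = coeff n ((1+a) + x M (1+a)) = coeff n ((1+a)²)`. -/
theorem gf123 : ∃ a : PowerSeries (Polynomial ℚ),
    a = X * (1 + a) * (1 + C (Polynomial.X : Polynomial ℚ) * a) ∧
    ∀ n, AA (Av p123) (n + 1) = coeff n ((1 + a) ^ 2) := by
  obtain ⟨a, ha⟩ := quad_exists (X : PowerSeries (Polynomial ℚ))
    (1 + C (Polynomial.X : Polynomial ℚ)) (C (Polynomial.X : Polynomial ℚ))
  obtain ⟨t, ht⟩ : ∃ t : PowerSeries (Polynomial ℚ), t = C (Polynomial.X : Polynomial ℚ) := ⟨_, rfl⟩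
  rw [← ht] at ha ⊢
  have ha1 : a = X * (1 + a) * (1 + t * a) := by linear_combination ha
  refine ⟨a, ha1, ?_⟩
  have h1 : 1 + a = 1 + X * (1 + t * a) * (1 + a) := by linear_combination ha1
  have ha0 : coeff 0 a = 0 := by
    rw [ha1, mul_assoc, coeff_zero_X_mul]
  have hsys := S123A_sys a t (1 + t * a) (t * (1 + a)) ((1 + a) * (1 + t * a))
    (1 + X * t * (1 + a) ^ 2) ht h1 ha0
    (by linear_combination (1 + t * X * (1 + a)) * ha1)
    (by linear_combination (1 + t * (1 + a) + t * t * X * (1 + a) ^ 2) * ha1)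
    (by linear_combination (t * X * (1 + a)) * ha1)
    (by linear_combination (t + t * t * X * (1 + a) ^ 2) * ha1)
    (by linear_combination (t + t * t * X * (1 + a) ^ 2) * ha1)
  intro n
  rw [E123_main _ _ _ hsys n]
  simp only [S123A_P_rep]
  rw [S123A_geomIcc a _ h1, ← map_add]
  congr 1
  linear_combination -(1 + a) * ha1

end BD
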