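import Pool.Agent.MP_8b309d_co.SRes
import Pool.Agent.MP_8b309d_co.CQuad

/-!
# Row BD-S123B : the differential equation for {123}
-/

namespace BD.S

open PowerSeries

/-- existence of `a = x + (t + x) a + t a²` in `ℚ⟦x⟧⟦t⟧`:
`quad_exists` over `ℚ⟦x⟧` for `a = x/(1-x) + t (a/(1-x) + a²/(1-x))`; the coefficient of
`t⁰` is `x/(1-x)`, so `cf a 0 0 = 0`. -/
theorem exists_a : ∃ a : S2, a = x + (t + x) * a + t * a ^ 2 ∧ cf a 0 0 = 0 := by
  have hxx : cf x 0 0 = 0 := by rw [cf_x, if_neg (by omega)]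
  obtain ⟨g, hg1, hg2⟩ := exists_geom x nn_x hxx
  obtain ⟨a, ha⟩ := quad_exists (R := PowerSeries ℚ) (x * g) g g
  have ha' : a = x * g + t * (g * a + g * a ^ 2) := ha
  refine ⟨a, ?_, ?_⟩
  · have h1 : a * (1 - x) = x + t * (a + a ^ 2) := by
      conv_lhs => rw [ha']
      linear_combination (x + t * (a + a ^ 2)) * hg1
    linear_combination h1
  · rw [ha', cf_add, cf_t_mul_zero, cf_x_mul_zero, add_zero]

/-- `x H_xx = t H_tt + 3 H_t` for `H = 2a + a²`.

Proof.  `S' = 1 - t - x - 2 t a`, `P = 1 + a`: `a_x S' = P`, `a_t S' = a P`;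
`a_xx S' = 2 a_x (1 + t a_x)`, `a_tt S' = 2 a_t (1 + 2a + t a_t)`.
`H_xx = 2 a_x² + 2 P a_xx`, `H_t = 2 P a_t`, `H_tt = 2 a_t² + 2 P a_tt`.
Multiply the claim by `S'³ / 2`:
`x (P² S' + 2 P² (S' + t P)) = t (a² P² S' + 2 a P² ((1+2a) S' + t a P)) + 3 a P² S'²`.
Use `x P = a (1 - t P)` and `S' P = 1 - t P²` (both follow from the equation of `a`): multiplying
by one more `P` both sides of `x(3S' + 2tP) = t a² S' + 2 t a (1+2a) S' + 2 t² a² P + 3 a S'²`
by `P²` give `a (3 - 3tP - tP² + t²P³)`.  Cancel (`S2` is a domain, `S'`, `P` have constant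
term `1`). -/
theorem pde123 (a : S2) (ha : a = x + (t + x) * a + t * a ^ 2) (h0 : cf a 0 0 = 0) :
    x * dx (dx (2 * a + a ^ 2)) = t * dt (dt (2 * a + a ^ 2)) + 3 * dt (2 * a + a ^ 2) := by
  have hx2 : dx (2 : S2) = 0 := by
    have h := dx_natCast 2
    rwa [Nat.cast_ofNat] at h
  have ht2 : dt (2 : S2) = 0 := by
    have h := dt_natCast 2
    rwa [Nat.cast_ofNat] at h
  -- first derivatives
  have e1 : dx a * (1 - t - x - 2 * t * a) = 1 + a := by
    have h := congrArg dx ha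
    rw [pow_two, dx_add, dx_add, dx_mul, dx_mul, dx_mul, dx_add, dx_t, dx_x] at h
    linear_combination h
  have e2 : dt a * (1 - t - x - 2 * t * a) = a * (1 + a) := by
    have h := congrArg dt ha
    rw [pow_two, dt_add, dt_add, dt_mul, dt_mul, dt_mul, dt_add, dt_t, dt_x] at h
    linear_combination h
  have e3 : dx (dx a) * (1 - t - x - 2 * t * a) = 2 * dx a * (1 + t * dx a) := by
    have h := congrArg dx e1
    rw [dx_mul, dx_sub, dx_sub, dx_sub, dx_one, dx_mul, dx_mul, hx2, dx_t, dx_x, dx_add, dx_one] at h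
    linear_combination h
  have e4 : dt (dt a) * (1 - t - x - 2 * t * a) = 2 * dt a * (1 + 2 * a + t * dt a) := by
    have h := congrArg dt e2
    rw [dt_mul, dt_sub, dt_sub, dt_sub, dt_one, dt_mul, dt_mul, ht2, dt_t, dt_x, dt_mul, dt_add,
      dt_one] at h
    linear_combination h
  have hHx : dx (2 * a + a ^ 2) = 2 * ((1 + a) * dx a) := by
    rw [pow_two, dx_add, dx_mul, dx_mul, hx2]
    ring
  have hHt : dt (2 * a + a ^ 2) = 2 * ((1 + a) * dt a) := by
    rw [pow_two, dt_add, dt_mul, dt_mul, ht2]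
    ring
  have hHxx : dx (dx (2 * a + a ^ 2)) = 2 * (dx a * dx a) + 2 * ((1 + a) * dx (dx a)) := by
    rw [hHx, dx_mul, dx_mul, hx2, dx_add, dx_one]
    ring
  have hHtt : dt (dt (2 * a + a ^ 2)) = 2 * (dt a * dt a) + 2 * ((1 + a) * dt (dt a)) := by
    rw [hHt, dt_mul, dt_mul, ht2, dt_add, dt_one]
    ring
  rw [hHxx, hHtt, hHt]
  generalize hS : (1 - t - x - 2 * t * a) = S at e1 e2 e3 e4
  generalize dx (dx a) = axx at e3 ⊢
  generalize dt (dt a) = att at e4 ⊢
  generalize dx a = ax at e1 e3 ⊢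
  generalize dt a = at1 at e2 e4 ⊢
  generalize hP : 1 + a = P at e1 e2 ⊢
  have f1 : S ^ 3 * (ax * ax) = S * P ^ 2 := by
    rw [← e1]
    ring
  have f2 : S ^ 3 * axx = 2 * P * (S + t * P) := by
    have : S ^ 3 * axx = S ^ 2 * (axx * S) := by ring
    rw [this, e3, ← e1]
    ring
  have f3 : S ^ 3 * (at1 * at1) = S * (a * P) ^ 2 := by
    rw [← e2]
    ring
  have f4 : S ^ 3 * att = 2 * (a * P) * (S * (1 + 2 * a) + t * (a * P)) := by
    have : S ^ 3 * att = S ^ 2 * (att * S) := by ring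
    rw [this, e4, ← e2]
    ring
  have f5 : S ^ 3 * at1 = S ^ 2 * (a * P) := by
    rw [← e2]
    ring
  have g1 : x * P = a * (1 - t * P) := by
    rw [← hP]
    linear_combination (-1 : S2) * ha
  have g2 : S * P = 1 - t * P ^ 2 := by
    have : S * P = P - t * P - x * P - 2 * t * a * P := by rw [← hS]; ring
    rw [this, g1, ← hP]
    ring
  have hcf1 : cf S 0 0 = 1 := by
    have ht0 : cf t 0 0 = 0 := by rw [cf_t, if_neg (by omega)]
    have hx0 : cf x 0 0 = 0 := by rw [cf_x, if_neg (by omega)]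
    have hta : cf (2 * t * a) 0 0 = 0 := by
      have : (2 * t * a : S2) = t * (2 * a) := by ring
      rw [this, cf_t_mul_zero]
    rw [← hS, cf_sub, cf_sub, cf_sub, cf_one, ht0, hx0, hta]
    norm_num
  have hcf2 : cf P 0 0 = 1 := by
    rw [← hP, cf_add, cf_one, h0]
    norm_num
  have hcfm : ∀ f g : S2, cf (f * g) 0 0 = cf f 0 0 * cf g 0 0 := by
    intro f g
    rw [cf_mul]
    simp
  refine eq_of_mul_eq (h := S * S * S * (P * P)) ?_ ?_
  · rw [hcfm, hcfm, hcfm, hcfm, hcf1, hcf2]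
    norm_num
  · have k1 : (x * (2 * (ax * ax) + 2 * (P * axx)) - (t * (2 * (at1 * at1) + 2 * (P * att)) +
        3 * (2 * (P * at1)))) * (S * S * S * (P * P)) =
        2 * P ^ 2 * ((x * P) * (3 * (S * P) + 2 * t * P ^ 2) - t * a ^ 2 * P * (S * P)
          - 2 * t * a * (1 + 2 * a) * P * (S * P) - 2 * t ^ 2 * a ^ 2 * P ^ 3
          - 3 * a * (S * P) ^ 2) := by
      linear_combination (2 * x * P ^ 2) * f1 + (2 * x * P ^ 3) * f2 - (2 * t * P ^ 2) * f3
        - (2 * t * P ^ 3) * f4 - (6 * P ^ 3) * f5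
    rw [k1, g1, g2, ← hP]
    ring

/-- coefficients: `i(i+1) h(i+1,k) = (k+1)(k+3) h(i,k+1)` -/
theorem coeff_rec123 (a : S2) (ha : a = x + (t + x) * a + t * a ^ 2) (h0 : cf a 0 0 = 0)
    (i k : ℕ) :
    (i : ℚ) * ((i : ℚ) + 1) * cf (2 * a + a ^ 2) (i + 1) k
      = ((k : ℚ) + 1) * ((k : ℚ) + 3) * cf (2 * a + a ^ 2) i (k + 1) := by
  have h := congrArg (fun f => cf f i k) (pde123 a ha h0)
  generalize 2 * a + a ^ 2 = H at h ⊢
  have hL : cf (x * dx (dx H)) i k = (i : ℚ) * ((i : ℚ) + 1) * cf H (i + 1) k := by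
    cases i with
    | zero => rw [cf_x_mul_zero]; push_cast; ring
    | succ i =>
      rw [cf_x_mul, cf_dx, cf_dx]
      push_cast
      ring
  have h3 : cf (3 * dt H) i k = 3 * (((k : ℚ) + 1) * cf H i (k + 1)) := by
    have h4 := cf_natCast_mul 3 (dt H) i k
    rw [Nat.cast_ofNat, cf_dt] at h4
    rw [h4]
    norm_num
  have hR : cf (t * dt (dt H)) i k = (k : ℚ) * ((k : ℚ) + 1) * cf H i (k + 1) := by
    cases k with
    | zero => rw [cf_t_mul_zero]; push_cast; ring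
    | succ k =>
      rw [cf_t_mul, cf_dt, cf_dt]
      push_cast
      ring
  rw [cf_add, hL, hR, h3] at h
  rw [h]
  ring

end BD.S
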