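import Pool.Agent.MP_8b309d_co.S123A
import Pool.Agent.MP_8b309d_co.S123B
import Pool.Agent.MP_8b309d_co.EBase
import Pool.Agent.MP_8b309d_co.BdAv

/-!
# Row BD-S123C : log-concavity for {123}
-/

namespace BD

open BD.S

/-- The link: `resc 1 a` (`t ↦ x t`) satisfies `a' = x (1+a')(1+t a')`, and so does `sw a₀` for the
series `a₀` of `gf123`; they are equal (`eq_of_mul_eq`: the difference times
`1 - x(1+t) - x t (a' + a'')` is zero).  So
`A_{n+1}.coeff k = cf ((1+a)²) (n-k) k` for `k ≤ n`, `0` for `k > n`. -/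
theorem AA123_eq (a : S2) (ha : a = x + (t + x) * a + t * a ^ 2) (h0 : cf a 0 0 = 0)
    (n k : ℕ) :
    (AA (Av p123) (n + 1)).coeff k = if k ≤ n then cf ((1 + a) ^ 2) (n - k) k else 0 := by
  obtain ⟨a₀, ha₀, hgf⟩ := gf123
  obtain ⟨sw, hsw, hswX, hswC⟩ := exists_sw
  have h1 : sw a₀ = x * (1 + sw a₀) * (1 + t * sw a₀) := by
    have := congrArg sw ha₀
    simpa only [map_mul, map_add, map_one, hswX, hswC] using this
  have h2 : resc 1 a = x + (x * t + x) * resc 1 a + x * t * resc 1 a ^ 2 := by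
    have := congrArg (resc 1) ha
    simpa only [map_mul, map_add, map_pow, resc_x, resc_t, pow_one] using this
  have h3 : sw a₀ = resc 1 a := by
    apply eq_of_mul_eq (h := 1 - x * (1 + t + t * (sw a₀ + resc 1 a)))
    · rw [cf_sub, cf_x_mul_zero, cf_one]
      norm_num
    · linear_combination h1 - h2
  have h4 : (AA (Av p123) (n + 1)).coeff k = cf (resc 1 ((1 + a) ^ 2)) n k := by
    rw [hgf n, ← hsw, map_pow, map_add, map_one, h3, map_pow, map_add, map_one]
  rw [h4, cf_resc, one_mul]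

/-- Log-concavity: for `n ≥ 1` and `k + 1 ≤ n`, `coeff_rec123` with `i = n-k-1` says
`(n-k-1)(n-k) b(n+1,k) = (k+1)(k+3) b(n+1,k+1)` (note `(1+a)² = 1 + (2a+a²)`, and
`(n-k,k) ≠ (0,0)`); the ratio `(n-k-1)(n-k)/((k+1)(k+3))` is nonincreasing in `k`. -/
theorem LC_123 : LC (Av p123) := by
  obtain ⟨a, ha, h0⟩ := exists_a
  intro n k hk
  rcases n with _ | m
  · have h1 : cnt (Av p123) 0 (k + 1) = 0 := by
      have h2 := AA_coeff (Av p123) 0 (k + 1)
      rw [AA_zero _ (Av_nil _), Polynomial.coeff_one] at h2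
      simp only [Nat.add_eq_zero_iff, one_ne_zero, and_false, if_false] at h2
      exact_mod_cast h2.symm
    rw [h1, mul_zero]
    exact Nat.zero_le _
  · by_cases hkm : k + 1 ≤ m
    · have hB : ∀ j, j ≤ m → (j = 0 → m ≠ 0) →
          (cnt (Av p123) (m + 1) j : ℚ) = cf (2 * a + a ^ 2) (m - j) j := by
        intro j hj hj0
        rw [← AA_coeff, AA123_eq a ha h0, if_pos hj]
        have e1 : (1 + a) ^ 2 = 1 + (2 * a + a ^ 2) := by ring
        rw [e1, cf_add, cf_one, if_neg, zero_add]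
        rintro ⟨e2, e3⟩
        have := hj0 e3
        omega
      have hrec : ∀ j i : ℕ, i + 1 + j = m →
          (i : ℚ) * ((i : ℚ) + 1) * (cnt (Av p123) (m + 1) j : ℚ)
            = ((j : ℚ) + 1) * ((j : ℚ) + 3) * (cnt (Av p123) (m + 1) (j + 1) : ℚ) := by
        intro j i hij
        rw [hB j (by omega) (by omega), hB (j + 1) (by omega) (by omega)]
        have e1 : m - j = i + 1 := by omega
        have e2 : m - (j + 1) = i := by omega
        rw [e1, e2]
        exact coeff_rec123 a ha h0 i j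
      obtain ⟨i, hi⟩ : ∃ i, m = i + 1 + k := ⟨m - 1 - k, by omega⟩
      obtain ⟨l, hl⟩ : ∃ l, k = l + 1 := ⟨k - 1, by omega⟩
      have r1 := hrec k i hi.symm
      have r2 := hrec l (i + 1) (by omega)
      subst hl
      rw [Nat.add_sub_cancel]
      push_cast at r1 r2
      set A : ℚ := (cnt (Av p123) (m + 1) l : ℚ) with hA
      set B : ℚ := (cnt (Av p123) (m + 1) (l + 1) : ℚ) with hBB
      set D : ℚ := (cnt (Av p123) (m + 1) (l + 1 + 1) : ℚ) with hD
      have hl0 : (0 : ℚ) ≤ (l : ℚ) := Nat.cast_nonneg l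
      have hi0 : (0 : ℚ) ≤ (i : ℚ) := Nat.cast_nonneg i
      have key : A * D * (((i : ℚ) + 1) * ((i : ℚ) + 2) * (((l : ℚ) + 2) * ((l : ℚ) + 4))) =
          ((l : ℚ) + 1) * ((l : ℚ) + 3) * ((i : ℚ) * ((i : ℚ) + 1)) * B ^ 2 := by
        linear_combination (((l : ℚ) + 2) * ((l : ℚ) + 4)) * D * r2
          - ((l : ℚ) + 1) * ((l : ℚ) + 3) * B * r1
      have hpos : (0 : ℚ) < ((i : ℚ) + 1) * ((i : ℚ) + 2) * (((l : ℚ) + 2) * ((l : ℚ) + 4)) := by
        positivity
      have hle : ((l : ℚ) + 1) * ((l : ℚ) + 3) * ((i : ℚ) * ((i : ℚ) + 1)) ≤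
          ((i : ℚ) + 1) * ((i : ℚ) + 2) * (((l : ℚ) + 2) * ((l : ℚ) + 4)) := by
        have e1 : ((l : ℚ) + 1) * ((l : ℚ) + 3) ≤ ((l : ℚ) + 2) * ((l : ℚ) + 4) := by nlinarith
        have e2 : (i : ℚ) * ((i : ℚ) + 1) ≤ ((i : ℚ) + 1) * ((i : ℚ) + 2) := by nlinarith
        calc ((l : ℚ) + 1) * ((l : ℚ) + 3) * ((i : ℚ) * ((i : ℚ) + 1))
            ≤ ((l : ℚ) + 2) * ((l : ℚ) + 4) * (((i : ℚ) + 1) * ((i : ℚ) + 2)) :=
              mul_le_mul e1 e2 (by positivity) (by positivity)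
          _ = _ := by ring
      have hfin : A * D ≤ B ^ 2 := by
        have h5 : A * D * (((i : ℚ) + 1) * ((i : ℚ) + 2) * (((l : ℚ) + 2) * ((l : ℚ) + 4))) ≤
            B ^ 2 * (((i : ℚ) + 1) * ((i : ℚ) + 2) * (((l : ℚ) + 2) * ((l : ℚ) + 4))) := by
          rw [key]
          nlinarith [sq_nonneg B]
        exact le_of_mul_le_mul_right h5 hpos
      have : ((cnt (Av p123) (m + 1) l * cnt (Av p123) (m + 1) (l + 1 + 1) : ℕ) : ℚ) ≤
          ((cnt (Av p123) (m + 1) (l + 1) ^ 2 : ℕ) : ℚ) := by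
        push_cast
        exact hfin
      exact_mod_cast this
    · have h1 : cnt (Av p123) (m + 1) (k + 1) = 0 := by
        have h2 := AA_coeff (Av p123) (m + 1) (k + 1)
        rw [AA123_eq a ha h0, if_neg hkm] at h2
        exact_mod_cast h2.symm
      rw [h1, mul_zero]
      exact Nat.zero_le _

end BD
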