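import Pool.Agent.MP_8b309d_co.SBase
import Pool.Agent.MP_8b309d_co.CQuad

/-!
# Row BD-S321A : the algebraic series for {321}
-/

namespace BD.S

open PowerSeries

theorem s321a_mul_upto {f g : S2} {k : ℕ} (hf : ∀ j ≤ k, ∀ n, 0 ≤ cf f n j)
    (hg : ∀ j ≤ k, ∀ n, 0 ≤ cf g n j) : ∀ j ≤ k, ∀ n, 0 ≤ cf (f * g) n j := by
  intro j hj n
  rw [cf_mul]
  refine Finset.sum_nonneg fun p hp => Finset.sum_nonneg fun q _ => ?_
  rw [Finset.HasAntidiagonal.mem_antidiagonal] at hp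
  exact mul_nonneg (hf p.1 (by omega) _) (hg p.2 (by omega) _)

/-- There are series `D`, `Cc` in `(x, τ)` (here `t` plays the role of `τ`) with nonnegative
coefficients, `(1 - 2x) D = τ + D²`, `coeff 0 D = 0` (no term without `τ`) and
`Cc (1 - x - (x + D)²) = 1`.

Proof.  Let `Li = Σ 2^n x^n = 1/(1-2x)`.  `D = Σ_{k ≥ 1} Cat_{k-1} Li^{2k-1} τ^k`: the coefficient
of `τ` is `(1-2x) Li = 1`; for `k ≥ 2`: `(1-2x) Cat_{k-1} Li^{2k-1} = Cat_{k-1} Li^{2k-2}
= Σ_{i+j=k, i,j≥1} Cat_{i-1} Cat_{j-1} Li^{2i-1+2j-1}` (`catalan_succ`).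
`Cc` from `exists_geom` applied to `x + (x+D)²`. -/
theorem exists_D_C : ∃ D Cc : S2, (1 - 2 * x) * D = t + D ^ 2 ∧ coeff 0 D = 0 ∧
    Cc * (1 - x - (x + D) ^ 2) = 1 ∧ nn D ∧ nn Cc := by
  have h2x : nn (2 * x) := by
    have h := nn_mul (nn_natCast 2) nn_x
    rwa [Nat.cast_ofNat] at h
  obtain ⟨g, hg1, hg2⟩ := exists_geom (2 * x) h2x (by
    rw [mul_comm]
    exact cf_x_mul_zero 2 0)
  obtain ⟨G, hG⟩ := quad_exists (R := PowerSeries ℚ) g 0 g
  have hG' : G = g + t * (g * G ^ 2) := by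
    have h : G = g + t * (0 * G + g * G ^ 2) := hG
    rw [zero_mul, zero_add] at h
    exact h
  have hGnn : ∀ k, ∀ j ≤ k, ∀ n, 0 ≤ cf G n j := by
    intro k
    induction k with
    | zero =>
      intro j hj n
      obtain rfl : j = 0 := by omega
      rw [hG', cf_add, cf_t_mul_zero, add_zero]
      exact hg2 n 0
    | succ k ih =>
      intro j hj n
      rcases Nat.lt_or_ge j (k + 1) with h | h
      · exact ih j (by omega) n
      · obtain rfl : j = k + 1 := by omega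
        rw [hG', cf_add, cf_t_mul]
        refine add_nonneg (hg2 n _) ?_
        have h1 : ∀ j ≤ k, ∀ n, 0 ≤ cf (G ^ 2) n j := by
          rw [pow_two]
          exact s321a_mul_upto ih ih
        exact s321a_mul_upto (fun j _ n => hg2 n j) h1 k le_rfl n
  have hDnn : nn (t * G) := nn_mul nn_t (fun n k => hGnn k k le_rfl n)
  have hD0 : coeff 0 (t * G) = 0 := by
    unfold t
    exact PowerSeries.coeff_zero_X_mul G
  have hcf0 : cf (t * G) 0 0 = 0 := cf_t_mul_zero G 0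
  have hxx : cf x 0 0 = 0 := by rw [cf_x, if_neg (by omega)]
  obtain ⟨Cc, hC1, hC2⟩ := exists_geom (x + (x + t * G) ^ 2)
    (nn_add nn_x (nn_pow (nn_add nn_x hDnn) 2)) (by
      rw [cf_add, pow_two, cf_mul, hxx]
      simp [cf_add, hxx, hcf0])
  refine ⟨t * G, Cc, ?_, hD0, ?_, hDnn, hC2⟩
  · have e1 : (1 - 2 * x) * (t * G) = t * ((1 - 2 * x) * G) := by ring
    rw [e1]
    conv_lhs => rw [hG']
    linear_combination (t + t ^ 2 * G ^ 2) * hg1
  · linear_combination hC1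

end BD.S
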