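import Pool.Agent.MP_8b309d_co.SBase

/-!
# Row BD-S321B : the two differential inequalities for {321}
-/

namespace BD.S

open PowerSeries

private theorem s321b_dx_two : dx (2 : S2) = 0 := by
  have h := dx_natCast 2
  exact_mod_cast h

private theorem s321b_dt_two : dt (2 : S2) = 0 := by
  have h := dt_natCast 2
  exact_mod_cast h

private theorem s321b_dx_sq (f : S2) : dx (f ^ 2) = 2 * f * dx f := by
  rw [pow_two, dx_mul]; ring

private theorem s321b_dt_sq (f : S2) : dt (f ^ 2) = 2 * f * dt f := by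
  rw [pow_two, dt_mul]; ring

/-- first derivatives.  `Y = x + D`, `V = 1/(1-2Y)`, `U = (1-2x) V`:
differentiate `(1-2x) D = t + D²`: `-2 D + (1-2x) D_x = 2 D D_x`, so
`(1-2Y) D_x = 2 D`, `(1 - 2Y)(1 + D_x) = 1 - 2x`; `(1-2x) D_t = 1 + 2 D D_t`, so
`(1-2Y) D_t = 1`. -/
theorem first_derivs (D V : S2) (hD : (1 - 2 * x) * D = t + D ^ 2)
    (hV : V * (1 - 2 * (x + D)) = 1) :
    dx (x + D) = (1 - 2 * x) * V ∧ dt (x + D) = V := by
  have h1 := congrArg dx hD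
  have h2 := congrArg dt hD
  rw [dx_mul, dx_sub, dx_mul, dx_add, s321b_dx_sq, dx_one, dx_x, dx_t, s321b_dx_two] at h1
  rw [dt_mul, dt_sub, dt_mul, dt_add, s321b_dt_sq, dt_one, dt_x, dt_t, s321b_dt_two] at h2
  rw [dx_add, dt_add, dx_x, dt_x]
  constructor
  · linear_combination V * h1 + (-(dx D) - 1) * hV
  · linear_combination V * h2 - dt D * hV

/-- the derivatives of `V`, `C` -/
private theorem s321b_derivs (D V Cc : S2) (hD : (1 - 2 * x) * D = t + D ^ 2)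
    (hV : V * (1 - 2 * (x + D)) = 1) (hC : Cc * (1 - x - (x + D) ^ 2) = 1) :
    dx V = 2 * V ^ 2 * ((1 - 2 * x) * V) ∧ dt V = 2 * V ^ 3 ∧
      dx Cc = Cc ^ 2 * (1 + 2 * (x + D) * ((1 - 2 * x) * V)) ∧
      dt Cc = 2 * Cc ^ 2 * (x + D) * V := by
  obtain ⟨hx, ht⟩ := first_derivs D V hD hV
  have a1 := congrArg dx hV
  have a2 := congrArg dt hV
  have a3 := congrArg dx hC
  have a4 := congrArg dt hC
  rw [dx_mul, dx_sub, dx_mul, dx_one, s321b_dx_two, hx] at a1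
  rw [dt_mul, dt_sub, dt_mul, dt_one, s321b_dt_two, ht] at a2
  rw [dx_mul, dx_sub, dx_sub, s321b_dx_sq, dx_one, dx_x, hx] at a3
  rw [dt_mul, dt_sub, dt_sub, s321b_dt_sq, dt_one, dt_x, ht] at a4
  refine ⟨?_, ?_, ?_, ?_⟩
  · linear_combination V * a1 - dx V * hV
  · linear_combination V * a2 - dt V * hV
  · linear_combination Cc * a3 - dx Cc * hC
  · linear_combination Cc * a4 - dt Cc * hC

/-- Identity (1): `C_xx - 4 t C_tt = 2 C² + 2 C³ (1 + 4 Y² + 4 Y U)`, `U = (1-2x) V`.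

Proof.  `C (1 - x - Y²) = 1` gives `C_x = C² (1 + 2 Y U)`, `C_t = 2 Y V C²` (differentiate and
multiply by `C`).  `V_x = 2 V² U` and `U_x = 2 V (U² - 1)`, `V_t = 2 V³`; `4 t V² = U² - 1`
(because `4 t = (1-2x)² - (1-2Y)²`).
`C_xx = 2 C³ (1+2YU)² + 2 C² U² + 4 C² Y V (U²-1)`,
`C_tt = 2 C² V² + 8 Y² C³ V² + 4 Y C² V³`; subtract. -/
theorem identity1 (D V Cc : S2) (hD : (1 - 2 * x) * D = t + D ^ 2)
    (hV : V * (1 - 2 * (x + D)) = 1) (hC : Cc * (1 - x - (x + D) ^ 2) = 1) :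
    dx (dx Cc) - 4 * t * dt (dt Cc)
      = 2 * Cc ^ 2 + 2 * Cc ^ 3 * (1 + 4 * (x + D) ^ 2 + 4 * (x + D) * ((1 - 2 * x) * V)) := by

  obtain ⟨hx, ht⟩ := first_derivs D V hD hV
  obtain ⟨hVx, hVt, hCx, hCt⟩ := s321b_derivs D V Cc hD hV hC
  have hCxx : dx (dx Cc) = 2 * Cc * (Cc ^ 2 * (1 + 2 * (x + D) * ((1 - 2 * x) * V))) *
      (1 + 2 * (x + D) * ((1 - 2 * x) * V)) + Cc ^ 2 * (2 * ((1 - 2 * x) * V) * ((1 - 2 * x) * V)
        + 2 * (x + D) * (-2 * V + (1 - 2 * x) * (2 * V ^ 2 * ((1 - 2 * x) * V)))) := by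
    rw [hCx, dx_mul, s321b_dx_sq, dx_add, dx_mul, dx_mul, dx_mul, dx_sub, dx_mul, dx_one, dx_x,
      s321b_dx_two, hx, hVx, hCx]
    ring
  have hCtt : dt (dt Cc) = 8 * Cc ^ 3 * (x + D) ^ 2 * V ^ 2 + 2 * Cc ^ 2 * V ^ 2 +
      4 * Cc ^ 2 * (x + D) * V ^ 3 := by
    rw [hCt, dt_mul, dt_mul, dt_mul, s321b_dt_sq, s321b_dt_two, ht, hVt, hCt]
    ring
  have h4t : 4 * t * V ^ 2 = ((1 - 2 * x) * V) ^ 2 - 1 := by
    linear_combination (-4 * V ^ 2) * hD + (-(V * (1 - 2 * (x + D))) - 1) * hV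
  rw [hCxx, hCtt]
  linear_combination (-(8 * Cc ^ 3 * (x + D) ^ 2 + 2 * Cc ^ 2 + 4 * Cc ^ 2 * (x + D) * V)) * h4t

/-- Identity (2): with `Y = x + D`, `u = x + Y²`
`8 C_t - (C_xx - 4 t C_tt) + 4 + 2 x = 2 [ u (3 Y² C³ + x u (C² + 2 C³)) + 2 u² C²
  + Y² (2 x + Y²) C³ + (3 D + t) C³ + 8 Y³ C³ V ]`.

Proof.  `C_t = 2 Y V C²`, identity (1), `C (1 - u) = 1`, `(1 - 2Y) V = 1`, `D = Y - x`,
`t = D (1 - 2x - D)`: a polynomial identity modulo these relations (multiply by suitable powers of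
`1-u` and `1-2Y`, or `linear_combination`). -/
theorem identity2 (D V Cc : S2) (hD : (1 - 2 * x) * D = t + D ^ 2)
    (hV : V * (1 - 2 * (x + D)) = 1) (hC : Cc * (1 - x - (x + D) ^ 2) = 1) :
    8 * dt Cc - (dx (dx Cc) - 4 * t * dt (dt Cc)) + 4 + 2 * x
      = 2 * ((x + (x + D) ^ 2) * (3 * (x + D) ^ 2 * Cc ^ 3
            + x * (x + (x + D) ^ 2) * (Cc ^ 2 + 2 * Cc ^ 3))
          + 2 * (x + (x + D) ^ 2) ^ 2 * Cc ^ 2
          + (x + D) ^ 2 * (2 * x + (x + D) ^ 2) * Cc ^ 3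
          + (3 * D + t) * Cc ^ 3 + 8 * (x + D) ^ 3 * Cc ^ 3 * V) := by

  obtain ⟨hVx, hVt, hCx, hCt⟩ := s321b_derivs D V Cc hD hV hC
  rw [identity1 D V Cc hD hV hC, hCt]
  linear_combination (8 * (x + D) * Cc ^ 3 * (1 + 2 * (x + D))) * hV
    + (-16 * (x + D) * Cc ^ 2 * V
        + (-(4 + 2 * x) * (1 - x - (x + D) ^ 2) ^ 2
            + (2 + 2 * x * (x + (x + D) ^ 2) ^ 2 + 4 * (x + (x + D) ^ 2) ^ 2)) * Cc ^ 2
        + (-(4 + 2 * x) * (1 - x - (x + D) ^ 2)) * Cc - (4 + 2 * x)) * hC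
    + 2 * Cc ^ 3 * hD

/-- Coefficient inequalities (from the identities; `V`, `U = dx (x+D)` have nonnegative
coefficients by `exists_geom` / `first_derivs` + `nn_dx`). -/
theorem coeff_ineqs (D Cc : S2) (hD : (1 - 2 * x) * D = t + D ^ 2) (hD0 : coeff 0 D = 0)
    (hC : Cc * (1 - x - (x + D) ^ 2) = 1) (nD : nn D) (nC : nn Cc) :
    (∀ m k : ℕ, 4 * ((k : ℚ) + 1) * k * cf Cc m (k + 1)
        ≤ ((m : ℚ) + 2) * ((m : ℚ) + 1) * cf Cc (m + 2) k) ∧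
    (∀ m k : ℕ, 2 ≤ m → ((m : ℚ) + 2) * ((m : ℚ) + 1) * cf Cc (m + 2) k
        ≤ 4 * ((k : ℚ) + 1) * ((k : ℚ) + 2) * cf Cc m (k + 1)) := by

  have nY : nn (x + D) := nn_add nn_x nD
  have n2 : nn (2 : S2) := by have h := nn_natCast 2; exact_mod_cast h
  have n3 : nn (3 : S2) := by have h := nn_natCast 3; exact_mod_cast h
  have n4 : nn (4 : S2) := by have h := nn_natCast 4; exact_mod_cast h
  have n8 : nn (8 : S2) := by have h := nn_natCast 8; exact_mod_cast h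
  have h00 : cf (2 * (x + D)) 0 0 = 0 := by
    have h := cf_natCast_mul 2 (x + D) 0 0
    push_cast at h
    rw [h, cf_add, cf_x]
    have h2 : cf D 0 0 = 0 := by unfold cf; rw [hD0]; simp
    rw [h2]; simp
  obtain ⟨V, hV, nV⟩ := exists_geom (2 * (x + D)) (nn_mul n2 nY) h00
  obtain ⟨hx, ht⟩ := first_derivs D V hD hV
  have nU : nn ((1 - 2 * x) * V) := by rw [← hx]; exact nn_dx nY
  have hc4 : ∀ (f : S2) (m k : ℕ), cf (4 * f) m k = 4 * cf f m k := by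
    intro f m k
    have h := cf_natCast_mul 4 f m k
    exact_mod_cast h
  have hc8 : ∀ (f : S2) (m k : ℕ), cf (8 * f) m k = 8 * cf f m k := by
    intro f m k
    have h := cf_natCast_mul 8 f m k
    exact_mod_cast h
  have hc2 : ∀ (f : S2) (m k : ℕ), cf (2 * f) m k = 2 * cf f m k := by
    intro f m k
    have h := cf_natCast_mul 2 f m k
    exact_mod_cast h
  have htt : ∀ m k : ℕ, cf (t * dt (dt Cc)) m k = (k : ℚ) * (k + 1) * cf Cc m (k + 1) := by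
    intro m k
    cases k with
    | zero => rw [cf_t_mul_zero]; simp
    | succ k =>
      rw [cf_t_mul, cf_dt, cf_dt]
      push_cast
      ring
  have hlhs : ∀ m k : ℕ, cf (dx (dx Cc) - 4 * t * dt (dt Cc)) m k =
      ((m : ℚ) + 2) * ((m : ℚ) + 1) * cf Cc (m + 2) k -
        4 * ((k : ℚ) + 1) * k * cf Cc m (k + 1) := by
    intro m k
    rw [cf_sub, mul_assoc, hc4, htt, cf_dx, cf_dx]
    push_cast
    ring
  constructor
  · intro m k
    have h1 : 0 ≤ cf (dx (dx Cc) - 4 * t * dt (dt Cc)) m k := by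
      rw [identity1 D V Cc hD hV hC]
      exact nn_add (nn_mul n2 (nn_pow nC 2)) (nn_mul (nn_mul n2 (nn_pow nC 3))
        (nn_add (nn_add nn_one (nn_mul n4 (nn_pow nY 2))) (nn_mul (nn_mul n4 nY) nU))) m k
    rw [hlhs] at h1
    linarith
  · intro m k hm
    have h1 : 0 ≤ cf (8 * dt Cc - (dx (dx Cc) - 4 * t * dt (dt Cc)) + 4 + 2 * x) m k := by
      rw [identity2 D V Cc hD hV hC]
      have nu : nn (x + (x + D) ^ 2) := nn_add nn_x (nn_pow nY 2)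
      refine nn_mul n2 (nn_add (nn_add (nn_add (nn_add (nn_mul nu (nn_add
        (nn_mul (nn_mul n3 (nn_pow nY 2)) (nn_pow nC 3))
        (nn_mul (nn_mul nn_x nu) (nn_add (nn_pow nC 2) (nn_mul n2 (nn_pow nC 3))))))
        (nn_mul (nn_mul n2 (nn_pow nu 2)) (nn_pow nC 2)))
        (nn_mul (nn_mul (nn_pow nY 2) (nn_add (nn_mul n2 nn_x) (nn_pow nY 2))) (nn_pow nC 3)))
        (nn_mul (nn_add (nn_mul n3 nD) nn_t) (nn_pow nC 3)))
        (nn_mul (nn_mul (nn_mul n8 (nn_pow nY 3)) (nn_pow nC 3)) nV)) m k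
    have h4 : cf (4 : S2) m k = 0 := by
      have h := hc4 1 m k
      rw [mul_one, cf_one, if_neg (by omega), mul_zero] at h
      exact h
    have h2x : cf (2 * x) m k = 0 := by
      rw [hc2, cf_x, if_neg (by omega), mul_zero]
    rw [cf_add, cf_add, cf_sub, hlhs, hc8, cf_dt, h4, h2x] at h1
    have e : 4 * ((k : ℚ) + 1) * ((k : ℚ) + 2) * cf Cc m (k + 1) =
        8 * (((k : ℚ) + 1) * cf Cc m (k + 1)) + 4 * ((k : ℚ) + 1) * k * cf Cc m (k + 1) := by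
      ring
    rw [e]
    linarith

end BD.S
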