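import Pool.Agent.MP_8b309d_co.E321
import Pool.Agent.MP_8b309d_co.CQuad

/-!
# Row BD-S321C : generating function of the words avoiding 321
-/

namespace BD

open PowerSeries

noncomputable def B321 : PowerSeries (Polynomial ℚ) :=
  PowerSeries.mk (fun n => AA (Av p321) n)

/-- `T_g = x (Mx_g + T_{g+1})` unrolled. -/
theorem gf321_T {R : Type*} [CommRing R] (T M : ℕ → PowerSeries R)
    (hT : ∀ g, T g = X * (M g + T (g + 1))) (h : ℕ) :
    ∀ g, coeff h (T g) = ∑ j ∈ Finset.range h, coeff (h - 1 - j) (M (g + j)) := by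
  induction h with
  | zero =>
    intro g
    rw [hT g]
    simp
  | succ h ih =>
    intro g
    rw [hT g, coeff_succ_X_mul, map_add, ih (g + 1), Finset.sum_range_succ']
    have h1 : ∀ j ∈ Finset.range h, coeff (h - 1 - j) (M (g + 1 + j))
        = coeff (h + 1 - 1 - (j + 1)) (M (g + (j + 1))) := by
      intro j _
      have e1 : h + 1 - 1 - (j + 1) = h - 1 - j := by omega
      have e2 : g + (j + 1) = g + 1 + j := by omega
      rw [e1, e2]
    rw [Finset.sum_congr rfl h1]
    simp only [Nat.add_sub_cancel, Nat.sub_zero, Nat.add_zero]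
    ring

/-- the algebraic solution of the system `Sys321` -/
theorem gf321_sys (r B : PowerSeries (Polynomial ℚ))
    (hr : r = X * (C (Polynomial.X : Polynomial ℚ) + 2 * r + r ^ 2))
    (hB : B * (1 - X * (1 + r) - (1 - C (Polynomial.X : Polynomial ℚ)) * X ^ 2) = 1) :
    Sys321 (fun g h => coeff h (B * (1 + r) ^ g))
      (fun g h => coeff h (B * (1 + r) ^ (g - 1) * (C (Polynomial.X : Polynomial ℚ) + r)))
      (fun h => coeff h (B * (1 + r))) := by
  set t : PowerSeries (Polynomial ℚ) := C (Polynomial.X : Polynomial ℚ) with ht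
  -- `T g` is the series `T_{g+1}` of the text
  have key : ∀ g h, coeff h (B * (1 + r) ^ g * r)
      = ∑ j ∈ Finset.range h, coeff (h - 1 - j) (B * (1 + r) ^ (g + j) * (t + r)) := by
    intro g h
    refine gf321_T (fun g => B * (1 + r) ^ g * r) (fun g => B * (1 + r) ^ g * (t + r)) ?_ h g
    intro g
    have e : r = X * (t + r + (1 + r) * r) := by
      calc r = X * (t + 2 * r + r ^ 2) := hr
        _ = X * (t + r + (1 + r) * r) := by ring
    calc B * (1 + r) ^ g * r = B * (1 + r) ^ g * (X * (t + r + (1 + r) * r)) := by rw [← e]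
      _ = X * (B * (1 + r) ^ g * (t + r) + B * (1 + r) ^ (g + 1) * r) := by ring
  have hBe : B = 1 + X * B + X * (X * (B * (1 + r))) + X * (B * (1 + r) ^ 0 * r
      - X * (B * (1 + r) ^ 0 * (t + r))) := by
    linear_combination hB
  constructor
  · -- d00
    show coeff 0 (B * (1 + r) ^ 0) = 1
    have := congrArg (coeff 0) hB
    rw [pow_zero, mul_one]
    simpa using this
  · -- d0
    intro h
    show coeff (h + 1) (B * (1 + r) ^ 0) = coeff h (B * (1 + r) ^ 0)
      + (if h = 0 then 0 else coeff (h - 1) (B * (1 + r)))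
      + ∑ j ∈ Finset.Icc 2 h, coeff (h - j) (B * (1 + r) ^ (j - 1) * (t + r))
    have h1 : coeff (h + 1) (B * (1 + r) ^ 0) = coeff h B + coeff h (X * (B * (1 + r)))
        + coeff h (B * (1 + r) ^ 0 * r) - coeff h (X * (B * (1 + r) ^ 0 * (t + r))) := by
      have h2 := congrArg (coeff (h + 1)) hBe
      have h0 : coeff (h + 1) (1 : PowerSeries (Polynomial ℚ)) = 0 := by
        rw [coeff_one]; simp
      simp only [map_add, coeff_succ_X_mul, map_sub, h0] at h2
      rw [pow_zero, mul_one, h2]
      simp only [pow_zero, mul_one]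
      ring
    rw [h1, key 0 h, pow_zero, mul_one]
    cases h with
    | zero => simp
    | succ k =>
      rw [coeff_succ_X_mul, coeff_succ_X_mul, if_neg (by omega), Finset.sum_range_succ']
      have h3 : ∑ j ∈ Finset.Icc 2 (k + 1), coeff (k + 1 - j) (B * (1 + r) ^ (j - 1) * (t + r))
          = ∑ j ∈ Finset.range k,
            coeff (k + 1 - 1 - (j + 1)) (B * (1 + r) ^ (0 + (j + 1)) * (t + r)) := by
        symm
        refine Finset.sum_bij' (fun j _ => j + 2) (fun j _ => j - 2) ?_ ?_ ?_ ?_ ?_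
        · intro j hj
          simp only [Finset.mem_range] at hj
          simp only [Finset.mem_Icc]
          omega
        · intro j hj
          simp only [Finset.mem_Icc] at hj
          simp only [Finset.mem_range]
          omega
        · intro j hj
          show j + 2 - 2 = j
          omega
        · intro j hj
          simp only [Finset.mem_Icc] at hj
          show j - 2 + 2 = j
          omega
        · intro j hj
          have e1 : k + 1 - 1 - (j + 1) = k + 1 - (j + 2) := by omega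
          have e2 : 0 + (j + 1) = j + 2 - 1 := by omega
          show coeff (k + 1 - 1 - (j + 1)) (B * (1 + r) ^ (0 + (j + 1)) * (t + r))
            = coeff (k + 1 - (j + 2)) (B * (1 + r) ^ (j + 2 - 1) * (t + r))
          rw [e1, e2]
      rw [h3]
      simp only [Nat.add_sub_cancel, Nat.sub_zero, Nat.add_zero, pow_zero, mul_one]
      ring
  · -- dg
    intro g h
    show coeff h (B * (1 + r) ^ (g + 1)) = coeff h (B * (1 + r) ^ g)
      + ∑ j ∈ Finset.range h, coeff (h - 1 - j) (B * (1 + r) ^ (g + 1 + j - 1) * (t + r))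
    have e : ∀ j ∈ Finset.range h, coeff (h - 1 - j) (B * (1 + r) ^ (g + 1 + j - 1) * (t + r))
        = coeff (h - 1 - j) (B * (1 + r) ^ (g + j) * (t + r)) := by
      intro j _
      have e2 : g + 1 + j - 1 = g + j := by omega
      rw [e2]
    rw [Finset.sum_congr rfl e, ← key g h, ← map_add]
    congr 1
    ring
  · -- mg
    intro g h
    show coeff h (B * (1 + r) ^ (g + 1 - 1) * (t + r))
      = Polynomial.X * coeff h (B * (1 + r) ^ g)
      + ∑ j ∈ Finset.range h, coeff (h - 1 - j) (B * (1 + r) ^ (g + 1 + j - 1) * (t + r))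
    have e : ∀ j ∈ Finset.range h, coeff (h - 1 - j) (B * (1 + r) ^ (g + 1 + j - 1) * (t + r))
        = coeff (h - 1 - j) (B * (1 + r) ^ (g + j) * (t + r)) := by
      intro j _
      have e2 : g + 1 + j - 1 = g + j := by omega
      rw [e2]
    rw [Finset.sum_congr rfl e, ← key g h, ← coeff_C_mul, ← map_add]
    congr 1
    rw [Nat.add_sub_cancel, ← ht]
    ring
  · -- sm
    intro h
    show coeff h (B * (1 + r)) = coeff h (B * (1 + r) ^ 0)
      + ∑ j ∈ Finset.range h, coeff (h - 1 - j) (B * (1 + r) ^ (1 + j - 1) * (t + r))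
    have e : ∀ j ∈ Finset.range h, coeff (h - 1 - j) (B * (1 + r) ^ (1 + j - 1) * (t + r))
        = coeff (h - 1 - j) (B * (1 + r) ^ (0 + j) * (t + r)) := by
      intro j _
      have e2 : 1 + j - 1 = 0 + j := by omega
      rw [e2]
    rw [Finset.sum_congr rfl e, ← key 0 h, ← map_add]
    congr 1
    ring

/-- `B (1 - x(1+r) - (1-t)x²) = 1` where `r = x (t + 2r + r²)`.

Proof.  `r` exists by `quad_exists` (`c = x t`, `c1 = 2`, `c2 = 1`), it has zero constant term;
let `B'` be the inverse of `1 - x(1+r) - (1-t)x²` (constant term 1).  Put `ρ = 1 + r`,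
`Dn g h = coeff h (B' ρ^g)`, `Mx g h = coeff h (B' ρ^{g-1} (t + r))` (`g ≥ 1`, `0` for `g = 0`),
`Sm h = coeff h (B' ρ)`, `T_g = B' ρ^{g-1} r` (`g ≥ 1`).
`T_g = x (Mx_g + T_{g+1})` (as series; this is `r = x (t + r + ρ r)`), hence
`coeff h T_g = Σ_{j<h} Mx (g+j) (h-1-j)` by induction on `h`.
`Sys321`: `Dn_{g+1} = Dn_g + T_{g+1}`, `Mx_{g+1} = t Dn_g + T_{g+1}`, `Sm = Dn_0 + T_1`, and
`B' = 1 + x B' + x² Sm + x (T_1 - x Mx_1)`, which is the definition of `B'`.
Now `E321_main` gives `AA (Av p321) n = Dn 0 n = coeff n B'`, so `B321 = B'`. -/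
theorem gf321 : ∃ r : PowerSeries (Polynomial ℚ),
    r = X * (C (Polynomial.X : Polynomial ℚ) + 2 * r + r ^ 2) ∧
    B321 * (1 - X * (1 + r) - (1 - C (Polynomial.X : Polynomial ℚ)) * X ^ 2) = 1 := by
  obtain ⟨r, hr⟩ := quad_exists (R := Polynomial ℚ)
    (X * C (Polynomial.X : Polynomial ℚ)) 2 1
  have hr' : r = X * (C (Polynomial.X : Polynomial ℚ) + 2 * r + r ^ 2) := by
    calc r = X * C (Polynomial.X : Polynomial ℚ) + X * (2 * r + 1 * r ^ 2) := hr
      _ = X * (C (Polynomial.X : Polynomial ℚ) + 2 * r + r ^ 2) := by ring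
  refine ⟨r, hr', ?_⟩
  set q : PowerSeries (Polynomial ℚ) :=
    1 - X * (1 + r) - (1 - C (Polynomial.X : Polynomial ℚ)) * X ^ 2 with hq
  have hq0 : constantCoeff q = ((1 : (Polynomial ℚ)ˣ) : Polynomial ℚ) := by
    rw [hq]; simp
  have hinv : invOfUnit q 1 * q = 1 := by
    rw [mul_comm]; exact mul_invOfUnit q 1 hq0
  have hsys := gf321_sys r (invOfUnit q 1) hr' (by rw [← hq]; exact hinv)
  have hBB : B321 = invOfUnit q 1 := by
    ext1 n
    have h := E321_main _ _ _ hsys n
    rw [B321, coeff_mk, h]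
    simp
  rw [hBB]
  exact hinv

end BD
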