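import Pool.Agent.MP_8b309d_co.SBase

/-!
# Row BD-SRES : change of variables `t ↦ x^m t`, and the exchange of variables
`ℚ[t]⟦x⟧ → ℚ⟦x⟧⟦t⟧`
-/

namespace BD.S

open PowerSeries

/-- `f(x,t) ↦ f(x, x^m t)` -/
noncomputable def resc (m : ℕ) : S2 →+* S2 := PowerSeries.rescale ((X : ℚ⟦X⟧) ^ m)

theorem cf_resc (m : ℕ) (f : S2) (n k : ℕ) :
    cf (resc m f) n k = if m * k ≤ n then cf f (n - m * k) k else 0 := by
  unfold cf resc
  rw [coeff_rescale, ← pow_mul, coeff_X_pow_mul']

theorem resc_x (m : ℕ) : resc m x = x := by
  apply ext_cf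
  intro n k
  rw [cf_resc]
  by_cases hk : k = 0
  · subst hk
    simp
  · simp [cf_x, hk]

theorem resc_t (m : ℕ) : resc m t = x ^ m * t := by
  unfold resc t x
  rw [rescale_X, map_pow]

theorem resc_injective (m : ℕ) : Function.Injective (resc m) := by
  intro f g h
  apply ext_cf
  intro n k
  have h1 := congrArg (fun e => cf e (n + m * k) k) h
  simp only [cf_resc] at h1
  rw [if_pos (Nat.le_add_left _ _), if_pos (Nat.le_add_left _ _), Nat.add_sub_cancel] at h1
  exact h1

/-- the underlying function of the exchange of variables -/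
noncomputable def sres_sw (f : PowerSeries (Polynomial ℚ)) : S2 :=
  PowerSeries.mk fun k => PowerSeries.mk fun n => (coeff n f).coeff k

theorem sres_cf (f : PowerSeries (Polynomial ℚ)) (n k : ℕ) :
    cf (sres_sw f) n k = (coeff n f).coeff k := by
  unfold cf sres_sw
  rw [coeff_mk, coeff_mk]

/-- the exchange of variables as a ring homomorphism: the coefficient of `x^n t^k` is the
`k`-th coefficient of the `n`-th coefficient.  (E.g. define it by `mk fun k => mk fun n =>
(coeff n f).coeff k` and check multiplicativity with the product formulas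
`PowerSeries.coeff_mul`, `Polynomial.coeff_mul`.) -/
theorem exists_sw : ∃ sw : PowerSeries (Polynomial ℚ) →+* S2,
    (∀ f n k, cf (sw f) n k = (coeff n f).coeff k) ∧
    sw X = x ∧ sw (C (Polynomial.X : Polynomial ℚ)) = t := by
  refine ⟨{ toFun := sres_sw
            map_one' := ?_
            map_mul' := ?_
            map_zero' := ?_
            map_add' := ?_ }, sres_cf, ?_, ?_⟩
  · apply ext_cf
    intro n k
    rw [sres_cf, coeff_one, cf_one]
    by_cases hn : n = 0
    · rw [if_pos hn, Polynomial.coeff_one]
      simp [hn]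
    · rw [if_neg hn, if_neg (fun h => hn h.1), Polynomial.coeff_zero]
  · intro f g
    apply ext_cf
    intro n k
    rw [sres_cf, cf_mul, coeff_mul, Polynomial.finsetSum_coeff, Finset.sum_comm]
    refine Finset.sum_congr rfl fun q _ => ?_
    rw [Polynomial.coeff_mul]
    refine Finset.sum_congr rfl fun p _ => ?_
    rw [sres_cf, sres_cf]
  · apply ext_cf
    intro n k
    rw [sres_cf, map_zero, Polynomial.coeff_zero]
    simp [cf]
  · intro f g
    apply ext_cf
    intro n k
    rw [sres_cf, cf_add, sres_cf, sres_cf, map_add, Polynomial.coeff_add]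
  · apply ext_cf
    intro n k
    change cf (sres_sw X) n k = _
    rw [sres_cf, cf_x, coeff_X]
    by_cases hn : n = 1
    · rw [if_pos hn, Polynomial.coeff_one]
      simp [hn]
    · rw [if_neg hn, if_neg (fun h => hn h.1), Polynomial.coeff_zero]
  · apply ext_cf
    intro n k
    change cf (sres_sw (C Polynomial.X)) n k = _
    rw [sres_cf, cf_t, coeff_C]
    by_cases hn : n = 0
    · rw [if_pos hn, Polynomial.coeff_X]
      simp [hn, eq_comm]
    · rw [if_neg hn, if_neg (fun h => hn h.1), Polynomial.coeff_zero]

/-- `S2` has no zero divisors; a series with nonzero constant term is not zero -/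
theorem eq_of_mul_eq {f g h : S2} (hh : cf h 0 0 ≠ 0) (e : (f - g) * h = 0) : f = g := by
  have h0 : h ≠ 0 := by
    rintro rfl
    apply hh
    simp [cf]
  rcases mul_eq_zero.1 e with h1 | h1
  · exact sub_eq_zero.1 h1
  · exact absurd h1 h0

end BD.S
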