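import Pool.Agent.MP_8b309d_co.S321A
import Pool.Agent.MP_8b309d_co.S321B
import Pool.Agent.MP_8b309d_co.S321C
import Pool.Agent.MP_8b309d_co.SRes

/-!
# Row BD-S321D : log-concavity for {321}
-/

namespace BD

open BD.S

/-- The link.  Let `sw` be the exchange of variables, `B' = sw B321`, `r' = sw r`,
`D' = resc 2 D` (`t = τ`, `τ ↦ t x²`).  `(1-2x) D' = t x² + D'²` and
`(1-2x)(x r') = t x² + (x r')²`; so `(D' - x r')(1 - 2x - D' - x r') = 0` and
`D' = x r'` (`eq_of_mul_eq`, constant terms of `D'`, `x r'` vanish).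
`B' (1 - x - D' - (1-t)x²) = 1` and `resc 2 Cc (1 - x - (x+D')²) = 1`, and
`x + (x+D')² = x + D' + (1-t) x²` because `(1-2x) D' = t x² + D'²`.  Hence `B' = resc 2 Cc`;
compare coefficients (`cf_resc`). -/
theorem AA321_eq (D Cc : S2) (hD : (1 - 2 * x) * D = t + D ^ 2)
    (hD0 : PowerSeries.coeff 0 D = 0) (hC : Cc * (1 - x - (x + D) ^ 2) = 1) (n k : ℕ) :
    (AA (Av p321) n).coeff k = if 2 * k ≤ n then cf Cc (n - 2 * k) k else 0 := by
  obtain ⟨r, hr, hB⟩ := gf321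
  obtain ⟨sw, hsw, hswX, hswC⟩ := exists_sw
  -- the images
  have hr' : sw r = x * (t + 2 * sw r + sw r ^ 2) := by
    have h := congrArg sw hr
    simp only [map_mul, map_add, map_pow, hswX, hswC, map_ofNat] at h
    exact h
  have hB' : sw B321 * (1 - x * (1 + sw r) - (1 - t) * x ^ 2) = 1 := by
    have h := congrArg sw hB
    simp only [map_mul, map_add, map_sub, map_pow, map_one, hswX, hswC] at h
    exact h
  have hD' : (1 - 2 * x) * resc 2 D = x ^ 2 * t + resc 2 D ^ 2 := by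
    have h := congrArg (resc 2) hD
    simp only [map_mul, map_add, map_sub, map_pow, map_one, map_ofNat, resc_x, resc_t] at h
    exact h
  have hC' : resc 2 Cc * (1 - x - (x + resc 2 D) ^ 2) = 1 := by
    have h := congrArg (resc 2) hC
    simp only [map_mul, map_add, map_sub, map_pow, map_one, resc_x] at h
    exact h
  have hDr : resc 2 D = x * sw r := by
    refine eq_of_mul_eq (h := 1 - 2 * x - resc 2 D - x * sw r) ?_ ?_
    · rw [cf_sub, cf_sub, cf_sub, cf_x_mul_zero]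
      have h2 : cf (2 * x) 0 0 = 0 := by
        have h3 := cf_natCast_mul 2 x 0 0
        rw [cf_x] at h3
        simpa using h3
      have h4 : cf (resc 2 D) 0 0 = 0 := by
        rw [cf_resc]
        simp only [Nat.mul_zero, le_refl, if_true, Nat.sub_zero]
        rw [cf, hD0, map_zero]
      rw [h2, h4, cf_one]
      norm_num
    · have h5 : (1 - 2 * x) * (x * sw r) = x ^ 2 * t + (x * sw r) ^ 2 := by
        linear_combination x * hr'
      linear_combination hD' - h5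
  have hBC : sw B321 = resc 2 Cc := by
    have h6 : resc 2 Cc * (1 - x * (1 + sw r) - (1 - t) * x ^ 2) = 1 := by
      rw [hDr] at hC' hD'
      linear_combination hC' - resc 2 Cc * hD'
    calc sw B321 = sw B321 * (resc 2 Cc * (1 - x * (1 + sw r) - (1 - t) * x ^ 2)) := by
          rw [h6, mul_one]
      _ = (sw B321 * (1 - x * (1 + sw r) - (1 - t) * x ^ 2)) * resc 2 Cc := by ring
      _ = resc 2 Cc := by rw [hB', one_mul]
  have h7 := hsw B321 n k
  rw [hBC, cf_resc] at h7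
  have h8 : PowerSeries.coeff n B321 = AA (Av p321) n := by
    rw [B321, PowerSeries.coeff_mk]
  rw [h8] at h7
  exact h7.symm

/-- Log-concavity for {321}.  With `b_k = b(n,k)`, `k ≥ 1`: if `n < 2k+2` then `b_{k+1} = 0`.
Otherwise put `ω = n - 2k ≥ 2`; `coeff_ineqs` give `4k(k+1) b_{k+1} ≤ ω(ω-1) b_k`
(`m = ω - 2`) and `(ω+2)(ω+1) b_{k-1} ≤ 4k(k+1) b_k` (`m = ω`, `k-1` in place of `k`).
Multiply: `(ω+2)(ω+1) b_{k-1} · 4k(k+1) b_{k+1} ≤ 4k(k+1) ω(ω-1) b_k²`. -/
theorem LC_321 : LC (Av p321) := by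
  obtain ⟨D, Cc, hD, hD0, hC, nD, nC⟩ := exists_D_C
  obtain ⟨i1, i2⟩ := coeff_ineqs D Cc hD hD0 hC nD nC
  have key : ∀ n k : ℕ, (cnt (Av p321) n k : ℚ) = if 2 * k ≤ n then cf Cc (n - 2 * k) k else 0 := by
    intro n k
    rw [← AA_coeff]
    exact AA321_eq D Cc hD hD0 hC n k
  intro n k hk
  rcases Nat.lt_or_ge n (2 * (k + 1)) with hn | hn
  · have hz : cnt (Av p321) n (k + 1) = 0 := by
      have h := key n (k + 1)
      rw [if_neg (by omega)] at h
      exact_mod_cast h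
    rw [hz, mul_zero]
    exact Nat.zero_le _
  · obtain ⟨w, rfl⟩ : ∃ w, n = 2 * (k + 1) + w := ⟨n - 2 * (k + 1), by omega⟩
    obtain ⟨k, rfl⟩ : ∃ k', k = k' + 1 := ⟨k - 1, by omega⟩
    have ha := key (2 * (k + 1 + 1) + w) (k + 1 - 1)
    have hb := key (2 * (k + 1 + 1) + w) (k + 1)
    have hc := key (2 * (k + 1 + 1) + w) (k + 1 + 1)
    rw [if_pos (by omega)] at ha hb hc
    have ea : 2 * (k + 1 + 1) + w - 2 * (k + 1 - 1) = w + 2 + 2 := by omega
    have eb : 2 * (k + 1 + 1) + w - 2 * (k + 1) = w + 2 := by omega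
    have ec : 2 * (k + 1 + 1) + w - 2 * (k + 1 + 1) = w := by omega
    have ea' : k + 1 - 1 = k := by omega
    rw [ea, ea'] at ha
    rw [eb] at hb
    rw [ec] at hc
    have j1 := i1 w (k + 1)
    have j2 := i2 (w + 2) k (by omega)
    rw [ea']
    have hfin : (cnt (Av p321) (2 * (k + 1 + 1) + w) k : ℚ)
        * (cnt (Av p321) (2 * (k + 1 + 1) + w) (k + 1 + 1) : ℚ)
        ≤ (cnt (Av p321) (2 * (k + 1 + 1) + w) (k + 1) : ℚ) ^ 2 := by
      rw [ha, hb, hc]
      have na : 0 ≤ cf Cc (w + 2 + 2) k := nC _ _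
      have nb : 0 ≤ cf Cc (w + 2) (k + 1) := nC _ _
      have nc : 0 ≤ cf Cc w (k + 1 + 1) := nC _ _
      generalize cf Cc (w + 2 + 2) k = a at *
      generalize cf Cc (w + 2) (k + 1) = b at *
      generalize cf Cc w (k + 1 + 1) = c at *
      push_cast at j1 j2
      have hw : (0 : ℚ) ≤ w := by positivity
      have hkk : (0 : ℚ) ≤ k := by positivity
      -- `j1 : 4 (k+2)(k+1) c ≤ (w+2)(w+1) b`, `j2 : (w+4)(w+3) a ≤ 4 (k+1)(k+2) b`
      have p1 : (4 * ((k : ℚ) + 1) * ((k : ℚ) + 2)) * c ≤ (((w : ℚ) + 2) * ((w : ℚ) + 1)) * b := by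
        linarith
      have p2 : (((w : ℚ) + 4) * ((w : ℚ) + 3)) * a ≤ (4 * ((k : ℚ) + 1) * ((k : ℚ) + 2)) * b := by
        linarith
      have hK : 0 < 4 * ((k : ℚ) + 1) * ((k : ℚ) + 2) := by positivity
      have hW : 0 < ((w : ℚ) + 4) * ((w : ℚ) + 3) := by positivity
      have p3 : ((((w : ℚ) + 4) * ((w : ℚ) + 3)) * a) * ((4 * ((k : ℚ) + 1) * ((k : ℚ) + 2)) * c)
          ≤ ((4 * ((k : ℚ) + 1) * ((k : ℚ) + 2)) * b) * ((((w : ℚ) + 2) * ((w : ℚ) + 1)) * b) := by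
        apply mul_le_mul p2 p1 <;> positivity
      have p4 : (4 * ((k : ℚ) + 1) * ((k : ℚ) + 2)) * (((((w : ℚ) + 4) * ((w : ℚ) + 3))) * (a * c))
          ≤ (4 * ((k : ℚ) + 1) * ((k : ℚ) + 2)) * ((((w : ℚ) + 4) * ((w : ℚ) + 3)) * b ^ 2) := by
        have p5 : (((w : ℚ) + 2) * ((w : ℚ) + 1)) * b ^ 2
            ≤ (((w : ℚ) + 4) * ((w : ℚ) + 3)) * b ^ 2 := by
          apply mul_le_mul_of_nonneg_right _ (sq_nonneg b)
          nlinarith
        have p6 := mul_le_mul_of_nonneg_left p5 hK.le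
        calc _ = ((((w : ℚ) + 4) * ((w : ℚ) + 3)) * a) * ((4 * ((k : ℚ) + 1) * ((k : ℚ) + 2)) * c) := by
              ring
          _ ≤ _ := p3
          _ = (4 * ((k : ℚ) + 1) * ((k : ℚ) + 2)) * ((((w : ℚ) + 2) * ((w : ℚ) + 1)) * b ^ 2) := by
              ring
          _ ≤ _ := p6
      have p7 := le_of_mul_le_mul_left p4 hK
      exact le_of_mul_le_mul_left p7 hW
    exact_mod_cast hfin

end BD
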