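import Mathlib

/-!
# Row BD-S : power series in two variables `ℚ⟦x⟧⟦t⟧`, two derivations, positivity
-/

namespace BD.S

open PowerSeries

/-- power series in `t` with coefficients power series in `x` -/
abbrev S2 := PowerSeries (PowerSeries ℚ)

noncomputable def x : S2 := C (X : ℚ⟦X⟧)

noncomputable def t : S2 := X

/-- coefficient of `x^n t^k` -/
noncomputable def cf (f : S2) (n k : ℕ) : ℚ := coeff n (coeff k f)

/-- `∂/∂x` -/
noncomputable def dx (f : S2) : S2 :=
  PowerSeries.mk fun k => PowerSeries.mk fun n => ((n : ℚ) + 1) * coeff (n + 1) (coeff k f)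

/-- `∂/∂t` -/
noncomputable def dt (f : S2) : S2 :=
  PowerSeries.mk fun k => PowerSeries.mk fun n => ((k : ℚ) + 1) * coeff n (coeff (k + 1) f)

theorem ext_cf {f g : S2} (h : ∀ n k, cf f n k = cf g n k) : f = g := by
  ext k n
  exact h n k

theorem cf_dx (f : S2) (n k : ℕ) : cf (dx f) n k = ((n : ℚ) + 1) * cf f (n + 1) k := by
  unfold cf dx
  rw [coeff_mk, coeff_mk]

theorem cf_dt (f : S2) (n k : ℕ) : cf (dt f) n k = ((k : ℚ) + 1) * cf f n (k + 1) := by
  unfold cf dt
  rw [coeff_mk, coeff_mk]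

theorem cf_add (f g : S2) (n k : ℕ) : cf (f + g) n k = cf f n k + cf g n k := by
  unfold cf
  rw [map_add, map_add]

theorem cf_sub (f g : S2) (n k : ℕ) : cf (f - g) n k = cf f n k - cf g n k := by
  unfold cf
  rw [map_sub, map_sub]

/-- the product formula -/
theorem cf_mul (f g : S2) (n k : ℕ) : cf (f * g) n k
    = ∑ p ∈ Finset.HasAntidiagonal.antidiagonal k, ∑ q ∈ Finset.HasAntidiagonal.antidiagonal n, cf f q.1 p.1 * cf g q.2 p.2 := by
  unfold cf
  rw [coeff_mul, map_sum]
  refine Finset.sum_congr rfl fun p _ => ?_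
  rw [coeff_mul]

theorem cf_one (n k : ℕ) : cf 1 n k = if n = 0 ∧ k = 0 then 1 else 0 := by
  unfold cf
  rw [coeff_one]
  by_cases hk : k = 0
  · rw [if_pos hk, coeff_one]
    simp [hk]
  · rw [if_neg hk]
    simp [hk]

theorem cf_x (n k : ℕ) : cf x n k = if n = 1 ∧ k = 0 then 1 else 0 := by
  unfold cf x
  rw [coeff_C]
  by_cases hk : k = 0
  · rw [if_pos hk, coeff_X]
    simp [hk]
  · rw [if_neg hk]
    simp [hk]

theorem cf_t (n k : ℕ) : cf t n k = if n = 0 ∧ k = 1 then 1 else 0 := by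
  unfold cf t
  rw [coeff_X]
  by_cases hk : k = 1
  · rw [if_pos hk, coeff_one]
    simp [hk]
  · rw [if_neg hk]
    simp [hk]

theorem cf_x_mul (f : S2) (n k : ℕ) : cf (x * f) (n + 1) k = cf f n k := by
  unfold cf x
  rw [coeff_C_mul, coeff_succ_X_mul]

theorem cf_x_mul_zero (f : S2) (k : ℕ) : cf (x * f) 0 k = 0 := by
  unfold cf x
  rw [coeff_C_mul, coeff_zero_X_mul]

theorem cf_t_mul (f : S2) (n k : ℕ) : cf (t * f) n (k + 1) = cf f n k := by
  unfold cf t
  rw [coeff_succ_X_mul]

theorem cf_t_mul_zero (f : S2) (n : ℕ) : cf (t * f) n 0 = 0 := by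
  unfold cf t
  rw [coeff_zero_X_mul, map_zero]

theorem cf_natCast_mul (a : ℕ) (f : S2) (n k : ℕ) : cf ((a : S2) * f) n k = a * cf f n k := by
  unfold cf
  have h : (a : S2) * f = a • f := by rw [nsmul_eq_mul]
  rw [h, map_nsmul, map_nsmul, nsmul_eq_mul]

theorem s_cf_natCast (a : ℕ) (n k : ℕ) : cf (a : S2) n k = if n = 0 ∧ k = 0 then (a : ℚ) else 0 := by
  have h := cf_natCast_mul a 1 n k
  rw [mul_one, cf_one] at h
  rw [h]
  split_ifs <;> simp

/-! derivations -/

theorem dx_add (f g : S2) : dx (f + g) = dx f + dx g := by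
  apply ext_cf
  intro n k
  rw [cf_dx, cf_add, cf_add, cf_dx, cf_dx]
  ring

theorem dx_sub (f g : S2) : dx (f - g) = dx f - dx g := by
  apply ext_cf
  intro n k
  rw [cf_dx, cf_sub, cf_sub, cf_dx, cf_dx]
  ring

/-- `dx` acts coefficientwise by the formal derivative -/
theorem s_coeff_dx (f : S2) (k : ℕ) : coeff k (dx f) = d⁄dX ℚ (coeff k f) := by
  ext n
  unfold dx
  rw [coeff_mk, coeff_mk, coeff_derivative]
  ring

theorem s_leibniz (R : Type) [CommRing R] (f g : PowerSeries R) :
    d⁄dX R (f * g) = f * d⁄dX R g + g * d⁄dX R f := by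
  rw [Derivation.leibniz, smul_eq_mul, smul_eq_mul]

/-- `dt` is the formal derivative -/
theorem s_dt_eq (f : S2) : dt f = d⁄dX ℚ⟦X⟧ f := by
  ext k n
  unfold dt
  rw [coeff_mk, coeff_mk, coeff_derivative]
  have h : coeff (k + 1) f * ((k : ℚ⟦X⟧) + 1) = (k + 1) • coeff (k + 1) f := by
    rw [nsmul_eq_mul]; push_cast; ring
  rw [h, map_nsmul, nsmul_eq_mul]
  push_cast
  ring

theorem dx_mul (f g : S2) : dx (f * g) = dx f * g + f * dx g := by
  refine PowerSeries.ext fun k => ?_
  rw [s_coeff_dx, map_add, coeff_mul, coeff_mul, coeff_mul, map_sum, ← Finset.sum_add_distrib]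
  refine Finset.sum_congr rfl fun p _ => ?_
  rw [Derivation.leibniz, s_coeff_dx, s_coeff_dx, smul_eq_mul, smul_eq_mul]
  ring

theorem dx_natCast (a : ℕ) : dx (a : S2) = 0 := by
  apply ext_cf
  intro n k
  rw [cf_dx, s_cf_natCast, if_neg (by omega)]
  simp [cf]

theorem dx_one : dx 1 = 0 := by
  have := dx_natCast 1
  rwa [Nat.cast_one] at this

theorem dx_x : dx x = 1 := by
  apply ext_cf
  intro n k
  rw [cf_dx, cf_x, cf_one]
  by_cases h : n = 0 ∧ k = 0
  · rw [if_pos (by omega), if_pos h, h.1]; simp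
  · rw [if_neg (by omega), if_neg h]; simp

theorem dx_t : dx t = 0 := by
  apply ext_cf
  intro n k
  rw [cf_dx, cf_t, if_neg (by omega)]
  simp [cf]

theorem dt_add (f g : S2) : dt (f + g) = dt f + dt g := by
  apply ext_cf
  intro n k
  rw [cf_dt, cf_add, cf_add, cf_dt, cf_dt]
  ring

theorem dt_sub (f g : S2) : dt (f - g) = dt f - dt g := by
  apply ext_cf
  intro n k
  rw [cf_dt, cf_sub, cf_sub, cf_dt, cf_dt]
  ring

theorem dt_mul (f g : S2) : dt (f * g) = dt f * g + f * dt g := by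
  rw [s_dt_eq, s_dt_eq, s_dt_eq, s_leibniz]
  ring

theorem dt_natCast (a : ℕ) : dt (a : S2) = 0 := by
  apply ext_cf
  intro n k
  rw [cf_dt, s_cf_natCast, if_neg (by omega)]
  simp [cf]

theorem dt_one : dt 1 = 0 := by
  have := dt_natCast 1
  rwa [Nat.cast_one] at this

theorem dt_x : dt x = 0 := by
  apply ext_cf
  intro n k
  rw [cf_dt, cf_x, if_neg (by omega)]
  simp [cf]

theorem dt_t : dt t = 1 := by
  apply ext_cf
  intro n k
  rw [cf_dt, cf_t, cf_one]
  by_cases h : n = 0 ∧ k = 0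
  · rw [if_pos (by omega), if_pos h, h.2]; simp
  · rw [if_neg (by omega), if_neg h]; simp

/-! coefficientwise nonnegativity -/

def nn (f : S2) : Prop := ∀ n k, 0 ≤ cf f n k

theorem nn_add {f g : S2} (hf : nn f) (hg : nn g) : nn (f + g) := by
  intro n k
  rw [cf_add]
  exact add_nonneg (hf n k) (hg n k)

theorem nn_mul {f g : S2} (hf : nn f) (hg : nn g) : nn (f * g) := by
  intro n k
  rw [cf_mul]
  exact Finset.sum_nonneg fun p _ => Finset.sum_nonneg fun q _ => mul_nonneg (hf _ _) (hg _ _)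

theorem nn_natCast (a : ℕ) : nn (a : S2) := by
  intro n k
  rw [s_cf_natCast]
  split_ifs
  · positivity
  · exact le_rfl

theorem nn_one : nn 1 := by
  have := nn_natCast 1
  rwa [Nat.cast_one] at this

theorem nn_pow {f : S2} (hf : nn f) (m : ℕ) : nn (f ^ m) := by
  induction m with
  | zero => rw [pow_zero]; exact nn_one
  | succ m ih => rw [pow_succ]; exact nn_mul ih hf

theorem nn_x : nn x := by
  intro n k
  rw [cf_x]
  split_ifs <;> norm_num

theorem nn_t : nn t := by
  intro n k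
  rw [cf_t]
  split_ifs <;> norm_num

theorem nn_dx {f : S2} (hf : nn f) : nn (dx f) := by
  intro n k
  rw [cf_dx]
  exact mul_nonneg (by positivity) (hf _ _)

theorem nn_dt {f : S2} (hf : nn f) : nn (dt f) := by
  intro n k
  rw [cf_dt]
  exact mul_nonneg (by positivity) (hf _ _)

/-- geometric series: if `f` has nonnegative coefficients and zero constant term then
`1/(1-f)` exists and has nonnegative coefficients.
(Existence: `1 - f` is a unit, its constant coefficient `1 - coeff 0 f` is a unit of `ℚ⟦x⟧`.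
Positivity: `g = 1 + f g`, induction on `n + k`.) -/
theorem exists_geom (f : S2) (hf : nn f) (h0 : cf f 0 0 = 0) :
    ∃ g : S2, g * (1 - f) = 1 ∧ nn g := by
  have hu : IsUnit (1 - f) := by
    rw [PowerSeries.isUnit_iff_constantCoeff, PowerSeries.isUnit_iff_constantCoeff]
    have h1 : constantCoeff (constantCoeff (1 - f)) = 1 - cf f 0 0 := by
      unfold cf
      simp
    rw [h1, h0, sub_zero]
    exact isUnit_one
  obtain ⟨u, hu⟩ := hu
  refine ⟨(u⁻¹ : S2ˣ), by rw [← hu, Units.inv_mul], ?_⟩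
  set g : S2 := ((u⁻¹ : S2ˣ) : S2) with hg
  have hgf : g = 1 + f * g := by
    have h1 : g * (1 - f) = 1 := by rw [hg, ← hu, Units.inv_mul]
    linear_combination h1
  have key : ∀ m n k, n + k ≤ m → 0 ≤ cf g n k := by
    intro m
    induction m with
    | zero =>
      intro n k hnk
      have hn : n = 0 := by omega
      have hk : k = 0 := by omega
      subst hn; subst hk
      rw [hgf, cf_add, cf_one, cf_mul]
      simp [h0]
    | succ m ih =>
      intro n k hnk
      rw [hgf, cf_add, cf_one, cf_mul]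
      refine add_nonneg (by split_ifs <;> norm_num) ?_
      refine Finset.sum_nonneg fun p hp => Finset.sum_nonneg fun q hq => ?_
      rw [Finset.HasAntidiagonal.mem_antidiagonal] at hp hq
      by_cases hz : q.1 = 0 ∧ p.1 = 0
      · rw [hz.1, hz.2, h0, zero_mul]
      · exact mul_nonneg (hf _ _) (ih _ _ (by omega))
  exact fun n k => key (n + k) n k le_rfl

end BD.S
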