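import Pool.Agent.MP_8b309d_co.Words
import Pool.Agent.MP_8b309d_co.BdAv

/-!
# Row BD-SPLIT : decomposition of the arrangements of `{0,…,n}` at the maximum `n`
-/

namespace BD

open Finset

private theorem split_Ico_map (r n : ℕ) (h : r ≤ n) :
    (range (n - r)).map (addRightEmbedding r) = Ico r n := by
  ext x
  simp only [mem_map, mem_range, addRightEmbedding_apply, mem_Ico]
  constructor
  · rintro ⟨a, ha, rfl⟩
    omega
  · rintro ⟨h1, h2⟩
    exact ⟨x - r, by omega, by omega⟩

private theorem split_mem {V : Finset ℕ} {L : List ℕ} (hL : L ∈ words V) {x : ℕ} (hx : x ∈ V) :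
    x ∈ L := by
  have := (mem_words.mp hL).2
  rw [← this] at hx
  exact List.mem_toFinset.mp hx

private theorem split_erase (n : ℕ) : (range (n + 1)).erase n = range n := by
  ext x
  simp only [mem_erase, mem_range]
  omega

/-- If `F (L ++ n :: R) = 0` unless all letters of `L` are larger than those of `R`, then only
`R` an arrangement of `{0,…,r-1}` and `L` an arrangement of `{r,…,n-1}` contribute.
Proof: `sum_words_split` with `U = range (n+1)`, `m = n`; the terms with `V` not an upper set of
`range n` vanish; upper sets are `Ico r n`, and `words (Ico r n)` is the image of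
`words (range (n-r))` under `(· + r)` (`sum_words_map`). -/
theorem sum_split_gt {M : Type*} [AddCommMonoid M] (n : ℕ) (F : List ℕ → M)
    (hF : ∀ L R : List ℕ, (∃ x ∈ L, ∃ y ∈ R, x < y) → F (L ++ n :: R) = 0) :
    ∑ l ∈ words (range (n + 1)), F l
      = ∑ r ∈ range (n + 1), ∑ L ∈ words (range (n - r)), ∑ R ∈ words (range r),
          F (L.map (· + r) ++ n :: R) := by
  classical
  rw [sum_words_split (range (n + 1)) n (by simp) F, split_erase]
  have hinj : Set.InjOn (fun r => Ico r n) (range (n + 1) : Finset ℕ) := by
    intro a ha b hb hab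
    have ha' : a ≤ n := by simpa [Nat.lt_succ_iff] using ha
    have hb' : b ≤ n := by simpa [Nat.lt_succ_iff] using hb
    have := congrArg Finset.card hab
    simp only [Nat.card_Ico] at this
    omega
  have hsub : (range (n + 1)).image (fun r => Ico r n) ⊆ (range n).powerset := by
    intro V hV
    obtain ⟨r, -, rfl⟩ := mem_image.mp hV
    rw [mem_powerset]
    intro x hx
    rw [mem_Ico] at hx
    exact mem_range.mpr hx.2
  rw [← sum_subset hsub]
  · rw [sum_image hinj]
    refine sum_congr rfl fun r hr => ?_
    have hr' : r ≤ n := by simpa [Nat.lt_succ_iff] using hr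
    have h1 : range n \ Ico r n = range r := by
      ext x
      simp only [mem_sdiff, mem_range, mem_Ico]
      omega
    rw [h1, ← split_Ico_map r n hr', sum_words_map]
    rfl
  · intro V hV hVn
    have hVr : ∀ x ∈ V, x < n := fun x hx => mem_range.mp (mem_powerset.mp hV hx)
    have hex : ∃ x ∈ V, ∃ y, y < n ∧ y ∉ V ∧ x < y := by
      by_contra hcon
      push Not at hcon
      apply hVn
      rcases V.eq_empty_or_nonempty with h | h
      · refine mem_image.mpr ⟨n, by simp, ?_⟩
        rw [h]; simp
      · refine mem_image.mpr ⟨V.min' h, ?_, ?_⟩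
        · have := hVr _ (V.min'_mem h)
          exact mem_range.mpr (by omega)
        · ext y
          rw [mem_Ico]
          constructor
          · rintro ⟨h1, h2⟩
            rcases eq_or_lt_of_le h1 with h3 | h3
            · rw [← h3]; exact V.min'_mem h
            · by_contra h4
              exact absurd h3 (not_lt.mpr (hcon _ (V.min'_mem h) y h2 h4))
          · intro hy
            exact ⟨V.min'_le y hy, hVr y hy⟩
    obtain ⟨x, hx, y, hyn, hyV, hxy⟩ := hex
    refine sum_eq_zero fun L hL => sum_eq_zero fun R hR => ?_
    exact hF L R ⟨x, split_mem hL hx, y, split_mem hR (mem_sdiff.mpr ⟨mem_range.mpr hyn, hyV⟩), hxy⟩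

/-- The same with all letters of `L` smaller than those of `R`. -/
theorem sum_split_lt {M : Type*} [AddCommMonoid M] (n : ℕ) (F : List ℕ → M)
    (hF : ∀ L R : List ℕ, (∃ x ∈ L, ∃ y ∈ R, y < x) → F (L ++ n :: R) = 0) :
    ∑ l ∈ words (range (n + 1)), F l
      = ∑ i ∈ range (n + 1), ∑ L ∈ words (range i), ∑ R ∈ words (range (n - i)),
          F (L ++ n :: R.map (· + i)) := by
  classical
  rw [sum_words_split (range (n + 1)) n (by simp) F, split_erase]
  have hinj : Set.InjOn (fun r => range r) (range (n + 1) : Finset ℕ) := by
    intro a ha b hb hab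
    have := congrArg Finset.card hab
    simpa using this
  have hsub : (range (n + 1)).image (fun r => range r) ⊆ (range n).powerset := by
    intro V hV
    obtain ⟨r, hr, rfl⟩ := mem_image.mp hV
    rw [mem_powerset]
    intro x hx
    rw [mem_range] at hx hr ⊢
    omega
  rw [← sum_subset hsub]
  · rw [sum_image hinj]
    refine sum_congr rfl fun r hr => ?_
    have hr' : r ≤ n := by simpa [Nat.lt_succ_iff] using hr
    have h1 : range n \ range r = Ico r n := by
      ext x
      simp only [mem_sdiff, mem_range, mem_Ico]
      omega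
    refine sum_congr rfl fun L _ => ?_
    rw [h1, ← split_Ico_map r n hr', sum_words_map]
    rfl
  · intro V hV hVn
    have hVr : ∀ x ∈ V, x < n := fun x hx => mem_range.mp (mem_powerset.mp hV hx)
    have hex : ∃ x ∈ V, ∃ y, y < n ∧ y ∉ V ∧ y < x := by
      by_contra hcon
      push Not at hcon
      apply hVn
      rcases V.eq_empty_or_nonempty with h | h
      · refine mem_image.mpr ⟨0, by simp, ?_⟩
        rw [h]; simp
      · refine mem_image.mpr ⟨V.max' h + 1, ?_, ?_⟩
        · have := hVr _ (V.max'_mem h)
          exact mem_range.mpr (by omega)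
        · ext y
          rw [mem_range]
          constructor
          · intro h1
            rcases eq_or_lt_of_le (Nat.lt_succ_iff.mp h1) with h3 | h3
            · rw [h3]; exact V.max'_mem h
            · by_contra h4
              have h5 := hVr _ (V.max'_mem h)
              exact absurd h3 (not_lt.mpr (hcon _ (V.max'_mem h) y (by omega) h4))
          · intro hy
            exact Nat.lt_succ_iff.mpr (V.le_max' y hy)
    obtain ⟨x, hx, y, hyn, hyV, hxy⟩ := hex
    refine sum_eq_zero fun L hL => sum_eq_zero fun R hR => ?_
    exact hF L R ⟨x, split_mem hL hx, y, split_mem hR (mem_sdiff.mpr ⟨mem_range.mpr hyn, hyV⟩), hxy⟩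

end BD
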