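import Mathlib

/-!
Hypergeometric terms for the class Av(132): the function `t` in natural coordinates
and the bookkeeping lemmas used by the automatically generated inequalities in `T/`.
-/

namespace BD.T

/-- factorial as a rational number -/
def F (z : ℕ) : ℚ := (z.factorial : ℚ)

/-- inverse factorial as a rational number -/
def I (z : ℕ) : ℚ := 1 / (z.factorial : ℚ)

theorem F_pos (z : ℕ) : 0 < F z := by
  unfold F; exact_mod_cast Nat.factorial_pos z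

theorem I_pos (z : ℕ) : 0 < I z := by
  unfold I
  have : (0:ℚ) < (z.factorial : ℚ) := by exact_mod_cast Nat.factorial_pos z
  positivity

theorem F_succ (z : ℕ) : F (z + 1) = F z * ((z + 1 : ℕ) : ℚ) := by
  unfold F; rw [Nat.factorial_succ]; push_cast; ring

theorem I_succ (z : ℕ) : I (z + 1) * ((z + 1 : ℕ) : ℚ) = I z := by
  unfold I; rw [Nat.factorial_succ]
  have h : (z.factorial : ℚ) ≠ 0 := by exact_mod_cast Nat.factorial_ne_zero z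
  have h2 : ((z : ℚ) + 1) ≠ 0 := by positivity
  push_cast; field_simp

/-- `t w q p a o` is the hypergeometric term with `n-e-o'-2k+p = w`, `k-p = q`, `e-p = a`,
`o' = o+1`. -/
def t (w q p a o : ℕ) : ℚ :=
  F (a + q + p + o) * F (w + a + 2 * q + 2 * p + 2 * o + 1) * I (o + 1) * I p * I a * I q
    * I (a + 2 * q + 2 * p + 2 * o + 1) * I w

theorem t_pos (w q p a o : ℕ) : 0 < t w q p a o := by
  unfold t
  have h1 := F_pos (a + q + p + o)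
  have h2 := F_pos (w + a + 2 * q + 2 * p + 2 * o + 1)
  have h3 := I_pos (o + 1)
  have h4 := I_pos p
  have h5 := I_pos a
  have h6 := I_pos q
  have h7 := I_pos (a + 2 * q + 2 * p + 2 * o + 1)
  have h8 := I_pos w
  positivity

/-! slot lemmas: `f z' * d = f z * n` -/

theorem s0 (f : ℕ → ℚ) (z z' : ℕ) (h : z' = z) : f z' * ((1 : ℕ) : ℚ) = f z * ((1 : ℕ) : ℚ) := by
  rw [h]

theorem Fu1 (z z' n1 : ℕ) (h : z' = z + 1) (h1 : n1 = z + 1) :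
    F z' * ((1 : ℕ) : ℚ) = F z * ((n1 : ℕ) : ℚ) := by
  subst h; subst h1; rw [F_succ]; push_cast; ring

theorem Fu2 (z z' n1 n2 : ℕ) (h : z' = z + 2) (h1 : n1 = z + 1) (h2 : n2 = z + 2) :
    F z' * ((1 : ℕ) : ℚ) = F z * ((n1 * n2 : ℕ) : ℚ) := by
  subst h; subst h1; subst h2
  rw [show z + 2 = z + 1 + 1 from rfl, F_succ, F_succ]; push_cast; ring

theorem Fu3 (z z' n1 n2 n3 : ℕ) (h : z' = z + 3) (h1 : n1 = z + 1) (h2 : n2 = z + 2)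
    (h3 : n3 = z + 3) :
    F z' * ((1 : ℕ) : ℚ) = F z * ((n1 * n2 * n3 : ℕ) : ℚ) := by
  subst h; subst h1; subst h2; subst h3
  rw [show z + 3 = z + 1 + 1 + 1 from rfl, F_succ, F_succ, F_succ]; push_cast; ring

theorem Fu4 (z z' n1 n2 n3 n4 : ℕ) (h : z' = z + 4) (h1 : n1 = z + 1) (h2 : n2 = z + 2)
    (h3 : n3 = z + 3) (h4 : n4 = z + 4) :
    F z' * ((1 : ℕ) : ℚ) = F z * ((n1 * n2 * n3 * n4 : ℕ) : ℚ) := by
  subst h; subst h1; subst h2; subst h3; subst h4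
  rw [show z + 4 = z + 1 + 1 + 1 + 1 from rfl, F_succ, F_succ, F_succ, F_succ]; push_cast; ring

theorem Fd1 (z z' n1 : ℕ) (h : z = z' + 1) (h1 : n1 = z' + 1) :
    F z' * ((n1 : ℕ) : ℚ) = F z * ((1 : ℕ) : ℚ) := by
  rw [← Fu1 z' z n1 h h1]

theorem Fd2 (z z' n1 n2 : ℕ) (h : z = z' + 2) (h1 : n1 = z' + 1) (h2 : n2 = z' + 2) :
    F z' * ((n1 * n2 : ℕ) : ℚ) = F z * ((1 : ℕ) : ℚ) := by
  rw [← Fu2 z' z n1 n2 h h1 h2]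

theorem Fd3 (z z' n1 n2 n3 : ℕ) (h : z = z' + 3) (h1 : n1 = z' + 1) (h2 : n2 = z' + 2)
    (h3 : n3 = z' + 3) :
    F z' * ((n1 * n2 * n3 : ℕ) : ℚ) = F z * ((1 : ℕ) : ℚ) := by
  rw [← Fu3 z' z n1 n2 n3 h h1 h2 h3]

theorem Fd4 (z z' n1 n2 n3 n4 : ℕ) (h : z = z' + 4) (h1 : n1 = z' + 1) (h2 : n2 = z' + 2)
    (h3 : n3 = z' + 3) (h4 : n4 = z' + 4) :
    F z' * ((n1 * n2 * n3 * n4 : ℕ) : ℚ) = F z * ((1 : ℕ) : ℚ) := by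
  rw [← Fu4 z' z n1 n2 n3 n4 h h1 h2 h3 h4]

theorem Iu1 (z z' n1 : ℕ) (h : z' = z + 1) (h1 : n1 = z + 1) :
    I z' * ((n1 : ℕ) : ℚ) = I z * ((1 : ℕ) : ℚ) := by
  subst h; subst h1; rw [I_succ]; push_cast; ring

theorem Iu2 (z z' n1 n2 : ℕ) (h : z' = z + 2) (h1 : n1 = z + 1) (h2 : n2 = z + 2) :
    I z' * ((n1 * n2 : ℕ) : ℚ) = I z * ((1 : ℕ) : ℚ) := by
  subst h; subst h1; subst h2
  have a := I_succ z
  have b := I_succ (z + 1)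
  rw [← a, ← b]; push_cast; ring

theorem Iu3 (z z' n1 n2 n3 : ℕ) (h : z' = z + 3) (h1 : n1 = z + 1) (h2 : n2 = z + 2)
    (h3 : n3 = z + 3) :
    I z' * ((n1 * n2 * n3 : ℕ) : ℚ) = I z * ((1 : ℕ) : ℚ) := by
  subst h; subst h1; subst h2; subst h3
  have a := I_succ z
  have b := I_succ (z + 1)
  have c := I_succ (z + 2)
  rw [← a, ← b, ← c]; push_cast; ring

theorem Iu4 (z z' n1 n2 n3 n4 : ℕ) (h : z' = z + 4) (h1 : n1 = z + 1) (h2 : n2 = z + 2)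
    (h3 : n3 = z + 3) (h4 : n4 = z + 4) :
    I z' * ((n1 * n2 * n3 * n4 : ℕ) : ℚ) = I z * ((1 : ℕ) : ℚ) := by
  subst h; subst h1; subst h2; subst h3; subst h4
  have a := I_succ z
  have b := I_succ (z + 1)
  have c := I_succ (z + 2)
  have d := I_succ (z + 3)
  rw [← a, ← b, ← c, ← d]; push_cast; ring

theorem Id1 (z z' n1 : ℕ) (h : z = z' + 1) (h1 : n1 = z' + 1) :
    I z' * ((1 : ℕ) : ℚ) = I z * ((n1 : ℕ) : ℚ) := by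
  rw [Iu1 z' z n1 h h1]

theorem Id2 (z z' n1 n2 : ℕ) (h : z = z' + 2) (h1 : n1 = z' + 1) (h2 : n2 = z' + 2) :
    I z' * ((1 : ℕ) : ℚ) = I z * ((n1 * n2 : ℕ) : ℚ) := by
  rw [Iu2 z' z n1 n2 h h1 h2]

theorem Id3 (z z' n1 n2 n3 : ℕ) (h : z = z' + 3) (h1 : n1 = z' + 1) (h2 : n2 = z' + 2)
    (h3 : n3 = z' + 3) :
    I z' * ((1 : ℕ) : ℚ) = I z * ((n1 * n2 * n3 : ℕ) : ℚ) := by
  rw [Iu3 z' z n1 n2 n3 h h1 h2 h3]

theorem Id4 (z z' n1 n2 n3 n4 : ℕ) (h : z = z' + 4) (h1 : n1 = z' + 1) (h2 : n2 = z' + 2)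
    (h3 : n3 = z' + 3) (h4 : n4 = z' + 4) :
    I z' * ((1 : ℕ) : ℚ) = I z * ((n1 * n2 * n3 * n4 : ℕ) : ℚ) := by
  rw [Iu4 z' z n1 n2 n3 n4 h h1 h2 h3 h4]

theorem comb8 {u1 u2 u3 u4 u5 u6 u7 u8 x1 x2 x3 x4 x5 x6 x7 x8 : ℚ}
    {d1 d2 d3 d4 d5 d6 d7 d8 n1 n2 n3 n4 n5 n6 n7 n8 : ℕ}
    (s1 : u1 * (d1 : ℚ) = x1 * (n1 : ℚ)) (s2 : u2 * (d2 : ℚ) = x2 * (n2 : ℚ))
    (s3 : u3 * (d3 : ℚ) = x3 * (n3 : ℚ)) (s4 : u4 * (d4 : ℚ) = x4 * (n4 : ℚ))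
    (s5 : u5 * (d5 : ℚ) = x5 * (n5 : ℚ)) (s6 : u6 * (d6 : ℚ) = x6 * (n6 : ℚ))
    (s7 : u7 * (d7 : ℚ) = x7 * (n7 : ℚ)) (s8 : u8 * (d8 : ℚ) = x8 * (n8 : ℚ)) :
    (u1 * u2 * u3 * u4 * u5 * u6 * u7 * u8) * ((d1 * d2 * d3 * d4 * d5 * d6 * d7 * d8 : ℕ) : ℚ)
      = (x1 * x2 * x3 * x4 * x5 * x6 * x7 * x8)
        * ((n1 * n2 * n3 * n4 * n5 * n6 * n7 * n8 : ℕ) : ℚ) := by
  push_cast
  calc (u1 * u2 * u3 * u4 * u5 * u6 * u7 * u8)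
        * ((d1:ℚ) * d2 * d3 * d4 * d5 * d6 * d7 * d8)
      = (u1 * d1) * (u2 * d2) * (u3 * d3) * (u4 * d4) * (u5 * d5) * (u6 * d6) * (u7 * d7)
        * (u8 * d8) := by ring
    _ = (x1 * n1) * (x2 * n2) * (x3 * n3) * (x4 * n4) * (x5 * n5) * (x6 * n6) * (x7 * n7)
        * (x8 * n8) := by rw [s1, s2, s3, s4, s5, s6, s7, s8]
    _ = _ := by ring

theorem fin {t1 t2 t3 t4 : ℚ} {Da Na Db Nb : ℕ} (ha : t3 * (Da : ℚ) = t1 * (Na : ℚ))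
    (hb : t4 * (Db : ℚ) = t2 * (Nb : ℚ)) (h1 : 0 < t1) (h2 : 0 < t2)
    (hpos : 0 < Da * Db) (hle : Da * Db ≤ Na * Nb) : t1 * t2 ≤ t3 * t4 := by
  have hD : (0:ℚ) < (Da:ℚ) * (Db:ℚ) := by exact_mod_cast hpos
  have hl : (Da:ℚ) * (Db:ℚ) ≤ (Na:ℚ) * (Nb:ℚ) := by exact_mod_cast hle
  refine le_of_mul_le_mul_right ?_ hD
  calc t1 * t2 * ((Da:ℚ) * (Db:ℚ)) ≤ t1 * t2 * ((Na:ℚ) * (Nb:ℚ)) :=
        mul_le_mul_of_nonneg_left hl (by positivity)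
    _ = (t1 * Na) * (t2 * Nb) := by ring
    _ = (t3 * Da) * (t4 * Db) := by rw [ha, hb]
    _ = t3 * t4 * ((Da:ℚ) * (Db:ℚ)) := by ring

end BD.T
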