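import Pool.Agent.MP_8b309d_co.TDefs

/-!
Integer version `T n e o k p` of the hypergeometric term.
-/

namespace BD.T

open Classical in
/-- `T n e o k p` : the `p`-th term of the array `Â_{e,o}(n,k)`; it vanishes outside the
support `0 ≤ p ≤ e, k`, `1 ≤ o`, `0 ≤ n-e-o-2k+p`. -/
noncomputable def T (n e o k p : ℤ) : ℚ :=
  if 0 ≤ p ∧ p ≤ e ∧ p ≤ k ∧ 1 ≤ o ∧ 0 ≤ n - e - o - 2 * k + p then
    t (n - e - o - 2 * k + p).toNat (k - p).toNat p.toNat (e - p).toNat (o - 1).toNat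
  else 0

theorem T_eq {n e o k p : ℤ} {w q pp a oo : ℕ} (hw : n - e - o - 2 * k + p = (w : ℤ))
    (hq : k - p = (q : ℤ)) (hp : p = (pp : ℤ)) (ha : e - p = (a : ℤ)) (ho : o = (oo : ℤ) + 1) :
    T n e o k p = t w q pp a oo := by
  unfold T
  rw [if_pos (by omega)]
  have h1 : (n - e - o - 2 * k + p).toNat = w := by omega
  have h2 : (k - p).toNat = q := by omega
  have h3 : p.toNat = pp := by omega
  have h4 : (e - p).toNat = a := by omega
  have h5 : (o - 1).toNat = oo := by omega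
  rw [h1, h2, h3, h4, h5]

theorem T_nonneg (n e o k p : ℤ) : 0 ≤ T n e o k p := by
  unfold T
  split_ifs
  · exact (t_pos _ _ _ _ _).le
  · exact le_refl _

theorem T_pos {n e o k p : ℤ} (h0 : 0 ≤ p) (h1 : p ≤ e) (h2 : p ≤ k) (h3 : 1 ≤ o)
    (h4 : 0 ≤ n - e - o - 2 * k + p) : 0 < T n e o k p := by
  unfold T
  rw [if_pos ⟨h0, h1, h2, h3, h4⟩]
  exact t_pos _ _ _ _ _

theorem T_ne {n e o k p : ℤ} (h : T n e o k p ≠ 0) :
    0 ≤ p ∧ p ≤ e ∧ p ≤ k ∧ 1 ≤ o ∧ 0 ≤ n - e - o - 2 * k + p := by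
  by_contra hc
  apply h
  unfold T
  rw [if_neg hc]

/-- reduction to the case where both factors on the left are in the support -/
theorem T_red {n e1 o1 k1 p1 e2 o2 k2 p2 : ℤ} {X : ℚ} (hX : 0 ≤ X)
    (h : (0 ≤ p1 ∧ p1 ≤ e1 ∧ p1 ≤ k1 ∧ 1 ≤ o1 ∧ 0 ≤ n - e1 - o1 - 2 * k1 + p1) →
      (0 ≤ p2 ∧ p2 ≤ e2 ∧ p2 ≤ k2 ∧ 1 ≤ o2 ∧ 0 ≤ n - e2 - o2 - 2 * k2 + p2) →
      T n e1 o1 k1 p1 * T n e2 o2 k2 p2 ≤ X) :
    T n e1 o1 k1 p1 * T n e2 o2 k2 p2 ≤ X := by
  by_cases h1 : T n e1 o1 k1 p1 = 0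
  · rw [h1, zero_mul]; exact hX
  · by_cases h2 : T n e2 o2 k2 p2 = 0
    · rw [h2, mul_zero]; exact hX
    · exact h (T_ne h1) (T_ne h2)

/-- Assembly of the floor/ceil inequality from base cases and the two slope conditions. -/
theorem kl_assemble (f g h k : ℤ → ℚ) (lo hi : ℤ) (hlh : lo + 2 < hi)
    (hup : ∀ p q, p + hi ≤ q → f p * g q ≤ f (p + 1) * g (q - 1))
    (hdn : ∀ p q, q ≤ p + lo → f p * g q ≤ f (p - 1) * g (q + 1))
    (hbase : ∀ p q, lo < q - p → q - p < hi →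
      f p * g q ≤ h ((p + q) / 2) * k (p + q - (p + q) / 2)) :
    ∀ p q, f p * g q ≤ h ((p + q) / 2) * k (p + q - (p + q) / 2) := by
  have main : ∀ N : ℕ, ∀ p q : ℤ, (2 * (q - p) - (lo + hi)).natAbs ≤ N →
      f p * g q ≤ h ((p + q) / 2) * k (p + q - (p + q) / 2) := by
    intro N
    induction N with
    | zero =>
      intro p q hN
      exact hbase p q (by omega) (by omega)
    | succ N ih =>
      intro p q hN
      by_cases h1 : p + hi ≤ q
      · refine (hup p q h1).trans ?_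
        have h2 := ih (p + 1) (q - 1) (by omega)
        have e1 : p + 1 + (q - 1) = p + q := by ring
        rwa [e1] at h2
      · by_cases h2 : q ≤ p + lo
        · refine (hdn p q h2).trans ?_
          have h3 := ih (p - 1) (q + 1) (by omega)
          have e1 : p - 1 + (q + 1) = p + q := by ring
          rwa [e1] at h3
        · exact hbase p q (by omega) (by omega)
  intro p q
  exact main _ p q (le_refl _)

end BD.T
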